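import Pool.Agent.Lib.MP_6b2d39_ag.AlgoB

open Polynomial

namespace Pool.Agent.Lib.MP_6b2d39_ag

/-- loss in one row (number of `c ∈ [1, M-1]` with `n + c (M-1) ≤ M^2`) -/
def omA (M n : ℕ) : ℕ := ((Finset.Icc 1 (M - 1)).filter (fun c => n + c * (M - 1) ≤ M ^ 2)).card

/-- total loss -/
def OmA (M n : ℕ) : ℕ := ∑ c ∈ Finset.Icc 1 (M - 1), min n (M ^ 2 - c * (M - 1))

theorem OmA_succ (M n : ℕ) : OmA M (n + 1) = OmA M n + omA M (n + 1) := by
  unfold OmA omA
  rw [Finset.card_filter, ← Finset.sum_add_distrib]
  apply Finset.sum_congr rfl
  intro c _
  split_ifs with h <;> omega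

theorem le_omA {M n o : ℕ} (h : o * (M - 1) + n ≤ M ^ 2) (h2 : o + 1 ≤ M) : o ≤ omA M n := by
  unfold omA
  calc o = (Finset.Icc 1 o).card := by simp
    _ ≤ _ := by
      apply Finset.card_le_card
      intro c hc
      rw [Finset.mem_Icc] at hc
      rw [Finset.mem_filter, Finset.mem_Icc]
      refine ⟨by omega, ?_⟩
      have : c * (M - 1) ≤ o * (M - 1) := Nat.mul_le_mul_right _ hc.2
      omega

variable {k : Type} [Field k] [Infinite k] {ι : Type} [DecidableEq ι] [Fintype ι]

theorem algoA (M : ℕ) (hM1 : 1 ≤ M) : ∀ (n : ℕ) (S : ι → Finset ℕ) (old Z : Finset ι),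
    Disjoint old Z → (∀ i ∈ Z, S i = {1}) →
    (∀ i, i ∉ old → ∃ m, S i = Finset.Icc 1 m) → (∀ i, S i ⊆ Finset.Icc 1 M) →
    (n + 1).choose 2 ≤ ∑ i, tot (S i) →
    ((∃ j, j ∉ old ∧ j ∉ Z ∧ (S j).Nonempty) → OmA M n ≤ Z.card) →
    ∑ i ∈ old, mx (S i) ≤ n → Good k n S old := by
  intro n
  induction n with
  | zero => intro S old _ _ _ _ _ _ _ _; exact good_zero S old
  | succ n ih =>
    intro S old Z hZd hZ1 hfat hM htot hOm hF
    have hch : (n + 1 + 1).choose 2 = (n + 1).choose 2 + (n + 1) := by
      rw [Nat.choose_succ_succ' (n + 1) 1, Nat.choose_one_right]; ring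
    have hch2 : 2 * (n + 1 + 1).choose 2 = (n + 1) * (n + 2) := by
      have := Nat.choose_two_right (n + 2)
      have h2 : Even ((n + 2) * (n + 2 - 1)) := Nat.even_mul_pred_self (n + 2)
      obtain ⟨r, hr⟩ := h2
      have h3 : n + 2 - 1 = n + 1 := rfl
      rw [h3] at hr this
      have h4 : (n + 1 + 1).choose 2 = r := by
        rw [show n + 1 + 1 = n + 2 from rfl, this, hr]; omega
      rw [h4]
      nlinarith
    have hmx1 : mx ({1} : Finset ℕ) = 1 := rfl
    have htot1 : tot ({1} : Finset ℕ) = 1 := rfl
    obtain ⟨P, hPsub, hPsum, hPmax⟩ := exists_fill ((old ∪ Z)ᶜ) (fun i => mx (S i))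
      (n + 1 - ∑ i ∈ old, mx (S i))
    have hPsub' : ∀ i ∈ P, i ∉ old ∧ i ∉ Z := by
      intro i hi
      have := hPsub hi
      rw [Finset.mem_compl, Finset.mem_union, not_or] at this
      exact this
    have hdisj : Disjoint old P := by
      rw [Finset.disjoint_left]
      intro i hi hi2
      exact (hPsub' i hi2).1 hi
    set old1 := old ∪ P with hold1
    have hF1 : ∑ i ∈ old1, mx (S i) = ∑ i ∈ old, mx (S i) + ∑ i ∈ P, mx (S i) :=
      Finset.sum_union hdisj
    have hsub1 : old ⊆ old1 := Finset.subset_union_left
    have hZd1 : Disjoint old1 Z := by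
      rw [Finset.disjoint_left] at hZd ⊢
      intro i hi
      rw [hold1, Finset.mem_union] at hi
      rcases hi with hi | hi
      · exact hZd hi
      · exact (hPsub' i hi).2
    have hmxE := sum_mx_erase_le hM old1
    have hmxle := sum_mx_le hM old1
    rcases Nat.lt_or_ge (∑ i ∈ old1, mx (S i)) (n + 1) with hlt1 | hge1
    · -- a gap remains
      obtain ⟨c, hc⟩ : ∃ c, c = n + 1 - ∑ i ∈ old1, mx (S i) := ⟨_, rfl⟩
      have hc1 : 1 ≤ c := by omega
      -- filling the gap by `c` simple points
      have useZ : c ≤ Z.card →
          ((∃ j, j ∉ old1 ∧ j ∉ Z ∧ (S j).Nonempty) → OmA M n + c ≤ Z.card) →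
          Good k (n + 1) S old := by
        intro hcZ hOmZ
        obtain ⟨Z1, hZ1sub, hZ1card⟩ := Finset.exists_subset_card_eq hcZ
        have hd2 : Disjoint old1 Z1 := Finset.disjoint_of_subset_right hZ1sub hZd1
        set old2 := old1 ∪ Z1 with hold2
        have hsumZ1 : ∑ i ∈ Z1, mx (S i) = c := by
          rw [Finset.sum_congr rfl (fun i hi => by rw [hZ1 i (hZ1sub hi), hmx1])]
          simp [hZ1card]
        have hF2 : ∑ i ∈ old2, mx (S i) = n + 1 := by
          rw [hold2, Finset.sum_union hd2, hsumZ1]; omega
        have hsub2 : old ⊆ old2 := hsub1.trans Finset.subset_union_left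
        apply good_mono hsub2
        apply good_plain (S' := stepS S old2)
        · apply ih (stepS S old2) old2 (Z \ Z1)
          · rw [Finset.disjoint_left]
            intro i hi hi2
            rw [Finset.mem_sdiff] at hi2
            rw [hold2, Finset.mem_union] at hi
            rcases hi with hi | hi
            · exact (Finset.disjoint_left.1 hZd1 hi) hi2.1
            · exact hi2.2 hi
          · intro i hi
            rw [Finset.mem_sdiff] at hi
            rw [stepS_not_mem, hZ1 i hi.1]
            rw [hold2, Finset.mem_union, not_or]
            exact ⟨fun h => (Finset.disjoint_left.1 hZd1 h) hi.1, hi.2⟩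
          · intro i hi
            obtain ⟨m', hm'⟩ := hfat i (fun h => hi (hsub2 h))
            exact ⟨m', by rw [stepS_not_mem hi, hm']⟩
          · intro i
            exact (stepS_subset i).trans (hM i)
          · have h1 := sum_tot_stepS S old2 Finset.univ (Finset.subset_univ _)
            omega
          · rintro ⟨j, hj1, hj2, hj3⟩
            have hj1' : j ∉ old1 ∧ j ∉ Z1 := by
              rw [hold2, Finset.mem_union, not_or] at hj1
              exact hj1
            have hj2' : j ∉ Z := by
              intro h
              exact hj2 (Finset.mem_sdiff.2 ⟨h, hj1'.2⟩)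
            have h3 := hOmZ ⟨j, hj1'.1, hj2', by rwa [stepS_not_mem hj1] at hj3⟩
            rw [Finset.card_sdiff_of_subset hZ1sub]
            omega
          · have h1 : ∑ i ∈ old2, mx (stepS S old2 i) =
                ∑ i ∈ old2, mx ((S i).erase (mx (S i))) := by
              apply Finset.sum_congr rfl
              intro i hi
              rw [stepS_mem hi]
            have h2 : 1 ≤ act S old2 := act_pos (by omega)
            have h3 := sum_mx_erase_le hM old2
            omega
        · intro i hi; exact stepS_mem hi
        · intro i hi; exact stepS_not_mem hi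
        · omega
      by_cases hj : ∃ j, j ∉ old1 ∧ j ∉ Z ∧ (S j).Nonempty
      · obtain ⟨j, hj1, hjZ, hj2⟩ := hj
        have hjold : j ∉ old := fun h => hj1 (hsub1 h)
        have hOm' := hOm ⟨j, hjold, hjZ, hj2⟩
        rw [OmA_succ] at hOm'
        obtain ⟨m, hm⟩ := hfat j hjold
        have hjP : j ∈ (old ∪ Z)ᶜ \ P := by
          rw [Finset.mem_sdiff, Finset.mem_compl, Finset.mem_union, not_or]
          exact ⟨⟨hjold, hjZ⟩, fun h => hj1 (Finset.mem_union_right _ h)⟩
        have hgap := hPmax j hjP
        have hmj : mx (S j) = m := by rw [hm, mx_Icc]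
        have hmM : m ≤ M := by rw [← hmj]; exact mx_le_of_subset (hM j)
        have hcm : c < m := by omega
        have hcS : c ∈ S j := by rw [hm, Finset.mem_Icc]; omega
        by_cases hac : m + 1 ≤ act S old1 + c
        · -- differential step
          let S' : ι → Finset ℕ := fun i => if i = j then (S j).erase c else stepS S old1 i
          have hS'j : S' j = (S j).erase c := if_pos rfl
          have hS'i : ∀ i, i ≠ j → S' i = stepS S old1 i := fun i hi => if_neg hi
          have hS'sub : ∀ i, S' i ⊆ S i := by
            intro i
            by_cases hij : i = j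
            · rw [hij, hS'j]; exact Finset.erase_subset _ _
            · rw [hS'i i hij]; exact stepS_subset i
          apply good_mono hsub1
          apply good_diff hj1 hcS (S' := S')
          · apply ih S' (insert j old1) Z
            · rw [Finset.disjoint_left] at hZd1 ⊢
              intro i hi
              rw [Finset.mem_insert] at hi
              rcases hi with rfl | hi
              · exact hjZ
              · exact hZd1 hi
            · intro i hi
              have h1 : i ≠ j := fun e => hjZ (e ▸ hi)
              have h2 : i ∉ old1 := fun h => (Finset.disjoint_left.1 hZd1 h) hi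
              rw [hS'i i h1, stepS_not_mem h2, hZ1 i hi]
            · intro i hi
              rw [Finset.mem_insert, not_or] at hi
              obtain ⟨m', hm'⟩ := hfat i (fun h => hi.2 (hsub1 h))
              exact ⟨m', by rw [hS'i i hi.1, stepS_not_mem hi.2, hm']⟩
            · intro i
              exact (hS'sub i).trans (hM i)
            · have h1 := sum_tot_stepS S old1 Finset.univ (Finset.subset_univ _)
              have h2 : ∑ i, tot (S' i) + c = ∑ i, tot (stepS S old1 i) := by
                rw [← Finset.add_sum_erase _ _ (Finset.mem_univ j),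
                  ← Finset.add_sum_erase _ (fun i => tot (stepS S old1 i)) (Finset.mem_univ j),
                  hS'j, stepS_not_mem hj1, ← tot_erase hcS]
                have h3 : ∑ x ∈ Finset.univ.erase j, tot (S' x) =
                    ∑ x ∈ Finset.univ.erase j, tot (stepS S old1 x) := by
                  apply Finset.sum_congr rfl
                  intro i hi
                  rw [hS'i i (Finset.ne_of_mem_erase hi)]
                rw [h3]; ring
              omega
            · intro _
              omega
            · have h1 : ∑ i ∈ insert j old1, mx (S' i) =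
                  m + ∑ i ∈ old1, mx ((S i).erase (mx (S i))) := by
                rw [Finset.sum_insert hj1, hS'j, hm, mx_Icc_erase hcm]
                congr 1
                apply Finset.sum_congr rfl
                intro i hi
                rw [hS'i i (fun e => hj1 (e ▸ hi)), stepS_mem hi]
              rw [h1]
              omega
          · intro i hi
            rw [hS'i i (fun e => hj1 (e ▸ hi)), stepS_mem hi]
          · exact hS'j
          · intro i hi
            rw [Finset.mem_insert, not_or] at hi
            rw [hS'i i hi.1, stepS_not_mem hi.2]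
          · omega
        · -- too few active points: use simple points
          have hcom : c ≤ omA M (n + 1) := by
            apply le_omA
            · set a := act S old1 with ha
              have h10 : n + 1 ≤ a * M + c := by omega
              have h11 : a + c ≤ M := by omega
              have h12 : a * M ≤ (M - c) * M := Nat.mul_le_mul_right _ (by omega)
              obtain ⟨d, hd⟩ : ∃ d, M = c + d := ⟨M - c, by omega⟩
              obtain ⟨c', rfl⟩ : ∃ c', c = c' + 1 := ⟨c - 1, by omega⟩
              have h13 : M - 1 = c' + d := by omega
              have h14 : M - (c' + 1) = d := by omega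
              rw [h13]
              rw [h14] at h12
              rw [hd] at h12 h10 ⊢
              nlinarith
            · omega
          apply useZ
          · omega
          · intro _
            omega
      · -- all points are used
        apply useZ
        · have h1 : ∑ i, tot (S i) = ∑ i ∈ old1, tot (S i) + Z.card := by
            have h2 : ∑ i ∈ old1 ∪ Z, tot (S i) = ∑ i, tot (S i) := by
              apply Finset.sum_subset (Finset.subset_univ _)
              intro i _ hi
              rw [Finset.mem_union, not_or] at hi
              have h3 : ¬ (S i).Nonempty := fun h => hj ⟨i, hi.1, hi.2, h⟩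
              rw [Finset.not_nonempty_iff_eq_empty] at h3
              rw [h3, tot_empty]
            rw [← h2, Finset.sum_union hZd1]
            congr 1
            rw [Finset.sum_congr rfl (fun i hi => by rw [hZ1 i hi, htot1])]
            simp
          have h2 := two_mul_sum_tot_le S old1
          obtain ⟨F1, hF1e⟩ : ∃ F1, F1 = ∑ i ∈ old1, mx (S i) := ⟨_, rfl⟩
          rw [← hF1e] at h2 hc hlt1
          have h3 : F1 + c = n + 1 := by omega
          by_contra hcon
          have h4 : Z.card < c := by omega
          rw [h1] at htot
          -- 2*C(n+2,2) ≤ F1(F1+1) + 2 card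
          have h5 : (n + 1) * (n + 2) ≤ F1 * (F1 + 1) + 2 * Z.card := by omega
          have h6 : F1 = n + 1 - c := by omega
          obtain ⟨c', rfl⟩ : ∃ c', c = c' + 1 := ⟨c - 1, by omega⟩
          have h7 : n = F1 + c' := by omega
          subst h7
          nlinarith
        · intro h
          exact absurd h hj
    · -- the row is exactly full
      have hEq : ∑ i ∈ old1, mx (S i) = n + 1 := by omega
      apply good_mono hsub1
      apply good_plain (S' := stepS S old1)
      · apply ih (stepS S old1) old1 Z hZd1
        · intro i hi
          have h2 : i ∉ old1 := fun h => (Finset.disjoint_left.1 hZd1 h) hi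
          rw [stepS_not_mem h2, hZ1 i hi]
        · intro i hi
          obtain ⟨m', hm'⟩ := hfat i (fun h => hi (hsub1 h))
          exact ⟨m', by rw [stepS_not_mem hi, hm']⟩
        · intro i
          exact (stepS_subset i).trans (hM i)
        · have h1 := sum_tot_stepS S old1 Finset.univ (Finset.subset_univ _)
          omega
        · rintro ⟨j, hj1, hj2, hj3⟩
          rw [stepS_not_mem hj1] at hj3
          have h3 := hOm ⟨j, fun h => hj1 (hsub1 h), hj2, hj3⟩
          rw [OmA_succ] at h3
          omega
        · have h1 : ∑ i ∈ old1, mx (stepS S old1 i) =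
              ∑ i ∈ old1, mx ((S i).erase (mx (S i))) := by
            apply Finset.sum_congr rfl
            intro i hi
            rw [stepS_mem hi]
          have h2 : 1 ≤ act S old1 := act_pos (by omega)
          omega
      · intro i hi; exact stepS_mem hi
      · intro i hi; exact stepS_not_mem hi
      · omega

end Pool.Agent.Lib.MP_6b2d39_ag
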