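import Pool.Agent.Lib.MP_6b2d39_ag.Combi

open Polynomial

namespace Pool.Agent.Lib.MP_6b2d39_ag

/-- loss in one row (number of `c ∈ [1, M-1]` with `n + c M ≤ M^2`) -/
def omB (M n : ℕ) : ℕ := ((Finset.Icc 1 (M - 1)).filter (fun c => n + c * M ≤ M ^ 2)).card

/-- total loss -/
def OmB (M n : ℕ) : ℕ := ∑ c ∈ Finset.Icc 1 (M - 1), min n (M ^ 2 - c * M)

theorem OmB_succ (M n : ℕ) : OmB M (n + 1) = OmB M n + omB M (n + 1) := by
  unfold OmB omB
  rw [Finset.card_filter, ← Finset.sum_add_distrib]
  apply Finset.sum_congr rfl
  intro c _
  split_ifs with h <;> omega

theorem omB_anti (M n : ℕ) : omB M (n + 1) ≤ omB M n := by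
  unfold omB
  apply Finset.card_le_card
  intro c hc
  rw [Finset.mem_filter] at hc ⊢
  exact ⟨hc.1, by omega⟩

theorem le_omB {M n o : ℕ} (h : o * M + n ≤ M ^ 2) (h2 : o + 1 ≤ M) : o ≤ omB M n := by
  unfold omB
  calc o = (Finset.Icc 1 o).card := by simp
    _ ≤ _ := by
      apply Finset.card_le_card
      intro c hc
      rw [Finset.mem_Icc] at hc
      rw [Finset.mem_filter, Finset.mem_Icc]
      refine ⟨by omega, ?_⟩
      have : c * M ≤ o * M := Nat.mul_le_mul_right _ hc.2
      omega

variable {k : Type} [Field k] [Infinite k] {ι : Type} [DecidableEq ι] [Fintype ι]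

theorem algoB (M : ℕ) : ∀ (n : ℕ) (S : ι → Finset ℕ) (old : Finset ι),
    (∀ i, i ∉ old → ∃ m, S i = Finset.Icc 1 m) → (∀ i, S i ⊆ Finset.Icc 1 M) →
    (n + 1).choose 2 + OmB M n ≤ ∑ i, tot (S i) →
    (1 ≤ n → ∑ i ∈ old, mx (S i) ≤ n + omB M n) → Good k n S old := by
  intro n
  induction n with
  | zero => intro S old _ _ _ _; exact good_zero S old
  | succ n ih =>
    intro S old hfat hM htot hF
    have hch : (n + 1 + 1).choose 2 = (n + 1).choose 2 + (n + 1) := by
      rw [Nat.choose_succ_succ' (n + 1) 1, Nat.choose_one_right]; ring
    have hch2 : 2 * (n + 1 + 1).choose 2 = (n + 1) * (n + 2) := by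
      have := Nat.choose_two_right (n + 2)
      have h2 : Even ((n + 2) * (n + 2 - 1)) := Nat.even_mul_pred_self (n + 2)
      obtain ⟨r, hr⟩ := h2
      have h3 : n + 2 - 1 = n + 1 := rfl
      rw [h3] at hr this
      have h4 : (n + 1 + 1).choose 2 = r := by
        rw [show n + 1 + 1 = n + 2 from rfl, this, hr]; omega
      rw [h4]
      nlinarith
    rw [OmB_succ] at htot
    replace hF := hF (by omega)
    have hanti := omB_anti M n
    rcases Nat.lt_or_ge (∑ i ∈ old, mx (S i)) (n + 1) with hlt | hge
    · -- there is room on the line
      obtain ⟨P, hPsub, hPsum, hPmax⟩ := exists_fill (oldᶜ) (fun i => mx (S i))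
        (n + 1 - ∑ i ∈ old, mx (S i))
      have hdisj : Disjoint old P := by
        rw [Finset.disjoint_left]
        intro i hi hi2
        exact (Finset.mem_compl.1 (hPsub hi2)) hi
      set old1 := old ∪ P with hold1
      have hF1 : ∑ i ∈ old1, mx (S i) = ∑ i ∈ old, mx (S i) + ∑ i ∈ P, mx (S i) :=
        Finset.sum_union hdisj
      have hsub1 : old ⊆ old1 := Finset.subset_union_left
      have hmxE := sum_mx_erase_le hM old1
      have hmxle := sum_mx_le hM old1
      rcases Nat.lt_or_ge (∑ i ∈ old1, mx (S i)) (n + 1) with hlt1 | hge1
      · -- a gap remains: differential step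
        have hj : ∃ j, j ∉ old1 ∧ (S j).Nonempty := by
          by_contra hcon
          push Not at hcon
          have h1 : ∑ i, tot (S i) = ∑ i ∈ old1, tot (S i) := by
            symm
            apply Finset.sum_subset (Finset.subset_univ _)
            intro i _ hi
            have h2 := hcon i hi
            rw [h2, tot_empty]
          have h2 := two_mul_sum_tot_le S old1
          rw [← h1] at h2
          have h3 : (∑ i ∈ old1, mx (S i)) * (∑ i ∈ old1, mx (S i) + 1) ≤ n * (n + 1) :=
            Nat.mul_le_mul (by omega) (by omega)
          nlinarith
        obtain ⟨j, hj1, hj2⟩ := hj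
        have hjold : j ∉ old := fun h => hj1 (hsub1 h)
        obtain ⟨m, hm⟩ := hfat j hjold
        have hjP : j ∈ oldᶜ \ P := by
          rw [Finset.mem_sdiff, Finset.mem_compl]
          exact ⟨hjold, fun h => hj1 (Finset.mem_union_right _ h)⟩
        have hgap := hPmax j hjP
        have hmj : mx (S j) = m := by rw [hm, mx_Icc]
        have hmM : m ≤ M := by rw [← hmj]; exact mx_le_of_subset (hM j)
        obtain ⟨c, hc⟩ : ∃ c, c = n + 1 - ∑ i ∈ old1, mx (S i) := ⟨_, rfl⟩
        have hc1 : 1 ≤ c := by omega
        have hcm : c < m := by omega
        have hcS : c ∈ S j := by rw [hm, Finset.mem_Icc]; omega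
        let S' : ι → Finset ℕ := fun i => if i = j then (S j).erase c else stepS S old1 i
        have hS'j : S' j = (S j).erase c := if_pos rfl
        have hS'i : ∀ i, i ≠ j → S' i = stepS S old1 i := fun i hi => if_neg hi
        have hS'sub : ∀ i, S' i ⊆ S i := by
          intro i
          by_cases hij : i = j
          · rw [hij, hS'j]; exact Finset.erase_subset _ _
          · rw [hS'i i hij]; exact stepS_subset i
        apply good_mono hsub1
        apply good_diff hj1 hcS (S' := S')
        · apply ih
          · intro i hi
            rw [Finset.mem_insert, not_or] at hi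
            obtain ⟨m', hm'⟩ := hfat i (fun h => hi.2 (hsub1 h))
            exact ⟨m', by rw [hS'i i hi.1, stepS_not_mem hi.2, hm']⟩
          · intro i
            exact (hS'sub i).trans (hM i)
          · have h1 := sum_tot_stepS S old1 Finset.univ (Finset.subset_univ _)
            have h2 : ∑ i, tot (S' i) + c = ∑ i, tot (stepS S old1 i) := by
              rw [← Finset.add_sum_erase _ _ (Finset.mem_univ j),
                ← Finset.add_sum_erase _ (fun i => tot (stepS S old1 i)) (Finset.mem_univ j),
                hS'j, stepS_not_mem hj1, ← tot_erase hcS]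
              have h3 : ∑ x ∈ Finset.univ.erase j, tot (S' x) =
                  ∑ x ∈ Finset.univ.erase j, tot (stepS S old1 x) := by
                apply Finset.sum_congr rfl
                intro i hi
                rw [hS'i i (Finset.ne_of_mem_erase hi)]
              rw [h3]; ring
            omega
          · intro hn1
            have h1 : ∑ i ∈ insert j old1, mx (S' i) =
                m + ∑ i ∈ old1, mx ((S i).erase (mx (S i))) := by
              rw [Finset.sum_insert hj1, hS'j, hm, mx_Icc_erase hcm]
              congr 1
              apply Finset.sum_congr rfl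
              intro i hi
              rw [hS'i i (fun e => hj1 (e ▸ hi)), stepS_mem hi]
            rw [h1]
            set a := act S old1 with ha
            set E := ∑ i ∈ old1, mx ((S i).erase (mx (S i))) with hE
            set F1 := ∑ i ∈ old1, mx (S i) with hF1'
            rcases Nat.lt_or_ge n (m + E) with h5 | h5
            · obtain ⟨o, ho⟩ : ∃ o, m + E = n + o := ⟨m + E - n, by omega⟩
              rw [ho]
              have h6 : o + a + c ≤ m + 1 := by omega
              have h7 : o ≤ omB M n := by
                apply le_omB
                · have h8 : (o + a + c) * M ≤ (M + 1) * M := Nat.mul_le_mul_right _ (by omega)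
                  have h9 : 1 ≤ M := by omega
                  have h10 : n + 1 ≤ a * M + c := by omega
                  obtain ⟨c', rfl⟩ : ∃ c', c = c' + 1 := ⟨c - 1, by omega⟩
                  obtain ⟨M', rfl⟩ : ∃ M', M = M' + 1 := ⟨M - 1, by omega⟩
                  nlinarith [Nat.zero_le (c' * M')]
                · by_cases ha0 : a = 0
                  · -- then F1 = 0 and c = n + 1
                    have : F1 ≤ 0 := by rw [ha0] at hmxle; omega
                    have hE0 : E = 0 := by omega
                    omega
                  · omega
              omega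
            · omega
        · intro i hi
          rw [hS'i i (fun e => hj1 (e ▸ hi)), stepS_mem hi]
        · exact hS'j
        · intro i hi
          rw [Finset.mem_insert, not_or] at hi
          rw [hS'i i hi.1, stepS_not_mem hi.2]
        · omega
      · -- the row is exactly full
        have hEq : ∑ i ∈ old1, mx (S i) = n + 1 := by omega
        apply good_mono hsub1
        apply good_plain (S' := stepS S old1)
        · apply ih
          · intro i hi
            obtain ⟨m', hm'⟩ := hfat i (fun h => hi (hsub1 h))
            exact ⟨m', by rw [stepS_not_mem hi, hm']⟩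
          · intro i
            exact (stepS_subset i).trans (hM i)
          · have h1 := sum_tot_stepS S old1 Finset.univ (Finset.subset_univ _)
            omega
          · intro hn1
            have h1 : ∑ i ∈ old1, mx (stepS S old1 i) =
                ∑ i ∈ old1, mx ((S i).erase (mx (S i))) := by
              apply Finset.sum_congr rfl
              intro i hi
              rw [stepS_mem hi]
            have h2 : 1 ≤ act S old1 := act_pos (by omega)
            omega
        · intro i hi; exact stepS_mem hi
        · intro i hi; exact stepS_not_mem hi
        · omega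
    · -- the row is already full
      apply good_plain (S' := stepS S old)
      · apply ih
        · intro i hi
          obtain ⟨m', hm'⟩ := hfat i hi
          exact ⟨m', by rw [stepS_not_mem hi, hm']⟩
        · intro i
          exact (stepS_subset i).trans (hM i)
        · have h1 := sum_tot_stepS S old Finset.univ (Finset.subset_univ _)
          omega
        · intro hn1
          have h1 : ∑ i ∈ old, mx (stepS S old i) =
              ∑ i ∈ old, mx ((S i).erase (mx (S i))) := by
            apply Finset.sum_congr rfl
            intro i hi
            rw [stepS_mem hi]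
          have h2 : 1 ≤ act S old := act_pos (by omega)
          have h3 := sum_mx_erase_le hM old
          omega
      · intro i hi; exact stepS_mem hi
      · intro i hi; exact stepS_not_mem hi
      · omega

end Pool.Agent.Lib.MP_6b2d39_ag
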