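import Mathlib

/-!
Bivariate polynomials `f : R[X][X]`: the outer variable is `x`, the inner one is `y`.
-/

open Polynomial

namespace Pool.Agent.Lib.MP_6b2d39_ag

/-- Number of elements of `S` above `a`. -/
def colH (S : Finset ℕ) (a : ℕ) : ℕ := (S.filter (fun s => a < s)).card

/-- Largest element (0 for the empty set). -/
def mx (S : Finset ℕ) : ℕ := S.sup id

theorem le_mx {S : Finset ℕ} {s : ℕ} (h : s ∈ S) : s ≤ mx S := Finset.le_sup (f := id) h

theorem mx_mem {S : Finset ℕ} (h : S.Nonempty) : mx S ∈ S := by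
  obtain ⟨s, hs, h⟩ := Finset.exists_mem_eq_sup S h id
  rw [mx, h]; exact hs

theorem colH_pos {S : Finset ℕ} {a : ℕ} (h : a < mx S) : 1 ≤ colH S a := by
  have hS : S.Nonempty := by
    rw [Finset.nonempty_iff_ne_empty]
    rintro rfl
    simp [mx] at h
  exact Finset.card_pos.2 ⟨mx S, Finset.mem_filter.2 ⟨mx_mem hS, h⟩⟩

theorem colH_erase_lt {S : Finset ℕ} {r a : ℕ} (hr : r ∈ S) (h : a < r) :
    colH (S.erase r) a + 1 = colH S a := by
  unfold colH
  rw [Finset.filter_erase]
  exact Finset.card_erase_add_one (Finset.mem_filter.2 ⟨hr, h⟩)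

theorem colH_erase_ge {S : Finset ℕ} {r a : ℕ} (h : r ≤ a) :
    colH (S.erase r) a = colH S a := by
  unfold colH
  rw [Finset.filter_erase, Finset.erase_eq_of_notMem]
  simp; omega

theorem colH_zero {S : Finset ℕ} {a : ℕ} (h : mx S ≤ a) : colH S a = 0 := by
  unfold colH
  rw [Finset.card_eq_zero, Finset.filter_eq_empty_iff]
  intro s hs
  have := le_mx hs
  omega

/-- removing the largest element lowers every nonzero column by one -/
theorem colH_erase_mx (S : Finset ℕ) (a : ℕ) : colH (S.erase (mx S)) a + 1 = colH S a ∨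
    (colH (S.erase (mx S)) a = 0 ∧ colH S a = 0) := by
  rcases Nat.lt_or_ge a (mx S) with h | h
  · left
    refine colH_erase_lt (mx_mem ?_) h
    rw [Finset.nonempty_iff_ne_empty]
    rintro rfl
    simp [mx] at h
  · right
    refine ⟨?_, colH_zero h⟩
    rw [colH_erase_ge h, colH_zero h]

theorem colH_mono {S : Finset ℕ} {a b : ℕ} (h : a ≤ b) : colH S b ≤ colH S a := by
  unfold colH
  apply Finset.card_le_card
  intro s hs
  rw [Finset.mem_filter] at hs ⊢
  exact ⟨hs.1, by omega⟩

section ring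

variable {R : Type*} [CommRing R]

/-- Vanishing condition of shape `S` at the point `(x, y)`. -/
def Cond (S : Finset ℕ) (x y : R) (f : R[X][X]) : Prop :=
  ∀ a, (X - C y) ^ (colH S a) ∣ (taylor (C x) f).coeff a

/-- total degree `< n` -/
def InV (n : ℕ) (f : R[X][X]) : Prop := ∀ a b, n ≤ a + b → (f.coeff a).coeff b = 0

theorem InV_zero {f : R[X][X]} (h : InV 0 f) : f = 0 := by
  ext a b
  simpa using h a b (by omega)

/-- restriction to `y = 0` -/
abbrev ev0 (R : Type*) [CommRing R] : R[X] →+* R := evalRingHom 0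

theorem Cond.map {R' : Type*} [CommRing R'] (φ : R →+* R') {S : Finset ℕ} {x y : R} {f : R[X][X]}
    (h : Cond S x y f) : Cond S (φ x) (φ y) (f.map (mapRingHom φ)) := by
  intro a
  obtain ⟨q, hq⟩ := h a
  refine ⟨q.map φ, ?_⟩
  have : taylor (C (φ x)) (f.map (mapRingHom φ)) = (taylor (C x) f).map (mapRingHom φ) := by
    rw [map_taylor]; simp
  rw [this, coeff_map, hq]
  simp [Polynomial.map_mul, Polynomial.map_pow]

theorem InV.map {R' : Type*} [CommRing R'] (φ : R →+* R') {n : ℕ} {f : R[X][X]}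
    (h : InV n f) : InV n (f.map (mapRingHom φ)) := by
  intro a b hab
  rw [coeff_map, coe_mapRingHom, coeff_map, h a b hab, map_zero]

theorem coeff_taylor_ev0 (x : R) (f : R[X][X]) (a : ℕ) :
    (taylor x (f.map (ev0 R))).coeff a = ((taylor (C x) f).coeff a).eval 0 := by
  have : taylor x (f.map (ev0 R)) = (taylor (C x) f).map (ev0 R) := by
    rw [map_taylor]; simp
  rw [this, coeff_map]; rfl

theorem coeff_ev0 (f : R[X][X]) (a : ℕ) : (f.map (ev0 R)).coeff a = (f.coeff a).coeff 0 := by
  rw [coeff_map, coeff_zero_eq_eval_zero]; rfl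

/-- if the restriction to `y = 0` vanishes, `f` is divisible by `y` -/
theorem exists_eq_y_mul {f : R[X][X]} (h : f.map (ev0 R) = 0) : ∃ g : R[X][X], f = C X * g := by
  have : (C X : R[X][X]) ∣ f := by
    rw [C_dvd_iff_dvd_coeff]
    intro a
    rw [X_dvd_iff, ← coeff_ev0, h, coeff_zero]
  exact this

theorem InV.of_y_mul {n : ℕ} {g : R[X][X]} (h : InV (n + 1) (C X * g)) : InV n g := by
  intro a b hab
  have := h a (b + 1) (by omega)
  rwa [coeff_C_mul, coeff_X_mul] at this

theorem taylor_y_mul (x : R) (g : R[X][X]) (a : ℕ) :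
    (taylor (C x) (C X * g)).coeff a = X * (taylor (C x) g).coeff a := by
  rw [taylor_mul, taylor_C, coeff_C_mul]

end ring

section field

variable {K : Type*} [Field K]

/-- a point on the line `y = 0` loses its largest row -/
theorem Cond.residual_line {S : Finset ℕ} {x : K} {g : K[X][X]}
    (h : Cond S x 0 (C X * g)) : Cond (S.erase (mx S)) x 0 g := by
  intro a
  rcases colH_erase_mx S a with h1 | h1
  · have := h a
    rw [taylor_y_mul, ← h1, C_0, sub_zero, pow_succ, mul_comm] at this
    rw [C_0, sub_zero]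
    exact (mul_dvd_mul_iff_left X_ne_zero).1 this
  · rw [h1.1]; simp

/-- a point off the line `y = 0` keeps its condition -/
theorem Cond.residual_off {S : Finset ℕ} {x y : K} (hy : y ≠ 0) {g : K[X][X]}
    (h : Cond S x y (C X * g)) : Cond S x y g := by
  intro a
  have := h a
  rw [taylor_y_mul] at this
  refine IsCoprime.dvd_of_dvd_mul_left ?_ this
  apply IsCoprime.pow_left
  have h2 : IsCoprime (X - C y) (X - C (0 : K)) :=
    isCoprime_X_sub_C_of_isUnit_sub (by simpa using hy)
  simpa using h2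

/-- polynomials in one variable with too many zeros -/
theorem trace_zero {ι : Type*} (T : Finset ι) (x : ι → K) (hx : Set.InjOn x T) (r : ι → ℕ)
    {n : ℕ} (hr : n ≤ ∑ i ∈ T, r i) {g : K[X]} (hg : ∀ a, n ≤ a → g.coeff a = 0)
    (h : ∀ i ∈ T, ∀ a, a < r i → (taylor (x i) g).coeff a = 0) : g = 0 := by
  by_contra hne
  have h1 : ∀ i ∈ T, (X - C (x i)) ^ (r i) ∣ g := by
    intro i hi
    rw [X_sub_C_pow_dvd_iff, X_pow_dvd_iff]
    exact h i hi
  have h2 : ∏ i ∈ T, (X - C (x i)) ^ (r i) ∣ g := by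
    apply Finset.prod_dvd_of_coprime _ h1
    intro i hi j hj hij
    apply IsCoprime.pow
    apply isCoprime_X_sub_C_of_isUnit_sub
    rw [isUnit_iff_ne_zero, sub_ne_zero]
    exact fun e => hij (hx hi hj e)
  have h3 := natDegree_le_of_dvd h2 hne
  rw [natDegree_prod_of_monic _ _ (fun i _ => (monic_X_sub_C _).pow _)] at h3
  simp only [natDegree_pow, natDegree_X_sub_C, mul_one] at h3
  have h4 : g.coeff g.natDegree = 0 := hg _ (le_trans hr h3)
  exact hne (leadingCoeff_eq_zero.1 h4)

/-- vanishing on the line -/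
theorem line_zero {ι : Type*} (T : Finset ι) (x : ι → K) (hx : Set.InjOn x T) (S : ι → Finset ℕ)
    {n : ℕ} (hr : n ≤ ∑ i ∈ T, mx (S i)) {f : K[X][X]} (hf : InV n f)
    (h : ∀ i ∈ T, Cond (S i) (x i) 0 f) : f.map (ev0 K) = 0 := by
  apply trace_zero T x hx (fun i => mx (S i)) hr
  · intro a ha
    rw [coeff_ev0]
    exact hf a 0 (by omega)
  · intro i hi a ha
    rw [coeff_taylor_ev0]
    have h1 := h i hi a
    have h2 : X ∣ (taylor (C (x i)) f).coeff a := by
      refine dvd_trans ?_ h1
      rw [C_0, sub_zero]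
      exact dvd_pow_self _ (by have := colH_pos ha; omega)
    rw [← coeff_zero_eq_eval_zero]
    exact X_dvd_iff.1 h2

end field

end Pool.Agent.Lib.MP_6b2d39_ag
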