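import Pool.Agent.Lib.MP_6b2d39_ag.GoodE

/-!
Elementary counting for the effective Alexander-Hirschowitz theorem (task C).
-/

open Polynomial

namespace Pool.Agent.Lib.MP_6b2d39_ag

theorem thickRow_card (N a b : ℕ) (ha : 1 ≤ a) :
    (thickRow N a b).card = ∑ i ∈ Finset.range a, (N - a * b - i) := by
  have h1 : thickRow N a b = (Finset.range a).biUnion
      (fun i => (Finset.range (N - a * b - i)).image (fun j => i + a * j)) := by
    ext e
    simp only [thickRow, Finset.mem_filter, Finset.mem_range, Finset.mem_biUnion, Finset.mem_image]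
    constructor
    · rintro ⟨_, h2⟩
      refine ⟨e % a, Nat.mod_lt _ (by omega), e / a, by omega, Nat.mod_add_div e a⟩
    · rintro ⟨i, hi, j, hj, rfl⟩
      have e1 : (i + a * j) % a = i := by
        rw [Nat.add_mul_mod_self_left, Nat.mod_eq_of_lt hi]
      have e2 : (i + a * j) / a = j := by
        rw [Nat.add_mul_div_left _ _ (by omega), Nat.div_eq_of_lt hi, zero_add]
      rw [e1, e2]
      refine ⟨?_, by omega⟩
      have h3 : j + 1 ≤ N := by omega
      calc i + a * j < a + a * j := by omega
        _ = a * (j + 1) := by ring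
        _ ≤ a * N := Nat.mul_le_mul_left a h3
  rw [h1, Finset.card_biUnion]
  · apply Finset.sum_congr rfl
    intro i _
    rw [Finset.card_image_of_injective, Finset.card_range]
    intro j j' hjj
    have h2 : a * j = a * j' := by simpa using hjj
    exact Nat.eq_of_mul_eq_mul_left (by omega) h2
  · intro i hi i' hi' hne
    rw [Function.onFun, Finset.disjoint_left]
    intro e he he'
    simp only [Finset.mem_image, Finset.mem_range] at he he'
    simp only [Finset.coe_range, Set.mem_Iio] at hi hi'
    obtain ⟨j, _, rfl⟩ := he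
    obtain ⟨j', _, h2⟩ := he'
    apply hne
    have e1 : (i + a * j) % a = i := by
      rw [Nat.add_mul_mod_self_left, Nat.mod_eq_of_lt hi]
    have e2 : (i' + a * j') % a = i' := by
      rw [Nat.add_mul_mod_self_left, Nat.mod_eq_of_lt hi']
    rw [← e1, ← e2, h2]

theorem sum_block (f : ℕ → ℕ) (a B : ℕ) :
    ∑ b ∈ Finset.range B, ∑ i ∈ Finset.range a, f (a * b + i) =
      ∑ k ∈ Finset.range (a * B), f k := by
  induction B with
  | zero => simp
  | succ B ih => rw [Finset.sum_range_succ, ih, Nat.mul_succ, Finset.sum_range_add]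

theorem sum_sub_range {N K : ℕ} (h : N ≤ K) :
    ∑ k ∈ Finset.range K, (N - k) = (N + 1).choose 2 := by
  obtain ⟨d, rfl⟩ := Nat.exists_eq_add_of_le h
  rw [Finset.sum_range_add]
  have h1 : ∑ x ∈ Finset.range d, (N - (N + x)) = 0 := Finset.sum_eq_zero fun x _ => by omega
  rw [h1, add_zero]
  clear h h1
  induction N with
  | zero => simp
  | succ N ih =>
    rw [Finset.sum_range_succ']
    have h2 : ∑ k ∈ Finset.range N, (N + 1 - (k + 1)) = ∑ k ∈ Finset.range N, (N - k) :=
      Finset.sum_congr rfl fun k _ => by omega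
    have h3 : (N + 1 + 1).choose 2 = (N + 1) + (N + 1).choose 2 := by
      rw [Nat.choose_succ_succ' (N + 1) 1, Nat.choose_one_right]
    rw [h2, ih, h3]
    omega

/-- total number of monomials -/
theorem sum_thickRow_card {N a B : ℕ} (ha : 1 ≤ a) (hB : N ≤ a * B) :
    ∑ b ∈ Finset.range B, (thickRow N a b).card = (N + 1).choose 2 := by
  rw [← sum_sub_range hB, ← sum_block]
  apply Finset.sum_congr rfl
  intro b _
  rw [thickRow_card N a b ha]
  apply Finset.sum_congr rfl
  intro i _
  omega

theorem thickRow_card_sub {N a b : ℕ} (ha : 1 ≤ a) (h : a * (b + 2) ≤ N) :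
    (thickRow N a b).card = (thickRow N a (b + 1)).card + a ^ 2 := by
  rw [thickRow_card N a b ha, thickRow_card N a (b + 1) ha]
  have h1 : ∑ i ∈ Finset.range a, (N - a * b - i) =
      ∑ i ∈ Finset.range a, ((N - a * (b + 1) - i) + a) := by
    apply Finset.sum_congr rfl
    intro i hi
    rw [Finset.mem_range] at hi
    have e1 : a * (b + 2) = a * b + a + a := by ring
    have e2 : a * (b + 1) = a * b + a := by ring
    rw [e1] at h
    rw [e2]
    omega
  rw [h1, Finset.sum_add_distrib, Finset.sum_const, Finset.card_range, smul_eq_mul, sq]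

theorem two_sum_sub (a : ℕ) : 2 * ∑ i ∈ Finset.range a, (a - i) = a * (a + 1) := by
  rw [sum_sub_range le_rfl, Nat.choose_two_right, Nat.add_sub_cancel]
  rw [Nat.two_mul_div_two_of_even]
  · ring
  · rw [mul_comm]
    exact Nat.even_mul_succ_self a

theorem thickRow_card_last {N a b : ℕ} (ha : 1 ≤ a) (h : a * (b + 1) ≤ N) :
    2 * (thickRow N a (b + 1)).card + a * (a + 1) ≤ 2 * (thickRow N a b).card := by
  rw [thickRow_card N a b ha, thickRow_card N a (b + 1) ha, ← two_sum_sub, ← mul_add,
    ← Finset.sum_add_distrib]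
  apply Nat.mul_le_mul_left
  apply Finset.sum_le_sum
  intro i hi
  rw [Finset.mem_range] at hi
  have e2 : a * (b + 1) = a * b + a := by ring
  rw [e2] at h ⊢
  omega

theorem rk_special {B b : ℕ} (hb : b + 2 ≤ B) : rk (B - 2) (B - 2) b = B - 2 - b := by
  unfold rk
  split_ifs <;> omega

/-- choice of the slices used by a special point -/
theorem special_slices {B m y : ℕ} (hmB : m + 2 ≤ B) (hy : y ≤ (m + 1).choose 2) :
    ∃ σ : ℕ → ℕ, ∑ b ∈ Finset.range B, σ b = y ∧ σ (B - 1) = 0 ∧
      (∀ b < B, σ b ≤ m - rk (B - 2) (B - 2) b) ∧ (∀ b, b + 3 ≤ B → σ b ≤ σ (b + 1)) ∧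
      (∀ b, b + 1 + m < B → σ b = 0) := by
  set P : ℕ → ℕ := fun k => ∑ j ∈ Finset.range k, (m - j) with hP
  have hPs : ∀ k, P (k + 1) = P k + (m - k) := fun k => Finset.sum_range_succ _ _
  have hP0 : P 0 = 0 := Finset.sum_range_zero _
  have hmono : ∀ k, P k ≤ P (k + 1) := fun k => by rw [hPs]; omega
  have hPtop : P (B - 1) = (m + 1).choose 2 := sum_sub_range (by omega)
  set τ : ℕ → ℕ := fun k => min y (P (k + 1)) - min y (P k) with hτ
  have htel : ∀ k, ∑ j ∈ Finset.range k, τ j = min y (P k) := by
    intro k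
    induction k with
    | zero => simp [hP0]
    | succ k ih =>
      rw [Finset.sum_range_succ, ih]
      have := hmono k
      simp only [hτ]
      omega
  have hτle : ∀ k, τ k ≤ m - k := by
    intro k
    have := hPs k
    simp only [hτ]
    omega
  have hτanti : ∀ k, τ (k + 1) ≤ τ k := by
    intro k
    have h1 := hPs k
    have h2 := hPs (k + 1)
    simp only [hτ]
    omega
  refine ⟨fun b => if b + 2 ≤ B then τ (B - 2 - b) else 0, ?_, ?_, ?_, ?_, ?_⟩
  · have hB : B = (B - 1) + 1 := by omega
    have h1 : ∑ b ∈ Finset.range B, (if b + 2 ≤ B then τ (B - 2 - b) else 0) =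
        ∑ b ∈ Finset.range (B - 1), τ ((B - 1) - 1 - b) := by
      rw [hB, Finset.sum_range_succ, if_neg (by omega), add_zero]
      apply Finset.sum_congr rfl
      intro b hb
      rw [Finset.mem_range] at hb
      rw [if_pos (by omega)]
      congr 1
    rw [h1, Finset.sum_range_reflect, htel, hPtop]
    exact min_eq_left hy
  · beta_reduce
    rw [if_neg (by omega)]
  · intro b hb
    beta_reduce
    split_ifs with h1
    · rw [rk_special h1]
      exact hτle _
    · exact Nat.zero_le _
  · intro b hb
    beta_reduce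
    rw [if_pos (by omega), if_pos (by omega)]
    have h1 : B - 2 - b = (B - 2 - (b + 1)) + 1 := by omega
    rw [h1]
    exact hτanti _
  · intro b hb
    beta_reduce
    rw [if_pos (by omega)]
    have h1 := hτle (B - 2 - b)
    omega

end Pool.Agent.Lib.MP_6b2d39_ag
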