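import Pool.Agent.Lib.MP_6b2d39_ag.Good

open Polynomial

namespace Pool.Agent.Lib.MP_6b2d39_ag

/-- total length of a shape -/
def tot (S : Finset ℕ) : ℕ := ∑ s ∈ S, s

theorem mx_empty : mx ∅ = 0 := rfl

theorem tot_empty : tot ∅ = 0 := rfl

theorem tot_erase_mx (S : Finset ℕ) : tot (S.erase (mx S)) + mx S = tot S := by
  rcases S.eq_empty_or_nonempty with rfl | h
  · simp [tot, mx]
  · exact Finset.sum_erase_add S (fun s => s) (mx_mem h)

theorem mx_mono {S T : Finset ℕ} (h : S ⊆ T) : mx S ≤ mx T := Finset.sup_mono h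

theorem mx_le_of_subset {S : Finset ℕ} {M : ℕ} (h : S ⊆ Finset.Icc 1 M) : mx S ≤ M := by
  apply Finset.sup_le
  intro s hs
  exact (Finset.mem_Icc.1 (h hs)).2

theorem mx_pos {S : Finset ℕ} {M : ℕ} (h : S ⊆ Finset.Icc 1 M) (hS : S.Nonempty) : 1 ≤ mx S :=
  (Finset.mem_Icc.1 (h (mx_mem hS))).1

theorem mx_erase_lt {S : Finset ℕ} {M : ℕ} (h : S ⊆ Finset.Icc 1 M) (hS : S.Nonempty) :
    mx (S.erase (mx S)) + 1 ≤ mx S := by
  rcases (S.erase (mx S)).eq_empty_or_nonempty with h1 | h1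
  · rw [h1, mx_empty]
    have := mx_pos h hS
    omega
  · have h2 := mx_mem h1
    rw [Finset.mem_erase] at h2
    have h3 := le_mx h2.2
    have h4 := h2.1
    omega

theorem tot_le {S : Finset ℕ} : 2 * tot S ≤ mx S * (mx S + 1) := by
  have h1 : S ⊆ Finset.range (mx S + 1) := by
    intro s hs
    rw [Finset.mem_range]
    have := le_mx hs
    omega
  have h2 : tot S ≤ ∑ i ∈ Finset.range (mx S + 1), i := Finset.sum_le_sum_of_subset h1
  have h3 := Finset.sum_range_id_mul_two (mx S + 1)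
  simp only [Nat.add_sub_cancel] at h3
  nlinarith

theorem mx_Icc (m : ℕ) : mx (Finset.Icc 1 m) = m := by
  rcases Nat.eq_zero_or_pos m with rfl | hm
  · rfl
  · apply le_antisymm
    · exact mx_le_of_subset (le_refl _)
    · exact le_mx (Finset.mem_Icc.2 ⟨hm, le_refl _⟩)

theorem mx_Icc_erase {m c : ℕ} (hc : c < m) : mx ((Finset.Icc 1 m).erase c) = m := by
  apply le_antisymm
  · exact mx_le_of_subset (Finset.erase_subset _ _)
  · exact le_mx (Finset.mem_erase.2 ⟨by omega, Finset.mem_Icc.2 ⟨by omega, le_refl _⟩⟩)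

theorem tot_Icc (m : ℕ) : tot (Finset.Icc 1 m) = (m + 1).choose 2 := by
  induction m with
  | zero => rfl
  | succ m ih =>
    unfold tot at *
    rw [← Finset.insert_Icc_right_eq_Icc_add_one (by omega), Finset.sum_insert (by simp), ih,
      Nat.choose_succ_succ' (m + 1) 1, Nat.choose_one_right]

theorem tot_erase {S : Finset ℕ} {c : ℕ} (hc : c ∈ S) : tot (S.erase c) + c = tot S :=
  Finset.sum_erase_add S (fun s => s) hc

variable {ι : Type} [DecidableEq ι]

/-- maximal filling -/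
theorem exists_fill (C0 : Finset ι) (f : ι → ℕ) (b : ℕ) :
    ∃ P ⊆ C0, ∑ i ∈ P, f i ≤ b ∧ ∀ j ∈ C0 \ P, b < ∑ i ∈ P, f i + f j := by
  have hne : (C0.powerset.filter (fun P => ∑ i ∈ P, f i ≤ b)).Nonempty :=
    ⟨∅, by simp⟩
  obtain ⟨P, hP, hmax⟩ := Finset.exists_max_image _ (fun P => P.card) hne
  rw [Finset.mem_filter, Finset.mem_powerset] at hP
  refine ⟨P, hP.1, hP.2, ?_⟩
  intro j hj
  rw [Finset.mem_sdiff] at hj
  by_contra hcon
  have h1 : insert j P ∈ C0.powerset.filter (fun P => ∑ i ∈ P, f i ≤ b) := by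
    rw [Finset.mem_filter, Finset.mem_powerset, Finset.sum_insert hj.2]
    refine ⟨Finset.insert_subset hj.1 hP.1, by omega⟩
  have h2 := hmax _ h1
  rw [Finset.card_insert_of_notMem hj.2] at h2
  omega

/-- number of nonempty shapes -/
def act (S : ι → Finset ℕ) (T : Finset ι) : ℕ := (T.filter (fun i => (S i).Nonempty)).card

theorem sum_mx_le {S : ι → Finset ℕ} {M : ℕ} (h : ∀ i, S i ⊆ Finset.Icc 1 M) (T : Finset ι) :
    ∑ i ∈ T, mx (S i) ≤ act S T * M := by
  unfold act
  rw [Finset.card_filter, Finset.sum_mul]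
  apply Finset.sum_le_sum
  intro i _
  split_ifs with hi
  · rw [one_mul]
    exact mx_le_of_subset (h i)
  · rw [Finset.not_nonempty_iff_eq_empty] at hi
    rw [hi, mx_empty]
    simp

theorem sum_mx_erase_le {S : ι → Finset ℕ} {M : ℕ} (h : ∀ i, S i ⊆ Finset.Icc 1 M)
    (T : Finset ι) :
    ∑ i ∈ T, mx ((S i).erase (mx (S i))) + act S T ≤ ∑ i ∈ T, mx (S i) := by
  unfold act
  rw [Finset.card_filter, ← Finset.sum_add_distrib]
  apply Finset.sum_le_sum
  intro i _
  split_ifs with hi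
  · exact mx_erase_lt (h i) hi
  · rw [Finset.not_nonempty_iff_eq_empty] at hi
    rw [hi, Finset.erase_empty, mx_empty]

theorem act_pos {S : ι → Finset ℕ} {T : Finset ι} (h : 1 ≤ ∑ i ∈ T, mx (S i)) :
    1 ≤ act S T := by
  unfold act
  rw [Nat.one_le_iff_ne_zero, Ne, Finset.card_eq_zero, Finset.filter_eq_empty_iff]
  intro hcon
  have : ∑ i ∈ T, mx (S i) = 0 := by
    apply Finset.sum_eq_zero
    intro i hi
    have := hcon hi
    rw [Finset.not_nonempty_iff_eq_empty] at this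
    rw [this, mx_empty]
  omega

/-- `∑ tot ≤ F(F+1)/2` -/
theorem two_mul_sum_tot_le (S : ι → Finset ℕ) (T : Finset ι) :
    2 * ∑ i ∈ T, tot (S i) ≤ (∑ i ∈ T, mx (S i)) * (∑ i ∈ T, mx (S i) + 1) := by
  induction T using Finset.induction_on with
  | empty => simp
  | insert a T ha ih =>
    rw [Finset.sum_insert ha, Finset.sum_insert ha]
    have := tot_le (S := S a)
    nlinarith [Nat.zero_le (mx (S a) * ∑ i ∈ T, mx (S i))]

/-- the shapes after a plain step along the line -/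
def stepS (S : ι → Finset ℕ) (T : Finset ι) : ι → Finset ℕ :=
  fun i => if i ∈ T then (S i).erase (mx (S i)) else S i

theorem stepS_mem {S : ι → Finset ℕ} {T : Finset ι} {i : ι} (h : i ∈ T) :
    stepS S T i = (S i).erase (mx (S i)) := if_pos h

theorem stepS_not_mem {S : ι → Finset ℕ} {T : Finset ι} {i : ι} (h : i ∉ T) :
    stepS S T i = S i := if_neg h

theorem stepS_subset {S : ι → Finset ℕ} {T : Finset ι} (i : ι) : stepS S T i ⊆ S i := by
  unfold stepS
  split_ifs
  · exact Finset.erase_subset _ _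
  · exact le_refl _

theorem sum_tot_stepS (S : ι → Finset ℕ) (T U : Finset ι) (hTU : T ⊆ U) :
    ∑ i ∈ U, tot (stepS S T i) + ∑ i ∈ T, mx (S i) = ∑ i ∈ U, tot (S i) := by
  have h1 : ∑ i ∈ T, mx (S i) = ∑ i ∈ U, if i ∈ T then mx (S i) else 0 := by
    rw [Finset.sum_ite_mem, Finset.inter_eq_right.2 hTU]
  rw [h1, ← Finset.sum_add_distrib]
  apply Finset.sum_congr rfl
  intro i _
  unfold stepS
  split_ifs with h
  · exact tot_erase_mx _
  · rfl

end Pool.Agent.Lib.MP_6b2d39_ag
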