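import Pool.Agent.Lib.MP_6b2d39_ag.GoodE

/-!
Elementary inequalities for the greedy arrangement (part of `core`).
-/

namespace Pool.Agent.Lib.MP_6b2d39_ag

/-- the functional `Λ_b` -/
def Lam (b : ℕ) (c : ℕ → ℤ) : ℤ :=
  b * (b + 1) * c (b + 1) + 2 * ∑ r ∈ Finset.range (b + 1), c r - (b + 1) * (b + 2) * c b

theorem Lam_congr {b : ℕ} {c c' : ℕ → ℤ} (h : ∀ r ≤ b + 1, c r = c' r) : Lam b c = Lam b c' := by
  unfold Lam
  rw [h (b + 1) le_rfl, h b (by omega), Finset.sum_congr rfl (fun r hr => h r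
    (by rw [Finset.mem_range] at hr; omega))]

theorem Lam_add (b : ℕ) (c c' : ℕ → ℤ) : Lam b (fun r => c r + c' r) = Lam b c + Lam b c' := by
  unfold Lam
  rw [Finset.sum_add_distrib]
  ring

theorem abel (c : ℕ → ℤ) (b : ℕ) :
    ∑ k ∈ Finset.range b, ((k : ℤ) + 1) * (c (k + 1) - c k) =
      b * c b - ∑ k ∈ Finset.range b, c k := by
  induction b with
  | zero => simp
  | succ b ih =>
    rw [Finset.sum_range_succ, ih, Finset.sum_range_succ]
    push_cast
    ring

theorem two_sum_succ (b : ℕ) : 2 * ∑ k ∈ Finset.range b, ((k : ℤ) + 1) = b * (b + 1) := by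
  induction b with
  | zero => simp
  | succ b ih =>
    rw [Finset.sum_range_succ, mul_add, ih]
    push_cast
    ring

theorem Lam_nonneg {b : ℕ} {c : ℕ → ℤ} (h : ∀ k < b, c (k + 1) - c k ≤ c (b + 1) - c b) :
    0 ≤ Lam b c := by
  have h1 : ∑ k ∈ Finset.range b, ((k : ℤ) + 1) * (c (k + 1) - c k) ≤
      ∑ k ∈ Finset.range b, ((k : ℤ) + 1) * (c (b + 1) - c b) := by
    apply Finset.sum_le_sum
    intro k hk
    rw [Finset.mem_range] at hk
    apply mul_le_mul_of_nonneg_left (h k hk)
    positivity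
  rw [abel, ← Finset.sum_mul] at h1
  have h2 := two_sum_succ b
  have h3 : 2 * ((∑ k ∈ Finset.range b, ((k : ℤ) + 1)) * (c (b + 1) - c b)) =
      b * (b + 1) * (c (b + 1) - c b) := by
    rw [← h2]
    ring
  unfold Lam
  rw [Finset.sum_range_succ]
  linarith

/-- truncated subtraction as an integer -/
theorem coe_tsub_add_one (m r : ℕ) :
    ((m - (r + 1) : ℕ) : ℤ) - ((m - r : ℕ) : ℤ) = if r < m then -1 else 0 := by
  split_ifs with h <;> omega

/-- uninserted points -/
theorem Lam_un (b m : ℕ) : 0 ≤ Lam b (fun r => ((m - r : ℕ) : ℤ)) := by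
  apply Lam_nonneg
  intro k hk
  rw [coe_tsub_add_one, coe_tsub_add_one]
  split_ifs <;> omega

/-- full points of level `t ≥ b + 1` -/
theorem Lam_full {b t : ℕ} (m : ℕ) (ht : b + 1 ≤ t) :
    0 ≤ Lam b (fun r => ((m - (t - r) : ℕ) : ℤ)) := by
  apply Lam_nonneg
  intro k hk
  omega

theorem two_sum_tsub (j b : ℕ) (h : j ≤ b + 1) :
    2 * ∑ r ∈ Finset.range (b + 1), ((r - j : ℕ) : ℤ) = ((b : ℤ) - j) * (b + 1 - j) := by
  induction b with
  | zero =>
    rcases Nat.lt_or_ge j 1 with h1 | h1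
    · have : j = 0 := by omega
      subst this; simp
    · have : j = 1 := by omega
      subst this; simp
  | succ b ih =>
    rcases Nat.lt_or_ge (b + 1) j with h1 | h1
    · have hj : j = b + 2 := by omega
      subst hj
      have : ∀ r ∈ Finset.range (b + 1 + 1), ((r - (b + 2) : ℕ) : ℤ) = 0 := by
        intro r hr
        rw [Finset.mem_range] at hr
        omega
      rw [Finset.sum_eq_zero this]
      push_cast
      ring
    · rw [Finset.sum_range_succ, mul_add, ih h1]
      rw [Nat.cast_sub h1]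
      push_cast
      ring

/-- sources: full points of multiplicity `t - j` and level `t` -/
theorem Lam_source {b t m j : ℕ} (ht : b + 2 ≤ t) (hj : m + j = t) (hjb : j ≤ b) :
    Lam b (fun r => ((m - (t - r) : ℕ) : ℤ)) = j * (j + 1) := by
  have h1 : Lam b (fun r => ((m - (t - r) : ℕ) : ℤ)) = Lam b (fun r => ((r - j : ℕ) : ℤ)) := by
    apply Lam_congr
    intro r hr
    have : m - (t - r) = r - j := by omega
    rw [this]
  rw [h1]
  unfold Lam
  rw [two_sum_tsub j b (by omega)]
  beta_reduce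
  rw [Nat.cast_sub (by omega : j ≤ b + 1), Nat.cast_sub hjb]
  push_cast
  ring

/-- the bonus of a partial point -/
theorem two_sum_ind (i b : ℕ) (h : i ≤ b + 1) :
    ∑ r ∈ Finset.range (b + 1), (if i ≤ r then (1 : ℤ) else 0) = b + 1 - i := by
  induction b with
  | zero =>
    rcases Nat.lt_or_ge i 1 with h1 | h1
    · have : i = 0 := by omega
      subst this; simp
    · have : i = 1 := by omega
      subst this; simp
  | succ b ih =>
    rcases Nat.lt_or_ge (b + 1) i with h1 | h1
    · have : ∀ r ∈ Finset.range (b + 1 + 1), (if i ≤ r then (1 : ℤ) else 0) = 0 := by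
        intro r hr
        rw [Finset.mem_range] at hr
        rw [if_neg (by omega)]
      rw [Finset.sum_eq_zero this]
      have : i = b + 2 := by omega
      subst this
      push_cast
      ring
    · rw [Finset.sum_range_succ, ih h1, if_pos h1]
      push_cast
      ring

theorem Lam_ind (i b : ℕ) : (if i ≤ b then -(2 * (i : ℤ)) else 0) ≤
    Lam b (fun r => if i ≤ r then (1 : ℤ) else 0) := by
  unfold Lam
  beta_reduce
  by_cases h : i ≤ b
  · rw [two_sum_ind i b (by omega), if_pos h, if_pos (by omega : i ≤ b + 1), if_pos h]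
    have : (0 : ℤ) ≤ b := by positivity
    nlinarith
  · rw [if_neg h, if_neg h]
    have h1 : ∑ r ∈ Finset.range (b + 1), (if i ≤ r then (1 : ℤ) else 0) = 0 := by
      apply Finset.sum_eq_zero
      intro r hr
      rw [Finset.mem_range] at hr
      rw [if_neg (by omega)]
    rw [h1]
    split_ifs
    · have : (0 : ℤ) ≤ b * (b + 1) := by positivity
      nlinarith
    · simp

/-- slices of a point of level `t` in the rows below `t` -/
theorem slice_low {m t i r : ℕ} (hr : r < t) (hi : t - i < m) (hit : i ≤ t) :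
    ((m - rk t i r : ℕ) : ℤ) = ((m - (t - r) : ℕ) : ℤ) + if i ≤ r then 1 else 0 := by
  unfold rk
  split_ifs <;> omega

theorem slice_at {m t i : ℕ} (hit : i ≤ t) : m - rk t i t = m - (t - i) := by
  unfold rk
  split_ifs <;> omega

theorem slice_above {m t i r : ℕ} (hr : t < r) (hit : i ≤ t) : m - rk t i r = m - r := by
  unfold rk
  split_ifs <;> omega

/-- points of level at least `b + 2` -/
theorem Lam_high {b t i m : ℕ} (ht : b + 2 ≤ t) (hi : t - i < m) (hit : i ≤ t) :
    (if i ≤ b then -(2 * (b : ℤ)) else 0) + Lam b (fun r => ((m - (t - r) : ℕ) : ℤ)) ≤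
      Lam b (fun r => ((m - rk t i r : ℕ) : ℤ)) := by
  have h1 : Lam b (fun r => ((m - rk t i r : ℕ) : ℤ)) =
      Lam b (fun r => ((m - (t - r) : ℕ) : ℤ) + if i ≤ r then 1 else 0) := by
    apply Lam_congr
    intro r hr
    exact slice_low (by omega) hi hit
  rw [h1, Lam_add]
  have h2 := Lam_ind i b
  split_ifs at h2 ⊢ with h
  · have : (i : ℤ) ≤ b := by exact_mod_cast h
    linarith
  · linarith

/-- points of level `b + 1` -/
theorem Lam_front {b i m : ℕ} (hi : b + 1 - i < m) (hi1 : i ≤ b + 1) :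
    -(((b : ℤ) + 2) * (b - 1) * ((b + 1 - i : ℕ) : ℤ)) -
      (if i < b + 1 then ((b : ℤ) + 1) * (b + 2) else 0) ≤
      Lam b (fun r => ((m - rk (b + 1) i r : ℕ) : ℤ)) := by
  have h0 := Lam_full (b := b) (t := b + 1) m le_rfl
  have h1 : ∀ r ≤ b, ((m - rk (b + 1) i r : ℕ) : ℤ) =
      ((m - (b + 1 - r) : ℕ) : ℤ) + if i ≤ r then 1 else 0 := by
    intro r hr
    exact slice_low (by omega) hi hi1
  have h2 : ((m - rk (b + 1) i (b + 1) : ℕ) : ℤ) = (m : ℤ) - ((b + 1 - i : ℕ) : ℤ) := by
    rw [slice_at hi1]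
    omega
  unfold Lam at h0 ⊢
  beta_reduce at h0 ⊢
  rw [Finset.sum_congr rfl (fun r hr => h1 r (by rw [Finset.mem_range] at hr; omega)),
    Finset.sum_add_distrib, two_sum_ind i b hi1, h2, h1 b le_rfl]
  have h3 : ((m - (b + 1 - (b + 1)) : ℕ) : ℤ) = m := by simp
  rw [h3] at h0
  rcases Nat.lt_or_ge i (b + 1) with h4 | h4
  · rw [if_pos h4, if_pos (by omega)]
    have h5 : ((b + 1 - i : ℕ) : ℤ) = b + 1 - i := by
      rw [Nat.cast_sub hi1]
      push_cast
      ring
    rw [h5]
    nlinarith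
  · have h5 : i = b + 1 := by omega
    subst h5
    simp only [lt_self_iff_false, if_false, Nat.sub_self, Nat.cast_zero, mul_zero, neg_zero,
      sub_zero]
    rw [if_neg (by omega)]
    push_cast
    linarith

end Pool.Agent.Lib.MP_6b2d39_ag
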