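import Pool.Agent.Lib.MP_6b2d39_ag.CoreA

/-!
Distribution of the missing amount `D` of one row among the next points.
-/

namespace Pool.Agent.Lib.MP_6b2d39_ag

open Finset

/-- the first time the partial sums reach `D` -/
theorem first_reach (g : ℕ → ℕ) {k n D : ℕ} (hkn : k ≤ n) (hD1 : 1 ≤ D)
    (hD : D ≤ ∑ p ∈ Ico k n, g p) :
    ∃ q, k ≤ q ∧ q < n ∧ ∑ p ∈ Ico k q, g p < D ∧ D ≤ ∑ p ∈ Ico k q, g p + g q := by
  obtain ⟨e, rfl⟩ := Nat.exists_eq_add_of_le hkn
  clear hkn
  induction e with
  | zero => simp at hD; omega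
  | succ e ih =>
    by_cases h : D ≤ ∑ p ∈ Ico k (k + e), g p
    · obtain ⟨q, h1, h2, h3, h4⟩ := ih h
      exact ⟨q, h1, by omega, h3, h4⟩
    · refine ⟨k + e, by omega, by omega, by omega, ?_⟩
      rw [← add_assoc, sum_Ico_succ_top (by omega)] at hD
      exact hD

theorem sum_ite_one {k q : ℕ} (f : ℕ → ℕ) (hk : k ≤ q) (v : ℕ) (hf : ∀ p, p ≠ q → f p = 0)
    (hq : f q = v) : ∑ p ∈ Ico k (q + 1), f p = v := by
  rw [sum_Ico_succ_top hk, hq, sum_eq_zero, zero_add]
  intro p hp
  rw [mem_Ico] at hp
  exact hf p (by omega)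

/-- distribution lemma -/
theorem distribute (g : ℕ → ℕ) (hg : Antitone g) {k n D : ℕ} (hkn : k ≤ n)
    (hD : D ≤ ∑ p ∈ Ico k n, g p) :
    ∃ (k' : ℕ) (y : ℕ → ℕ), k ≤ k' ∧ k' ≤ n ∧ (∀ p, k ≤ p → p < k' → y p < g p) ∧
      (∑ p ∈ Ico k k', g p = D + ∑ p ∈ Ico k k', y p) ∧
      (∑ p ∈ Ico k k', y p = 0 ∨ ∑ p ∈ Ico k k', y p + 1 ≤ g k) ∧
      ((Ico k k').filter (fun p => y p ≠ 0)).card ≤ 2 ∧
      (g k ≤ D → ∀ p, k ≤ p → p < k' → 2 * y p ≤ g p) := by
  rcases Nat.eq_zero_or_pos D with hD0 | hD1
  · subst hD0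
    refine ⟨k, fun _ => 0, le_rfl, hkn, ?_, ?_, ?_, ?_, ?_⟩
    · intro p h1 h2; omega
    · simp
    · left; simp
    · simp
    · intro _ p h1 h2; omega
  obtain ⟨q, hkq, hqn, h1, h2⟩ := first_reach g hkn hD1 hD
  set L := ∑ p ∈ Ico k q, g p + g q - D with hL
  have hgq : g q ≤ g k := hg hkq
  by_cases hc : 2 * L ≤ g q ∨ k = q
  · -- one partial point
    refine ⟨q + 1, fun p => if p = q then L else 0, by omega, hqn, ?_, ?_, ?_, ?_, ?_⟩
    · intro p hp1 hp2
      by_cases hpq : p = q
      · subst hpq
        simp only [if_true]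
        omega
      · simp only [if_neg hpq]
        have : g q ≤ g p := hg (by omega)
        omega
    · rw [sum_ite_one (fun p => if p = q then L else 0) hkq L (fun p hp => by simp [hp])
        (by simp), sum_Ico_succ_top hkq]
      omega
    · right
      rw [sum_ite_one (fun p => if p = q then L else 0) hkq L (fun p hp => by simp [hp])
        (by simp)]
      omega
    · have : (Ico k (q + 1)).filter (fun p => (if p = q then L else 0) ≠ 0) ⊆ {q} := by
        intro p hp
        rw [mem_filter] at hp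
        rw [mem_singleton]
        by_contra h
        exact hp.2 (by rw [if_neg h])
      exact (card_le_card this).trans (by simp)
    · intro hkD p hp1 hp2
      by_cases hpq : p = q
      · subst hpq
        simp only [if_true]
        rcases hc with hc | hc
        · exact hc
        · subst hc
          simp at hL h1 h2
          omega
      · simp only [if_neg hpq]
        omega
  · push Not at hc
    obtain ⟨hc1, hc2⟩ := hc
    have hkq' : k ≤ q - 1 := by omega
    have hq1 : q - 1 + 1 = q := by omega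
    have hgq1 : g q ≤ g (q - 1) := hg (by omega)
    set f : ℕ → ℕ := fun p => if p = q then g q / 2 else if p = q - 1 then L - g q / 2 else 0
      with hf
    have hfq : f q = g q / 2 := by simp [hf]
    have hfq1 : f (q - 1) = L - g q / 2 := by
      simp only [hf]
      rw [if_neg (by omega)]
      simp
    have hf0 : ∀ p, p ≠ q → p ≠ q - 1 → f p = 0 := by
      intro p h3 h4
      simp [hf, h3, h4]
    have hsum : ∑ p ∈ Ico k (q + 1), f p = L := by
      rw [sum_Ico_succ_top hkq, hfq]
      have h5 : ∑ p ∈ Ico k q, f p = L - g q / 2 := by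
        have h6 : ∑ p ∈ Ico k (q - 1 + 1), f p = f (q - 1) := by
          rw [sum_Ico_succ_top hkq', sum_eq_zero, zero_add]
          intro p hp
          rw [mem_Ico] at hp
          exact hf0 p (by omega) (by omega)
        rw [hq1] at h6
        rw [h6, hfq1]
      rw [h5]
      omega
    refine ⟨q + 1, f, by omega, hqn, ?_, ?_, ?_, ?_, ?_⟩
    · intro p hp1 hp2
      by_cases hpq : p = q
      · rw [hpq, hfq]; omega
      · by_cases hpq1 : p = q - 1
        · rw [hpq1, hfq1]; omega
        · rw [hf0 p hpq hpq1]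
          have : g q ≤ g p := hg (by omega)
          omega
    · rw [hsum, sum_Ico_succ_top hkq]
      omega
    · right
      rw [hsum]
      omega
    · have : (Ico k (q + 1)).filter (fun p => f p ≠ 0) ⊆ {q, q - 1} := by
        intro p hp
        rw [mem_filter] at hp
        rw [mem_insert, mem_singleton]
        by_contra h
        rw [not_or] at h
        exact hp.2 (hf0 p h.1 h.2)
      exact (card_le_card this).trans card_le_two
    · intro hkD p hp1 hp2
      by_cases hpq : p = q
      · rw [hpq, hfq]; omega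
      · by_cases hpq1 : p = q - 1
        · rw [hpq1, hfq1]; omega
        · rw [hf0 p hpq hpq1]
          omega

end Pool.Agent.Lib.MP_6b2d39_ag
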