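import Pool.Agent.Lib.MP_6b2d39_ag.GoodE

/-!
Ranks of rows in a state and weights realising them (task K of the effective
Alexander-Hirschowitz theorem).
-/

namespace Pool.Agent.Lib.MP_6b2d39_ag

theorem rk_inj {t i : ℕ} (hi : i ≤ t) {b b' : ℕ} (h : rk t i b = rk t i b') : b = b' := by
  unfold rk at h
  split_ifs at h <;> omega

theorem rk_lt {B t i : ℕ} (hi : i ≤ t) (ht : t < B) {b : ℕ} (hb : b < B) : rk t i b < B := by
  unfold rk
  split_ifs <;> omega

theorem sum_rk {B t i : ℕ} (hi : i ≤ t) (ht : t < B) (f : ℕ → ℕ) :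
    ∑ b ∈ Finset.range B, f (rk t i b) = ∑ b ∈ Finset.range B, f b := by
  have himg : (Finset.range B).image (rk t i) = Finset.range B := by
    apply Finset.eq_of_subset_of_card_le
    · intro y hy
      rw [Finset.mem_image] at hy
      obtain ⟨b, hb, rfl⟩ := hy
      rw [Finset.mem_range] at hb ⊢
      exact rk_lt hi ht hb
    · rw [Finset.card_image_of_injective _ (fun a b h => rk_inj hi h)]
  conv_rhs => rw [← himg]
  rw [Finset.sum_image (fun a _ b _ h => rk_inj hi h)]

theorem exists_weights (B : ℕ) : ∃ (w : ℕ → ℕ) (v : ℕ → ℕ → ℕ), ∀ t i, t < B → i ≤ t →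
    ∀ b < B, ∀ b' < B, rk t i b < rk t i b' → w b + v t i * b < w b' + v t i * b' := by
  obtain ⟨G, hG⟩ : ∃ G : ℕ, G = 4 * B + 10 := ⟨_, rfl⟩
  have hG1 : 1 ≤ G := by omega
  have hmono : ∀ {b c : ℕ}, b ≤ c → G ^ b ≤ G ^ c := fun h => Nat.pow_le_pow_right hG1 h
  refine ⟨fun b => G ^ b + (G ^ B + 1) * (B - b),
    fun t i => (G ^ B + 1) - (G ^ t / (t - i + 1) + 1), ?_⟩
  intro t i ht hi b hb b' hb' hr
  obtain ⟨k, hk⟩ : ∃ k : ℕ, k = t - i + 1 := ⟨_, rfl⟩
  obtain ⟨S, hS⟩ : ∃ S : ℕ, S = G ^ t / (t - i + 1) + 1 := ⟨_, rfl⟩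
  have hk1 : 1 ≤ k := by omega
  have hS1 : S ≤ G ^ t + 1 := by
    rw [hS]
    exact Nat.succ_le_succ (Nat.div_le_self _ _)
  have hS2 : G ^ t < k * S := by
    rw [hS, ← hk]
    have := Nat.div_add_mod (G ^ t) k
    have h2 := Nat.mod_lt (G ^ t) (show 0 < k by omega)
    rw [Nat.mul_add, Nat.mul_one]
    omega
  have hS3 : k * S ≤ G ^ t + k := by
    rw [hS, ← hk, Nat.mul_add, Nat.mul_one]
    have := Nat.mul_div_le (G ^ t) k
    omega
  have hSB : S ≤ G ^ B + 1 := hS1.trans (Nat.succ_le_succ (hmono ht.le))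
  -- reduce to integers
  have key : (G : ℤ) ^ b - S * b < (G : ℤ) ^ b' - S * b' := by
    -- big jump: for c ≥ t + 1 the power dominates
    have hjump : ∀ c : ℕ, t < c → c < B → (G ^ t + 1) * c + G ^ (c - 1) < G ^ c := by
      intro c hc hcB
      obtain ⟨e, rfl⟩ : ∃ e, c = e + 1 := ⟨c - 1, by omega⟩
      simp only [Nat.add_sub_cancel]
      have h1 : G ^ t ≤ G ^ e := hmono (by omega)
      have h2 : 1 ≤ G ^ e := Nat.one_le_pow _ _ hG1
      rw [pow_succ]
      calc (G ^ t + 1) * (e + 1) + G ^ e ≤ (G ^ e + G ^ e) * B + G ^ e := by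
            apply Nat.add_le_add_right
            apply Nat.mul_le_mul
            · omega
            · omega
        _ < G ^ e * G := by
            have h30 : G ^ e * G = G ^ e * (4 * B) + G ^ e * 10 := by rw [hG]; ring
            have h31 : (G ^ e + G ^ e) * B = G ^ e * (2 * B) := by ring
            have h32 : G ^ e * (2 * B) ≤ G ^ e * (4 * B) := Nat.mul_le_mul_left _ (by omega)
            rw [h30, h31]
            omega
    unfold rk at hr
    -- case analysis
    rcases Nat.lt_or_ge t b' with h1 | h1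
    · -- b' > t, so b < b'
      have hbb : b < b' := by
        split_ifs at hr <;> omega
      have hj := hjump b' h1 hb'
      have h3 : G ^ b ≤ G ^ (b' - 1) := hmono (by omega)
      have hj' : ((G : ℤ) ^ t + 1) * b' + (G : ℤ) ^ (b' - 1) < (G : ℤ) ^ b' := by exact_mod_cast hj
      have h3' : (G : ℤ) ^ b ≤ (G : ℤ) ^ (b' - 1) := by exact_mod_cast h3
      have hS1' : (S : ℤ) ≤ (G : ℤ) ^ t + 1 := by exact_mod_cast hS1
      have hS0 : (0 : ℤ) ≤ S := by positivity
      have hb0 : (0 : ℤ) ≤ b := by positivity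
      have hb'0 : (0 : ℤ) ≤ b' := by positivity
      have h20 := mul_le_mul_of_nonneg_right hS1' hb'0
      have h21 := mul_nonneg hS0 hb0
      linarith
    · have hbt : b ≤ t := by
        split_ifs at hr <;> omega
      have hkB : k ≤ B := by omega
      -- facts for t ≥ 1
      have ht1 : 1 ≤ t := by
        by_contra h0
        have : t = 0 := by omega
        have hb0 : b = 0 := by omega
        have hb0' : b' = 0 := by omega
        subst hb0 hb0'
        exact absurd hr (lt_irrefl _)
      obtain ⟨e, rfl⟩ : ∃ e, t = e + 1 := ⟨t - 1, by omega⟩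
      have he2 : e < 2 ^ e := Nat.lt_two_pow_self
      have he3 : 2 ^ e ≤ G ^ e := Nat.pow_le_pow_left (by omega) e
      have hk2 : k ≤ 2 * G ^ e := by omega
      have hGe : 1 ≤ G ^ e := Nat.one_le_pow _ _ hG1
      have hpow : G ^ (e + 1) = G ^ e * G := pow_succ _ _
      -- S > k + G ^ e
      have hSbig : k + G ^ e < S := by
        by_contra hcon
        push Not at hcon
        have h4 : k * S ≤ k * (k + G ^ e) := Nat.mul_le_mul_left _ hcon
        have h5 : k * (k + G ^ e) ≤ B * (3 * G ^ e) := Nat.mul_le_mul hkB (by omega)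
        have h6 : B * (3 * G ^ e) < G ^ e * G := by
          have h30 : G ^ e * G = G ^ e * (4 * B) + G ^ e * 10 := by rw [hG]; ring
          have h31 : B * (3 * G ^ e) = G ^ e * (3 * B) := by ring
          have h32 : G ^ e * (3 * B) ≤ G ^ e * (4 * B) := Nat.mul_le_mul_left _ (by omega)
          rw [h30, h31]
          omega
        omega
      rcases Nat.lt_or_ge b' (e + 1) with h2 | h2
      · rcases Nat.lt_or_ge b (e + 1) with h3 | h3
        · -- both < t: b' < b
          have hbb : b' < b := by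
            split_ifs at hr <;> omega
          have h4 : G ^ b ≤ G ^ e := hmono (by omega)
          have h4' : (G : ℤ) ^ b ≤ (G : ℤ) ^ e := by exact_mod_cast h4
          have h5 : (0 : ℤ) ≤ (G : ℤ) ^ b' := by positivity
          have h6 : (G : ℤ) ^ e < S := by
            have : G ^ e < S := by omega
            exact_mod_cast this
          have h7 : (b' : ℤ) + 1 ≤ b := by exact_mod_cast hbb
          have hS0 : (0 : ℤ) ≤ S := by positivity
          have h20 : (S : ℤ) * b' + S ≤ S * b := by
            have := mul_le_mul_of_nonneg_left h7 hS0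
            rwa [mul_add, mul_one] at this
          linarith
        · -- b = t, b' < i
          have hbe : b = e + 1 := by omega
          have hb'i : b' < i := by
            by_contra hcon
            split_ifs at hr <;> omega
          have hkk : k + b' ≤ b := by omega
          have h8 : (k : ℤ) + b' ≤ b := by exact_mod_cast hkk
          have hS0 : (0 : ℤ) ≤ S := by positivity
          have hS2' : (G : ℤ) ^ (e + 1) < k * S := by exact_mod_cast hS2
          have h5 : (0 : ℤ) ≤ (G : ℤ) ^ b' := by positivity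
          have h9 : (G : ℤ) ^ b = (G : ℤ) ^ (e + 1) := by rw [hbe]
          rw [h9]
          have h20 : (k : ℤ) * S + S * b' ≤ S * b := by
            have := mul_le_mul_of_nonneg_left h8 hS0
            rwa [mul_add, mul_comm (S : ℤ) (k : ℤ)] at this
          linarith
      · -- b' = t
        have hbe : b' = e + 1 := by omega
        have hbi : i ≤ b ∧ b < e + 1 := by
          constructor
          · by_contra hcon
            split_ifs at hr <;> omega
          · by_contra hcon
            split_ifs at hr <;> omega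
        have hkk : b' + 1 ≤ k + b := by omega
        have h8 : (b' : ℤ) + 1 ≤ k + b := by exact_mod_cast hkk
        have hS0 : (0 : ℤ) ≤ S := by positivity
        have hS3' : (k : ℤ) * S ≤ (G : ℤ) ^ (e + 1) + k := by exact_mod_cast hS3
        have h4 : G ^ b ≤ G ^ e := hmono (by omega)
        have h4' : (G : ℤ) ^ b ≤ (G : ℤ) ^ e := by exact_mod_cast h4
        have h9 : (G : ℤ) ^ b' = (G : ℤ) ^ (e + 1) := by rw [hbe]
        have h10 : (k : ℤ) + (G : ℤ) ^ e < S := by exact_mod_cast hSbig
        rw [h9]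
        have h20 : (S : ℤ) * b' + S ≤ k * S + S * b := by
          have := mul_le_mul_of_nonneg_left h8 hS0
          rwa [mul_add, mul_add, mul_one, mul_comm (S : ℤ) (k : ℤ)] at this
        linarith
  -- back to naturals
  show G ^ b + (G ^ B + 1) * (B - b) + ((G ^ B + 1) - (G ^ t / (t - i + 1) + 1)) * b
    < G ^ b' + (G ^ B + 1) * (B - b') + ((G ^ B + 1) - (G ^ t / (t - i + 1) + 1)) * b'
  rw [← hS]
  have e1 : ∀ c : ℕ, c < B → (((G ^ c + (G ^ B + 1) * (B - c)) + ((G ^ B + 1) - S) * c : ℕ) : ℤ)
      = (G : ℤ) ^ c - S * c + ((G : ℤ) ^ B + 1) * B := by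
    intro c hc
    push_cast [Nat.cast_sub hc.le, Nat.cast_sub hSB]
    ring
  have e2 := e1 b hb
  have e3 := e1 b' hb'
  have : ((G ^ b + (G ^ B + 1) * (B - b) + ((G ^ B + 1) - S) * b : ℕ) : ℤ)
      < ((G ^ b' + (G ^ B + 1) * (B - b') + ((G ^ B + 1) - S) * b' : ℕ) : ℤ) := by
    rw [e2, e3]
    linarith
  exact_mod_cast this

end Pool.Agent.Lib.MP_6b2d39_ag
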