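import Pool.Agent.Lib.MP_6b2d39_ag.CoreB
import Pool.Agent.Lib.MP_6b2d39_ag.Ranks

/-!
The invariant of the greedy arrangement and the main inequality.
-/

namespace Pool.Agent.Lib.MP_6b2d39_ag

open Finset

/-- rows `> b` are exact; `kk r` = number of points inserted at the levels `> r` -/
structure GInv (n M B : ℕ) (μ s : ℕ → ℕ) (b : ℕ) (kk t i : ℕ → ℕ) : Prop where
  top : kk (B - 1) = 0
  mono : ∀ r, b < r → r < B → kk r ≤ kk (r - 1)
  le : kk b ≤ n
  bd : ∀ p, t p < B ∧ i p ≤ t p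
  lvl : ∀ r, b < r → r < B → ∀ p, kk r ≤ p → p < kk (r - 1) → t p = r ∧ r - i p < min r (μ p)
  un : ∀ p, kk b ≤ p → t p = 0 ∧ i p = 0
  exact' : ∀ r, b < r → r < B → ∑ p ∈ range n, (μ p - rk (t p) (i p) r) = s r
  loss : ∀ r, b < r → r < B → ∑ p ∈ Ico (kk r) (kk (r - 1)), (r - i p) + 1 ≤ min r M
  part : ∀ r, b < r → r < B →
    ((Ico (kk r) (kk (r - 1))).filter (fun p => r - i p ≠ 0)).card ≤ 2
  half : ∀ r, b < r → r < 2 * M → ∀ p, kk r ≤ p → p < kk (r - 1) → r ≤ 2 * i p
  full : ∀ r, b < r → r + 3 ≤ B → μ (kk r) < r →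
    7 ≤ ((Ico (kk r) (kk (r - 1))).filter (fun p => i p = r)).card

theorem rk_zero (b : ℕ) : rk 0 0 b = b := by
  unfold rk
  split_ifs <;> omega

theorem sum_tsub_choose {m B : ℕ} (h : m ≤ B) : ∑ r ∈ range B, (m - r) = (m + 1).choose 2 := by
  obtain ⟨e, rfl⟩ := Nat.exists_eq_add_of_le h
  clear h
  induction e with
  | zero =>
    rw [add_zero]
    induction m with
    | zero => simp
    | succ m ih =>
      have h1 : ∑ r ∈ range m, (m + 1 - (r + 1)) = ∑ r ∈ range m, (m - r) := by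
        apply sum_congr rfl
        intro r _
        omega
      have h2 : (m + 1 + 1).choose 2 = (m + 1) + (m + 1).choose 2 := by
        rw [Nat.choose_succ_succ' (m + 1) 1, Nat.choose_one_right]
      rw [sum_range_succ', h1, ih, h2]
      omega
  | succ e ih =>
    rw [← add_assoc, sum_range_succ, ih]
    omega

section inv

variable {n M B : ℕ} {μ s : ℕ → ℕ} {b : ℕ} {kk t i : ℕ → ℕ}

theorem GInv.anti (h : GInv n M B μ s b kk t i) {r r' : ℕ} (hr : b ≤ r) (hrr : r ≤ r')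
    (hr' : r' < B) : kk r' ≤ kk r := by
  induction r', hrr using Nat.le_induction with
  | base => exact le_rfl
  | succ m hm ih =>
    have h1 := h.mono (m + 1) (by omega) hr'
    rw [Nat.add_sub_cancel] at h1
    exact h1.trans (ih (by omega))

theorem GInv.sum_levels (h : GInv n M B μ s b kk t i) (F : ℕ → ℤ) :
    ∀ e r, r + e + 1 = B → b ≤ r → ∑ p ∈ range (kk r), F p =
      ∑ u ∈ Ico (r + 1) B, ∑ p ∈ Ico (kk u) (kk (u - 1)), F p := by
  intro e
  induction e with
  | zero =>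
    intro r hr hbr
    have h1 : r = B - 1 := by omega
    rw [h1, h.top, show B - 1 + 1 = B by omega]
    simp
  | succ e ih =>
    intro r hr hbr
    have h1 := ih (r + 1) (by omega) (by omega)
    have h2 : kk (r + 1) ≤ kk r := by
      have := h.mono (r + 1) (by omega) (by omega)
      simpa using this
    rw [sum_eq_sum_Ico_succ_bot (by omega : r + 1 < B), ← h1, Nat.add_sub_cancel,
      range_eq_Ico, range_eq_Ico, add_comm,
      sum_Ico_consecutive _ (Nat.zero_le _) h2]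

/-- total mass of a point -/
theorem point_mass (hM : ∀ p, μ p ≤ M) (hMB : M ≤ B) {p : ℕ} (hp : t p < B ∧ i p ≤ t p) :
    ∑ r ∈ range B, (μ p - rk (t p) (i p) r) = (μ p + 1).choose 2 := by
  rw [sum_rk hp.2 hp.1 (fun k => μ p - k)]
  exact sum_tsub_choose ((hM p).trans hMB)

theorem GInv.mass (h : GInv n M B μ s b kk t i) (hM : ∀ p, μ p ≤ M) (hMB : M ≤ B) (hbB : b < B)
    (hs : ∑ b ∈ range B, s b = ∑ p ∈ range n, (μ p + 1).choose 2) :
    ∑ r ∈ range (b + 1), ∑ p ∈ range n, (μ p - rk (t p) (i p) r) =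
      ∑ r ∈ range (b + 1), s r := by
  have h1 : ∑ r ∈ range B, ∑ p ∈ range n, (μ p - rk (t p) (i p) r) = ∑ r ∈ range B, s r := by
    rw [sum_comm, hs]
    apply sum_congr rfl
    intro p _
    exact point_mass hM hMB (h.bd p)
  have h2 : ∀ F : ℕ → ℕ, ∑ r ∈ range B, F r =
      ∑ r ∈ range (b + 1), F r + ∑ r ∈ Ico (b + 1) B, F r := by
    intro F
    rw [range_eq_Ico, range_eq_Ico, sum_Ico_consecutive _ (Nat.zero_le _) (by omega)]
  rw [h2, h2] at h1
  have h3 : ∑ r ∈ Ico (b + 1) B, ∑ p ∈ range n, (μ p - rk (t p) (i p) r) =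
      ∑ r ∈ Ico (b + 1) B, s r := by
    apply sum_congr rfl
    intro r hr
    rw [mem_Ico] at hr
    exact h.exact' r (by omega) hr.2
  omega

/-- slices of an inserted point increase up to its level -/
theorem GInv.low_le (h : GInv n M B μ s b kk t i) {p : ℕ} (hp : p < kk b) (hbB : b < B) {r : ℕ}
    (hr : r ≤ b) : μ p - rk (t p) (i p) r ≤ μ p - rk (t p) (i p) b ∧
      ∃ u, b < u ∧ u < B ∧ kk u ≤ p ∧ p < kk (u - 1) := by
  -- find the level
  have hex : ∃ u, b < u ∧ u < B ∧ kk u ≤ p ∧ p < kk (u - 1) := by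
    have hP : ∃ u, b ≤ u ∧ u < B ∧ kk u ≤ p := ⟨B - 1, by omega, by omega, by rw [h.top]; omega⟩
    classical
    let u := Nat.find hP
    obtain ⟨h1, h2, h3⟩ := Nat.find_spec hP
    have h4 : u ≠ b := by
      intro h5
      have : kk u ≤ p := h3
      rw [h5] at this
      omega
    have h5 : b < u := lt_of_le_of_ne h1 (Ne.symm h4)
    refine ⟨u, h5, h2, h3, ?_⟩
    by_contra h6
    push Not at h6
    have := Nat.find_min hP (m := u - 1) (by omega)
    exact this ⟨by omega, by omega, h6⟩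
  refine ⟨?_, hex⟩
  obtain ⟨u, h1, h2, h3, h4⟩ := hex
  obtain ⟨h5, h6⟩ := h.lvl u h1 h2 p h3 h4
  have h7 := (h.bd p).2
  rw [h5] at h7 ⊢
  unfold rk
  split_ifs <;> omega

/-- enough points are left -/
theorem GInv.supply (h : GInv n M B μ s b kk t i) (hM : ∀ p, μ p ≤ M) (hMB : M ≤ B) (hbB : b < B)
    (hanti : ∀ r ≤ b, s b ≤ s r)
    (hs : ∑ b ∈ range B, s b = ∑ p ∈ range n, (μ p + 1).choose 2) :
    s b ≤ ∑ p ∈ range n, (μ p - rk (t p) (i p) b) + ∑ p ∈ Ico (kk b) n, min b (μ p) := by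
  have h1 := h.mass hM hMB hbB hs
  have h2 : (b + 1) * s b ≤ ∑ r ∈ range (b + 1), s r := by
    have h3 := card_nsmul_le_sum (range (b + 1)) s (s b) (fun r hr => hanti r
      (by rw [mem_range] at hr; omega))
    rwa [card_range, smul_eq_mul] at h3
  have hsplit : ∀ F : ℕ → ℕ, ∑ p ∈ range n, F p =
      ∑ p ∈ range (kk b), F p + ∑ p ∈ Ico (kk b) n, F p := by
    intro F
    rw [range_eq_Ico, range_eq_Ico, sum_Ico_consecutive _ (Nat.zero_le _) h.le]
  have h3 : ∑ r ∈ range (b + 1), ∑ p ∈ range n, (μ p - rk (t p) (i p) r) ≤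
      (b + 1) * (∑ p ∈ range n, (μ p - rk (t p) (i p) b) + ∑ p ∈ Ico (kk b) n, min b (μ p)) := by
    rw [sum_comm, hsplit, hsplit, add_assoc, mul_add, mul_add, ← mul_add, ← sum_add_distrib,
      mul_sum, mul_sum]
    apply add_le_add
    · apply sum_le_sum
      intro p hp
      rw [mem_range] at hp
      have h3 := sum_le_card_nsmul (range (b + 1)) (fun r => μ p - rk (t p) (i p) r)
        (μ p - rk (t p) (i p) b) (fun r hr => (h.low_le hp hbB
          (by rw [mem_range] at hr; omega)).1)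
      rwa [card_range, smul_eq_mul] at h3
    · apply sum_le_sum
      intro p hp
      rw [mem_Ico] at hp
      obtain ⟨h4, h5⟩ := h.un p hp.1
      have h6 := sum_le_card_nsmul (range (b + 1)) (fun r => μ p - rk (t p) (i p) r)
        (μ p - rk (t p) (i p) b + min b (μ p)) (fun r _ => by
          rw [h4, h5, rk_zero, rk_zero]
          omega)
      rwa [card_range, smul_eq_mul] at h6
  rw [h1] at h3
  exact Nat.le_of_mul_le_mul_left (h2.trans h3) (by omega)

/-- the direct estimate when all the remaining points have multiplicity at most `b` -/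
theorem GInv.direct (h : GInv n M B μ s b kk t i) (hμ : Antitone μ) (hb1 : b + 1 < B)
    (hb : μ (kk b) ≤ b) :
    ∑ p ∈ range n, (μ p - rk (t p) (i p) b) + 1 ≤ s (b + 1) + min (b + 1) M := by
  have h1 := h.exact' (b + 1) (by omega) hb1
  have h2 := h.loss (b + 1) (by omega) hb1
  have h3 : kk (b + 1) ≤ kk b := by simpa using h.mono (b + 1) (by omega) hb1
  have hsplit : ∀ F : ℕ → ℕ, ∑ p ∈ range n, F p =
      ∑ p ∈ range (kk (b + 1)), F p + ∑ p ∈ Ico (kk (b + 1)) (kk b), F p +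
        ∑ p ∈ Ico (kk b) n, F p := by
    intro F
    rw [range_eq_Ico, range_eq_Ico, sum_Ico_consecutive _ (Nat.zero_le _) h3,
      sum_Ico_consecutive _ (Nat.zero_le _) h.le]
  rw [Nat.add_sub_cancel] at h2
  rw [hsplit] at h1 ⊢
  have h4 : ∑ p ∈ Ico (kk b) n, (μ p - rk (t p) (i p) b) = 0 := by
    apply sum_eq_zero
    intro p hp
    rw [mem_Ico] at hp
    obtain ⟨h5, h6⟩ := h.un p hp.1
    rw [h5, h6, rk_zero]
    have := hμ hp.1
    omega
  have h5 : ∑ p ∈ range (kk (b + 1)), (μ p - rk (t p) (i p) b) ≤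
      ∑ p ∈ range (kk (b + 1)), (μ p - rk (t p) (i p) (b + 1)) := by
    apply sum_le_sum
    intro p hp
    rw [mem_range] at hp
    obtain ⟨-, u, h6, h7, h8, h9⟩ := h.low_le (lt_of_lt_of_le hp h3) (by omega) (le_refl b)
    have h10 : u ≠ b + 1 := by
      rintro rfl
      omega
    obtain ⟨h11, h12⟩ := h.lvl u h6 h7 p h8 h9
    have h13 := (h.bd p).2
    rw [h11] at h13 ⊢
    unfold rk
    split_ifs <;> omega
  have h6 : ∑ p ∈ Ico (kk (b + 1)) (kk b), (μ p - rk (t p) (i p) b) ≤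
      ∑ p ∈ Ico (kk (b + 1)) (kk b), (μ p - rk (t p) (i p) (b + 1)) +
        ∑ p ∈ Ico (kk (b + 1)) (kk b), (b + 1 - i p) := by
    rw [← sum_add_distrib]
    apply sum_le_sum
    intro p hp
    rw [mem_Ico] at hp
    obtain ⟨h11, h12⟩ := h.lvl (b + 1) (by omega) hb1 p hp.1 (by simpa using hp.2)
    have h13 := (h.bd p).2
    rw [h11] at h13 ⊢
    unfold rk
    split_ifs <;> omega
  omega

end inv

end Pool.Agent.Lib.MP_6b2d39_ag
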