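import Pool.Agent.Lib.MP_6b2d39_ag.CoreC

/-!
The main inequality of the greedy arrangement (crossing case).
-/

namespace Pool.Agent.Lib.MP_6b2d39_ag

open Finset

variable {n M B : ℕ} {μ s : ℕ → ℕ} {b : ℕ} {kk t i : ℕ → ℕ}

theorem GInv.crossing (h : GInv n M B μ s b kk t i) (hμ : Antitone μ) (hM : ∀ p, μ p ≤ M)
    (hB : 2 * M + 2 ≤ B) (hb : b + 1 ≤ μ (kk b)) {j : ℕ} (hj : 1 ≤ j) (hjb : j ≤ b) :
    ∃ u, b + 2 ≤ u ∧ u + 3 ≤ B ∧ μ (kk u) + j = u ∧ μ (kk (u - 1)) = μ (kk u) := by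
  have hMb := hM (kk b)
  have hP : ∃ u, b ≤ u ∧ u < B ∧ μ (kk u) + j ≤ u := by
    refine ⟨B - 1, by omega, by omega, ?_⟩
    have := hM (kk (B - 1))
    omega
  classical
  obtain ⟨u, ⟨h1, h2, h3⟩, hmin⟩ : ∃ u, (b ≤ u ∧ u < B ∧ μ (kk u) + j ≤ u) ∧
      ∀ v < u, ¬ (b ≤ v ∧ v < B ∧ μ (kk v) + j ≤ v) :=
    ⟨Nat.find hP, Nat.find_spec hP, fun v hv => Nat.find_min hP hv⟩
  have h4 : u ≠ b := by
    rintro rfl
    omega
  have h5 : b < u := lt_of_le_of_ne h1 (Ne.symm h4)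
  have h6 := hmin (u - 1) (by omega)
  have h7 : ¬ (μ (kk (u - 1)) + j ≤ u - 1) := fun h7 => h6 ⟨by omega, by omega, h7⟩
  have h8 : μ (kk (u - 1)) ≤ μ (kk u) := hμ (h.mono u h5 h2)
  have h9 : u ≠ b + 1 := by
    rintro rfl
    rw [Nat.add_sub_cancel] at h7 h8
    omega
  have h10 := hM (kk u)
  refine ⟨u, by omega, by omega, by omega, by omega⟩

theorem GInv.level_bound (h : GInv n M B μ s b kk t i) (hμ : Antitone μ) (hM : ∀ p, μ p ≤ M)
    (hbM : b < M) {u : ℕ} (hu : b + 2 ≤ u) (huB : u < B) :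
    -(if u ≤ 2 * b then 4 * (b : ℤ) else 0) ≤
      ∑ p ∈ Ico (kk u) (kk (u - 1)), Lam b (fun r => ((μ p - rk (t p) (i p) r : ℕ) : ℤ)) ∧
    (∀ j : ℕ, j ≤ b → u + 3 ≤ B → 1 ≤ j → μ (kk u) + j = u → μ (kk (u - 1)) = μ (kk u) →
      -(if u ≤ 2 * b then 4 * (b : ℤ) else 0) + 7 * ((j : ℤ) * (j + 1)) ≤
      ∑ p ∈ Ico (kk u) (kk (u - 1)), Lam b (fun r => ((μ p - rk (t p) (i p) r : ℕ) : ℤ))) := by
  set P := Ico (kk u) (kk (u - 1)) with hP
  have hpt : ∀ p ∈ P, (if i p ≤ b then -(2 * (b : ℤ)) else 0) +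
      Lam b (fun r => ((μ p - (u - r) : ℕ) : ℤ)) ≤
      Lam b (fun r => ((μ p - rk (t p) (i p) r : ℕ) : ℤ)) := by
    intro p hp
    rw [hP, mem_Ico] at hp
    obtain ⟨h1, h2⟩ := h.lvl u (by omega) huB p hp.1 hp.2
    have h3 := (h.bd p).2
    rw [h1] at h3 ⊢
    exact Lam_high hu (by omega) h3
  have hsum : ∑ p ∈ P, (if i p ≤ b then -(2 * (b : ℤ)) else 0) +
      ∑ p ∈ P, Lam b (fun r => ((μ p - (u - r) : ℕ) : ℤ)) ≤
      ∑ p ∈ P, Lam b (fun r => ((μ p - rk (t p) (i p) r : ℕ) : ℤ)) := by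
    rw [← sum_add_distrib]
    exact sum_le_sum hpt
  have hneg : -(if u ≤ 2 * b then 4 * (b : ℤ) else 0) ≤
      ∑ p ∈ P, (if i p ≤ b then -(2 * (b : ℤ)) else 0) := by
    rw [← sum_filter, sum_const, nsmul_eq_mul]
    have hcard : (P.filter (fun p => i p ≤ b)).card ≤ 2 := by
      refine (card_le_card ?_).trans (h.part u (by omega) huB)
      intro p hp
      rw [mem_filter] at hp ⊢
      exact ⟨hp.1, by omega⟩
    split_ifs with h1
    · have h2 : ((P.filter (fun p => i p ≤ b)).card : ℤ) ≤ 2 := by exact_mod_cast hcard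
      have h3 : (0 : ℤ) ≤ b := by positivity
      nlinarith
    · have h2 : P.filter (fun p => i p ≤ b) = ∅ := by
        rw [filter_eq_empty_iff]
        intro p hp
        rw [hP, mem_Ico] at hp
        rcases Nat.lt_or_ge u (2 * M) with h3 | h3
        · have := h.half u (by omega) h3 p hp.1 hp.2
          omega
        · obtain ⟨h4, h5⟩ := h.lvl u (by omega) huB p hp.1 hp.2
          have := hM p
          omega
      rw [h2]
      simp
  have hfull : ∀ p ∈ P, 0 ≤ Lam b (fun r => ((μ p - (u - r) : ℕ) : ℤ)) := fun p _ =>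
    Lam_full (μ p) (by omega)
  refine ⟨?_, ?_⟩
  · have := sum_nonneg hfull
    linarith
  · intro j hjb huB3 hj1 hj2 hj3
    have h1 : ∀ p ∈ P, Lam b (fun r => ((μ p - (u - r) : ℕ) : ℤ)) = (j : ℤ) * (j + 1) := by
      intro p hp
      rw [hP, mem_Ico] at hp
      have h2 : μ p = μ (kk u) := by
        have h3 := hμ hp.1
        have h4 : μ (kk (u - 1)) ≤ μ p := hμ (le_of_lt hp.2)
        omega
      rw [h2]
      exact Lam_source hu hj2 hjb
    rw [sum_congr rfl h1, sum_const, nsmul_eq_mul] at hsum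
    have h2 := h.full u (by omega) huB3 (by omega)
    have h3 : 7 ≤ P.card := h2.trans (card_filter_le _ _)
    have h4 : (7 : ℤ) ≤ P.card := by exact_mod_cast h3
    have h5 : (0 : ℤ) ≤ (j : ℤ) * (j + 1) := by positivity
    nlinarith

theorem GInv.front_bound (h : GInv n M B μ s b kk t i) (hb1 : 1 ≤ b) (hbB : b + 1 < B) :
    -(((b : ℤ) + 2) * (b - 1) * b) - 2 * ((b + 1) * (b + 2)) ≤
      ∑ p ∈ Ico (kk (b + 1)) (kk b), Lam b (fun r => ((μ p - rk (t p) (i p) r : ℕ) : ℤ)) := by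
  have hl := h.loss (b + 1) (by omega) hbB
  have hc := h.part (b + 1) (by omega) hbB
  rw [Nat.add_sub_cancel] at hl hc
  have hpt : ∀ p ∈ Ico (kk (b + 1)) (kk b),
      -(((b : ℤ) + 2) * (b - 1) * ((b + 1 - i p : ℕ) : ℤ)) -
      (if b + 1 - i p ≠ 0 then ((b : ℤ) + 1) * (b + 2) else 0) ≤
      Lam b (fun r => ((μ p - rk (t p) (i p) r : ℕ) : ℤ)) := by
    intro p hp
    rw [mem_Ico] at hp
    obtain ⟨h1, h2⟩ := h.lvl (b + 1) (by omega) hbB p hp.1 (by simpa using hp.2)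
    have h3 := (h.bd p).2
    rw [h1] at h3 ⊢
    have h4 := Lam_front (b := b) (i := i p) (m := μ p) (by omega) h3
    refine le_trans ?_ h4
    have h5 : (b + 1 - i p ≠ 0) ↔ i p < b + 1 := by omega
    simp only [h5]
    exact le_rfl
  have hsum := sum_le_sum hpt
  refine le_trans ?_ hsum
  rw [sum_sub_distrib, sum_neg_distrib, ← mul_sum, ← sum_filter, sum_const, nsmul_eq_mul]
  have h1 : ∑ p ∈ Ico (kk (b + 1)) (kk b), ((b + 1 - i p : ℕ) : ℤ) ≤ b := by
    have : ∑ p ∈ Ico (kk (b + 1)) (kk b), (b + 1 - i p) ≤ b := by omega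
    exact_mod_cast this
  have h2 : (((Ico (kk (b + 1)) (kk b)).filter (fun p => b + 1 - i p ≠ 0)).card : ℤ) ≤ 2 := by
    exact_mod_cast hc
  have h3 : (0 : ℤ) ≤ ((b : ℤ) + 2) * (b - 1) := by
    have : (1 : ℤ) ≤ b := by exact_mod_cast hb1
    nlinarith
  have h4 : (0 : ℤ) ≤ ((b : ℤ) + 1) * (b + 2) := by positivity
  nlinarith [mul_le_mul_of_nonneg_left h1 h3, mul_le_mul_of_nonneg_right h2 h4]

theorem sum_pronic (b : ℕ) : 3 * ∑ j ∈ Icc 1 b, ((j : ℤ) * (j + 1)) = b * (b + 1) * (b + 2) := by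
  induction b with
  | zero => simp
  | succ b ih =>
    rw [sum_Icc_succ_top (by omega), mul_add, ih]
    push_cast
    ring

/-- sum of the functional over all points -/
theorem sum_Lam (h : GInv n M B μ s b kk t i) (hM : ∀ p, μ p ≤ M) (hMB : M ≤ B) (hbB : b + 1 < B)
    (hs : ∑ b ∈ range B, s b = ∑ p ∈ range n, (μ p + 1).choose 2) :
    ∑ p ∈ range n, Lam b (fun r => ((μ p - rk (t p) (i p) r : ℕ) : ℤ)) =
      b * (b + 1) * s (b + 1) + 2 * ∑ r ∈ range (b + 1), (s r : ℤ) -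
        (b + 1) * (b + 2) * (∑ p ∈ range n, (μ p - rk (t p) (i p) b) : ℕ) := by
  have h1 := h.exact' (b + 1) (by omega) hbB
  have h2 := h.mass hM hMB (by omega) hs
  unfold Lam
  rw [sum_sub_distrib, sum_add_distrib, ← mul_sum, ← mul_sum, ← mul_sum, sum_comm]
  rw [← h1]
  have h3 : (∑ r ∈ range (b + 1), ∑ p ∈ range n, ((μ p - rk (t p) (i p) r : ℕ) : ℤ)) =
      ∑ r ∈ range (b + 1), (s r : ℤ) := by exact_mod_cast h2
  rw [h3]
  push_cast
  ring

/-- the main inequality -/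
theorem GInv.main (h : GInv n M B μ s b kk t i) (hμ : Antitone μ) (hM : ∀ p, μ p ≤ M)
    (hB : 2 * M + 2 ≤ B) (hb1 : 1 ≤ b) (hb : b + 1 ≤ μ (kk b)) {A : ℕ}
    (h1 : ∀ b < M, s b = s (b + 1) + A)
    (hs : ∑ b ∈ range B, s b = ∑ p ∈ range n, (μ p + 1).choose 2) :
    ∑ p ∈ range n, (μ p - rk (t p) (i p) b) + b ≤ s b := by
  have hbM : b < M := by have := hM (kk b); omega
  have hsL := sum_Lam h hM (by omega) (by omega) hs
  -- the arithmetic progression
  have hA : ∀ r ≤ b + 1, (s r : ℤ) = s (b + 1) + ((b + 1 - r : ℕ) : ℤ) * A := by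
    intro r hr
    obtain ⟨e, he⟩ := Nat.exists_eq_add_of_le hr
    have : ∀ e r, r + e = b + 1 → (s r : ℤ) = s (b + 1) + (e : ℤ) * A := by
      intro e
      induction e with
      | zero => intro r hr; rw [← hr]; simp
      | succ e ih =>
        intro r hr
        rw [h1 r (by omega)]
        push_cast
        rw [ih (r + 1) (by omega)]
        ring
    rw [this e r (by omega)]
    congr 2
    exact_mod_cast (by omega : e = b + 1 - r)
  have hsum : 2 * ∑ r ∈ range (b + 1), (s r : ℤ) =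
      2 * (b + 1) * s (b + 1) + (b + 1) * (b + 2) * A := by
    have h2 : ∑ r ∈ range (b + 1), (s r : ℤ) =
        ∑ r ∈ range (b + 1), ((s (b + 1) : ℤ) + ((b + 1 - r : ℕ) : ℤ) * A) := by
      apply sum_congr rfl
      intro r hr
      rw [mem_range] at hr
      exact hA r (by omega)
    rw [h2, sum_add_distrib, sum_const, card_range, nsmul_eq_mul, ← sum_mul]
    have h3 : ∑ r ∈ range (b + 1), ((b + 1 - r : ℕ) : ℤ) = ∑ k ∈ range (b + 1), ((k : ℤ) + 1) := by
      rw [← sum_range_reflect]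
      apply sum_congr rfl
      intro r hr
      rw [mem_range] at hr
      have : b + 1 - (b + 1 - 1 - r) = r + 1 := by omega
      rw [this]
      push_cast
      ring
    have h4 := two_sum_succ (b + 1)
    rw [h3]
    push_cast at h4 ⊢
    linear_combination (A : ℤ) * h4
  -- lower bound of the sum
  set L : ℕ → ℤ := fun p => Lam b (fun r => ((μ p - rk (t p) (i p) r : ℕ) : ℤ)) with hL
  have hsplit : ∑ p ∈ range n, L p = ∑ p ∈ range (kk b), L p + ∑ p ∈ Ico (kk b) n, L p := by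
    rw [range_eq_Ico, range_eq_Ico, sum_Ico_consecutive _ (Nat.zero_le _) h.le]
  have hun : 0 ≤ ∑ p ∈ Ico (kk b) n, L p := by
    apply sum_nonneg
    intro p hp
    rw [mem_Ico] at hp
    obtain ⟨h4, h5⟩ := h.un p hp.1
    simp only [hL, h4, h5, rk_zero]
    exact Lam_un b (μ p)
  have hlev := h.sum_levels L (B - 1 - b) b (by omega) le_rfl
  rw [sum_eq_sum_Ico_succ_bot (by omega : b + 1 < B), Nat.add_sub_cancel] at hlev
  have hfront := h.front_bound (μ := μ) hb1 (by omega : b + 1 < B)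
  -- the levels above
  classical
  choose! U hU using fun (j : ℕ) (hj : j ∈ Icc 1 b) =>
    h.crossing hμ hM hB hb (mem_Icc.1 hj).1 (mem_Icc.1 hj).2
  let J : ℕ → ℤ := fun u => if u ∈ (Icc 1 b).image U then
    7 * (((u - μ (kk u) : ℕ) : ℤ) * (((u - μ (kk u) : ℕ) : ℤ) + 1)) else 0
  have hlevel : ∀ u ∈ Ico (b + 2) B, -(if u ≤ 2 * b then 4 * (b : ℤ) else 0) + J u ≤
      ∑ p ∈ Ico (kk u) (kk (u - 1)), L p := by
    intro u hu
    rw [mem_Ico] at hu
    obtain ⟨h5, h6⟩ := h.level_bound hμ hM hbM hu.1 hu.2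
    by_cases h7 : u ∈ (Icc 1 b).image U
    · have h7' := h7
      rw [mem_image] at h7
      obtain ⟨j, hj, hju⟩ := h7
      have h8 := hU j hj
      rw [hju] at h8
      have h9 : u - μ (kk u) = j := by omega
      have h10 := h6 j (mem_Icc.1 hj).2 h8.2.1 (mem_Icc.1 hj).1 h8.2.2.1 h8.2.2.2
      simp only [J, if_pos h7', h9]
      exact h10
    · simp only [J, if_neg h7, add_zero]
      exact h5
  have hlevels := sum_le_sum hlevel
  rw [sum_add_distrib] at hlevels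
  have hJ : 7 * ∑ j ∈ Icc 1 b, ((j : ℤ) * (j + 1)) ≤ ∑ u ∈ Ico (b + 2) B, J u := by
    have h5 : ∑ u ∈ (Icc 1 b).image U, J u ≤ ∑ u ∈ Ico (b + 2) B, J u := by
      apply sum_le_sum_of_subset_of_nonneg
      · intro u hu
        rw [mem_image] at hu
        obtain ⟨j, hj, rfl⟩ := hu
        have h8 := hU j hj
        rw [mem_Ico]
        omega
      · intro u _ _
        simp only [J]
        split_ifs
        · positivity
    rw [sum_image] at h5
    · refine le_trans (le_of_eq ?_) h5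
      rw [mul_sum]
      apply sum_congr rfl
      intro j hj
      have h8 := hU j hj
      have h9 : U j - μ (kk (U j)) = j := by omega
      simp only [J]
      rw [if_pos (mem_image_of_mem U hj), h9]
    · intro j hj j' hj' hjj
      have h8 := hU j hj
      have h8' := hU j' hj'
      rw [hjj] at h8
      omega
  have hneg : -(4 * (b : ℤ) * (b - 1)) ≤
      ∑ u ∈ Ico (b + 2) B, -(if u ≤ 2 * b then 4 * (b : ℤ) else 0) := by
    rw [sum_neg_distrib, ← sum_filter, sum_const, nsmul_eq_mul, neg_le_neg_iff]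
    have h5 : ((Ico (b + 2) B).filter (fun u => u ≤ 2 * b)).card ≤ b - 1 := by
      have : (Ico (b + 2) B).filter (fun u => u ≤ 2 * b) ⊆ Ico (b + 2) (2 * b + 1) := by
        intro u hu
        rw [mem_filter, mem_Ico] at hu
        rw [mem_Ico]
        omega
      refine (card_le_card this).trans ?_
      rw [Nat.card_Ico]
      omega
    have h6 : (((Ico (b + 2) B).filter (fun u => u ≤ 2 * b)).card : ℤ) ≤ b - 1 := by
      have : ((b - 1 : ℕ) : ℤ) = b - 1 := by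
        rw [Nat.cast_sub hb1]
        simp
      rw [← this]
      exact_mod_cast h5
    have h7 : (0 : ℤ) ≤ 4 * b := by positivity
    nlinarith
  have hpron := sum_pronic b
  -- conclusion
  set cur := ∑ p ∈ range n, (μ p - rk (t p) (i p) b) with hcur
  have hfin : ((b : ℤ) + 1) * (b + 2) * ((s b : ℤ) - cur) = ∑ p ∈ range n, L p := by
    rw [hsL, hsum]
    have h5 := hA b (by omega)
    have h6 : b + 1 - b = 1 := by omega
    rw [h6] at h5
    rw [h5]
    push_cast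
    ring
  have hlow : -(((b : ℤ) + 2) * (b - 1) * b) - 2 * ((b + 1) * (b + 2)) - 4 * b * (b - 1) +
      7 * ∑ j ∈ Icc 1 b, ((j : ℤ) * (j + 1)) ≤ ∑ p ∈ range n, L p := by
    rw [hsplit, hlev]
    have h5 : (fun p => L p) = L := rfl
    linarith
  have hb' : (1 : ℤ) ≤ b := by exact_mod_cast hb1
  have hkey : ((b : ℤ) + 1) * (b + 2) * ((b : ℤ) - 1) <
      ((b : ℤ) + 1) * (b + 2) * ((s b : ℤ) - cur) := by
    rw [hfin]
    have h5 : 0 < (b : ℤ) ^ 3 - 6 * b ^ 2 + 17 * b - 6 := by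
      nlinarith [sq_nonneg ((b : ℤ) - 3), sq_nonneg ((b : ℤ) - 2), sq_nonneg ((b : ℤ) - 1)]
    nlinarith
  have h5 : (b : ℤ) - 1 < (s b : ℤ) - cur := lt_of_mul_lt_mul_left hkey (by positivity)
  have h6 : (b : ℤ) + cur ≤ s b := by linarith
  have h7 : b + cur ≤ s b := by exact_mod_cast h6
  omega

end Pool.Agent.Lib.MP_6b2d39_ag
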