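import Mathlib

namespace Pool.Agent.Lib.MP_6b2d39_ag

theorem chz (n : ℕ) : 2 * ((n.choose 2 : ℕ) : ℤ) = (n : ℤ) * (n - 1) := by
  induction n with
  | zero => simp
  | succ n ih =>
    rw [Nat.choose_succ_succ' n 1, Nat.choose_one_right]
    push_cast
    linarith

theorem consec (x : ℤ) : 0 ≤ x * (x - 1) := by
  rcases le_or_gt x 0 with h | h
  · nlinarith
  · nlinarith

theorem num1 (v w K : ℕ) : v * (K - 1) + w.choose 2 ≤ K.choose 2 + (v + w).choose 2 := by
  rcases Nat.eq_zero_or_pos K with h0 | h0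
  · subst h0
    have : w.choose 2 ≤ (v + w).choose 2 := Nat.choose_le_choose 2 (by omega)
    simpa using this
  · obtain ⟨k, rfl⟩ : ∃ k, K = k + 1 := ⟨K - 1, by omega⟩
    have h1 : k + 1 - 1 = k := rfl
    rw [h1]
    have h2 := chz w
    have h3 := chz (k + 1)
    have h4 := chz (v + w)
    have h5 := consec ((v : ℤ) - k)
    have h6 : (0 : ℤ) ≤ (v : ℤ) * w := by positivity
    push_cast at h2 h3 h4
    have : ((v * k + w.choose 2 : ℕ) : ℤ) ≤ ((k + 1).choose 2 + (v + w).choose 2 : ℕ) := by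
      push_cast
      nlinarith
    exact_mod_cast this

theorem sumTri (s u : ℕ) :
    ∑ b ∈ Finset.range u, (s - b) + (s + 1 - u).choose 2 = (s + 1).choose 2 := by
  induction u with
  | zero => simp
  | succ u ih =>
    rw [Finset.sum_range_succ]
    rcases Nat.lt_or_ge s u with h | h
    · have h1 : s + 1 - u = 0 := by omega
      have h2 : s + 1 - (u + 1) = 0 := by omega
      have h3 : s - u = 0 := by omega
      rw [h2, h3]
      rw [h1] at ih
      omega
    · obtain ⟨e, rfl⟩ : ∃ e, s = u + e := ⟨s - u, by omega⟩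
      have h1 : u + e + 1 - u = e + 1 := by omega
      have h2 : u + e + 1 - (u + 1) = e := by omega
      have h3 : u + e - u = e := by omega
      have h4 : (e + 1).choose 2 = e.choose 2 + e := by
        rw [Nat.choose_succ_succ' e 1, Nat.choose_one_right]; ring
      rw [h1] at ih
      rw [h2, h3]
      omega

theorem num2 (s K a u : ℕ) (ha1 : 1 ≤ a) (ha : a ≤ K) (hu : u ≤ s + K) :
    ∑ b ∈ Finset.range u, ((K - 1) + (s - b)) + (s + K - u).choose 2 ≤
      a.choose 2 + (s + K + K - a).choose 2 := by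
  have h1 := sumTri s u
  rw [Finset.sum_add_distrib, Finset.sum_const, Finset.card_range, smul_eq_mul]
  obtain ⟨k, rfl⟩ : ∃ k, K = k + 1 := ⟨K - 1, by omega⟩
  have h2 : k + 1 - 1 = k := rfl
  rw [h2]
  -- convexity
  have h3 : (k + 1).choose 2 + (s + (k + 1)).choose 2 ≤
      a.choose 2 + (s + (k + 1) + (k + 1) - a).choose 2 := by
    obtain ⟨δ, hδ⟩ : ∃ δ, k + 1 = a + δ := ⟨k + 1 - a, by omega⟩
    have h4 : s + (k + 1) + (k + 1) - a = s + a + δ + δ := by omega
    rw [h4, hδ]
    have e1 := chz (a + δ)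
    have e2 := chz (s + (a + δ))
    have e3 := chz a
    have e4 := chz (s + a + δ + δ)
    push_cast at e1 e2 e3 e4
    have : (((a + δ).choose 2 + (s + (a + δ)).choose 2 : ℕ) : ℤ) ≤
        (a.choose 2 + (s + a + δ + δ).choose 2 : ℕ) := by
      push_cast
      have p1 : (0 : ℤ) ≤ (δ : ℤ) * s := by positivity
      have p2 : (0 : ℤ) ≤ (δ : ℤ) * δ := by positivity
      nlinarith
    exact_mod_cast this
  refine le_trans ?_ h3
  rcases Nat.lt_or_ge (s + 1) u with h5 | h5
  · obtain ⟨w, rfl⟩ : ∃ w, u = s + 1 + w := ⟨u - (s + 1), by omega⟩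
    have h6 : s + 1 - (s + 1 + w) = 0 := by omega
    rw [h6] at h1
    obtain ⟨t, rfl⟩ : ∃ t, k = w + t := ⟨k - w, by omega⟩
    have h7 : s + (w + t + 1) - (s + 1 + w) = t := by omega
    rw [h7]
    have e1 := chz t
    have e2 := chz (w + t + 1)
    have e3 := chz (s + (w + t + 1))
    have e4 := chz (s + 1)
    have h8 : Nat.choose 0 2 = 0 := rfl
    rw [h8, add_zero] at h1
    rw [h1]
    push_cast at e1 e2 e3 e4
    have : (((s + 1 + w) * (w + t) + (s + 1).choose 2 + t.choose 2 : ℕ) : ℤ) ≤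
        ((w + t + 1).choose 2 + (s + (w + t + 1)).choose 2 : ℕ) := by
      push_cast
      have p1 : (0 : ℤ) ≤ (t : ℤ) * w := by positivity
      have p2 : (0 : ℤ) ≤ (t : ℤ) * t := by positivity
      have p3 : (0 : ℤ) ≤ (w : ℤ) * w := by positivity
      have p4 := consec (t : ℤ)
      nlinarith
    exact_mod_cast this
  · obtain ⟨w, hw⟩ : ∃ w, s + 1 = u + w := ⟨s + 1 - u, by omega⟩
    have h6 : s + 1 - u = w := by omega
    have h7 : s + (k + 1) - u = w + k := by omega
    rw [h6] at h1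
    rw [h7]
    have e1 := chz w
    have e2 := chz (k + 1)
    have e3 := chz (s + (k + 1))
    have e4 := chz (s + 1)
    have e5 := chz (w + k)
    have hs : (s : ℤ) = u + w - 1 := by omega
    have h1' : ((∑ b ∈ Finset.range u, (s - b) : ℕ) : ℤ) + (w.choose 2 : ℕ) =
        ((s + 1).choose 2 : ℕ) := by exact_mod_cast h1
    obtain ⟨sg, hsg⟩ : ∃ sg : ℕ, sg = ∑ b ∈ Finset.range u, (s - b) := ⟨_, rfl⟩
    rw [← hsg] at h1' ⊢
    push_cast at e1 e2 e3 e4 e5
    rw [hs] at e3 e4
    have : ((u * k + sg + (w + k).choose 2 : ℕ) : ℤ) ≤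
        ((k + 1).choose 2 + (s + (k + 1)).choose 2 : ℕ) := by
      push_cast
      have p1 := consec (k : ℤ)
      have p2 : (0 : ℤ) ≤ (k : ℤ) := by positivity
      nlinarith
    exact_mod_cast this

end Pool.Agent.Lib.MP_6b2d39_ag
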