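import Pool.Agent.Lib.MP_6b2d39_ag.Runs
import Pool.Agent.Lib.MP_6b2d39_ag.Nums

open Polynomial

namespace Pool.Agent.Lib.MP_6b2d39_ag

variable {k : Type} [Field k] {ι : Type} [DecidableEq ι] [Fintype ι]

/-- data of a growth -/
structure Gro (S : ι → Finset ℕ) (old : Finset ι) (j : ι) (n c κ : ℕ) : Prop where
  pos : ∀ i, ∀ s ∈ S i, 1 ≤ s
  nj : j ∉ old
  full : S j = Finset.Icc 1 c
  c1 : 1 ≤ c
  κn : κ ≤ n
  lt : ∀ b < κ, room S old n b < c ∧ 2 ≤ act (fun i => er^[b] (S i)) old
  inc : ∀ b ≤ κ, b + 1 ≤ room S old n b ∧ lineG S old b + room S old n b + b = n ∧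
    ∀ b' < b, room S old n b' < room S old n b

variable {S : ι → Finset ℕ} {old : Finset ι} {j : ι} {n c κ : ℕ}

omit [Fintype ι] in
theorem Gro.lt' (g : Gro S old j n c κ) : ∀ b < κ, 1 ≤ room S old n b ∧ room S old n b ≤ c := by
  intro b hb
  have h5 := (g.inc b (by omega)).1
  have h6 := (g.lt b hb).1
  omega

omit [Fintype ι] in
theorem Gro.inj (g : Gro S old j n c κ) :
    ∀ a < κ, ∀ b < κ, room S old n a = room S old n b → a = b := by
  intro a ha b hb hab
  rcases Nat.lt_trichotomy a b with h9 | h9 | h9
  · have := (g.inc b (by omega)).2.2 a h9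
    omega
  · exact h9
  · have := (g.inc a (by omega)).2.2 b h9
    omega

theorem Gro.mass (g : Gro S old j n c κ) :
    ∑ i, tot (growS S old j (room S old n) κ i) + (n + 1).choose 2 =
      ∑ i, tot (S i) + (n - κ + 1).choose 2 :=
  sum_tot_growS g.nj g.full g.κn g.lt' g.inj (fun b hb => (g.inc b (by omega)).2.1)

omit [Fintype ι] in
theorem Gro.card (g : Gro S old j n c κ) :
    (growS S old j (room S old n) κ j).card + κ = c := by
  rw [growS_self, g.full]
  have h1 : (Finset.range κ).image (room S old n) ⊆ Finset.Icc 1 c := by
    intro s hs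
    rw [Finset.mem_image] at hs
    obtain ⟨b, hb, rfl⟩ := hs
    exact Finset.mem_Icc.2 (g.lt' b (Finset.mem_range.1 hb))
  have h2 : ((Finset.range κ).image (room S old n)).card = κ := by
    rw [Finset.card_image_of_injOn, Finset.card_range]
    intro a ha b hb hab
    exact g.inj a (Finset.mem_range.1 ha) b (Finset.mem_range.1 hb) hab
  have h3 := Finset.card_le_card h1
  rw [Finset.card_sdiff_of_subset h1, h2]
  rw [h2] at h3
  simp only [Nat.card_Icc, Nat.add_sub_cancel] at h3 ⊢
  omega

omit [Fintype ι] in
theorem Gro.sub (g : Gro S old j n c κ) :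
    growS S old j (room S old n) κ j ⊆ Finset.Icc 1 c := by
  rw [growS_self, g.full]
  exact Finset.sdiff_subset

omit [Fintype ι] in
theorem Gro.intact (g : Gro S old j n c κ) :
    Finset.Icc (room S old n κ) c ⊆ growS S old j (room S old n) κ j := by
  rw [growS_self, g.full]
  intro s hs
  rw [Finset.mem_Icc] at hs
  rw [Finset.mem_sdiff, Finset.mem_Icc]
  have h1 := (g.inc κ le_rfl).1
  refine ⟨⟨by omega, hs.2⟩, ?_⟩
  rw [Finset.mem_image]
  rintro ⟨b, hb, hbs⟩
  have := (g.inc κ le_rfl).2.2 b (Finset.mem_range.1 hb)
  omega

omit [Fintype ι] in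
theorem Gro.line (g : Gro S old j n c κ) (b : ℕ) :
    lineG (growS S old j (room S old n) κ) (insert j old) b =
      mx (er^[b] (growS S old j (room S old n) κ j)) + lineG S old (κ + b) := by
  unfold lineG
  rw [Finset.sum_insert g.nj]
  congr 1
  apply Finset.sum_congr rfl
  intro i hi
  rw [growS_old g.nj hi, ← Function.iterate_add_apply, add_comm]

omit [Fintype ι] in
theorem Gro.line0 (g : Gro S old j n c κ) (hκ : ∀ b < κ, room S old n b < c) :
    ∑ i ∈ insert j old, mx (growS S old j (room S old n) κ i) = c + lineG S old κ := by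
  rw [Finset.sum_insert g.nj, mx_growS_self g.full g.c1 hκ]
  congr 1
  unfold lineG
  apply Finset.sum_congr rfl
  intro i hi
  rw [growS_old g.nj hi]

theorem lineG_anti (hpos : ∀ i, ∀ s ∈ S i, 1 ≤ s) (old : Finset ι) (a b : ℕ) :
    lineG S old (a + b) ≤ lineG S old a - b := by
  induction b with
  | zero => exact le_refl _
  | succ b ih =>
    have hpos' : ∀ i, ∀ s ∈ er^[a + b] (S i), 1 ≤ s :=
      fun i s hs => hpos i s (er_iter_subset (a + b) _ hs)
    have h7 := sum_mx_erase_le' hpos' old
    have h8 : ∑ i ∈ old, mx ((er^[a + b] (S i)).erase (mx (er^[a + b] (S i)))) =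
        lineG S old (a + (b + 1)) := by
      unfold lineG
      apply Finset.sum_congr rfl
      intro i _
      rw [← Nat.add_assoc, Function.iterate_succ_apply']
      rfl
    have h9 : ∑ i ∈ old, mx (er^[a + b] (S i)) = lineG S old (a + b) := rfl
    rw [h8, h9] at h7
    rcases Nat.eq_zero_or_pos (lineG S old (a + b)) with h0 | h0
    · omega
    · have : 1 ≤ act (fun i => er^[a + b] (S i)) old := act_pos (by rw [h9]; exact h0)
      omega

omit [Fintype ι] in
/-- if at most one point is active, the line is that point -/
theorem lineG_single {y : ι} (hy : y ∈ old) {a : ℕ}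
    (hact : act (fun i => er^[a] (S i)) old ≤ 1) (ha : a < (S y).card) (b : ℕ) :
    lineG S old (a + b) = mx (er^[a + b] (S y)) := by
  unfold lineG
  apply Finset.sum_eq_single_of_mem y hy
  intro i hi hiy
  have h1 : ¬ (er^[a] (S i)).Nonempty := by
    intro h
    have h2 : ({y, i} : Finset ι) ⊆ old.filter (fun i => (er^[a] (S i)).Nonempty) := by
      intro l hl
      rw [Finset.mem_insert, Finset.mem_singleton] at hl
      rw [Finset.mem_filter]
      rcases hl with rfl | rfl
      · exact ⟨hy, er_iter_nonempty ha⟩
      · exact ⟨hi, h⟩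
    have h3 := Finset.card_le_card h2
    rw [Finset.card_pair (fun e => hiy e.symm)] at h3
    have h4 : (old.filter (fun i => (er^[a] (S i)).Nonempty)).card ≤ 1 := hact
    omega
  rw [Finset.not_nonempty_iff_eq_empty] at h1
  have h2 : er^[a + b] (S i) = ∅ := by
    rw [add_comm, Function.iterate_add_apply, h1]
    exact er_iter_empty (by simp)
  rw [h2, mx_empty]

/-- the statement with a marked point on the line -/
def LowP (k : Type) [Field k] (ι : Type) [DecidableEq ι] [Fintype ι] (n : ℕ) : Prop :=
  ∀ (S : ι → Finset ℕ) (old : Finset ι) (y : ι),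
    (∀ i, i ∉ old → ∃ c, S i = Finset.Icc 1 c) → (∀ i, ∀ s ∈ S i, 1 ≤ s) →
    y ∈ old → (S y).Nonempty → ∑ i ∈ old, mx (S i) ≤ n →
    (n + 1).choose 2 + (qs (S y) + (n - (S y).card - 1).choose 2) ≤ ∑ i, tot (S i) →
    Good k n S old

/-- the statement without marked point -/
def Low0 (k : Type) [Field k] (ι : Type) [DecidableEq ι] [Fintype ι] (n : ℕ) : Prop :=
  ∀ (S : ι → Finset ℕ) (old : Finset ι),
    (∀ i, i ∉ old → ∃ c, S i = Finset.Icc 1 c) → (∀ i, ∀ s ∈ S i, 1 ≤ s) →
    ∑ i ∈ old, mx (S i) ≤ n →
    (n + 1).choose 2 + (n - 1).choose 2 ≤ ∑ i, tot (S i) → Good k n S old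

/-- the numerical bound for the rows after the growth, as long as the marked point is active -/
theorem cross_bound {Y Z : Finset ℕ} (hYpos : ∀ s ∈ Y, 1 ≤ s) (hZ : ∀ s ∈ Z, 1 ≤ s)
    {c e κ' m : ℕ} (hZc : mx Z ≤ c) (hc : c + 1 ≤ m + κ') {b : ℕ} (hb : b < m)
    (hYb : e + κ' + b < Y.card) :
    mx (er^[b] Z) + mx (er^[e + κ' + b] Y) ≤ (m - b) + (mx (er^[e + b] Y) - 1) := by
  have h1 := mx_er_iter_le hZ b
  have h2 := mx_er_iter_add hYpos (e + b) κ' (by omega)
  have h3 : e + b + κ' = e + κ' + b := by omega
  rw [h3] at h2
  have h4 : 1 ≤ mx (er^[e + κ' + b] Y) := by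
    have := card_le_mx (fun s hs => hYpos s (er_iter_subset (e + κ' + b) Y hs))
    rw [card_er_iter] at this
    omega
  omega

/-- The crossing lemma. -/
theorem cross [Infinite k] {h : ℕ} (hhn : h ≤ n)
    (IH : ∀ m, m < n → m ≤ h → LowP k ι m ∧ Low0 k ι m)
    (hfat : ∀ i, i ∉ old → ∃ c, S i = Finset.Icc 1 c)
    (g : Gro S old j n c κ) (hc : c + 1 ≤ h) {y : ι} (hy : y ∈ old)
    (hYh : n - h < (S y).card) (hYn : (S y).card < n)
    (hnofit : n < ∑ i ∈ old, mx (S i) + c)
    (hmass : (n + 1).choose 2 + (qs (er^[n - h] (S y)) + (n - (S y).card - 1).choose 2) ≤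
      ∑ i, tot (S i)) (hκh : n - h ≤ κ)
    (hstop : c ≤ room S old n κ ∨ act (fun i => er^[κ] (S i)) old ≤ 1) :
    Good k (n - κ) (growS S old j (room S old n) κ) (insert j old) := by
  have hpos := g.pos
  have hposY := hpos y
  obtain ⟨e, he⟩ : ∃ e, e = n - h := ⟨_, rfl⟩
  obtain ⟨κ', hκ'⟩ : ∃ κ', κ = e + κ' := ⟨κ - e, by omega⟩
  obtain ⟨m, hm⟩ : ∃ m, m = n - κ := ⟨_, rfl⟩
  have hκn := g.κn
  rw [← he] at hYh hmass hκh
  rw [← hm]
  have hmassG := g.mass
  rw [← hm] at hmassG
  have hcm : c + 1 ≤ m + κ' := by omega
  have hroomκ := g.inc κ le_rfl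
  set S' := growS S old j (room S old n) κ with hS'
  have hfat' : ∀ i, i ∉ insert j old → ∃ c, S' i = Finset.Icc 1 c := by
    intro i hi
    rw [hS', growS_off hi]
    exact hfat i (fun h' => hi (Finset.mem_insert_of_mem h'))
  have hpos' : ∀ i, ∀ s ∈ S' i, 1 ≤ s := fun i s hs => hpos i s (growS_subset i hs)
  have hyT : y ∈ insert j old := Finset.mem_insert_of_mem hy
  have hS'y : S' y = er^[κ] (S y) := growS_old g.nj hy
  have hcardj := g.card
  rw [← hS'] at hcardj
  have hκ1 : c ≤ room S old n κ → 1 ≤ κ := by
    intro h1
    rcases Nat.eq_zero_or_pos κ with h0 | h0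
    · have h2 := (g.inc 0 (by omega)).2.1
      rw [lineG_zero] at h2
      rw [h0] at h1
      omega
    · exact h0
  by_cases hfit : c ≤ room S old n κ
  · -- the point fits
    have hκ1' := hκ1 hfit
    have hroom : ∑ i ∈ insert j old, mx (S' i) ≤ m := by
      rw [hS', g.line0 (fun b hb => (g.lt b hb).1)]
      omega
    obtain ⟨hL, hL0⟩ := IH m (by omega) (by omega)
    rcases Nat.lt_or_ge κ (S y).card with h1 | h1
    · apply hL S' (insert j old) y hfat' hpos' hyT
      · rw [hS'y]
        exact er_iter_nonempty h1
      · exact hroom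
      · rw [hS'y, card_er_iter]
        have h2 : qs (er^[κ] (S y)) ≤ qs (er^[e] (S y)) := by
          have : er^[κ] (S y) = er^[κ'] (er^[e] (S y)) := by
            rw [← Function.iterate_add_apply, hκ', add_comm]
          rw [this]
          exact qs_mono (er_iter_subset _ _)
        have h3 : m - ((S y).card - κ) - 1 = n - (S y).card - 1 := by omega
        rw [h3]
        omega
    · apply hL0 S' (insert j old) hfat' hpos' hroom
      have h2 : (m - 1).choose 2 ≤ (n - (S y).card - 1).choose 2 :=
        Nat.choose_le_choose 2 (by omega)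
      omega
  · -- at most one old point is active
    have hact : act (fun i => er^[κ] (S i)) old ≤ 1 := by
      rcases hstop with h1 | h1
      · exact absurd h1 hfit
      · exact h1
    apply pair_run
    intro u hum hover hland
    have hmassR := sum_tot_runS S' (insert j old) u
    have htri := tri_sum (N := m) (g := fun b => m - b) u hum (fun b hb => by omega)
    have hfatR : ∀ i, i ∉ insert j old →
        ∃ c, runS S' (insert j old) u i = Finset.Icc 1 c := by
      intro i hi
      rw [runS_off hi]
      exact hfat' i hi
    have hposR : ∀ i, ∀ s ∈ runS S' (insert j old) u i, 1 ≤ s :=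
      fun i s hs => hpos' i s (runS_subset i hs)
    have hroomR : ∑ i ∈ insert j old, mx (runS S' (insert j old) u i) ≤ m - u := by
      have h1 : ∑ i ∈ insert j old, mx (runS S' (insert j old) u i) =
          lineG S' (insert j old) u := by
        unfold lineG
        apply Finset.sum_congr rfl
        intro i hi
        rw [runS_mem hi]
      rw [h1]
      omega
    have hRy : runS S' (insert j old) u y = er^[κ + u] (S y) := by
      rw [runS_mem hyT, hS'y, ← Function.iterate_add_apply, add_comm]
    have hmxZ : mx (S' j) ≤ c := mx_le_of_subset g.sub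
    -- landing row is smaller
    have hlt : m - u < n ∨ n = 0 := by
      rcases Nat.eq_zero_or_pos κ with h0 | h0
      · rcases Nat.eq_zero_or_pos u with h1 | h1
        · exfalso
          have h2 : lineG S' (insert j old) 0 = c + lineG S old κ := by
            rw [lineG_zero, hS', g.line0 (fun b hb => (g.lt b hb).1)]
          rw [h1, h2, h0, lineG_zero] at hland
          omega
        · omega
      · omega
    have hn0 : n ≠ 0 := by omega
    have hlt' : m - u < n := by
      rcases hlt with h1 | h1
      · exact h1
      · exact absurd h1 hn0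
    obtain ⟨hL, hL0⟩ := IH (m - u) hlt' (by omega)
    -- the new point is active whenever the line is too full and no old point is active enough
    rcases Nat.lt_or_ge κ (S y).card with h1 | h1
    · -- the marked point is active
      have hline : ∀ b, lineG S' (insert j old) b =
          mx (er^[b] (S' j)) + mx (er^[e + κ' + b] (S y)) := by
        intro b
        rw [hS', g.line b, lineG_single hy hact h1 b, hκ']
      rcases Nat.lt_or_ge (κ + u) (S y).card with h2 | h2
      · -- still active at the landing
        apply hL _ (insert j old) y hfatR hposR hyT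
        · rw [hRy]
          exact er_iter_nonempty h2
        · exact hroomR
        · rw [hRy, card_er_iter]
          have h3 : m - u - ((S y).card - (κ + u)) - 1 = n - (S y).card - 1 := by omega
          rw [h3]
          have h4 : ∑ b ∈ Finset.range u, lineG S' (insert j old) b ≤
              ∑ b ∈ Finset.range u, (m - b) +
                ∑ b ∈ Finset.range u, (mx (er^[b] (er^[e] (S y))) - 1) := by
            rw [← Finset.sum_add_distrib]
            apply Finset.sum_le_sum
            intro b hb
            rw [Finset.mem_range] at hb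
            rw [hline]
            have h5 := cross_bound hposY (hpos' j) hmxZ hcm (e := e) (b := b) (by omega)
              (by omega)
            have h6 : er^[b] (er^[e] (S y)) = er^[e + b] (S y) := by
              rw [← Function.iterate_add_apply, add_comm]
            rw [h6]
            exact h5
          have h5 := qs_er_iter (er^[e] (S y)) (κ' + u)
          have h6 : er^[κ' + u] (er^[e] (S y)) = er^[κ + u] (S y) := by
            rw [← Function.iterate_add_apply]
            congr 1
            omega
          rw [h6] at h5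
          have h7 : ∑ b ∈ Finset.range u, (mx (er^[b] (er^[e] (S y))) - 1) ≤
              ∑ b ∈ Finset.range (κ' + u), (mx (er^[b] (er^[e] (S y))) - 1) := by
            apply Finset.sum_le_sum_of_subset
            intro b hb
            rw [Finset.mem_range] at hb ⊢
            omega
          omega
      · -- exhausted at the landing
        apply hL0 _ (insert j old) hfatR hposR hroomR
        obtain ⟨u0, hu0⟩ : ∃ u0, u0 = (S y).card - κ := ⟨_, rfl⟩
        obtain ⟨v, hv⟩ : ∃ v, u = u0 + v := ⟨u - u0, by omega⟩
        have hwz : ∀ b, u0 ≤ b → mx (er^[e + κ' + b] (S y)) = 0 := by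
          intro b hb
          rw [er_iter_empty (by omega), mx_empty]
        have h4 : ∑ b ∈ Finset.range u0, lineG S' (insert j old) b ≤
            ∑ b ∈ Finset.range u0, (m - b) +
              ∑ b ∈ Finset.range u0, (mx (er^[b] (er^[e] (S y))) - 1) := by
          rw [← Finset.sum_add_distrib]
          apply Finset.sum_le_sum
          intro b hb
          rw [Finset.mem_range] at hb
          rw [hline]
          have h5 := cross_bound hposY (hpos' j) hmxZ hcm (e := e) (b := b) (by omega)
            (by omega)
          have h6 : er^[b] (er^[e] (S y)) = er^[e + b] (S y) := by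
            rw [← Function.iterate_add_apply, add_comm]
          rw [h6]
          exact h5
        have h5 := qs_er_iter (er^[e] (S y)) u0
        have h6 : κ'.choose 2 ≤ qs (er^[u0] (er^[e] (S y))) := by
          have h7 := qs_ge (Y := er^[u0] (er^[e] (S y)))
            (fun s hs => hposY s (er_iter_subset _ _ (er_iter_subset _ _ hs)))
          rw [card_er_iter, card_er_iter] at h7
          have h8 : (S y).card - e - u0 = κ' := by omega
          rwa [h8] at h7
        have h7 : ∑ b ∈ Finset.range v, lineG S' (insert j old) (u0 + b) ≤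
            ∑ b ∈ Finset.range v, (m - (u0 + b)) + v * (κ' - 1) := by
          have h8 : v * (κ' - 1) = ∑ b ∈ Finset.range v, (κ' - 1) := by simp
          rw [h8, ← Finset.sum_add_distrib]
          apply Finset.sum_le_sum
          intro b hb
          rw [Finset.mem_range] at hb
          have h9 := hover (u0 + b) (by omega)
          rw [hline, hwz _ (by omega)] at h9 ⊢
          have h10 := mx_er_iter_le (hpos' j) (u0 + b)
          omega
        have h8 : v ≤ m - u0 - 1 := by
          rcases Nat.eq_zero_or_pos v with h0 | h0
          · omega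
          · have h9 := hover (u - 1) (by omega)
            rw [hline, hwz _ (by omega)] at h9
            have h10 : (er^[u - 1] (S' j)).Nonempty := by
              rw [Finset.nonempty_iff_ne_empty]
              intro h11
              rw [h11, mx_empty] at h9
              omega
            rw [← Finset.card_pos, card_er_iter] at h10
            omega
        have h9 := num1 v (m - u0 - 1 - v) κ'
        have h10 : v + (m - u0 - 1 - v) = n - (S y).card - 1 := by omega
        have h11 : m - u0 - 1 - v = m - u - 1 := by omega
        rw [h10, h11] at h9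
        have h12 : ∑ b ∈ Finset.range u, lineG S' (insert j old) b =
            ∑ b ∈ Finset.range u0, lineG S' (insert j old) b +
              ∑ b ∈ Finset.range v, lineG S' (insert j old) (u0 + b) := by
          rw [hv, Finset.sum_range_add]
        have h13 : ∑ b ∈ Finset.range u, (m - b) =
            ∑ b ∈ Finset.range u0, (m - b) + ∑ b ∈ Finset.range v, (m - (u0 + b)) := by
          rw [hv, Finset.sum_range_add]
        omega
    · -- the marked point is exhausted
      apply hL0 _ (insert j old) hfatR hposR hroomR
      obtain ⟨a, ha⟩ : ∃ a, (S y).card = e + a := ⟨(S y).card - e, by omega⟩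
      obtain ⟨s, hs⟩ : ∃ s, m = s + κ' + 1 := ⟨m - κ' - 1, by omega⟩
      have h2 : a.choose 2 ≤ qs (er^[e] (S y)) := by
        have h7 := qs_ge (Y := er^[e] (S y))
          (fun s hs => hposY s (er_iter_subset _ _ hs))
        rw [card_er_iter] at h7
        have h8 : (S y).card - e = a := by omega
        rwa [h8] at h7
      have hline : ∀ b, lineG S' (insert j old) b ≤ (c - b) + (m - κ - 1 - b) := by
        intro b
        rw [hS', g.line b, ← hS']
        have h3 := mx_er_iter_le (hpos' j) b
        have h4 := lineG_anti hpos old κ b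
        omega
      have h3 : ∑ b ∈ Finset.range u, lineG S' (insert j old) b ≤
          ∑ b ∈ Finset.range u, (m - b) + ∑ b ∈ Finset.range u, ((κ' - 1) + (s - b)) := by
        rw [← Finset.sum_add_distrib]
        apply Finset.sum_le_sum
        intro b hb
        rw [Finset.mem_range] at hb
        have h4 := hline b
        have h5 := hover b hb
        omega
      have h4 : u ≤ s + κ' := by
        rcases Nat.eq_zero_or_pos u with h0 | h0
        · omega
        · have h9 := hover (u - 1) (by omega)
          have h10 : (er^[u - 1] (S' j)).Nonempty := by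
            rw [Finset.nonempty_iff_ne_empty]
            intro h11
            rw [hS', g.line (u - 1), ← hS', h11, mx_empty] at h9
            have h12 := lineG_anti hpos old κ (u - 1)
            omega
          rw [← Finset.card_pos, card_er_iter] at h10
          omega
      have h5 := num2 s κ' a u (by omega) (by omega) h4
      have h6 : s + κ' - u = m - u - 1 := by omega
      have h7 : s + κ' + κ' - a = n - (S y).card - 1 := by omega
      rw [h6, h7] at h5
      omega

end Pool.Agent.Lib.MP_6b2d39_ag
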