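import Pool.Agent.Lib.MP_6b2d39_ag.Basic

open Polynomial

namespace Pool.Agent.Lib.MP_6b2d39_ag

section lift

variable {R L : Type*} [CommRing R] [IsDomain R] [Field L] [Algebra R L] [IsFractionRing R L]

attribute [local instance] Polynomial.algebra in
theorem clear_denominators (f : L[X][X]) :
    ∃ c : R, c ≠ 0 ∧ ∃ g : R[X][X], g.map (mapRingHom (algebraMap R L)) =
      C (C (algebraMap R L c)) * f := by
  have h1 : IsLocalization ((nonZeroDivisors R).map (C : R →+* R[X])) L[X] :=
    Polynomial.isLocalization (nonZeroDivisors R) L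
  have h2 : IsLocalization (((nonZeroDivisors R).map (C : R →+* R[X])).map
      (C : R[X] →+* R[X][X])) L[X][X] :=
    Polynomial.isLocalization _ (L[X])
  obtain ⟨⟨g, s⟩, hs⟩ := IsLocalization.surj (((nonZeroDivisors R).map (C : R →+* R[X])).map
      (C : R[X] →+* R[X][X])) f
  obtain ⟨s, hs'⟩ := s
  obtain ⟨s1, ⟨c, hc, rfl⟩, rfl⟩ := hs'
  refine ⟨c, nonZeroDivisors.ne_zero hc, g, ?_⟩
  have key : algebraMap R[X][X] L[X][X] (C (C c)) = C (C (algebraMap R L c)) := by
    rw [Polynomial.algebraMap_def, coe_mapRingHom, map_C, Polynomial.algebraMap_def,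
      coe_mapRingHom, map_C]
  have hs' : f * algebraMap R[X][X] L[X][X] (C (C c)) = algebraMap R[X][X] L[X][X] g := hs
  rw [key] at hs'
  rw [mul_comm, hs']
  rfl

end lift

section field

variable {K : Type*} [Field K]

/-- the deformation parameter -/
noncomputable abbrev tt (K : Type*) [Field K] : K[X] := X

/-- specialisation `t = 0` -/
noncomputable abbrev sp (K : Type*) [Field K] : K[X] →+* K := evalRingHom 0

theorem sp_eq_zero_iff {c : K[X]} : sp K c = 0 ↔ tt K ∣ c := by
  rw [X_dvd_iff, coeff_zero_eq_eval_zero]; rfl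

theorem dvd_of_map_sp_eq_zero {g : K[X][X]} (h : g.map (sp K) = 0) : C (tt K) ∣ g := by
  rw [C_dvd_iff_dvd_coeff]
  intro a
  rw [← sp_eq_zero_iff, ← coeff_map, h, coeff_zero]

theorem dvd_of_map_map_sp_eq_zero {g : K[X][X][X]} (h : g.map (mapRingHom (sp K)) = 0) :
    C (C (tt K)) ∣ g := by
  rw [C_dvd_iff_dvd_coeff]
  intro a
  apply dvd_of_map_sp_eq_zero
  rw [← coe_mapRingHom, ← coeff_map, h, coeff_zero]

theorem not_isUnit_C_tt : ¬ IsUnit (C (tt K)) := by
  intro h
  rw [isUnit_C] at h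
  exact not_isUnit_X h

theorem not_isUnit_C_C_tt : ¬ IsUnit (C (C (tt K))) := by
  intro h
  rw [isUnit_C] at h
  exact not_isUnit_C_tt h

/-- Any nonzero bivariate polynomial over the fraction field can be rescaled to have coefficients
in `K[t]` and nonzero specialisation at `t = 0`. -/
theorem exists_primitive {L : Type*} [Field L] [Algebra K[X] L] [IsFractionRing K[X] L]
    (f : L[X][X]) (hf : f ≠ 0) :
    ∃ c : L, c ≠ 0 ∧ ∃ g : K[X][X][X], g.map (mapRingHom (algebraMap K[X] L)) = C (C c) * f ∧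
      g.map (mapRingHom (sp K)) ≠ 0 := by
  obtain ⟨b, hb, g, hg⟩ := clear_denominators (R := K[X]) f
  have hinj : Function.Injective (algebraMap K[X] L) := IsFractionRing.injective K[X] L
  have hg0 : g ≠ 0 := by
    rintro rfl
    rw [Polynomial.map_zero] at hg
    have : (C (C (algebraMap K[X] L b)) : L[X][X]) ≠ 0 := by
      rw [Ne, C_eq_zero, C_eq_zero]
      exact fun h => hb (hinj (by rw [h, map_zero]))
    exact mul_ne_zero this hf hg.symm
  obtain ⟨n, g', hg', hgg⟩ := WfDvdMonoid.max_power_factor' hg0 (not_isUnit_C_C_tt (K := K))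
  have ht : algebraMap K[X] L (tt K) ≠ 0 := by
    intro h
    exact X_ne_zero (hinj (by rw [h, map_zero]))
  refine ⟨(algebraMap K[X] L (tt K) ^ n)⁻¹ * algebraMap K[X] L b, ?_, g', ?_, ?_⟩
  · refine mul_ne_zero (inv_ne_zero (pow_ne_zero _ ht)) ?_
    exact fun h => hb (hinj (by rw [h, map_zero]))
  · rw [hgg] at hg
    rw [Polynomial.map_mul, Polynomial.map_pow, map_C] at hg
    rw [C_mul, C_mul, mul_assoc, ← hg]
    have : (mapRingHom (algebraMap K[X] L)) (C (tt K)) = C (algebraMap K[X] L (tt K)) := by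
      simp
    rw [this, ← mul_assoc, ← C_pow, ← C_pow, ← C_mul, ← C_mul, inv_mul_cancel₀ (pow_ne_zero _ ht)]
    simp
  · intro h
    exact hg' (dvd_of_map_map_sp_eq_zero h)

theorem InV.of_map {R R' : Type*} [CommRing R] [CommRing R'] {φ : R →+* R'}
    (hφ : Function.Injective φ) {n : ℕ} {f : R[X][X]} (h : InV n (f.map (mapRingHom φ))) :
    InV n f := by
  intro a b hab
  have := h a b hab
  rw [coeff_map, coe_mapRingHom, coeff_map] at this
  exact hφ (by rw [this, map_zero])

theorem InV.C_mul {R : Type*} [CommRing R] {n : ℕ} {f : R[X][X]} (c : R) (h : InV n f) :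
    InV n (C (C c) * f) := by
  intro a b hab
  rw [coeff_C_mul, coeff_C_mul, h a b hab, mul_zero]

theorem Cond.C_mul {R : Type*} [CommRing R] {S : Finset ℕ} {x y : R} {f : R[X][X]} (c : R)
    (h : Cond S x y f) : Cond S x y (C (C c) * f) := by
  intro a
  rw [taylor_mul, taylor_C, coeff_C_mul]
  exact Dvd.dvd.mul_left (h a) _

theorem Cond.of_map {R R' : Type*} [CommRing R] [CommRing R'] {φ : R →+* R'}
    (hφ : Function.Injective φ) {S : Finset ℕ} {x y : R} {f : R[X][X]}
    (h : Cond S (φ x) (φ y) (f.map (mapRingHom φ))) : Cond S x y f := by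
  intro a
  have h1 := h a
  have h2 : taylor (C (φ x)) (f.map (mapRingHom φ)) = (taylor (C x) f).map (mapRingHom φ) := by
    rw [map_taylor]; simp
  rw [h2, coeff_map, coe_mapRingHom] at h1
  have h3 : (X - C (φ y)) ^ colH S a = ((X - C y) ^ colH S a).map φ := by simp
  rw [h3] at h1
  exact (Polynomial.map_dvd_map φ hφ ((monic_X_sub_C y).pow _)).1 h1

end field

end Pool.Agent.Lib.MP_6b2d39_ag
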