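import Pool.Agent.Lib.MP_6b2d39_ag.Good

open Polynomial

namespace Pool.Agent.Lib.MP_6b2d39_ag

section sparse

variable {K : Type*} [Field K] [CharZero K]

/-- a nonzero polynomial with at most `H` terms is not divisible by `(X - 1) ^ H` -/
theorem sparse_zero : ∀ (H : ℕ) (A : Finset ℕ) (p : K[X]), A.card ≤ H →
    (∀ b, b ∉ A → p.coeff b = 0) → (X - C 1) ^ H ∣ p → p = 0 := by
  intro H
  induction H with
  | zero =>
    intro A p hA hp _
    have : A = ∅ := Finset.card_eq_zero.1 (by omega)
    ext b
    rw [hp b (by rw [this]; exact Finset.notMem_empty _), coeff_zero]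
  | succ H ih =>
    intro A p hA hp hd
    rcases A.eq_empty_or_nonempty with h | ⟨m, hm⟩
    · ext b
      rw [hp b (by rw [h]; exact Finset.notMem_empty _), coeff_zero]
    · have hco : ∀ b : ℕ, (X * derivative p - C (m : K) * p).coeff b =
          ((b : K) - (m : K)) * p.coeff b := by
        intro b
        rw [coeff_sub, coeff_C_mul]
        cases b with
        | zero => simp
        | succ b =>
          rw [coeff_X_mul, coeff_derivative]
          push_cast
          ring
      have hq : X * derivative p - C (m : K) * p = 0 := by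
        apply ih (A.erase m)
        · rw [Finset.card_erase_of_mem hm]; omega
        · intro b hb
          rw [hco]
          rw [Finset.mem_erase, not_and_or, not_not] at hb
          rcases hb with hb | hb
          · rw [hb]; simp
          · rw [hp b hb, mul_zero]
        · apply dvd_sub
          · refine Dvd.dvd.mul_left ?_ _
            have := pow_sub_one_dvd_derivative_of_pow_dvd hd
            simpa using this
          · refine Dvd.dvd.mul_left ?_ _
            exact (pow_dvd_pow _ (Nat.le_succ H)).trans hd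
      have hz : ∀ b, b ≠ m → p.coeff b = 0 := by
        intro b hb
        have h1 := hco b
        rw [hq, coeff_zero] at h1
        rcases mul_eq_zero.1 h1.symm with h2 | h2
        · exfalso
          apply hb
          have : (b : K) = (m : K) := by linear_combination h2
          exact_mod_cast this
        · exact h2
      have hpm : p = C (p.coeff m) * X ^ m := by
        ext b
        rw [coeff_C_mul, coeff_X_pow]
        split_ifs with h
        · rw [h, mul_one]
        · rw [hz b h, mul_zero]
      have h1 : p.eval 1 = 0 := by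
        have : (X - C 1) ∣ p := (dvd_pow_self _ (Nat.succ_ne_zero H)).trans hd
        exact dvd_iff_isRoot.1 this
      rw [hpm] at h1
      simp only [eval_mul, eval_C, eval_pow, eval_X, one_pow, mul_one] at h1
      rw [hpm, h1, C_0, zero_mul]

theorem prime_C_tt (K : Type*) [Field K] : Prime (C (tt K) : K[X][X]) :=
  prime_C_iff.2 prime_X

theorem not_C_tt_dvd_monic {K : Type*} [Field K] {P : K[X][X]} (h : P.Monic) : ¬ C (tt K) ∣ P := by
  intro hd
  rw [C_dvd_iff_dvd_coeff] at hd
  have := hd P.natDegree
  rw [coeff_natDegree, h.leadingCoeff] at this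
  exact not_isUnit_X (isUnit_of_dvd_one this)

/-- the key valuation lemma -/
theorem val_lift (H : ℕ) (A : Finset ℕ) (hA : A.card ≤ H) (Θ : ℕ → ℕ) (T : ℕ) (P : K[X][X])
    (h1 : ∀ b, tt K ^ Θ b ∣ P.coeff b) (h2 : ∀ b, b ∉ A → T < Θ b)
    (h3 : (X - C 1) ^ H ∣ P) : C (tt K) ^ (T + 1) ∣ P := by
  have key : ∀ w, w ≤ T + 1 → C (tt K) ^ w ∣ P := by
    intro w
    induction w with
    | zero => intro _; simp
    | succ w ih =>
      intro hw
      obtain ⟨Q, hQ⟩ := ih (by omega)
      obtain ⟨M, hM⟩ := h3
      have hmon : ((X - C 1 : K[X][X]) ^ H).Monic := (monic_X_sub_C _).pow _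
      have h4 : C (tt K) ^ w ∣ M := by
        apply (prime_C_tt K).pow_dvd_of_dvd_mul_left w (not_C_tt_dvd_monic hmon)
        rw [← hM, hQ]
        exact dvd_mul_right _ _
      obtain ⟨M', hM'⟩ := h4
      have h5 : Q = (X - C 1) ^ H * M' := by
        have h6 : C (tt K) ^ w * Q = C (tt K) ^ w * ((X - C 1) ^ H * M') := by
          rw [← hQ, hM, hM']; ring
        exact mul_left_cancel₀ (pow_ne_zero _ (prime_C_tt K).ne_zero) h6
      have h7 : Q.map (sp K) = 0 := by
        apply sparse_zero H A _ hA
        · intro b hb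
          rw [coeff_map, sp_eq_zero_iff]
          have h8 := h1 b
          have h9 := h2 b hb
          rw [hQ, ← C_pow, coeff_C_mul] at h8
          obtain ⟨e, he⟩ : ∃ e, Θ b = w + (e + 1) := ⟨Θ b - w - 1, by omega⟩
          rw [he, pow_add] at h8
          have h10 := (mul_dvd_mul_iff_left (pow_ne_zero _ X_ne_zero)).1 h8
          exact (dvd_pow_self _ (Nat.succ_ne_zero e)).trans h10
        · rw [h5, Polynomial.map_mul]
          refine Dvd.dvd.mul_right ?_ _
          simp
      obtain ⟨Q', hQ'⟩ := dvd_of_map_sp_eq_zero h7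
      refine ⟨Q', ?_⟩
      rw [hQ, hQ', pow_succ, mul_assoc]
  exact key (T + 1) le_rfl

end sparse

section scale

variable {R : Type*} [CommRing R]

/-- scaling the coefficients of a polynomial -/
noncomputable def rs (u : ℕ → R) (p : R[X]) : R[X] :=
  ∑ b ∈ Finset.range (p.natDegree + 1), C (u b * p.coeff b) * X ^ b

theorem coeff_rs (u : ℕ → R) (p : R[X]) (b : ℕ) : (rs u p).coeff b = u b * p.coeff b := by
  unfold rs
  rw [finsetSum_coeff]
  simp only [coeff_C_mul, coeff_X_pow, mul_ite, mul_one, mul_zero]
  rw [Finset.sum_ite_eq]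
  split_ifs with h
  · rfl
  · rw [Finset.mem_range, not_lt] at h
    rw [coeff_eq_zero_of_natDegree_lt (by omega), mul_zero]

/-- scaling the rows of a bivariate polynomial -/
noncomputable def rW (u : ℕ → R) (f : R[X][X]) : R[X][X] :=
  ∑ a ∈ Finset.range (f.natDegree + 1), C (rs u (f.coeff a)) * X ^ a

theorem coeff_rW (u : ℕ → R) (f : R[X][X]) (a b : ℕ) :
    ((rW u f).coeff a).coeff b = u b * (f.coeff a).coeff b := by
  unfold rW
  rw [finsetSum_coeff]
  simp only [coeff_C_mul, coeff_X_pow, mul_ite, mul_one, mul_zero]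
  rw [Finset.sum_ite_eq]
  split_ifs with h
  · exact coeff_rs _ _ _
  · rw [Finset.mem_range, not_lt] at h
    have h0 : f.coeff a = 0 := coeff_eq_zero_of_natDegree_lt (by omega)
    rw [h0]; simp

/-- a row of a bivariate polynomial -/
noncomputable def row (b : ℕ) (f : R[X][X]) : R[X] :=
  ∑ a ∈ Finset.range (f.natDegree + 1), C ((f.coeff a).coeff b) * X ^ a

theorem coeff_row (b : ℕ) (f : R[X][X]) (a : ℕ) : (row b f).coeff a = (f.coeff a).coeff b := by
  unfold row
  rw [finsetSum_coeff]
  simp only [coeff_C_mul, coeff_X_pow, mul_ite, mul_one, mul_zero]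
  rw [Finset.sum_ite_eq]
  split_ifs with h
  · rfl
  · rw [Finset.mem_range, not_lt] at h
    have h0 : f.coeff a = 0 := coeff_eq_zero_of_natDegree_lt (by omega)
    rw [h0]; simp

theorem coeff_taylor_eq (x : R) (p : R[X]) (a N : ℕ) (hN : p.natDegree < N) :
    (taylor x p).coeff a = ∑ i ∈ Finset.range N, ((i + a).choose a : R) * p.coeff (i + a) * x ^ i := by
  rw [taylor_coeff, eval_eq_sum_range' (n := N)]
  · apply Finset.sum_congr rfl
    intro i _
    rw [hasseDeriv_coeff]
  · exact lt_of_le_of_lt (natDegree_hasseDeriv_le p a) (by omega)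

theorem coeff_coeff_taylor_eq (x : R) (f : R[X][X]) (a b N : ℕ) (hN : f.natDegree < N) :
    ((taylor (C x) f).coeff a).coeff b =
      ∑ i ∈ Finset.range N, ((i + a).choose a : R) * (f.coeff (i + a)).coeff b * x ^ i := by
  rw [coeff_taylor_eq _ _ _ _ hN, finsetSum_coeff]
  apply Finset.sum_congr rfl
  intro i _
  rw [← C_pow, coeff_mul_C, coeff_natCast_mul]

theorem taylor_row (x : R) (f : R[X][X]) (a b : ℕ) :
    (taylor x (row b f)).coeff a = ((taylor (C x) f).coeff a).coeff b := by
  rw [coeff_taylor_eq x (row b f) a (max (row b f).natDegree f.natDegree + 1) (by omega),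
    coeff_coeff_taylor_eq x f a b (max (row b f).natDegree f.natDegree + 1) (by omega)]
  simp only [coeff_row]

theorem taylor_rW (x : R) (u : ℕ → R) (f : R[X][X]) (a b : ℕ) :
    ((taylor (C x) (rW u f)).coeff a).coeff b = u b * ((taylor (C x) f).coeff a).coeff b := by
  rw [coeff_coeff_taylor_eq x (rW u f) a b (max (rW u f).natDegree f.natDegree + 1) (by omega),
    coeff_coeff_taylor_eq x f a b (max (rW u f).natDegree f.natDegree + 1) (by omega),
    Finset.mul_sum]
  apply Finset.sum_congr rfl
  intro i _
  rw [coeff_rW]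
  ring

end scale

/-- erase the largest element -/
def er (S : Finset ℕ) : Finset ℕ := S.erase (mx S)

theorem colH_er (S : Finset ℕ) (a : ℕ) : colH (er S) a = colH S a - 1 := by
  unfold er
  rcases colH_erase_mx S a with h | h <;> omega

theorem colH_er_iter (S : Finset ℕ) (b a : ℕ) : colH (er^[b] S) a = colH S a - b := by
  induction b generalizing S with
  | zero => simp
  | succ b ih =>
    rw [Function.iterate_succ_apply, ih, colH_er]
    omega

end Pool.Agent.Lib.MP_6b2d39_ag
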