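import Mathlib

/-!
Task U: univariate genericity lemma.
-/

open Polynomial

namespace Pool.Agent.Lib.MP_6b2d39_ag

private theorem dvd_iff_coeff {K : Type*} [Field K] (x : K) (n : ℕ) (f : K[X]) :
    (X - C x) ^ n ∣ f ↔ ∀ j < n, (taylor x f).coeff j = 0 := by
  rw [X_sub_C_pow_dvd_iff, X_pow_dvd_iff, taylor_apply]

/-- For all but finitely many `x`, no nonzero element of a finite-dimensional space `V` of
polynomials vanishes to order `dim V` at `x`. -/
theorem finite_bad {K : Type*} [Field K] [CharZero K] (V : Submodule K K[X])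
    [FiniteDimensional K V] :
    {x : K | ∃ f ∈ V, f ≠ 0 ∧ (X - C x) ^ (Module.finrank K V) ∣ f}.Finite := by
  suffices H : ∀ (s : ℕ) (V : Submodule K K[X]) [FiniteDimensional K V], Module.finrank K V = s →
      {x : K | ∃ f ∈ V, f ≠ 0 ∧ (X - C x) ^ (Module.finrank K V) ∣ f}.Finite from H _ V rfl
  intro s
  induction s using Nat.strong_induction_on with
  | _ s ih =>
    intro V _ hs
    by_cases hV : V = ⊥
    · subst hV
      refine Set.Finite.subset Set.finite_empty ?_
      rintro x ⟨f, hf, hf0, -⟩
      exact hf0 ((Submodule.mem_bot K).1 hf)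
    obtain ⟨f1, hf1, hf10⟩ := Submodule.exists_mem_ne_zero_of_ne_bot hV
    -- the Wronskian with `f1`
    let D : K[X] →ₗ[K] K[X] := (LinearMap.mulLeft K f1).comp derivative -
      LinearMap.mulRight K (derivative f1)
    have hD : ∀ f, D f = f1 * derivative f - f * derivative f1 := fun f => rfl
    have hlt : Module.finrank K (V.map D) < Module.finrank K V := by
      have h1 := (D.domRestrict V).finrank_range_add_finrank_ker
      rw [LinearMap.range_domRestrict] at h1
      have h2 : 0 < Module.finrank K (LinearMap.ker (D.domRestrict V)) := by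
        rcases Nat.eq_zero_or_pos (Module.finrank K (LinearMap.ker (D.domRestrict V))) with h0 | h0
        · exfalso
          rw [Submodule.finrank_eq_zero] at h0
          have h3 : (⟨f1, hf1⟩ : V) ∈ LinearMap.ker (D.domRestrict V) := by
            rw [LinearMap.mem_ker, LinearMap.domRestrict_apply, hD]
            ring
          rw [h0, Submodule.mem_bot] at h3
          exact hf10 (congrArg Subtype.val h3)
        · exact h0
      omega
    have hfin := ih _ (by rw [← hs]; exact hlt) (V.map D) rfl
    refine (hfin.union (Polynomial.finite_setOfPred_isRoot hf10)).subset ?_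
    rintro x ⟨f, hf, hf0, hdvd⟩
    by_contra hx
    simp only [Set.mem_union, Set.mem_ofPred_eq, not_or, not_exists, not_and] at hx
    obtain ⟨hx1, hx2⟩ := hx
    have hs0 : 1 ≤ Module.finrank K V := by omega
    -- `D f` vanishes
    have hDf : D f = 0 := by
      by_contra hne
      refine hx1 (D f) (Submodule.mem_map_of_mem hf) hne ?_
      rw [hD]
      have h1 : (X - C x) ^ (Module.finrank K (V.map D)) ∣ f :=
        (pow_dvd_pow _ hlt.le).trans hdvd
      have h2 : (X - C x) ^ (Module.finrank K (V.map D)) ∣ derivative f := by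
        obtain ⟨g, hg⟩ := hdvd
        have h3 : Module.finrank K V = (Module.finrank K V - 1) + 1 := by omega
        rw [hg, h3, derivative_mul, derivative_X_sub_C_pow]
        refine dvd_add ?_ ?_
        · refine Dvd.dvd.mul_right ?_ _
          refine Dvd.dvd.mul_left ?_ _
          rw [Nat.add_sub_cancel]
          exact pow_dvd_pow _ (by omega)
        · refine Dvd.dvd.mul_right ?_ _
          exact pow_dvd_pow _ (by omega)
      exact dvd_sub (h2.mul_left _) (h1.mul_right _)
    have hroot : f.IsRoot x := by
      rw [← dvd_iff_isRoot]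
      exact (dvd_pow_self _ (by omega)).trans hdvd
    have hmul : (derivative f).rootMultiplicity x = f.rootMultiplicity x - 1 :=
      derivative_rootMultiplicity_of_root hroot
    have hpos : 0 < f.rootMultiplicity x := (rootMultiplicity_pos hf0).2 hroot
    have hder : derivative f ≠ 0 := by
      intro h
      have h1 := derivative_eq_zero.1 h
      rw [natDegree_eq_zero] at h1
      obtain ⟨a, rfl⟩ := h1
      rw [IsRoot, eval_C] at hroot
      exact hf0 (by rw [hroot, C_0])
    have heq : f1 * derivative f = f * derivative f1 := by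
      rw [hD, sub_eq_zero] at hDf
      exact hDf
    have hdvd2 : (X - C x) ^ (f.rootMultiplicity x) ∣ derivative f := by
      have h1 : (X - C x) ^ (f.rootMultiplicity x) ∣ f1 * derivative f := by
        rw [heq]
        exact (pow_rootMultiplicity_dvd f x).mul_right _
      have h2 : IsCoprime ((X - C x) ^ (f.rootMultiplicity x)) f1 := by
        apply IsCoprime.pow_left
        rw [(irreducible_X_sub_C x).coprime_iff_not_dvd, dvd_iff_isRoot]
        exact hx2
      exact h2.dvd_of_dvd_mul_left h1
    have := (le_rootMultiplicity_iff hder).2 hdvd2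
    omega

private theorem step {K : Type*} [Field K] (V W : Submodule K K[X]) [FiniteDimensional K V]
    (hWV : W ≤ V) (x : K) (c : ℕ)
    (hx : ∀ f ∈ V, f ≠ 0 → ¬ (X - C x) ^ (Module.finrank K V) ∣ f)
    (hW : ∀ f ∈ W, (X - C x) ^ c ∣ f) : Module.finrank K W ≤ Module.finrank K V - c := by
  let Ψ : W →ₗ[K] (Fin (Module.finrank K V - c) → K) :=
    LinearMap.pi fun j => ((lcoeff K (c + j)).comp (taylor x)).comp W.subtype
  have hΨ : Function.Injective Ψ := by
    rw [← LinearMap.ker_eq_bot, Submodule.eq_bot_iff]
    rintro ⟨f, hf⟩ h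
    rw [LinearMap.mem_ker] at h
    by_contra hne
    have hf0 : f ≠ 0 := fun h => hne (Subtype.ext h)
    apply hx f (hWV hf) hf0
    rw [dvd_iff_coeff]
    intro j hj
    rcases Nat.lt_or_ge j c with hjc | hjc
    · exact (dvd_iff_coeff x c f).1 (hW f hf) j hjc
    · have h1 := congrFun h ⟨j - c, by omega⟩
      have h2 : c + (j - c) = j := by omega
      have h3 : (taylor x f).coeff (c + (j - c)) = 0 := h1
      rwa [h2] at h3
  have h1 := LinearMap.finrank_le_finrank_of_injective hΨ
  simpa using h1

private def vsub {K : Type*} [Field K] {ι : Type*} (E : Finset ℕ) (c : ι → ℕ) (S : Finset ι)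
    (x : ι → K) : Submodule K K[X] where
  carrier := {f | (∀ e, e ∉ E → f.coeff e = 0) ∧ ∀ i ∈ S, (X - C (x i)) ^ (c i) ∣ f}
  zero_mem' := ⟨fun e _ => coeff_zero e, fun i _ => dvd_zero _⟩
  add_mem' := by
    rintro f g ⟨hf1, hf2⟩ ⟨hg1, hg2⟩
    exact ⟨fun e he => by rw [coeff_add, hf1 e he, hg1 e he, add_zero],
      fun i hi => dvd_add (hf2 i hi) (hg2 i hi)⟩
  smul_mem' := by
    rintro a f ⟨hf1, hf2⟩
    exact ⟨fun e he => by rw [coeff_smul, hf1 e he, smul_zero],
      fun i hi => by rw [smul_eq_C_mul]; exact (hf2 i hi).mul_left _⟩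

private theorem vsub_inj {K : Type*} [Field K] {ι : Type*} (E : Finset ℕ) (c : ι → ℕ)
    (S : Finset ι) (x : ι → K) : ∃ Ψ : vsub E c S x →ₗ[K] (E → K), Function.Injective Ψ := by
  refine ⟨LinearMap.pi fun e => (lcoeff K e).comp (vsub E c S x).subtype, ?_⟩
  rw [← LinearMap.ker_eq_bot, Submodule.eq_bot_iff]
  rintro ⟨f, hf⟩ h
  rw [LinearMap.mem_ker] at h
  apply Subtype.ext
  change f = 0
  ext e
  rw [coeff_zero]
  by_cases he : e ∈ E
  · exact congrFun h ⟨e, he⟩
  · exact hf.1 e he

theorem exists_points {K : Type*} [Field K] [CharZero K] {ι : Type*} [Fintype ι]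
    (B : ℕ) (E : ℕ → Finset ℕ) (c : ι → ℕ → ℕ) (hc : ∀ b < B, (E b).card ≤ ∑ i, c i b) :
    ∃ x : ι → K, Function.Injective x ∧ ∀ b < B, ∀ f : K[X], (∀ e, e ∉ E b → f.coeff e = 0) →
      (∀ i, (X - C (x i)) ^ (c i b) ∣ f) → f = 0 := by
  classical
  have hfd : ∀ (b : ℕ) (S : Finset ι) (x : ι → K),
      FiniteDimensional K (vsub (E b) (fun i => c i b) S x) := by
    intro b S x
    obtain ⟨Ψ, hΨ⟩ := vsub_inj (E b) (fun i => c i b) S x
    exact Module.Finite.of_injective Ψ hΨ
  have key : ∀ S : Finset ι, ∃ x : ι → K, Set.InjOn x S ∧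
      ∀ b < B, Module.finrank K (vsub (E b) (fun i => c i b) S x) ≤
        (E b).card - ∑ i ∈ S, c i b := by
    intro S
    induction S using Finset.induction_on with
    | empty =>
      refine ⟨fun _ => 0, by simp, fun b _ => ?_⟩
      obtain ⟨Ψ, hΨ⟩ := vsub_inj (E b) (fun i => c i b) ∅ (fun _ => (0 : K))
      have h1 := LinearMap.finrank_le_finrank_of_injective hΨ
      simpa using h1
    | insert a S ha ih =>
      obtain ⟨x, hx, hb⟩ := ih
      have hfin : ((⋃ b ∈ Finset.range B, {y : K | ∃ f ∈ vsub (E b) (fun i => c i b) S x, f ≠ 0 ∧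
          (X - C y) ^ (Module.finrank K (vsub (E b) (fun i => c i b) S x)) ∣ f}) ∪
          (S.image x : Set K)).Finite := by
        refine Set.Finite.union ?_ (Finset.finite_toSet _)
        refine Set.Finite.biUnion (Finset.finite_toSet _) fun b _ => ?_
        have := hfd b S x
        exact finite_bad _
      obtain ⟨y, hy⟩ := hfin.infinite_compl.nonempty
      simp only [Set.mem_compl_iff, Set.mem_union, Set.mem_iUnion, Finset.mem_coe,
        Finset.mem_image, Set.mem_ofPred_eq, not_or, not_exists, not_and, Finset.mem_range] at hy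
      obtain ⟨hy1, hy2⟩ := hy
      have hne : ∀ i ∈ S, i ≠ a := fun i hi h => ha (h ▸ hi)
      have hupd : ∀ i ∈ S, Function.update x a y i = x i := fun i hi =>
        Function.update_of_ne (hne i hi) _ _
      refine ⟨Function.update x a y, ?_, ?_⟩
      · rw [Finset.coe_insert, Set.injOn_insert (by simpa using ha)]
        constructor
        · intro i hi j hj hij
          rw [hupd i hi, hupd j hj] at hij
          exact hx hi hj hij
        · rintro ⟨i, hi, hij⟩
          rw [hupd i hi, Function.update_self] at hij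
          exact hy2 i hi hij
      · intro b hbB
        have := hfd b S x
        have h1 := step (vsub (E b) (fun i => c i b) S x)
          (vsub (E b) (fun i => c i b) (insert a S) (Function.update x a y)) (by
            rintro f ⟨hf1, hf2⟩
            refine ⟨hf1, fun i hi => ?_⟩
            have h3 := hf2 i (Finset.mem_insert_of_mem hi)
            rwa [hupd i hi] at h3) y (c a b) (fun f hf hf0 hdvd => hy1 b hbB f hf hf0 hdvd) (by
            rintro f ⟨hf1, hf2⟩
            have h3 := hf2 a (Finset.mem_insert_self a S)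
            rwa [Function.update_self] at h3)
        have h2 := hb b hbB
        rw [Finset.sum_insert ha]
        omega
  obtain ⟨x, hx, hb⟩ := key Finset.univ
  refine ⟨x, fun i j hij => hx (Finset.mem_coe.2 (Finset.mem_univ i))
    (Finset.mem_coe.2 (Finset.mem_univ j)) hij, fun b hbB f hf1 hf2 => ?_⟩
  have := hfd b Finset.univ x
  have h1 : Module.finrank K (vsub (E b) (fun i => c i b) Finset.univ x) = 0 := by
    have h2 := hb b hbB
    have h3 := hc b hbB
    omega
  rw [Submodule.finrank_eq_zero] at h1
  have h4 : f ∈ vsub (E b) (fun i => c i b) Finset.univ x := ⟨hf1, fun i _ => hf2 i⟩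
  rw [h1, Submodule.mem_bot] at h4
  exact h4

end Pool.Agent.Lib.MP_6b2d39_ag
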