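import Pool.Agent.Lib.MP_6b2d39_ag.StatesAux
import Pool.Agent.Lib.MP_6b2d39_ag.Core

open Polynomial

namespace Pool.Agent.Lib.MP_6b2d39_ag

theorem states_exist {ι : Type} [Fintype ι] [DecidableEq ι] (m : ι → ℕ) {M a N : ℕ} (hM : ∀ i, m i ≤ M)
    (ha : 9 * M ≤ a ^ 2 + 1) (hN : 2 * (M + 1) * a ≤ N) (hN1 : 1 ≤ N)
    (htot : (N + 1).choose 2 ≤ ∑ i, (m i + 1).choose 2) :
    ∃ (a' B : ℕ) (t i : ι → ℕ), 1 ≤ a' ∧ N ≤ a' * B ∧ (∀ j, t j < B ∧ i j ≤ t j) ∧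
      ∀ b < B, (thickRow N a' b).card ≤ ∑ j, (m j - rk (t j) (i j) b) :=
  states_exist_of_core (fun hM hB hA μ hanti hμ s h1 h2 h3 hs =>
    core hM hB hA μ hanti hμ s h1 h2 h3 hs) m hM ha hN hN1 htot

end Pool.Agent.Lib.MP_6b2d39_ag
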