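import Pool.Agent.Lib.MP_6b2d39_ag.GoodE

/-!
The thick step: polynomials of degree `< N` are expanded in the monomials `x^i y^j (y - x^a)^b`
(`i < a`), and the points are moved to the curve `y = x^a`.
-/

open Polynomial

namespace Pool.Agent.Lib.MP_6b2d39_ag

section ideal

variable {R : Type*} [CommRing R]

theorem colH_Icc_thick (m a : ℕ) : colH (Finset.Icc 1 m) a = m - a := by
  unfold colH
  have : (Finset.Icc 1 m).filter (fun s => a < s) = Finset.Icc (a + 1) m := by
    ext s
    simp only [Finset.mem_filter, Finset.mem_Icc]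
    omega
  rw [this, Nat.card_Icc]
  omega

/-- the polynomials with a given order of vanishing form an ideal -/
def condIdeal (m : ℕ) (x y : R) : Ideal R[X][X] where
  carrier := {f | ∀ a, (X - C y) ^ (m - a) ∣ (taylor (C x) f).coeff a}
  add_mem' {f g} hf hg a := by
    rw [map_add, coeff_add]
    exact dvd_add (hf a) (hg a)
  zero_mem' a := by simp
  smul_mem' c f hf a := by
    rw [smul_eq_mul, taylor_mul, coeff_mul]
    refine Finset.dvd_sum fun p hp => ?_
    refine Dvd.dvd.mul_left ?_ _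
    rw [Finset.HasAntidiagonal.mem_antidiagonal] at hp
    exact (pow_dvd_pow _ (by omega)).trans (hf p.2)

theorem mem_condIdeal {m : ℕ} {x y : R} {f : R[X][X]} :
    f ∈ condIdeal m x y ↔ ∀ a, (X - C y) ^ (m - a) ∣ (taylor (C x) f).coeff a := Iff.rfl

theorem pow_le_of {A : Type*} [CommRing A] (I : Ideal A) (J : ℕ → Ideal A) (h0 : J 0 = ⊤)
    (h : ∀ m, ∀ f ∈ J m, ∀ g ∈ I, f * g ∈ J (m + 1)) (m : ℕ) : I ^ m ≤ J m := by
  induction m with
  | zero => rw [h0]; exact le_top
  | succ m ih =>
    rw [pow_succ, Ideal.mul_le]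
    intro f hf g hg
    exact h m f (ih hf) g hg

theorem mul_mem_pow {A : Type*} [CommRing A] (I : Ideal A) {u v : A} (hu : u ∈ I) (hv : v ∈ I)
    {m a b : ℕ} (h : m ≤ a + b) : u ^ a * v ^ b ∈ I ^ m := by
  apply Ideal.pow_le_pow_right h
  rw [pow_add]
  exact Ideal.mul_mem_mul (Ideal.pow_mem_pow hu _) (Ideal.pow_mem_pow hv _)

theorem mul_mem_condIdeal (x y : R) (m : ℕ) (f : R[X][X]) (hf' : f ∈ condIdeal m x y)
    (g : R[X][X]) (hg : g ∈ Ideal.span {X - C (C x), C (X - C y)}) :
    f * g ∈ condIdeal (m + 1) x y := by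
  rw [mem_condIdeal] at hf'
  obtain ⟨u, v, rfl⟩ := Ideal.mem_span_pair.1 hg
  rw [mul_add]
  apply Ideal.add_mem
  · rw [show f * (u * (X - C (C x))) = u * (f * (X - C (C x))) by ring]
    apply Ideal.mul_mem_left
    intro a
    rw [taylor_mul, map_sub, taylor_X, taylor_C]
    rw [show X + C (C x) - C (C x) = (X : R[X][X]) by ring]
    cases a with
    | zero => simp
    | succ a =>
      rw [coeff_mul_X]
      exact (pow_dvd_pow _ (by omega)).trans (hf' a)
  · rw [show f * (v * C (X - C y)) = v * (f * C (X - C y)) by ring]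
    apply Ideal.mul_mem_left
    intro a
    rw [taylor_mul, taylor_C, coeff_mul_C]
    refine (pow_dvd_pow _ (show m + 1 - a ≤ m - a + 1 by omega)).trans ?_
    rw [pow_succ]
    exact mul_dvd_mul (hf' a) dvd_rfl

theorem pow_le_condIdeal (m : ℕ) (x y : R) :
    (Ideal.span {X - C (C x), C (X - C y)}) ^ m ≤ condIdeal m x y := by
  apply pow_le_of (Ideal.span {X - C (C x), C (X - C y)}) (fun m => condIdeal m x y)
  · rw [eq_top_iff]
    intro f _ a
    simp
  · exact mul_mem_condIdeal x y

end ideal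

/-- the multiplicity condition as an ideal -/
theorem cond_iff {R : Type*} [CommRing R] (m : ℕ) (x y : R) (f : R[X][X]) :
    Cond (Finset.Icc 1 m) x y f ↔ f ∈ (Ideal.span {X - C (C x), C (X - C y)}) ^ m := by
  have hI1 : X - C (C x) ∈ (Ideal.span {X - C (C x), C (X - C y)} : Ideal R[X][X]) :=
    Ideal.subset_span (by simp)
  have hI2 : C (X - C y) ∈ (Ideal.span {X - C (C x), C (X - C y)} : Ideal R[X][X]) :=
    Ideal.subset_span (by simp)
  constructor
  · intro h
    rw [← sum_taylor_eq f (C x), Polynomial.sum]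
    refine Ideal.sum_mem _ fun a _ => ?_
    have h1 := h a
    rw [colH_Icc_thick] at h1
    obtain ⟨q, hq⟩ := h1
    rw [hq, C_mul, C_pow]
    rw [show C (X - C y) ^ (m - a) * C q * (X - C (C x)) ^ a =
      C q * (C (X - C y) ^ (m - a) * (X - C (C x)) ^ a) by ring]
    apply Ideal.mul_mem_left
    exact mul_mem_pow _ hI2 hI1 (by omega)
  · intro h a
    rw [colH_Icc_thick]
    exact pow_le_condIdeal m x y h a

section subst

variable {R : Type*} [CommRing R]

/-- the substitution `x ↦ x, y ↦ w` -/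
noncomputable def phiS (w : R[X][X]) : R[X][X] →+* R[X][X] :=
  eval₂RingHom (eval₂RingHom (C.comp C) w) X

theorem phiS_X (w : R[X][X]) : phiS w X = X := by
  simp [phiS]

theorem phiS_C_X (w : R[X][X]) : phiS w (C X) = w := by
  simp [phiS]

theorem phiS_C_C (w : R[X][X]) (c : R) : phiS w (C (C c)) = C (C c) := by
  simp [phiS]

/-- `lam * y + x ^ a` -/
noncomputable def wS (a : ℕ) (lam : R) : R[X][X] := C (C lam * X) + X ^ a

theorem phiS_injective {L : Type*} [Field L] (a : ℕ) {lam : L} (h : lam ≠ 0) :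
    Function.Injective (phiS (wS a lam)) := by
  have h1 : (phiS (C (C lam⁻¹) * (C X - X ^ a))).comp (phiS (wS a lam)) = RingHom.id _ := by
    apply Polynomial.ringHom_ext'
    · apply Polynomial.ringHom_ext'
      · ext c
        simp [phiS_C_C]
      · simp only [RingHom.comp_apply, RingHom.id_apply, phiS_C_X]
        rw [wS, C_mul, map_add, map_mul, map_pow, phiS_C_C, phiS_C_X, phiS_X, ← mul_assoc,
          ← C_mul, ← C_mul, mul_inv_cancel₀ h]
        simp
    · simp [phiS_X]
  intro f g hfg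
  have h2 : ∀ f, (phiS (C (C lam⁻¹) * (C X - X ^ a))) (phiS (wS a lam) f) = f := fun f => by
    rw [← RingHom.comp_apply, h1, RingHom.id_apply]
  rw [← h2 f, hfg, h2 g]

/-- the linear map `x ^ e y ^ b ↦ y ^ b x ^ (e % a) (lam y + x ^ a) ^ (e / a)` -/
noncomputable def tS (a : ℕ) (lam : R) : R[X][X] →ₗ[R[X]] R[X][X] :=
  lsum (fun e => LinearMap.toSpanSingleton R[X] R[X][X] (X ^ (e % a) * wS a lam ^ (e / a)))

theorem tS_monomial (a : ℕ) (lam : R) (e : ℕ) (p : R[X]) :
    tS a lam (monomial e p) = C p * (X ^ (e % a) * wS a lam ^ (e / a)) := by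
  simp [tS, lsum_apply, sum_monomial_index, smul_eq_C_mul]

theorem tS_zero (a : ℕ) (f : R[X][X]) : tS a (0 : R) f = f := by
  induction f using Polynomial.induction_on' with
  | add f g hf hg => rw [map_add, hf, hg]
  | monomial e p =>
    rw [tS_monomial, wS, C_0, zero_mul, C_0, zero_add, ← pow_mul, ← pow_add, Nat.mod_add_div,
      C_mul_X_pow_eq_monomial]

theorem wS_map {R' : Type*} [CommRing R'] (φ : R →+* R') (a : ℕ) (lam : R) :
    (wS a lam).map (mapRingHom φ) = wS a (φ lam) := by
  simp [wS]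

theorem tS_map {R' : Type*} [CommRing R'] (φ : R →+* R') (a : ℕ) (lam : R) (f : R[X][X]) :
    (tS a lam f).map (mapRingHom φ) = tS a (φ lam) (f.map (mapRingHom φ)) := by
  induction f using Polynomial.induction_on' with
  | add f g hf hg => rw [map_add, Polynomial.map_add, hf, hg, Polynomial.map_add, map_add]
  | monomial e p =>
    rw [tS_monomial, map_monomial, tS_monomial]
    simp [wS_map]

/-- images under `tS` of the polynomials supported on `E` -/
def imgS (a : ℕ) (lam : R) (E : ℕ → Finset ℕ) (g : R[X][X]) : Prop :=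
  ∃ U, SuppIn E U ∧ tS a lam U = g

theorem SuppIn.add {E : ℕ → Finset ℕ} {f g : R[X][X]} (hf : SuppIn E f) (hg : SuppIn E g) :
    SuppIn E (f + g) := by
  intro e b h
  rw [coeff_add, coeff_add, hf e b h, hg e b h, add_zero]

theorem SuppIn.C_mul {E : ℕ → Finset ℕ} {f : R[X][X]} (c : R) (hf : SuppIn E f) :
    SuppIn E (C (C c) * f) := by
  intro e b h
  rw [coeff_C_mul, coeff_C_mul, hf e b h, mul_zero]

theorem SuppIn.map {R' : Type*} [CommRing R'] (φ : R →+* R') {E : ℕ → Finset ℕ} {f : R[X][X]}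
    (h : SuppIn E f) : SuppIn E (f.map (mapRingHom φ)) := by
  intro a b hab
  rw [coeff_map, coe_mapRingHom, coeff_map, h a b hab, map_zero]

theorem SuppIn.of_map {R' : Type*} [CommRing R'] {φ : R →+* R'} (hφ : Function.Injective φ)
    {E : ℕ → Finset ℕ} {f : R[X][X]} (h : SuppIn E (f.map (mapRingHom φ))) : SuppIn E f := by
  intro a b hab
  have := h a b hab
  rw [coeff_map, coe_mapRingHom, coeff_map] at this
  exact hφ (by rw [this, map_zero])

theorem suppIn_monomial {E : ℕ → Finset ℕ} {e b : ℕ} (h : e ∈ E b) (c : R) :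
    SuppIn E (monomial e (monomial b c)) := by
  intro e' b' h'
  rw [coeff_monomial]
  split_ifs with h1
  · rw [coeff_monomial, if_neg]
    rintro rfl
    exact h' (h1 ▸ h)
  · simp

theorem imgS_zero (a : ℕ) (lam : R) (E : ℕ → Finset ℕ) : imgS a lam E 0 :=
  ⟨0, fun _ _ _ => by simp, by simp⟩

theorem imgS_add {a : ℕ} {lam : R} {E : ℕ → Finset ℕ} {f g : R[X][X]} (hf : imgS a lam E f)
    (hg : imgS a lam E g) : imgS a lam E (f + g) := by
  obtain ⟨U, hU, rfl⟩ := hf
  obtain ⟨V, hV, rfl⟩ := hg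
  exact ⟨U + V, hU.add hV, by rw [map_add]⟩

theorem imgS_C_mul {a : ℕ} {lam : R} {E : ℕ → Finset ℕ} {f : R[X][X]} (c : R)
    (hf : imgS a lam E f) : imgS a lam E (C (C c) * f) := by
  obtain ⟨U, hU, rfl⟩ := hf
  exact ⟨C (C c) * U, hU.C_mul c, by rw [← smul_eq_C_mul, map_smul, smul_eq_C_mul]⟩

theorem imgS_sub {a : ℕ} {lam : R} {E : ℕ → Finset ℕ} {f g : R[X][X]} (hf : imgS a lam E f)
    (hg : imgS a lam E g) : imgS a lam E (f - g) := by
  have h := imgS_add hf (imgS_C_mul (-1) hg)
  have h1 : f + C (C (-1)) * g = f - g := by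
    rw [C_neg, C_neg, C_1, C_1]; ring
  rwa [h1] at h

theorem imgS_sum {a : ℕ} {lam : R} {E : ℕ → Finset ℕ} {α : Type*} (s : Finset α)
    (g : α → R[X][X]) (h : ∀ i ∈ s, imgS a lam E (g i)) : imgS a lam E (∑ i ∈ s, g i) :=
  Finset.sum_induction _ _ (fun _ _ => imgS_add) (imgS_zero a lam E) h

theorem imgS_aux {a N : ℕ} (ha : 1 ≤ a) (lam : R) (p : ℕ) : ∀ b q, a * b + p + q < N →
    imgS a lam (thickRow N a) (C ((C lam * X) ^ b) * (X ^ p * wS a lam ^ q)) := by
  induction p using Nat.strong_induction_on with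
  | _ p ih =>
    intro b q hN
    rcases Nat.lt_or_ge p a with hp | hp
    · have h1 : (p + a * q) % a = p := by
        rw [Nat.add_mul_mod_self_left, Nat.mod_eq_of_lt hp]
      have h2 : (p + a * q) / a = q := by
        rw [Nat.add_mul_div_left _ _ (by omega), Nat.div_eq_of_lt hp, zero_add]
      have h3 : (C lam * X) ^ b = (monomial b (lam ^ b) : R[X]) := by
        rw [mul_pow, ← C_pow, C_mul_X_pow_eq_monomial]
      refine ⟨monomial (p + a * q) (monomial b (lam ^ b)), suppIn_monomial ?_ _, ?_⟩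
      · rw [thickRow, Finset.mem_filter, Finset.mem_range, h1, h2]
        refine ⟨?_, hN⟩
        calc p + a * q < a + a * q := by omega
          _ = a * (q + 1) := by ring
          _ ≤ a * N := Nat.mul_le_mul_left a (by omega)
      · rw [tS_monomial, h1, h2, h3]
    · have h1 := ih (p - a) (by omega) b (q + 1) (by omega)
      have h2 := ih (p - a) (by omega) (b + 1) q (by
        have : a * (b + 1) = a * b + a := by ring
        omega)
      have h3 := imgS_sub h1 h2
      have h4 : (X ^ p : R[X][X]) = X ^ (p - a) * X ^ a := by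
        rw [← pow_add]; congr 1; omega
      have h5 : C ((C lam * X) ^ b) * (X ^ (p - a) * wS a lam ^ (q + 1)) -
          C ((C lam * X) ^ (b + 1)) * (X ^ (p - a) * wS a lam ^ q) =
          C ((C lam * X) ^ b) * (X ^ p * wS a lam ^ q) := by
        rw [h4, pow_succ (wS a lam) q, pow_succ (C lam * X) b, C_mul]
        nth_rewrite 2 [wS]
        ring
      rwa [h5] at h3

theorem imgS_phiS {a N : ℕ} (ha : 1 ≤ a) (lam : R) {f : R[X][X]} (hf : InV N f) :
    imgS a lam (thickRow N a) (phiS (wS a lam) f) := by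
  rw [f.as_sum_support_C_mul_X_pow, map_sum]
  apply imgS_sum
  intro p _
  rw [(f.coeff p).as_sum_support_C_mul_X_pow, map_sum, Finset.sum_mul, map_sum]
  apply imgS_sum
  intro q hq
  have h1 : a * 0 + p + q < N := by
    by_contra h
    rw [mem_support_iff] at hq
    exact hq (hf p q (by omega))
  have h2 := imgS_C_mul ((f.coeff p).coeff q) (imgS_aux ha lam p 0 q h1)
  rw [map_mul (phiS _), C_mul, map_mul (phiS _), map_pow (phiS _), phiS_X, phiS_C_C, C_pow,
    map_pow (phiS _), phiS_C_X]
  rw [pow_zero, C_1, one_mul] at h2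
  rwa [mul_assoc, mul_comm (wS a lam ^ q)]

theorem mem_pow_of_map {A B : Type*} [CommRing A] [CommRing B] (φ : A →+* B) (I : Ideal A)
    (J : Ideal B) (h : ∀ g ∈ I, φ g ∈ J) {m : ℕ} {f : A} (hf : f ∈ I ^ m) : φ f ∈ J ^ m := by
  have h1 : I ^ m ≤ (J ^ m).comap φ := by
    refine le_trans ?_ (Ideal.le_comap_pow φ m)
    exact Ideal.pow_right_mono h m
  exact h1 hf

theorem cond_phiS {m a : ℕ} {lam x y : R} {f : R[X][X]}
    (h : Cond (Finset.Icc 1 m) x (x ^ a + lam * y) f) :
    Cond (Finset.Icc 1 m) x y (phiS (wS a lam) f) := by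
  rw [cond_iff] at h ⊢
  refine mem_pow_of_map (phiS (wS a lam)) _ _ ?_ h
  intro g hg
  obtain ⟨u, v, rfl⟩ := Ideal.mem_span_pair.1 hg
  rw [map_add, map_mul, map_mul]
  apply Ideal.add_mem
  · apply Ideal.mul_mem_left
    rw [map_sub (phiS _), phiS_X, phiS_C_C]
    exact Ideal.subset_span (by simp)
  · apply Ideal.mul_mem_left
    obtain ⟨z, hz⟩ := sub_dvd_pow_sub_pow (X : R[X][X]) (C (C x)) a
    have h1 : phiS (wS a lam) (C (X - C (x ^ a + lam * y))) =
        z * (X - C (C x)) + C (C lam) * C (X - C y) := by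
      rw [C_sub, map_sub (phiS _), phiS_C_X, phiS_C_C, mul_comm z, ← hz, wS]
      simp only [C_add, C_mul, C_pow, C_sub]
      ring
    rw [h1]
    apply Ideal.add_mem
    · exact Ideal.mul_mem_left _ _ (Ideal.subset_span (by simp))
    · exact Ideal.mul_mem_left _ _ (Ideal.subset_span (by simp))

end subst

theorem thick_step {k : Type} [Field k] {ι : Type} [DecidableEq ι] {N a : ℕ} (ha : 1 ≤ a)
    (m : ι → ℕ) (H : GoodE k (thickRow N a) m) :
    Good k N (fun i => Finset.Icc 1 (m i)) ∅ := by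
  obtain ⟨K, _, φ, x, y, hx, hy, H⟩ := H
  have hψinj : Function.Injective (algebraMap K[X] (FractionRing K[X])) :=
    IsFractionRing.injective _ _
  have hCinj : Function.Injective (C : K →+* K[X]) := C_injective
  set ψ : K[X] →+* FractionRing K[X] := algebraMap K[X] (FractionRing K[X]) with hψ
  refine ⟨FractionRing K[X], inferInstance, (ψ.comp C).comp φ,
    fun i => ψ (C (x i)), fun i => ψ (C (x i)) ^ a + ψ (tt K) * ψ (C (y i)), ?_, ?_, ?_, ?_⟩
  · intro i j hij
    exact hx (hCinj (hψinj hij))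
  · intro i hi
    exact absurd hi (Finset.notMem_empty i)
  · intro i _ h0
    have h1 : C (x i) ^ a + tt K * C (y i) = 0 := by
      apply hψinj
      rw [map_zero, map_add, map_mul, map_pow]
      exact h0
    have h2 := congrArg (fun p => coeff p 1) h1
    simp only [coeff_add, ← C_pow, coeff_C_succ, coeff_zero, zero_add] at h2
    rw [show (1 : ℕ) = 0 + 1 from rfl, coeff_X_mul, coeff_C_zero] at h2
    exact hy i h2
  · intro f hf hc
    by_contra hne
    have ht0 : ψ (tt K) ≠ 0 := by
      intro h0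
      exact X_ne_zero (hψinj (by rw [h0, map_zero]))
    obtain ⟨U, hU, hUF⟩ := imgS_phiS ha (ψ (tt K)) hf
    have hU0 : U ≠ 0 := by
      rintro rfl
      rw [map_zero] at hUF
      apply hne
      apply phiS_injective a ht0
      rw [← hUF, map_zero]
    obtain ⟨c, hc0, g, hg, hg0⟩ := exists_primitive (K := K) U hU0
    apply hg0
    apply H
    · apply SuppIn.map
      apply SuppIn.of_map hψinj
      rw [hg]
      exact hU.C_mul c
    · intro i
      have h1 : (tS a (tt K) g).map (mapRingHom ψ) =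
          C (C c) * phiS (wS a (ψ (tt K))) f := by
        rw [tS_map, hg, ← smul_eq_C_mul, map_smul, hUF, smul_eq_C_mul]
      have h2 : Cond (Finset.Icc 1 (m i)) (C (x i)) (C (y i)) (tS a (tt K) g) := by
        apply Cond.of_map hψinj
        rw [h1]
        exact (cond_phiS (hc i)).C_mul c
      have h3 := h2.map (sp K)
      have h4 : sp K (C (x i)) = x i := by simp
      have h5 : sp K (C (y i)) = y i := by simp
      have h6 : sp K (tt K) = 0 := by simp
      rwa [h4, h5, tS_map, h6, tS_zero] at h3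

end Pool.Agent.Lib.MP_6b2d39_ag
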