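import Pool.Agent.Lib.MP_6b2d39_ag.General
import Pool.Agent.Lib.MP_6b2d39_ag.RowSupp
import Pool.Agent.Lib.MP_6b2d39_ag.ThickStep
import Pool.Agent.Lib.MP_6b2d39_ag.States

/-!
Effective Alexander-Hirschowitz theorem in the plane.
-/

open Polynomial

namespace Pool.Agent.Lib.MP_6b2d39_ag

theorem good_of_tot {k : Type} [Field k] [CharZero k] {ι : Type} [Fintype ι] [DecidableEq ι]
    (m : ι → ℕ) {M a N : ℕ} (hM : ∀ i, m i ≤ M)
    (ha : 9 * M ≤ a ^ 2 + 1) (hN : 2 * (M + 1) * a ≤ N) (hN1 : 1 ≤ N)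
    (htot : (N + 1).choose 2 ≤ ∑ i, (m i + 1).choose 2) :
    Good k N (fun i => Finset.Icc 1 (m i)) ∅ := by
  obtain ⟨a', B, t, i, ha', hB, hti, hcap⟩ := states_exist m hM ha hN hN1 htot
  obtain ⟨w, v, hwv⟩ := exists_weights B
  apply thick_step ha' m
  apply row_supp B (thickRow N a') ?_ m w (fun j => v (t j) (i j)) (fun j b => rk (t j) (i j) b)
  · intro j b _ b' _ h
    exact rk_inj (hti j).2 h
  · intro j b hb b' hb' h
    exact hwv (t j) (i j) (hti j).1 (hti j).2 b hb b' hb' h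
  · exact hcap
  · intro b hb
    apply thickRow_empty
    exact hB.trans (Nat.mul_le_mul_left a' hb)

theorem good_shapes {d h u M a : ℕ} (m : Fin h → ℕ) (hM : ∀ i, m i ≤ M) (hM1 : 1 ≤ M)
    (ha : 9 * M ≤ a ^ 2 + 1) (hd : 2 * (M + 1) * a ≤ d + 1)
    (htot : (d + 2).choose 2 ≤ ∑ i, (m i + 1).choose 2 + u) :
    Good ℂ (d + 1) (shapes m u) ∅ := by
  have h1 : shapes m u = fun i => Finset.Icc 1 (Sum.elim m (fun _ : Fin u => 1) i) := by
    funext i
    rcases i with i | i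
    · rfl
    · simp [shapes]
  rw [h1]
  apply good_of_tot (k := ℂ) (M := M) (a := a) _ _ ha hd (by omega)
  · rw [Fintype.sum_sum_type]
    simpa using htot
  · rintro (i | i)
    · exact hM i
    · exact hM1

theorem effective_AH {d h M a : ℕ} (m : Fin h → ℕ) (hM : ∀ i, m i ≤ M)
    (ha : 9 * M ≤ a ^ 2 + 1) (hd : 2 * (M + 1) * a ≤ d + 1) :
    ∃ Φ : MvPolynomial (Fin h × Fin 2) ℂ, Φ ≠ 0 ∧ ∀ p : Fin h → Fin 2 → ℂ,
      MvPolynomial.eval (fun q => p q.1 q.2) Φ ≠ 0 →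
        (Module.finrank ℂ (fatSystem d m p) : ℤ) =
          max (((d + 2).choose 2 : ℤ) - ∑ i, ((m i + 1).choose 2 : ℤ)) 0 := by
  rcases Nat.eq_zero_or_pos M with hM0 | hM1
  · have hm0 : ∀ i, m i = 0 := fun i => by have := hM i; omega
    have hs0 : ∑ i, (m i + 1).choose 2 = 0 := Finset.sum_eq_zero fun i _ => by rw [hm0 i]; rfl
    apply general_nonempty_side m ((d + 2).choose 2) (by omega)
    exact good_nonempty_side d 1 le_rfl m (fun i hi => absurd hi (by rw [hm0 i]; omega)) _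
      (by omega) (by simp)
  · rcases Nat.lt_or_ge (∑ i, (m i + 1).choose 2) ((d + 2).choose 2) with h1 | h1
    · apply general_nonempty_side m ((d + 2).choose 2 - ∑ i, (m i + 1).choose 2) (by omega)
      exact good_shapes m hM hM1 ha hd (by omega)
    · apply general_empty_side m h1
      exact good_shapes m hM hM1 ha hd (by omega)

end Pool.Agent.Lib.MP_6b2d39_ag
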