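import Pool.Agent.Lib.MP_6b2d39_ag.Nums

namespace Pool.Agent.Lib.MP_6b2d39_ag

/-- sum of consecutive numbers going down -/
theorem sum_down (D N : ℕ) (h : N ≤ D) :
    ∑ b ∈ Finset.range N, (D - b) + N.choose 2 = N * D := by
  induction N with
  | zero => simp
  | succ N ih =>
    rw [Finset.sum_range_succ, Nat.choose_succ_succ' N 1, Nat.choose_one_right]
    have h1 := ih (by omega)
    have h2 : (N + 1) * D = N * D + D := by ring
    have h3 : 1 + 1 = 2 := rfl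
    rw [h3]
    omega

theorem I5 {u μ ρ D : ℕ} (hD : D + ρ = μ) (h : u + 1 ≤ ρ) :
    u * D + (μ - u).choose 2 + (ρ - 1).choose 2 ≤
      μ.choose 2 + u.choose 2 + (ρ - 1 - u).choose 2 := by
  obtain ⟨v, rfl⟩ : ∃ v, ρ = u + 1 + v := ⟨ρ - (u + 1), by omega⟩
  obtain ⟨z, hz⟩ : ∃ z, z = μ - u := ⟨_, rfl⟩
  have h1 : u + 1 + v - 1 = u + v := by omega
  have h2 : u + 1 + v - 1 - u = v := by omega
  rw [h2, h1, ← hz]
  have hz' : (z : ℤ) = D + v + 1 := by omega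
  have hμ' : (μ : ℤ) = D + u + v + 1 := by omega
  have e1 := chz z
  have e2 := chz (u + v)
  have e3 := chz μ
  have e4 := chz u
  have e5 := chz v
  have h6 := consec (u : ℤ)
  have h7 : (0 : ℤ) ≤ u := by positivity
  rw [hz'] at e1
  rw [hμ'] at e3
  push_cast at e1 e2 e3 e4 e5
  have : ((u * D + z.choose 2 + (u + v).choose 2 : ℕ) : ℤ) ≤
      (μ.choose 2 + u.choose 2 + v.choose 2 : ℕ) := by
    push_cast
    nlinarith
  exact_mod_cast this

theorem I2 {u κ c p μ D : ℕ} (h1 : u + κ + 1 ≤ c) (h2 : c ≤ μ) (h3 : D + (p + 1) = μ)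
    (h5 : c + p ≤ κ + u + μ) :
    u * D + (c - u).choose 2 + p.choose 2 ≤ μ.choose 2 + u.choose 2 + κ.choose 2 := by
  obtain ⟨z, hz⟩ : ∃ z, z = c - u := ⟨_, rfl⟩
  obtain ⟨a, ha⟩ : ∃ a, a = μ - c := ⟨_, rfl⟩
  rw [← hz]
  have hz' : (z : ℤ) = c - u := by omega
  have ha' : (μ : ℤ) = c + a := by omega
  have hD' : (D : ℤ) = c + a - p - 1 := by omega
  have e1 := chz z
  have e2 := chz p
  have e3 := chz μ
  have e4 := chz u
  have e5 := chz κ
  rw [hz'] at e1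
  rw [ha'] at e3
  have h1' : (u : ℤ) + κ + 1 ≤ c := by exact_mod_cast h1
  have h5' : (p : ℤ) ≤ κ + u + a := by omega
  have p1 : (0 : ℤ) ≤ u := by positivity
  have p2 : (0 : ℤ) ≤ κ := by positivity
  have p3 : (0 : ℤ) ≤ a := by positivity
  have p4 : (0 : ℤ) ≤ p := by positivity
  have : ((u * D + z.choose 2 + p.choose 2 : ℕ) : ℤ) ≤
      (μ.choose 2 + u.choose 2 + κ.choose 2 : ℕ) := by
    push_cast
    rw [hD']
    rcases le_or_gt (p : ℤ) (u + a) with h6 | h6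
    · have q1 : 0 ≤ ((u : ℤ) + a - p) * p := mul_nonneg (by linarith) p4
      have q2 : 0 ≤ ((p : ℤ) - a) ^ 2 := sq_nonneg _
      have q3 : 0 ≤ (a : ℤ) * κ := mul_nonneg p3 p2
      have q4 := consec (κ : ℤ)
      have q5 : 0 ≤ (a : ℤ) * (c - u - κ - 1) := mul_nonneg p3 (by linarith)
      nlinarith
    · have q1 : 0 ≤ (a : ℤ) * (c - u - κ - 1) := mul_nonneg p3 (by linarith)
      have q2 : 0 ≤ (a : ℤ) * (κ - (p - u - a)) := mul_nonneg p3 (by linarith)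
      have q3 : 0 ≤ ((κ : ℤ) - (p - u - a)) * (κ + (p - u - a) - 1) :=
        mul_nonneg (by linarith) (by linarith)
      have q4 : 0 ≤ (u : ℤ) * u := mul_nonneg p1 p1
      nlinarith
  exact_mod_cast this

theorem I3 {u κ c p μ D D' N ρ : ℕ} (hD : D + ρ = μ) (hD' : D' + u + p + 1 = μ)
    (h1 : N + κ + 1 ≤ c) (h2 : c ≤ μ) (h3 : c ≤ N + ρ) (h4 : N ≤ D')
    (h5 : c + p ≤ μ + κ + N) (h6 : μ + 1 + κ ≤ c + p) :
    u * D + N * D' + (c - N).choose 2 + p.choose 2 ≤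
      μ.choose 2 + u.choose 2 + N.choose 2 + κ.choose 2 := by
  obtain ⟨z, hz⟩ : ∃ z, z = c - N := ⟨_, rfl⟩
  obtain ⟨a, ha⟩ : ∃ a, a = μ - c := ⟨_, rfl⟩
  rw [← hz]
  have hz' : (z : ℤ) = c - N := by omega
  have ha' : (μ : ℤ) = c + a := by omega
  have hDz : (D : ℤ) ≤ N + a := by omega
  have hDz' : (D' : ℤ) = c + a - u - p - 1 := by omega
  have e1 := chz z
  have e2 := chz p
  have e3 := chz μ
  have e4 := chz u
  have e5 := chz κ
  have e6 := chz N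
  rw [hz'] at e1
  rw [ha'] at e3
  have h1' : (N : ℤ) + κ + 1 ≤ c := by exact_mod_cast h1
  have h4' : (N : ℤ) ≤ c + a - u - p - 1 := by omega
  have h5' : (p : ℤ) ≤ a + κ + N := by omega
  have h6' : (a : ℤ) + 1 + κ ≤ p := by omega
  have p1 : (0 : ℤ) ≤ u := by positivity
  have p2 : (0 : ℤ) ≤ κ := by positivity
  have p3 : (0 : ℤ) ≤ a := by positivity
  have p4 : (0 : ℤ) ≤ p := by positivity
  have p5 : (0 : ℤ) ≤ N := by positivity
  have huD : (u : ℤ) * D ≤ u * (N + a) := mul_le_mul_of_nonneg_left hDz p1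
  have q6 := consec (u : ℤ)
  have : ((u * D + N * D' + z.choose 2 + p.choose 2 : ℕ) : ℤ) ≤
      (μ.choose 2 + u.choose 2 + N.choose 2 + κ.choose 2 : ℕ) := by
    push_cast
    rw [hDz']
    have q0 : 0 ≤ (a : ℤ) * (c + a - u - p - 1 - N) := mul_nonneg p3 (by linarith)
    rcases le_or_gt ((p : ℤ) - a) N with h7 | h7
    · have q1 : 0 ≤ ((N : ℤ) + a - p) * p := mul_nonneg (by linarith) p4
      have q2 : 0 ≤ ((p : ℤ) - a) * (p + a) := mul_nonneg (by linarith) (by linarith)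
      have q3 := consec (κ : ℤ)
      nlinarith
    · have q3 : 0 ≤ ((κ : ℤ) - (p - a - N)) * (κ + (p - a - N) - 1) :=
        mul_nonneg (by linarith) (by linarith)
      have q4 : 0 ≤ (N : ℤ) * N := mul_nonneg p5 p5
      have q5 : 0 ≤ (a : ℤ) * N := mul_nonneg p3 p5
      linarith
  exact_mod_cast this

theorem I4 {u κ c p μ D D' N ρ : ℕ} (hD : D + ρ = μ) (hD' : D' + u + p + 1 = μ)
    (h2 : c ≤ μ) (h3 : c ≤ N + ρ) (h4 : N ≤ D') (h5 : μ + 1 + κ + N ≤ c + p) :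
    u * D + N * D' + (κ + μ - p).choose 2 + p.choose 2 ≤
      μ.choose 2 + u.choose 2 + N.choose 2 + κ.choose 2 := by
  obtain ⟨z, hz⟩ : ∃ z, z = κ + μ - p := ⟨_, rfl⟩
  obtain ⟨a, ha⟩ : ∃ a, a = μ - c := ⟨_, rfl⟩
  rw [← hz]
  have hz' : (z : ℤ) = κ + μ - p := by omega
  have hDz : (D : ℤ) ≤ N + a := by omega
  have hDz' : (D' : ℤ) = μ - u - p - 1 := by omega
  have e1 := chz z
  have e2 := chz p
  have e3 := chz μ
  have e4 := chz u
  have e5 := chz κ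
  have e6 := chz N
  rw [hz'] at e1
  have h4' : (N : ℤ) ≤ μ - u - p - 1 := by omega
  have h5' : (a : ℤ) + 1 + κ + N ≤ p := by omega
  have p1 : (0 : ℤ) ≤ u := by positivity
  have p2 : (0 : ℤ) ≤ κ := by positivity
  have p3 : (0 : ℤ) ≤ a := by positivity
  have p4 : (0 : ℤ) ≤ p := by positivity
  have p5 : (0 : ℤ) ≤ N := by positivity
  have huD : (u : ℤ) * D ≤ u * (N + a) := mul_le_mul_of_nonneg_left hDz p1
  have q6 := consec (u : ℤ)
  have q7 := consec (N : ℤ)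
  have : ((u * D + N * D' + z.choose 2 + p.choose 2 : ℕ) : ℤ) ≤
      (μ.choose 2 + u.choose 2 + N.choose 2 + κ.choose 2 : ℕ) := by
    push_cast
    rw [hDz']
    have q0 : 0 ≤ ((p : ℤ) - κ - N - (a + 1)) * (μ - p) := mul_nonneg (by linarith) (by linarith)
    have q1 : 0 ≤ ((a : ℤ) + 1) * (μ - p - (N + 1 + u)) := mul_nonneg (by linarith) (by linarith)
    have q2 : 0 ≤ (a : ℤ) * N := mul_nonneg p3 p5
    have q3 : 0 ≤ (a : ℤ) * u := mul_nonneg p3 p1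
    nlinarith
  exact_mod_cast this

end Pool.Agent.Lib.MP_6b2d39_ag
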