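import Pool.Agent.Lib.MP_6b2d39_ag.Low
import Pool.Agent.Lib.MP_6b2d39_ag.Nums2

open Polynomial

namespace Pool.Agent.Lib.MP_6b2d39_ag

variable {k : Type} [Field k] {ι : Type} [DecidableEq ι] [Fintype ι]

/-- after a growth which ends with only one active old point, plain steps are made until the
line has room again -/
theorem event [Infinite k] {S : ι → Finset ℕ} {old : Finset ι} {j x : ι} {m c κ D : ℕ}
    (g : Gro S old j m c κ) (hx : x ∈ old) (hxκ : κ < (S x).card)
    (hact : act (fun i => er^[κ] (S i)) old ≤ 1) (hnofit : room S old m κ < c)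
    (hcm : c + κ ≤ m) (hD : mx (er^[κ] (S x)) + c ≤ (m - κ) + D)
    (h : ∀ N, 1 ≤ N → N ≤ D → N + room S old m κ ≤ c → N ≤ m - κ →
      (∀ i, i ∉ insert j old → runS (growS S old j (room S old m) κ) (insert j old) N i = S i) →
      (∀ i, runS (growS S old j (room S old m) κ) (insert j old) N i ⊆ S i) →
      ∑ i ∈ insert j old, mx (runS (growS S old j (room S old m) κ) (insert j old) N i) ≤
        m - κ - N →
      ∑ i, tot (S i) + (m - κ - N + 1).choose 2 + N.choose 2 ≤
        ∑ i, tot (runS (growS S old j (room S old m) κ) (insert j old) N i) +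
          (m + 1).choose 2 + N * D →
      (runS (growS S old j (room S old m) κ) (insert j old) N j).card + κ + N = c →
      runS (growS S old j (room S old m) κ) (insert j old) N j ⊆ Finset.Icc 1 (c - N) →
      runS (growS S old j (room S old m) κ) (insert j old) N x = er^[κ + N] (S x) →
      mx (er^[κ + N] (S x)) + c ≤ m - κ →
      Good k (m - κ - N) (runS (growS S old j (room S old m) κ) (insert j old) N)
        (insert j old)) :
    Good k (m - κ) (growS S old j (room S old m) κ) (insert j old) := by
  have hpos := g.pos
  have hI := g.intact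
  have hsub := g.sub
  have hcard := g.card
  have hmassG := g.mass
  have hline0 := g.line
  obtain ⟨hR1, hR2, hR3⟩ := g.inc κ le_rfl
  obtain ⟨R, hR⟩ : ∃ R, R = room S old m κ := ⟨_, rfl⟩
  rw [← hR] at hI hR1 hR2 hnofit
  have hw0 : lineG S old κ = mx (er^[κ] (S x)) := by
    have := lineG_single hx hact hxκ 0
    simpa using this
  set S' := growS S old j (room S old m) κ with hS'
  have hline : ∀ b, lineG S' (insert j old) b =
      mx (er^[b] (S' j)) + mx (er^[κ + b] (S x)) := by
    intro b
    rw [hline0 b, lineG_single hx hact hxκ b]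
  have hwb : ∀ b, mx (er^[κ + b] (S x)) ≤ mx (er^[κ] (S x)) - b := by
    intro b
    have h1 := mx_er_iter_le (S := er^[κ] (S x))
      (fun s hs => hpos x s (er_iter_subset κ _ hs)) b
    rwa [← Function.iterate_add_apply, add_comm b κ] at h1
  have hxT : x ∈ insert j old := Finset.mem_insert_of_mem hx
  have hjT : j ∈ insert j old := Finset.mem_insert_self _ _
  apply pair_run
  intro N hNm hover hland
  have hNR : N + R ≤ c := by
    by_contra hcon
    have h1 := hover (c - R) (by omega)
    rw [hline] at h1
    have h2 : mx (er^[c - R] (S' j)) = R := by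
      rw [intact_mx hI hsub (by omega)]
      omega
    have h3 := hwb (c - R)
    omega
  have hN1 : 1 ≤ N := by
    by_contra hcon
    have h0 : N = 0 := by omega
    rw [h0, hline] at hland
    have h2 : mx (er^[0] (S' j)) = c := by
      rw [intact_mx hI hsub (by omega)]
      omega
    have h3 : κ + 0 = κ := rfl
    rw [h2, h3] at hland
    omega
  have hlb : ∀ b < N, lineG S' (insert j old) b ≤ (m - κ - b) + (D - b) ∧ b < D := by
    intro b hb
    have h1 := hover b hb
    rw [hline] at h1 ⊢
    have h2 : mx (er^[b] (S' j)) = c - b := intact_mx hI hsub (by omega)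
    have h3 := hwb b
    rw [h2] at h1 ⊢
    omega
  have hND : N ≤ D := by
    have := (hlb (N - 1) (by omega)).2
    omega
  have hsum : ∑ b ∈ Finset.range N, lineG S' (insert j old) b ≤
      ∑ b ∈ Finset.range N, (m - κ - b) + ∑ b ∈ Finset.range N, (D - b) := by
    rw [← Finset.sum_add_distrib]
    exact Finset.sum_le_sum (fun b hb => (hlb b (Finset.mem_range.1 hb)).1)
  have hdown := sum_down D N hND
  have htri := tri_sum (N := m - κ) (g := fun b => m - κ - b) N hNm (fun b hb => by omega)
  have hmassR := sum_tot_runS S' (insert j old) N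
  have hRj : runS S' (insert j old) N j = er^[N] (S' j) := runS_mem hjT
  have hRx : runS S' (insert j old) N x = er^[κ + N] (S x) := by
    rw [runS_mem hxT, hS', growS_old g.nj hx, ← Function.iterate_add_apply, add_comm]
  obtain ⟨hI1, hI2⟩ := intact N (S' j) hI hsub hNR
  have hlN := hland
  rw [hline, intact_mx hI hsub hNR] at hlN
  apply h N hN1 hND (by rw [← hR]; exact hNR) hNm
  · intro i hi
    rw [runS_off hi, hS', growS_off hi]
  · exact fun i => (runS_subset i).trans (growS_subset i)
  · have h1 : ∑ i ∈ insert j old, mx (runS S' (insert j old) N i) =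
        lineG S' (insert j old) N := by
      unfold lineG
      apply Finset.sum_congr rfl
      intro i hi
      rw [runS_mem hi]
    rw [h1]
    omega
  · omega
  · rw [hRj, card_er_iter]
    omega
  · rw [hRj]
    exact hI2
  · exact hRx
  · omega

end Pool.Agent.Lib.MP_6b2d39_ag
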