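import Mathlib

namespace Pool.Agent.Lib.MP_6b2d39_ag

/-- Polynomials in two variables of total degree at most `d` lying in the `m i`-th power of the
maximal ideal of the point `p i`, for every `i`. -/
noncomputable def fatSystem (d : ℕ) {h : ℕ} (m : Fin h → ℕ) (p : Fin h → Fin 2 → ℂ) :
    Submodule ℂ (MvPolynomial (Fin 2) ℂ) :=
  MvPolynomial.restrictTotalDegree (Fin 2) ℂ d ⊓
    ⨅ i, ((RingHom.ker (MvPolynomial.eval (p i))) ^ (m i)).restrictScalars ℂ

end Pool.Agent.Lib.MP_6b2d39_ag
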