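import Mathlib
import Pool.Agent.Lib.MP_6b2d39_ag.FatSystem

open MvPolynomial

namespace Pool.Agent.Lib.MP_6b2d39_ag

/-- Index set of the monomials of degree `< m` in two variables. -/
abbrev JetIdx (m : ℕ) : Type := Σ k : Fin m, Fin ((k : ℕ) + 1)

/-- The monomial with a given index. -/
noncomputable def jetMon {m : ℕ} (z : JetIdx m) : Fin 2 →₀ ℕ :=
  Finsupp.single 0 (z.2 : ℕ) + Finsupp.single 1 ((z.1 : ℕ) - (z.2 : ℕ))

theorem jetMon_zero {m : ℕ} (z : JetIdx m) : jetMon z 0 = (z.2 : ℕ) := by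
  simp [jetMon]

theorem jetMon_one {m : ℕ} (z : JetIdx m) : jetMon z 1 = (z.1 : ℕ) - (z.2 : ℕ) := by
  simp [jetMon]

theorem degree_fin_two (x : Fin 2 →₀ ℕ) : Finsupp.degree x = x 0 + x 1 := by
  rw [Finsupp.degree_eq_sum, Fin.sum_univ_two]

theorem degree_jetMon {m : ℕ} (z : JetIdx m) : Finsupp.degree (jetMon z) = (z.1 : ℕ) := by
  rw [degree_fin_two, jetMon_zero, jetMon_one]
  have := z.2.2
  omega

theorem jetMon_injective (m : ℕ) : Function.Injective (jetMon (m := m)) := by
  rintro ⟨k, j⟩ ⟨k', j'⟩ h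
  have h1 : (k : ℕ) = k' := by
    have := degree_jetMon ⟨k, j⟩
    rw [h, degree_jetMon] at this
    exact this.symm
  have h2 : k = k' := Fin.ext h1
  subst h2
  have h3 : (j : ℕ) = j' := by
    have := jetMon_zero ⟨k, j⟩
    rw [h, jetMon_zero] at this
    exact this.symm
  rw [Fin.ext h3]

theorem exists_jetMon {m : ℕ} {x : Fin 2 →₀ ℕ} (hx : Finsupp.degree x < m) :
    ∃ z : JetIdx m, jetMon z = x := by
  rw [degree_fin_two] at hx
  refine ⟨⟨⟨x 0 + x 1, hx⟩, ⟨x 0, by simp⟩⟩, ?_⟩
  ext i
  fin_cases i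
  · exact jetMon_zero _
  · change jetMon _ 1 = x 1
    rw [jetMon_one]
    simp

theorem card_jetIdx (m : ℕ) : Fintype.card (JetIdx m) = (m + 1).choose 2 := by
  rw [Fintype.card_sigma]
  simp only [Fintype.card_fin]
  induction m with
  | zero => simp
  | succ m ih =>
    rw [Fin.sum_univ_castSucc]
    simp only [Fin.val_castSucc, Fin.val_last]
    rw [ih, Nat.choose_succ_succ' (m + 1) 1, Nat.choose_one_right]
    ring

/-- The `m`-jet at the origin. -/
noncomputable def jet (m : ℕ) : MvPolynomial (Fin 2) ℂ →ₗ[ℂ] (JetIdx m → ℂ) :=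
  LinearMap.pi fun z => lcoeff ℂ (jetMon z)

theorem jet_apply (m : ℕ) (f : MvPolynomial (Fin 2) ℂ) (z : JetIdx m) :
    jet m f z = coeff (jetMon z) f := rfl

theorem jet_eq_zero_iff (m : ℕ) (f : MvPolynomial (Fin 2) ℂ) :
    jet m f = 0 ↔ f ∈ idealOfVars (Fin 2) ℂ ^ m := by
  rw [mem_pow_idealOfVars_iff']
  constructor
  · intro h x hx
    obtain ⟨z, rfl⟩ := exists_jetMon hx
    exact congrFun h z
  · intro h
    ext z
    exact h _ (by rw [degree_jetMon]; exact z.1.2)

theorem mem_restrictTotalDegree_iff_degree (d : ℕ) (f : MvPolynomial (Fin 2) ℂ) :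
    f ∈ restrictTotalDegree (Fin 2) ℂ d ↔ ∀ x, d < Finsupp.degree x → coeff x f = 0 := by
  rw [mem_restrictTotalDegree]
  constructor
  · intro h x hx
    apply coeff_eq_zero_of_totalDegree_lt
    exact lt_of_le_of_lt h hx
  · intro h
    rw [totalDegree, Finset.sup_le_iff]
    intro x hx
    by_contra hcon
    push Not at hcon
    rw [mem_support_iff] at hx
    exact hx (h x hcon)

/-- The polynomials of degree `≤ d` in two variables. -/
noncomputable def jetEquiv (d : ℕ) :
    restrictTotalDegree (Fin 2) ℂ d ≃ₗ[ℂ] (JetIdx (d + 1) → ℂ) := by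
  refine LinearEquiv.ofBijective ((jet (d + 1)).comp (Submodule.subtype _)) ⟨?_, ?_⟩
  · rw [← LinearMap.ker_eq_bot, LinearMap.ker_eq_bot']
    rintro ⟨f, hf⟩ h
    rw [mem_restrictTotalDegree_iff_degree] at hf
    apply Subtype.ext
    change f = 0
    ext x
    rw [coeff_zero]
    rcases lt_or_ge d (Finsupp.degree x) with hx | hx
    · exact hf x hx
    · obtain ⟨z, rfl⟩ := exists_jetMon (m := d + 1) (Nat.lt_succ_of_le hx)
      exact congrFun h z
  · intro g
    refine ⟨⟨∑ z, monomial (jetMon z) (g z), ?_⟩, ?_⟩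
    · rw [mem_restrictTotalDegree_iff_degree]
      intro x hx
      rw [coeff_sum]
      apply Finset.sum_eq_zero
      intro z _
      rw [coeff_monomial, if_neg]
      rintro rfl
      rw [degree_jetMon] at hx
      have := z.1.2
      omega
    · ext z
      change coeff (jetMon z) (∑ z, monomial (jetMon z) (g z)) = g z
      rw [coeff_sum, Finset.sum_eq_single z]
      · rw [coeff_monomial, if_pos rfl]
      · intro z' _ hz'
        rw [coeff_monomial, if_neg]
        exact fun h => hz' (jetMon_injective _ h)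
      · simp

/-- Dimension of the space of polynomials of degree `≤ d` in two variables. -/
theorem finrank_restrictTotalDegree (d : ℕ) :
    Module.finrank ℂ (restrictTotalDegree (Fin 2) ℂ d) = (d + 2).choose 2 := by
  rw [(jetEquiv d).finrank_eq, Module.finrank_fintype_fun_eq_card, card_jetIdx]

instance (d : ℕ) : FiniteDimensional ℂ (restrictTotalDegree (Fin 2) ℂ d) :=
  (jetEquiv d).symm.finiteDimensional

/-- Translation of the origin to `p`. -/
noncomputable def trans (p : Fin 2 → ℂ) : MvPolynomial (Fin 2) ℂ →ₐ[ℂ] MvPolynomial (Fin 2) ℂ :=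
  aeval fun c => X c + C (p c)

theorem trans_comp (p q : Fin 2 → ℂ) (f : MvPolynomial (Fin 2) ℂ) :
    trans p (trans q f) = trans (fun c => q c + p c) f := by
  have h : (trans p).comp (trans q) = trans (fun c => q c + p c) := by
    apply algHom_ext
    intro c
    simp only [trans, AlgHom.comp_apply, aeval_X, map_add]
    rw [show (aeval fun c => X c + C (p c)) (C (q c) : MvPolynomial (Fin 2) ℂ) = C (q c) from
      aeval_C _ _]
    ring
  rw [← h]
  rfl

theorem trans_zero (f : MvPolynomial (Fin 2) ℂ) : trans (fun _ => 0) f = f := by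
  simp [trans]

/-- Translation as an equivalence. -/
noncomputable def transEquiv (p : Fin 2 → ℂ) :
    MvPolynomial (Fin 2) ℂ ≃+* MvPolynomial (Fin 2) ℂ where
  toFun := trans p
  invFun := trans fun c => - p c
  left_inv f := by
    rw [trans_comp]
    simp [trans]
  right_inv f := by
    rw [trans_comp]
    simp [trans]
  map_mul' := map_mul _
  map_add' := map_add _

theorem eval_zero_trans (p : Fin 2 → ℂ) (f : MvPolynomial (Fin 2) ℂ) :
    eval (fun _ => 0) (trans p f) = eval p f := by
  have h : (eval (fun _ => (0 : ℂ))).comp (trans p).toRingHom = eval p := by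
    apply ringHom_ext
    · intro r
      simp [trans]
    · intro c
      simp [trans]
  rw [← h]
  rfl

theorem ker_eval_zero : RingHom.ker (eval fun _ : Fin 2 => (0 : ℂ)) = idealOfVars (Fin 2) ℂ := by
  ext f
  rw [RingHom.mem_ker, ← pow_one (idealOfVars (Fin 2) ℂ), mem_pow_idealOfVars_iff']
  have h1 : eval (fun _ : Fin 2 => (0 : ℂ)) f = coeff 0 f := by
    have := eval_zero' (σ := Fin 2) (R := ℂ)
    rw [this]
    rfl
  rw [h1]
  constructor
  · intro h x hx
    have : x = 0 := by
      rw [← Finsupp.degree_eq_zero_iff]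
      omega
    rwa [this]
  · intro h
    exact h 0 (by simp)

/-- Membership in the powers of the maximal ideal of a point. -/
theorem mem_ker_eval_pow_iff (p : Fin 2 → ℂ) (m : ℕ) (f : MvPolynomial (Fin 2) ℂ) :
    f ∈ RingHom.ker (eval p) ^ m ↔ jet m (trans p f) = 0 := by
  rw [jet_eq_zero_iff, ← ker_eval_zero]
  have h1 : RingHom.ker (eval p) =
      (RingHom.ker (eval fun _ : Fin 2 => (0 : ℂ))).comap (transEquiv p) := by
    ext f
    rw [Ideal.mem_comap, RingHom.mem_ker, RingHom.mem_ker]
    change eval p f = 0 ↔ eval (fun _ => 0) (trans p f) = 0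
    rw [eval_zero_trans]
  have h2 : RingHom.ker (eval p) ^ m =
      ((RingHom.ker (eval fun _ : Fin 2 => (0 : ℂ))) ^ m).comap (transEquiv p) := by
    rw [h1]
    rw [← Ideal.map_symm, ← Ideal.map_symm, Ideal.map_pow]
  rw [h2, Ideal.mem_comap]
  rfl


theorem fatSystem_le {d h : ℕ} (m : Fin h → ℕ) (p : Fin h → Fin 2 → ℂ) :
    fatSystem d m p ≤ restrictTotalDegree (Fin 2) ℂ d := inf_le_left

theorem mem_fatSystem_iff {d h : ℕ} (m : Fin h → ℕ) (p : Fin h → Fin 2 → ℂ)
    (f : MvPolynomial (Fin 2) ℂ) :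
    f ∈ fatSystem d m p ↔ f ∈ restrictTotalDegree (Fin 2) ℂ d ∧
      ∀ i, jet (m i) (trans (p i) f) = 0 := by
  rw [fatSystem, Submodule.mem_inf, Submodule.mem_iInf]
  refine and_congr_right fun _ => forall_congr' fun i => ?_
  rw [Submodule.restrictScalars_mem, mem_ker_eval_pow_iff]

/-- TaskE2: counting conditions (all positions). -/
theorem lower_bound {d h : ℕ} (m : Fin h → ℕ) (p : Fin h → Fin 2 → ℂ) :
    (d + 2).choose 2 ≤ Module.finrank ℂ (fatSystem d m p) + ∑ i, (m i + 1).choose 2 := by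
  set V := restrictTotalDegree (Fin 2) ℂ d with hV
  let T : V →ₗ[ℂ] (∀ i, JetIdx (m i) → ℂ) :=
    LinearMap.pi fun i => ((jet (m i)).comp (trans (p i)).toLinearMap).comp V.subtype
  have hT : LinearMap.ker T = (fatSystem d m p).comap V.subtype := by
    ext f
    rw [LinearMap.mem_ker, Submodule.mem_comap, mem_fatSystem_iff]
    constructor
    · intro h
      exact ⟨f.2, fun i => congrFun h i⟩
    · intro h
      funext i
      exact h.2 i
  have h1 := LinearMap.finrank_range_add_finrank_ker T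
  have h2 : Module.finrank ℂ (LinearMap.ker T) = Module.finrank ℂ (fatSystem d m p) := by
    rw [hT]
    exact (Submodule.comapSubtypeEquivOfLe (fatSystem_le m p)).finrank_eq
  have h3 : Module.finrank ℂ (LinearMap.range T) ≤ ∑ i, (m i + 1).choose 2 := by
    refine (Submodule.finrank_le _).trans (le_of_eq ?_)
    rw [Module.finrank_pi_fintype]
    refine Finset.sum_congr rfl fun i _ => ?_
    rw [Module.finrank_fintype_fun_eq_card, card_jetIdx]
  rw [← finrank_restrictTotalDegree d, ← hV, ← h1, h2]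
  omega

end Pool.Agent.Lib.MP_6b2d39_ag
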