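import Pool.Agent.Lib.MP_6b2d39_ag.Moves

open Polynomial

namespace Pool.Agent.Lib.MP_6b2d39_ag

/-- the union of the rows: at most `s` rows of lengths `F, F-1, ...` -/
theorem tot_le_rows {ι : Type} [DecidableEq ι] [Fintype ι] {T : Finset ι} :
    ∀ (s : ℕ) (S : ι → Finset ℕ), (∀ i, ∀ x ∈ S i, 1 ≤ x) → (∀ i ∈ T, (S i).card ≤ s) →
      ∑ i ∈ T, tot (S i) ≤ ∑ b ∈ Finset.range s, (∑ i ∈ T, mx (S i) - b) := by
  intro s
  induction s with
  | zero =>
    intro S _ hs
    rw [Finset.range_zero, Finset.sum_empty, Nat.le_zero]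
    apply Finset.sum_eq_zero
    intro i hi
    have h1 : S i = ∅ := by
      rw [← Finset.card_eq_zero]
      have := hs i hi
      omega
    rw [h1, tot_empty]
  | succ s ih =>
    intro S hpos hs
    have h1 := sum_tot_stepS S T T (le_refl _)
    have h2 := ih (stepS S T) (fun i x hx => hpos i x (stepS_subset i hx)) (by
      intro i hi
      rw [stepS_mem hi]
      rcases (S i).eq_empty_or_nonempty with h0 | h0
      · rw [h0]; simp
      · rw [Finset.card_erase_of_mem (mx_mem h0)]
        have := hs i hi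
        omega)
    have h3 := sum_mx_stepS hpos T
    rw [Finset.sum_range_succ', Nat.sub_zero]
    rcases Nat.eq_zero_or_pos (∑ i ∈ T, mx (S i)) with h0 | h0
    · have h4 : ∑ i ∈ T, mx (stepS S T i) = 0 := by omega
      rw [h4] at h2
      simp only [Nat.zero_sub, Finset.sum_const_zero] at h2
      omega
    · have h4 : 1 ≤ act S T := act_pos h0
      have h5 : ∑ b ∈ Finset.range s, (∑ i ∈ T, mx (stepS S T i) - b) ≤
          ∑ b ∈ Finset.range s, (∑ i ∈ T, mx (S i) - (b + 1)) := by
        apply Finset.sum_le_sum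
        intro b _
        omega
      omega

theorem sum_range_sub (s F : ℕ) (h : s ≤ F + 1) :
    2 * ∑ b ∈ Finset.range s, (F - b) + s * (s - 1) = 2 * s * F := by
  induction s with
  | zero => simp
  | succ s ih =>
    have h1 := ih (by omega)
    rw [Finset.sum_range_succ]
    obtain ⟨e, rfl⟩ : ∃ e, F = s + e := ⟨F - s, by omega⟩
    have h2 : s + e - s = e := by omega
    rw [h2]
    rcases Nat.eq_zero_or_pos s with h0 | h0
    · subst h0
      simp
    · obtain ⟨t, rfl⟩ : ∃ t, s = t + 1 := ⟨s - 1, by omega⟩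
      have h3 : t + 1 - 1 = t := rfl
      have h4 : t + 1 + 1 - 1 = t + 1 := rfl
      rw [h3] at h1
      rw [h4]
      nlinarith

/-- the numerical lemma for a single free point -/
theorem single_num {ι : Type} [DecidableEq ι] [Fintype ι] {S : ι → Finset ℕ} {old : Finset ι}
    (hpos : ∀ i, ∀ x ∈ S i, 1 ≤ x) {N c : ℕ} (hF : ∑ i ∈ old, mx (S i) ≤ N) (hc : c ≤ N)
    (hcard : ∀ i ∈ old, (S i).card + c ≤ N) (hFc : N < ∑ i ∈ old, mx (S i) + c) :
    ∑ i ∈ old, tot (S i) + (c + 1).choose 2 + (N - ∑ i ∈ old, mx (S i)) ≤ (N + 1).choose 2 := by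
  obtain ⟨s, hs⟩ : ∃ s, N = s + c := ⟨N - c, by omega⟩
  have h1 := tot_le_rows (T := old) s S hpos (fun i hi => by have := hcard i hi; omega)
  obtain ⟨F, hFe⟩ : ∃ F, F = ∑ i ∈ old, mx (S i) := ⟨_, rfl⟩
  rw [← hFe] at h1 hF hFc ⊢
  have h2 := sum_range_sub s F (by omega)
  have h3 := two_mul_choose_two c
  have h4 := two_mul_choose_two N
  subst hs
  rcases Nat.eq_zero_or_pos s with h0 | h0
  · subst h0
    -- all old shapes are empty, so `F = 0`
    have h5 : F = 0 := by
      rw [hFe]
      apply Finset.sum_eq_zero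
      intro i hi
      have h6 := hcard i hi
      have h7 : S i = ∅ := by
        rw [← Finset.card_eq_zero]
        omega
      rw [h7, mx_empty]
    omega
  · obtain ⟨t, rfl⟩ : ∃ t, s = t + 1 := ⟨s - 1, by omega⟩
    have h5 : t + 1 - 1 = t := rfl
    rw [h5] at h2
    obtain ⟨r, hr⟩ : ∃ r, t + 1 + c = F + r := ⟨t + 1 + c - F, by omega⟩
    have h6 : t + 1 + c - F = r := by omega
    rw [h6]
    have h7 : ∑ i ∈ old, tot (S i) ≤ ∑ b ∈ Finset.range (t + 1), (F - b) := h1
    -- 2·Σ = 2(t+1)F − t(t+1)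
    have h8 : 2 * (∑ i ∈ old, tot (S i)) + (t + 1) * t ≤ 2 * (t + 1) * F := by omega
    have h9 : 2 * (t + 1) * F + c * (c + 1) + 2 * r ≤
        (t + 1 + c) * (t + 1 + c + 1) + (t + 1) * t := by
      have h10 : F = t + 1 + c - r := by omega
      obtain ⟨F', hF'⟩ : ∃ F', F' = F := ⟨F, rfl⟩
      -- F = t+1+c-r
      have h11 : 2 * (t + 1) * F + 2 * (t + 1) * r = 2 * (t + 1) * (t + 1 + c) := by
        rw [hr]; ring
      nlinarith [Nat.zero_le (t * r)]
    omega

variable {k : Type} [Field k] {ι : Type} [DecidableEq ι] [Fintype ι]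

/-- mass of a state whose free points are simple -/
theorem mass_Z {S : ι → Finset ℕ} {old Z : Finset ι} (hd : Disjoint old Z)
    (hone : ∀ i ∈ Z, S i = {1}) {T : Finset ι} (hT : ∀ i ∈ T, i ∉ old ∧ i ∉ Z)
    (hno : ∀ i, i ∉ old → i ∉ Z → i ∉ T → ¬ (S i).Nonempty) :
    ∑ i, tot (S i) = ∑ i ∈ old, tot (S i) + Z.card + ∑ i ∈ T, tot (S i) := by
  have hd2 : Disjoint (old ∪ Z) T := by
    rw [Finset.disjoint_left]
    intro i hi hi2
    have h1 := hT i hi2
    rcases Finset.mem_union.1 hi with hi | hi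
    · exact h1.1 hi
    · exact h1.2 hi
  have h2 : ∑ i ∈ (old ∪ Z) ∪ T, tot (S i) = ∑ i, tot (S i) := by
    apply Finset.sum_subset (Finset.subset_univ _)
    intro i _ hi
    rw [Finset.mem_union, Finset.mem_union, not_or, not_or] at hi
    have h3 := hno i hi.1.1 hi.1.2 hi.2
    rw [Finset.not_nonempty_iff_eq_empty] at h3
    rw [h3, tot_empty]
  rw [← h2, Finset.sum_union hd2, Finset.sum_union hd]
  congr 2
  rw [Finset.sum_congr rfl (fun i hi => by rw [hone i hi])]
  simp [tot]

/-- closing a row with the help of `Z1 ⊆ Z` -/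
theorem close_with_Z {n : ℕ} {S : ι → Finset ℕ} {old Z Z1 : Finset ι}
    (hd : Disjoint old Z) (hone : ∀ i ∈ Z, S i = {1}) (hZ1 : Z1 ⊆ Z)
    (hF : ∑ i ∈ old, mx (S i) + Z1.card = n + 1)
    (h : Good k n (stepS S (old ∪ Z1)) (old ∪ Z1)) : Good k (n + 1) S old := by
  have hmx1 : mx ({1} : Finset ℕ) = 1 := rfl
  have hd2 : Disjoint old Z1 := Finset.disjoint_of_subset_right hZ1 hd
  have hsumZ1 : ∑ i ∈ Z1, mx (S i) = Z1.card := by
    rw [Finset.sum_congr rfl (fun i hi => by rw [hone i (hZ1 hi), hmx1])]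
    simp
  have hF2 : ∑ i ∈ old ∪ Z1, mx (S i) = n + 1 := by
    rw [Finset.sum_union hd2, hsumZ1]; omega
  apply good_mono (old' := old ∪ Z1) Finset.subset_union_left
  exact good_plain h (fun i hi => stepS_mem hi) (fun i hi => stepS_not_mem hi)
    (le_of_eq hF2.symm)

theorem close_with_Z_data {n : ℕ} {S : ι → Finset ℕ} {old Z Z1 : Finset ι}
    (hpos : ∀ i, ∀ s ∈ S i, 1 ≤ s)
    (hd : Disjoint old Z) (hone : ∀ i ∈ Z, S i = {1}) (hZ1 : Z1 ⊆ Z)
    (hF : ∑ i ∈ old, mx (S i) + Z1.card = n + 1) :
    Disjoint (old ∪ Z1) (Z \ Z1) ∧ (∀ i ∈ Z \ Z1, stepS S (old ∪ Z1) i = {1}) ∧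
    (∀ i, ∀ s ∈ stepS S (old ∪ Z1) i, 1 ≤ s) ∧
    ∑ i ∈ old ∪ Z1, mx (stepS S (old ∪ Z1) i) ≤ n ∧
    ∑ i, tot (stepS S (old ∪ Z1) i) + (n + 1) = ∑ i, tot (S i) := by
  have hmx1 : mx ({1} : Finset ℕ) = 1 := rfl
  have hd2 : Disjoint old Z1 := Finset.disjoint_of_subset_right hZ1 hd
  have hsumZ1 : ∑ i ∈ Z1, mx (S i) = Z1.card := by
    rw [Finset.sum_congr rfl (fun i hi => by rw [hone i (hZ1 hi), hmx1])]
    simp
  have hF2 : ∑ i ∈ old ∪ Z1, mx (S i) = n + 1 := by
    rw [Finset.sum_union hd2, hsumZ1]; omega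
  refine ⟨?_, ?_, fun i s hs => hpos i s (stepS_subset i hs), ?_, ?_⟩
  · rw [Finset.disjoint_left]
    intro i hi hi2
    rw [Finset.mem_sdiff] at hi2
    rw [Finset.mem_union] at hi
    rcases hi with hi | hi
    · exact (Finset.disjoint_left.1 hd hi) hi2.1
    · exact hi2.2 hi
  · intro i hi
    rw [Finset.mem_sdiff] at hi
    rw [stepS_not_mem, hone i hi.1]
    rw [Finset.mem_union, not_or]
    exact ⟨fun h' => (Finset.disjoint_left.1 hd h') hi.1, hi.2⟩
  · have h1 := sum_mx_stepS hpos (old ∪ Z1)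
    have h2 : 1 ≤ act S (old ∪ Z1) := act_pos (by omega)
    omega
  · have h1 := sum_tot_stepS S (old ∪ Z1) Finset.univ (Finset.subset_univ _)
    omega

/-- only simple points are free -/
theorem only_simple [Infinite k] : ∀ (N : ℕ) (S : ι → Finset ℕ) (old Z : Finset ι),
    Disjoint old Z → (∀ i ∈ Z, S i = {1}) → (∀ i, ∀ s ∈ S i, 1 ≤ s) →
    (∀ i, i ∉ old → i ∉ Z → ¬ (S i).Nonempty) →
    ∑ i ∈ old, mx (S i) ≤ N → (N + 1).choose 2 ≤ ∑ i, tot (S i) → Good k N S old := by
  intro N
  induction N with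
  | zero => intro S old _ _ _ _ _ _ _; exact good_zero S old
  | succ n ih =>
    intro S old Z hd hone hpos hno hF htot
    have hmass := mass_Z hd hone (T := ∅) (by simp) (fun i h1 h2 _ => hno i h1 h2)
    rw [Finset.sum_empty, add_zero] at hmass
    have hle : n + 1 - ∑ i ∈ old, mx (S i) ≤ Z.card := by
      have h2 := two_mul_sum_tot_le S old
      obtain ⟨F, hFe⟩ : ∃ F, F = ∑ i ∈ old, mx (S i) := ⟨_, rfl⟩
      rw [← hFe] at h2 hF ⊢
      have h3 := two_mul_choose_two (n + 1)
      obtain ⟨r, hr⟩ : ∃ r, n + 1 = F + r := ⟨n + 1 - F, by omega⟩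
      have h4 : n + 1 - F = r := by omega
      rw [h4]
      rw [hr] at h3 htot
      nlinarith
    obtain ⟨Z1, hZ1, hZ1card⟩ := Finset.exists_subset_card_eq hle
    have hF1 : ∑ i ∈ old, mx (S i) + Z1.card = n + 1 := by omega
    obtain ⟨d1, d2, d3, d4, d5⟩ := close_with_Z_data hpos hd hone hZ1 hF1
    apply close_with_Z hd hone hZ1 hF1
    apply ih _ _ (Z \ Z1) d1 d2 d3 ?_ d4
    · have := choose_two_succ n
      omega
    · intro i hi1 hi2
      rw [stepS_not_mem hi1]
      rw [Finset.mem_union, not_or] at hi1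
      exact hno i hi1.1 (fun h' => hi2 (Finset.mem_sdiff.2 ⟨h', hi1.2⟩))

/-- exactly one free point which is not simple -/
theorem single_free [Infinite k] : ∀ (N : ℕ) (S : ι → Finset ℕ) (old Z : Finset ι) (j : ι) (c : ℕ),
    Disjoint old Z → (∀ i ∈ Z, S i = {1}) → (∀ i, ∀ s ∈ S i, 1 ≤ s) →
    j ∉ old → j ∉ Z → S j = Finset.Icc 1 c →
    (∀ i, i ∉ old → i ∉ Z → i ≠ j → ¬ (S i).Nonempty) →
    ∑ i ∈ old, mx (S i) ≤ N → c ≤ N → (∀ i ∈ old, (S i).card + c ≤ N) →
    (N + 1).choose 2 ≤ ∑ i, tot (S i) → Good k N S old := by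
  intro N
  induction N with
  | zero => intro S old _ _ _ _ _ _ _ _ _ _ _ _ _ _; exact good_zero S old
  | succ n ih =>
    intro S old Z j c hd hone hpos hj1 hj2 hc hno hF hcN hcard htot
    rcases Nat.lt_or_ge (n + 1) (∑ i ∈ old, mx (S i) + c) with h1 | h1
    · -- burn simple points
      have hnum := single_num hpos hF hcN hcard h1
      have hmass := mass_Z hd hone (T := {j}) (by
        intro i hi
        rw [Finset.mem_singleton] at hi
        rw [hi]
        exact ⟨hj1, hj2⟩) (fun i h1 h2 h3 => hno i h1 h2 (by simpa using h3))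
      rw [Finset.sum_singleton, hc, tot_Icc] at hmass
      have hle : n + 1 - ∑ i ∈ old, mx (S i) ≤ Z.card := by omega
      obtain ⟨Z1, hZ1, hZ1card⟩ := Finset.exists_subset_card_eq hle
      have hF1 : ∑ i ∈ old, mx (S i) + Z1.card = n + 1 := by omega
      obtain ⟨d1, d2, d3, d4, d5⟩ := close_with_Z_data hpos hd hone hZ1 hF1
      have hjU : j ∉ old ∪ Z1 := by
        rw [Finset.mem_union, not_or]
        exact ⟨hj1, fun h' => hj2 (hZ1 h')⟩
      -- c ≤ n
      have hcn : c ≤ n := by
        by_contra hcon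
        have h2 : c = n + 1 := by omega
        have h3 : ∑ i ∈ old, mx (S i) = 0 := by
          apply Finset.sum_eq_zero
          intro i hi
          have h6 := hcard i hi
          have h7 : S i = ∅ := by
            rw [← Finset.card_eq_zero]
            omega
          rw [h7, mx_empty]
        omega
      apply close_with_Z hd hone hZ1 hF1
      apply ih _ _ (Z \ Z1) j c d1 d2 d3 hjU
        (fun h' => hj2 (Finset.mem_sdiff.1 h').1) (by rw [stepS_not_mem hjU, hc]) ?_ d4 hcn ?_ ?_
      · intro i hi1 hi2 hij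
        rw [stepS_not_mem hi1]
        rw [Finset.mem_union, not_or] at hi1
        exact hno i hi1.1 (fun h' => hi2 (Finset.mem_sdiff.2 ⟨h', hi1.2⟩)) hij
      · intro i hi
        rw [stepS_mem hi]
        rcases (S i).eq_empty_or_nonempty with h0 | h0
        · rw [h0]
          simpa using hcn
        · rw [Finset.card_erase_of_mem (mx_mem h0)]
          have h2 := Finset.card_pos.2 h0
          rcases Finset.mem_union.1 hi with hi | hi
          · have := hcard i hi
            omega
          · rw [hone i (hZ1 hi)]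
            simpa using hcn
      · have := choose_two_succ n
        omega
    · -- the point fits
      apply good_move hj1
      apply only_simple (n + 1) S (insert j old) Z ?_ hone hpos ?_ ?_ htot
      · rw [Finset.disjoint_insert_left]
        exact ⟨hj2, hd⟩
      · intro i hi1 hi2
        rw [Finset.mem_insert, not_or] at hi1
        exact hno i hi1.2 hi2 hi1.1
      · rw [Finset.sum_insert hj1, hc, mx_Icc]
        omega

theorem tri_card_le_tot {S : Finset ℕ} (h : ∀ s ∈ S, 1 ≤ s) :
    S.card * (S.card + 1) ≤ 2 * tot S := by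
  induction hn : S.card generalizing S with
  | zero => simp
  | succ n ih =>
    have hne : S.Nonempty := by rw [← Finset.card_pos]; omega
    have h1 := ih (S := S.erase (mx S)) (fun s hs => h s (Finset.mem_of_mem_erase hs))
      (by rw [Finset.card_erase_of_mem (mx_mem hne)]; omega)
    have h2 := tot_erase_mx S
    have h3 := card_le_mx h
    rw [hn] at h3
    nlinarith

theorem sq_div_four (n : ℕ) : (n + 1) ^ 2 / 4 = n ^ 2 / 4 + (n + 1) / 2 := by
  rcases Nat.even_or_odd' n with ⟨m, rfl | rfl⟩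
  · have h1 : (2 * m + 1) ^ 2 = 4 * (m ^ 2 + m) + 1 := by ring
    have h2 : (2 * m) ^ 2 = 4 * m ^ 2 := by ring
    rw [h1, h2]
    omega
  · have h1 : (2 * m + 1 + 1) ^ 2 = 4 * (m ^ 2 + 2 * m + 1) := by ring
    have h2 : (2 * m + 1) ^ 2 = 4 * (m ^ 2 + m) + 1 := by ring
    rw [h1, h2]
    omega

theorem four_mul_sq_div (n : ℕ) : n ^ 2 ≤ 4 * (n ^ 2 / 4) + 1 := by
  rcases Nat.even_or_odd' n with ⟨m, rfl | rfl⟩
  · have h2 : (2 * m) ^ 2 = 4 * m ^ 2 := by ring
    rw [h2]
    omega
  · have h2 : (2 * m + 1) ^ 2 = 4 * (m ^ 2 + m) + 1 := by ring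
    rw [h2]
    omega

theorem num_two {n q z c c' A B T : ℕ} (hsq : n ^ 2 ≤ 4 * q + 1) (hz : q ≤ z)
    (h3 : 2 * T = (n + 1) * (n + 1 + 1)) (h6 : 2 * A = c * (c + 1)) (h7 : 2 * B = c' * (c' + 1))
    (h8 : n + 3 ≤ 2 * c) (h9 : n + 3 ≤ 2 * c') (h4 : z + (A + B) ≤ T) : False := by
  have h10 : (n + 3) * (n + 5) ≤ 8 * A := by
    have : (n + 3) * (n + 5) ≤ (2 * c) * (2 * c + 2) := Nat.mul_le_mul h8 (by omega)
    nlinarith
  have h11 : (n + 3) * (n + 5) ≤ 8 * B := by
    have : (n + 3) * (n + 5) ≤ (2 * c') * (2 * c' + 2) := Nat.mul_le_mul h9 (by omega)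
    nlinarith
  nlinarith

theorem num_card {n q z c s A B T : ℕ} (hsq : n ^ 2 ≤ 4 * q + 1) (hz : q ≤ z)
    (h3 : 2 * T = (n + 1) * (n + 1 + 1)) (h6 : 2 * A = c * (c + 1)) (h7 : s * (s + 1) ≤ 2 * B)
    (h8 : n + 2 ≤ s + c) (h4 : z + (B + A) ≤ T) : False := by
  have h9 : (s + c) * (s + c) ≤ 2 * (s * s + c * c) := by
    nlinarith [sq_nonneg ((s : ℤ) - c), two_mul_le_add_sq s c]
  have h10 : (n + 2) * (n + 2) ≤ (s + c) * (s + c) := Nat.mul_le_mul h8 h8
  nlinarith

theorem num_le {n c A T : ℕ} (h3 : 2 * T = (n + 1) * (n + 1 + 1)) (h6 : 2 * A = c * (c + 1))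
    (h4 : A ≤ T) : c ≤ n + 1 := by
  by_contra h
  have h8 : n + 2 ≤ c := by omega
  have : (n + 2) * (n + 3) ≤ c * (c + 1) := Nat.mul_le_mul h8 (by omega)
  nlinarith

/-- the exact base statement, with a supply of simple points -/
theorem pos_exact [Infinite k] : ∀ (N : ℕ) (S : ι → Finset ℕ) (old Z : Finset ι),
    Disjoint old Z → (∀ i ∈ Z, S i = {1}) → (∀ i, i ∉ old → ∃ c, S i = Finset.Icc 1 c) →
    (∀ i, ∀ s ∈ S i, 1 ≤ s) → ∑ i ∈ old, mx (S i) ≤ N →
    ∑ i, tot (S i) = (N + 1).choose 2 →
    ((∃ j, j ∉ old ∧ j ∉ Z ∧ (S j).Nonempty) → (N - 1) ^ 2 / 4 ≤ Z.card) →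
    Good k N S old := by
  intro N
  induction N with
  | zero => intro S old _ _ _ _ _ _ _ _; exact good_zero S old
  | succ n ih =>
    have key : ∀ (f : ℕ) (S : ι → Finset ℕ) (old Z : Finset ι), (oldᶜ).card ≤ f →
        Disjoint old Z → (∀ i ∈ Z, S i = {1}) → (∀ i, i ∉ old → ∃ c, S i = Finset.Icc 1 c) →
        (∀ i, ∀ s ∈ S i, 1 ≤ s) → ∑ i ∈ old, mx (S i) ≤ n + 1 →
        ∑ i, tot (S i) = (n + 1 + 1).choose 2 →
        ((∃ j, j ∉ old ∧ j ∉ Z ∧ (S j).Nonempty) → (n + 1 - 1) ^ 2 / 4 ≤ Z.card) →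
        Good k (n + 1) S old := by
      intro f
      induction f with
      | zero =>
        intro S old Z hcard hd hone hfat hpos hF htot hres
        apply only_simple (n + 1) S old Z hd hone hpos ?_ hF (le_of_eq htot.symm)
        intro i hi1 _ _
        have := Finset.card_pos.2 ⟨i, Finset.mem_compl.2 hi1⟩
        omega
      | succ f ihf =>
        intro S old Z hcard hd hone hfat hpos hF htot hres
        by_cases hex : ∃ j, j ∉ old ∧ j ∉ Z ∧ (S j).Nonempty
        swap
        · push Not at hex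
          apply only_simple (n + 1) S old Z hd hone hpos ?_ hF (le_of_eq htot.symm)
          intro i hi1 hi2
          exact Finset.not_nonempty_iff_eq_empty.2 (hex i hi1 hi2)
        have hz := hres hex
        have h00 : n + 1 - 1 = n := rfl
        rw [h00] at hz
        obtain ⟨j, hj, hjmin⟩ := Finset.exists_min_image
          (Finset.univ.filter (fun g => g ∉ old ∧ g ∉ Z ∧ (S g).Nonempty)) (fun g => mx (S g))
          (by obtain ⟨g, hg⟩ := hex; exact ⟨g, by simpa using hg⟩)
        simp only [Finset.mem_filter, Finset.mem_univ, true_and] at hj hjmin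
        obtain ⟨hj1, hj2, hj3⟩ := hj
        obtain ⟨c, hc⟩ := hfat j hj1
        have hmxj : mx (S j) = c := by rw [hc, mx_Icc]
        have hc1 : 1 ≤ c := by
          rcases Nat.eq_zero_or_pos c with h0 | h0
          · rw [hc, h0] at hj3
            simp at hj3
          · exact h0
        rcases Nat.lt_or_ge (n + 1) (∑ i ∈ old, mx (S i) + c) with h1 | h1
        swap
        · -- the point fits
          apply good_move hj1
          apply ihf S (insert j old) Z ?_ ?_ hone ?_ hpos ?_ htot ?_
          · rw [Finset.compl_insert, Finset.card_erase_of_mem (Finset.mem_compl.2 hj1)]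
            omega
          · rw [Finset.disjoint_insert_left]
            exact ⟨hj2, hd⟩
          · exact fun i hi => hfat i (fun h' => hi (Finset.mem_insert_of_mem h'))
          · rw [Finset.sum_insert hj1, hmxj]
            omega
          · intro _
            exact hres hex
        obtain ⟨R, hR⟩ : ∃ R, R = n + 1 - ∑ i ∈ old, mx (S i) := ⟨_, rfl⟩
        -- closing with `R` simple points
        have burn : R ≤ Z.card → (R = 0 ∨ 2 * R ≤ n) → Good k (n + 1) S old := by
          intro hRZ hR2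
          obtain ⟨Z1, hZ1, hZ1card⟩ := Finset.exists_subset_card_eq hRZ
          have hF1 : ∑ i ∈ old, mx (S i) + Z1.card = n + 1 := by omega
          obtain ⟨d1, d2, d3, d4, d5⟩ := close_with_Z_data hpos hd hone hZ1 hF1
          apply close_with_Z hd hone hZ1 hF1
          apply ih _ _ (Z \ Z1) d1 d2 ?_ d3 d4
          · have := choose_two_succ n
            omega
          · intro _
            rw [Finset.card_sdiff_of_subset hZ1, hZ1card]
            rcases Nat.eq_zero_or_pos n with h0 | h0
            · subst h0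
              simp
            · obtain ⟨n', rfl⟩ : ∃ n', n = n' + 1 := ⟨n - 1, by omega⟩
              have h2 := sq_div_four n'
              have h3 : n' + 1 - 1 = n' := rfl
              rw [h3]
              omega
          · intro i hi
            rw [stepS_not_mem hi]
            rw [Finset.mem_union, not_or] at hi
            exact hfat i hi.1
        rcases Nat.lt_or_ge n (2 * R) with h2 | h2
        swap
        · apply burn ?_ (Or.inr h2)
          -- R ≤ n^2/4 when 2R ≤ n
          have h3 : R ≤ n ^ 2 / 4 := by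
            rw [Nat.le_div_iff_mul_le (by norm_num)]
            have h4 := Nat.mul_le_mul h2 h2
            have h5 := Nat.le_mul_self R
            nlinarith
          omega
        · rcases Nat.eq_zero_or_pos R with h0 | h0
          · exact burn (by omega) (Or.inl h0)
          -- exactly one free point
          have hsq := four_mul_sq_div n
          have h3 := two_mul_choose_two (n + 1)
          have hcR : R + 1 ≤ c := by omega
          have hone' : ∀ i, i ∉ old → i ∉ Z → i ≠ j → ¬ (S i).Nonempty := by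
            intro i hi1 hi2 hij hi3
            have hmi := hjmin i ⟨hi1, hi2, hi3⟩
            obtain ⟨c', hc'⟩ := hfat i hi1
            have hmxi : mx (S i) = c' := by rw [hc', mx_Icc]
            rw [hmxi, hmxj] at hmi
            have h4 : ∑ l ∈ Z ∪ {i, j}, tot (S l) ≤ ∑ l, tot (S l) :=
              Finset.sum_le_sum_of_subset (Finset.subset_univ _)
            have hd3 : Disjoint Z {i, j} := by
              rw [Finset.disjoint_left]
              intro l hl hl2
              rw [Finset.mem_insert, Finset.mem_singleton] at hl2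
              rcases hl2 with rfl | rfl
              · exact hi2 hl
              · exact hj2 hl
            rw [Finset.sum_union hd3, Finset.sum_pair hij, hc, hc', tot_Icc, tot_Icc,
              Finset.sum_congr rfl (fun l hl => by rw [hone l hl])] at h4
            have h5 : ∑ l ∈ Z, tot ({1} : Finset ℕ) = Z.card := by simp [tot]
            rw [h5] at h4
            rw [htot] at h4
            exact num_two hsq hz h3 (two_mul_choose_two c) (two_mul_choose_two c')
              (by omega) (by omega) (by omega)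
          apply single_free (n + 1) S old Z j c hd hone hpos hj1 hj2 hc hone' hF ?_ ?_
            (le_of_eq htot.symm)
          · -- c ≤ n + 1
            have h4 : tot (S j) ≤ ∑ l, tot (S l) :=
              Finset.single_le_sum (f := fun l => tot (S l)) (fun _ _ => Nat.zero_le _)
                (Finset.mem_univ j)
            rw [hc, tot_Icc, htot] at h4
            exact num_le h3 (two_mul_choose_two c) h4
          · intro i hi
            by_contra hcon
            have h4 : ∑ l ∈ Z ∪ {i, j}, tot (S l) ≤ ∑ l, tot (S l) :=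
              Finset.sum_le_sum_of_subset (Finset.subset_univ _)
            have hij : i ≠ j := fun e => hj1 (e ▸ hi)
            have hd3 : Disjoint Z {i, j} := by
              rw [Finset.disjoint_left]
              intro l hl hl2
              rw [Finset.mem_insert, Finset.mem_singleton] at hl2
              rcases hl2 with rfl | rfl
              · exact (Finset.disjoint_left.1 hd hi) hl
              · exact hj2 hl
            rw [Finset.sum_union hd3, Finset.sum_pair hij, hc, tot_Icc,
              Finset.sum_congr rfl (fun l hl => by rw [hone l hl])] at h4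
            have h5 : ∑ l ∈ Z, tot ({1} : Finset ℕ) = Z.card := by simp [tot]
            rw [h5] at h4
            rw [htot] at h4
            exact num_card hsq hz h3 (two_mul_choose_two c) (tri_card_le_tot (hpos i))
              (by omega) h4
    intro S old Z hd hone hfat hpos hF htot hres
    exact key _ S old Z le_rfl hd hone hfat hpos hF htot hres

end Pool.Agent.Lib.MP_6b2d39_ag
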