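import Pool.Agent.Lib.MP_6b2d39_ag.NegBase
import Pool.Agent.Lib.MP_6b2d39_ag.PosBase

open Polynomial

namespace Pool.Agent.Lib.MP_6b2d39_ag

/-- the base statement on the non-empty side -/
theorem pos_base {k : Type} [Field k] [Infinite k] {ι : Type} [DecidableEq ι] [Fintype ι]
    {μ : ℕ} (n : ℕ) (hn : n < 2 * μ) (S : ι → Finset ℕ) (old Z : Finset ι)
    (h : St True μ 0 ((μ - 1) ^ 2) n S old Z) : Good k n S old := by
  apply pos_exact n S old Z h.disj h.one h.fat h.pos h.room
  · have := h.exact' trivial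
    omega
  · intro hex
    have h1 := h.res hex
    refine le_trans ?_ h1
    have h2 : n - 1 ≤ 2 * (μ - 1) := by omega
    have h3 : (n - 1) ^ 2 ≤ (2 * (μ - 1)) ^ 2 := Nat.pow_le_pow_left h2 2
    have h4 : (2 * (μ - 1)) ^ 2 = (μ - 1) ^ 2 * 4 := by ring
    rw [h4] at h3
    exact Nat.div_le_of_le_mul (by omega)

/-- the shapes of `h` fat points and `u` simple points -/
def shapes {h : ℕ} (m : Fin h → ℕ) (u : ℕ) : Fin h ⊕ Fin u → Finset ℕ :=
  Sum.elim (fun i => Finset.Icc 1 (m i)) (fun _ => {1})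

theorem initial {E : Prop} {μ w z u h N : ℕ} (hμ : 1 ≤ μ) (m : Fin h → ℕ)
    (hsup : ∀ i, μ < m i →
      (2 * m i).choose 2 + w ≤ ∑ j with m j < m i, (m j + 1).choose 2)
    (htot : (N + 1).choose 2 + w ≤ ∑ i, (m i + 1).choose 2 + u)
    (hE : E → ∑ i, (m i + 1).choose 2 + u = (N + 1).choose 2 + w) (hz : z ≤ u) :
    St E μ w z N (shapes m u) ∅ (Finset.univ.image Sum.inr) := by
  have hmx : ∀ i, mx (shapes m u (Sum.inl i)) = m i := fun i => mx_Icc (m i)
  have htotS : ∑ i, tot (shapes m u i) = ∑ i, (m i + 1).choose 2 + u := by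
    rw [Fintype.sum_sum_type]
    congr 1
    · apply Finset.sum_congr rfl
      intro i _
      exact tot_Icc (m i)
    · simp [shapes, tot]
  have hfree : ∀ i, ∑ j ∈ freeLt (shapes m u) ∅ (Finset.univ.image Sum.inr) (m i),
      tot (shapes m u j) = ∑ j with m j < m i, (m j + 1).choose 2 := by
    intro i
    have h1 : freeLt (shapes m u) ∅ (Finset.univ.image Sum.inr) (m i) =
        (Finset.univ.filter (fun j => m j < m i)).map ⟨Sum.inl, Sum.inl_injective⟩ := by
      ext l
      rw [mem_freeLt]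
      rcases l with l | l
      · simp [hmx]
      · simp
    rw [h1, Finset.sum_map]
    apply Finset.sum_congr rfl
    intro j _
    exact tot_Icc (m j)
  refine ⟨Finset.disjoint_empty_left _, ?_, ?_, ?_, ?_, ?_, ?_, ?_, ?_, ?_, ?_, ?_⟩
  · intro i hi
    rw [Finset.mem_image] at hi
    obtain ⟨l, _, rfl⟩ := hi
    rfl
  · intro i _
    rcases i with i | i
    · exact ⟨m i, rfl⟩
    · exact ⟨1, rfl⟩
  · intro i s hs
    rcases i with i | i
    · exact (Finset.mem_Icc.1 hs).1
    · have : s = 1 := Finset.mem_singleton.1 hs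
      omega
  · intro _ i hi
    exact absurd hi (Finset.notMem_empty i)
  · intro i hi
    exact absurd hi (Finset.notMem_empty i)
  · simp
  · rw [htotS]; exact htot
  · intro hE'
    rw [htotS]; exact hE hE'
  · intro _
    rw [Finset.card_image_of_injective _ Sum.inr_injective]
    simpa using hz
  · intro i _ hi hi1 _
    rcases i with i | i
    · rw [hmx] at hi1 ⊢
      rw [hfree]
      exact hsup i hi1
    · exact absurd (Finset.mem_image_of_mem _ (Finset.mem_univ i)) hi
  · intro i _ hi hi1 hi2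
    rcases i with i | i
    · rw [hmx] at hi1 hi2 ⊢
      rw [hfree]
      have h1 := hsup i hi1
      have h2 : (N + 1).choose 2 ≤ (2 * m i).choose 2 := Nat.choose_le_choose 2 (by omega)
      simp only [Finset.sum_empty, zero_add]
      omega
    · exact absurd (Finset.mem_image_of_mem _ (Finset.mem_univ i)) hi

theorem good_nonempty_side {k : Type} [Field k] [CharZero k] {h : ℕ} (d μ : ℕ) (hμ : 1 ≤ μ)
    (m : Fin h → ℕ)
    (hsup : ∀ i, μ < m i → (2 * m i).choose 2 ≤ ∑ j with m j < m i, (m j + 1).choose 2)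
    (u : ℕ) (hu : ∑ i, (m i + 1).choose 2 + u = (d + 2).choose 2) (hu2 : (μ - 1) ^ 2 ≤ u) :
    Good k (d + 1) (shapes m u) ∅ := by
  have h0 : (d + 1 + 1).choose 2 = (d + 2).choose 2 := rfl
  have h1 := initial (E := True) (w := 0) (z := (μ - 1) ^ 2) (N := d + 1) hμ m
    (fun i hi => by simpa using hsup i hi) (by omega) (fun _ => by omega) hu2
  exact proc (fun n hn S old Z hS => pos_base n hn S old Z hS) _ _ _ _ h1

theorem good_empty_side {k : Type} [Field k] [CharZero k] {h : ℕ} (d μ : ℕ) (hμ : 1 ≤ μ)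
    (m : Fin h → ℕ)
    (hsup : ∀ i, μ < m i →
      (2 * m i).choose 2 + (μ - 1) ^ 2 ≤ ∑ j with m j < m i, (m j + 1).choose 2)
    (hu : (d + 2).choose 2 + (μ - 1) ^ 2 ≤ ∑ i, (m i + 1).choose 2) :
    Good k (d + 1) (shapes m 0) ∅ := by
  have h0 : (d + 1 + 1).choose 2 = (d + 2).choose 2 := rfl
  have h1 := initial (E := False) (w := (μ - 1) ^ 2) (z := 0) (u := 0) (N := d + 1) hμ m
    hsup (by omega) (fun h => h.elim) (le_refl _)
  exact proc (fun n hn S old Z hS => neg_base hμ n hn S old Z hS) _ _ _ _ h1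

end Pool.Agent.Lib.MP_6b2d39_ag
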