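import Pool.Agent.Lib.MP_6b2d39_ag.Transfer
import Pool.Agent.Lib.MP_6b2d39_ag.LowerBound
import Pool.Agent.Lib.MP_6b2d39_ag.Window

namespace Pool.Agent.Lib.MP_6b2d39_ag

theorem general_nonempty_side {d h : ℕ} (m : Fin h → ℕ) (u : ℕ)
    (hu : ∑ i, (m i + 1).choose 2 + u = (d + 2).choose 2)
    (hgood : Good ℂ (d + 1) (shapes m u) ∅) :
    ∃ Φ : MvPolynomial (Fin h × Fin 2) ℂ, Φ ≠ 0 ∧ ∀ p : Fin h → Fin 2 → ℂ,
      MvPolynomial.eval (fun q => p q.1 q.2) Φ ≠ 0 →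
        (Module.finrank ℂ (fatSystem d m p) : ℤ) =
          max (((d + 2).choose 2 : ℤ) - ∑ i, ((m i + 1).choose 2 : ℤ)) 0 := by
  obtain ⟨Φ, hΦ, hΦ2⟩ := transfer_upper m hgood
  refine ⟨Φ, hΦ, ?_⟩
  intro p hp
  have h1 := hΦ2 p hp
  have h2 := lower_bound (d := d) m p
  have h3 : (∑ i, ((m i + 1).choose 2 : ℤ)) = ((∑ i, (m i + 1).choose 2 : ℕ) : ℤ) := by
    push_cast
    rfl
  rw [h3]
  omega

theorem general_empty_side {d h : ℕ} (m : Fin h → ℕ)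
    (hu : (d + 2).choose 2 ≤ ∑ i, (m i + 1).choose 2)
    (hgood : Good ℂ (d + 1) (shapes m 0) ∅) :
    ∃ Φ : MvPolynomial (Fin h × Fin 2) ℂ, Φ ≠ 0 ∧ ∀ p : Fin h → Fin 2 → ℂ,
      MvPolynomial.eval (fun q => p q.1 q.2) Φ ≠ 0 →
        (Module.finrank ℂ (fatSystem d m p) : ℤ) =
          max (((d + 2).choose 2 : ℤ) - ∑ i, ((m i + 1).choose 2 : ℤ)) 0 := by
  obtain ⟨Φ, hΦ, hΦ2⟩ := transfer_upper m hgood
  refine ⟨Φ, hΦ, ?_⟩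
  intro p hp
  have h1 := hΦ2 p hp
  have h3 : (∑ i, ((m i + 1).choose 2 : ℤ)) = ((∑ i, (m i + 1).choose 2 : ℕ) : ℤ) := by
    push_cast
    rfl
  rw [h3]
  omega

end Pool.Agent.Lib.MP_6b2d39_ag
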