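import Pool.Agent.Lib.MP_6b2d39_ag.Deform

open Polynomial

namespace Pool.Agent.Lib.MP_6b2d39_ag

variable {k : Type} [Field k] {ι : Type} [DecidableEq ι]

/-- no nonzero polynomial of degree `< n` satisfies all conditions, for suitable positions in some
extension field; the points in `old` are on the line `y = 0` and the others are off that line. -/
def Good (k : Type) [Field k] (n : ℕ) (S : ι → Finset ℕ) (old : Finset ι) : Prop :=
  ∃ (K : Type) (_ : Field K) (_ : k →+* K) (x y : ι → K), Function.Injective x ∧
    (∀ i ∈ old, y i = 0) ∧ (∀ i, i ∉ old → y i ≠ 0) ∧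
    ∀ f : K[X][X], InV n f → (∀ i, Cond (S i) (x i) (y i) f) → f = 0

/-- the base case -/
theorem good_zero [Fintype ι] [Infinite k] (S : ι → Finset ℕ) (old : Finset ι) :
    Good k 0 S old := by
  refine ⟨k, inferInstance, RingHom.id k,
    fun i => Infinite.natEmbedding k (Fintype.equivFin ι i : ℕ),
    fun i => if i ∈ old then 0 else 1, ?_, ?_, ?_, ?_⟩
  · intro a b hab
    have h1 := (Infinite.natEmbedding k).injective hab
    exact (Fintype.equivFin ι).injective (Fin.ext h1)
  · intro i hi
    simp [hi]
  · intro i hi
    simp [hi]
  · intro f hf _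
    exact InV_zero hf

/-- plain step along the line -/
theorem good_plain {n : ℕ} {S S' : ι → Finset ℕ} {old : Finset ι} (h : Good k n S' old)
    (h1 : ∀ i ∈ old, S' i = (S i).erase (mx (S i))) (h2 : ∀ i, i ∉ old → S' i = S i)
    (h3 : n + 1 ≤ ∑ i ∈ old, mx (S i)) : Good k (n + 1) S old := by
  obtain ⟨K, _, φ, x, y, hx, hy0, hy1, H⟩ := h
  refine ⟨K, _, φ, x, y, hx, hy0, hy1, ?_⟩
  intro f hf hc
  have hl : f.map (ev0 K) = 0 := by
    apply line_zero old x hx.injOn S h3 hf
    intro i hi
    have := hc i
    rwa [hy0 i hi] at this
  obtain ⟨g, rfl⟩ := exists_eq_y_mul hl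
  have hg : g = 0 := by
    apply H g hf.of_y_mul
    intro i
    by_cases hi : i ∈ old
    · rw [h1 i hi, hy0 i hi]
      have := hc i
      rw [hy0 i hi] at this
      exact this.residual_line
    · rw [h2 i hi]
      exact (hc i).residual_off (hy1 i hi)
  rw [hg, mul_zero]

/-- moving a point off the line -/
theorem good_move {n : ℕ} {S : ι → Finset ℕ} {old : Finset ι} {j : ι} (hj : j ∉ old)
    (h : Good k n S (insert j old)) : Good k n S old := by
  obtain ⟨K, _, φ, x, y, hx, hy0, hy1, H⟩ := h
  have hinj : Function.Injective (algebraMap K[X] (FractionRing K[X])) :=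
    IsFractionRing.injective _ _
  have hCinj : Function.Injective (C : K →+* K[X]) := C_injective
  set ψ : K[X] →+* FractionRing K[X] := algebraMap K[X] (FractionRing K[X]) with hψ
  let yy : ι → K[X] := fun i => if i = j then tt K else C (y i)
  refine ⟨FractionRing K[X], inferInstance, (ψ.comp C).comp φ,
    fun i => ψ (C (x i)), fun i => ψ (yy i), ?_, ?_, ?_, ?_⟩
  · intro a b hab
    exact hx (hCinj (hinj hab))
  · intro i hi
    have hij : i ≠ j := fun e => hj (e ▸ hi)
    simp only [yy, if_neg hij, hy0 i (Finset.mem_insert_of_mem hi), map_zero]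
  · intro i hi h0
    have h1 : yy i = 0 := by
      apply hinj
      rw [map_zero]
      exact h0
    by_cases hij : i = j
    · simp only [yy, if_pos hij] at h1
      exact X_ne_zero h1
    · simp only [yy, if_neg hij] at h1
      refine hy1 i ?_ (hCinj (by rw [h1, map_zero]))
      rw [Finset.mem_insert, not_or]
      exact ⟨hij, hi⟩
  · intro f hf hc
    by_contra hne
    obtain ⟨c, hc0, g, hg, hg0⟩ := exists_primitive (K := K) f hne
    apply hg0
    apply H
    · apply InV.map
      apply InV.of_map hinj
      rw [hg]
      exact hf.C_mul c
    · intro i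
      have h1 : Cond (S i) (C (x i)) (yy i) g := by
        apply Cond.of_map hinj
        rw [hg]
        exact (hc i).C_mul c
      have h2 := h1.map (sp K)
      have h3 : sp K (C (x i)) = x i := by simp
      have h4 : sp K (yy i) = y i := by
        by_cases hij : i = j
        · simp only [yy, if_pos hij]
          rw [hij, hy0 j (Finset.mem_insert_self _ _)]
          simp
        · simp only [yy, if_neg hij]
          simp
      rwa [h3, h4] at h2

theorem good_mono {n : ℕ} {S : ι → Finset ℕ} {old old' : Finset ι} (hs : old ⊆ old')
    (h : Good k n S old') : Good k n S old := by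
  have : ∀ T : Finset ι, Disjoint T old → Good k n S (T ∪ old) → Good k n S old := by
    intro T
    induction T using Finset.induction_on with
    | empty => intro _ h; simpa using h
    | insert a T ha ih =>
      intro hd h
      apply ih
      · exact Finset.disjoint_of_subset_left (Finset.subset_insert _ _) hd
      · apply good_move (j := a)
        · rw [Finset.mem_union, not_or]
          refine ⟨ha, ?_⟩
          exact Finset.disjoint_left.1 hd (Finset.mem_insert_self _ _)
        · rwa [← Finset.insert_union]
  apply this (old' \ old) Finset.sdiff_disjoint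
  rwa [Finset.sdiff_union_of_subset hs]

/-- the differential step: one free point `j` comes to the line and only its row `r` is used -/
theorem good_diff {n : ℕ} {S S' : ι → Finset ℕ} {old : Finset ι} {j : ι} (hj : j ∉ old)
    {r : ℕ} (hr : r ∈ S j) (h : Good k n S' (insert j old))
    (h1 : ∀ i ∈ old, S' i = (S i).erase (mx (S i)))
    (h1' : S' j = (S j).erase r)
    (h2 : ∀ i, i ∉ insert j old → S' i = S i)
    (h3 : n + 1 ≤ (∑ i ∈ old, mx (S i)) + r) : Good k (n + 1) S old := by
  obtain ⟨K, _, φ, x, y, hx, hy0, hy1, H⟩ := h
  have hinj : Function.Injective (algebraMap K[X] (FractionRing K[X])) :=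
    IsFractionRing.injective _ _
  have hCinj : Function.Injective (C : K →+* K[X]) := C_injective
  set ψ : K[X] →+* FractionRing K[X] := algebraMap K[X] (FractionRing K[X]) with hψ
  let yy : ι → K[X] := fun i => if i = j then tt K else C (y i)
  refine ⟨FractionRing K[X], inferInstance, (ψ.comp C).comp φ,
    fun i => ψ (C (x i)), fun i => ψ (yy i), ?_, ?_, ?_, ?_⟩
  · intro a b hab
    exact hx (hCinj (hinj hab))
  · intro i hi
    have hij : i ≠ j := fun e => hj (e ▸ hi)
    simp only [yy, if_neg hij, hy0 i (Finset.mem_insert_of_mem hi), map_zero]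
  · intro i hi h0
    have h1 : yy i = 0 := by
      apply hinj
      rw [map_zero]
      exact h0
    by_cases hij : i = j
    · simp only [yy, if_pos hij] at h1
      exact X_ne_zero h1
    · simp only [yy, if_neg hij] at h1
      refine hy1 i ?_ (hCinj (by rw [h1, map_zero]))
      rw [Finset.mem_insert, not_or]
      exact ⟨hij, hi⟩
  · intro f hf hc
    by_contra hne
    obtain ⟨c, hc0, g, hg, hg0⟩ := exists_primitive (K := K) f hne
    have hgV : InV (n + 1) g := by
      apply InV.of_map hinj
      rw [hg]
      exact hf.C_mul c
    have hgC : ∀ i, Cond (S i) (C (x i)) (yy i) g := by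
      intro i
      apply Cond.of_map hinj
      rw [hg]
      exact (hc i).C_mul c
    have hyj : yy j = tt K := by simp only [yy, if_true]
    have hyi : ∀ i, i ≠ j → yy i = C (y i) := by
      intro i hij
      simp only [yy, if_neg hij]
    -- number of rows longer than `r`
    set ν := colH (S j) r with hν
    have hcol1 : ∀ a, a < r → ν + 1 ≤ colH (S j) a := by
      intro a ha
      rw [hν, ← colH_erase_ge (S := S j) (r := r) le_rfl, ← colH_erase_lt hr ha]
      have := colH_mono (S := (S j).erase r) (le_of_lt ha)
      omega
    -- Claim A
    set G : K[X][X] := g.map (ev0 K[X]) with hG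
    have hA : C (tt K) ^ (ν + 1) ∣ G := by
      by_contra hA
      have hGne : G ≠ 0 := by
        intro h
        rw [h] at hA
        exact hA (dvd_zero _)
      obtain ⟨e, G', hG', hGG⟩ := WfDvdMonoid.max_power_factor' hGne (not_isUnit_C_tt (K := K))
      have he : e ≤ ν := by
        by_contra he
        apply hA
        rw [hGG]
        exact Dvd.dvd.mul_right (pow_dvd_pow _ (by omega)) _
      apply hG'
      apply dvd_of_map_sp_eq_zero
      have hT : (insert j old).sum (fun i => if i = j then r else mx (S i)) =
          (∑ i ∈ old, mx (S i)) + r := by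
        rw [Finset.sum_insert hj, if_pos rfl, add_comm]
        congr 1
        apply Finset.sum_congr rfl
        intro i hi
        have hij : i ≠ j := by
          rintro rfl
          exact hj hi
        rw [if_neg hij]
      apply trace_zero (insert j old) x hx.injOn (fun i => if i = j then r else mx (S i))
        (n := n + 1) (by rw [hT]; exact h3)
      · intro a ha
        have h4 : G.coeff a = 0 := by
          rw [hG, coeff_ev0]
          exact hgV a 0 (by omega)
        rw [hGG, ← C_pow, coeff_C_mul] at h4
        have h5 : G'.coeff a = 0 := by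
          rcases mul_eq_zero.1 h4 with h6 | h6
          · exact absurd h6 (pow_ne_zero _ X_ne_zero)
          · exact h6
        rw [coeff_map, h5, map_zero]
      · intro i hi a ha
        have hmap : (taylor (x i) (G'.map (sp K))).coeff a =
            sp K ((taylor (C (x i)) G').coeff a) := by
          rw [← coeff_map, map_taylor]
          simp
        have hGc : (taylor (C (x i)) G).coeff a = tt K ^ e * (taylor (C (x i)) G').coeff a := by
          rw [hGG, ← C_pow, taylor_mul, taylor_C, coeff_C_mul]
        rw [hmap, sp_eq_zero_iff]
        have hcoef : (taylor (C (x i)) G).coeff a =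
            ((taylor (C (C (x i))) g).coeff a).eval 0 := coeff_taylor_ev0 (C (x i)) g a
        by_cases hij : i = j
        · simp only [if_pos hij] at ha
          obtain ⟨q, hq⟩ := hgC i a
          rw [hij, hyj] at hq
          rw [hij] at hcoef hGc ⊢
          have h6 := hcol1 a ha
          rw [hcoef, hq, eval_mul, eval_pow, eval_sub, eval_X, eval_C, zero_sub] at hGc
          -- t^(ν+1) divides, cancel t^e
          have h7 : tt K ^ (e + 1) ∣ tt K ^ e * (taylor (C (x j)) G').coeff a := by
            rw [← hGc]
            refine Dvd.dvd.mul_right ?_ _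
            rw [neg_pow]
            exact Dvd.dvd.mul_left (pow_dvd_pow _ (by omega)) _
          rw [pow_succ] at h7
          exact (mul_dvd_mul_iff_left (pow_ne_zero _ X_ne_zero)).1 h7
        · simp only [if_neg hij] at ha
          have hiold : i ∈ old := by
            rcases Finset.mem_insert.1 hi with h8 | h8
            · exact absurd h8 hij
            · exact h8
          obtain ⟨q, hq⟩ := hgC i a
          rw [hyi i hij, hy0 i hi, C_0] at hq
          have h6 := colH_pos ha
          rw [hcoef, hq, eval_mul, eval_pow, eval_sub, eval_X, eval_C, sub_zero,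
            zero_pow (by omega), zero_mul] at hGc
          have h7 : (taylor (C (x i)) G').coeff a = 0 := by
            rcases mul_eq_zero.1 hGc.symm with h8 | h8
            · exact absurd h8 (pow_ne_zero _ X_ne_zero)
            · exact h8
          rw [h7]
          exact dvd_zero _
    -- Claim B
    set g0 : K[X][X] := g.map (mapRingHom (sp K)) with hg0def
    have hg0V : InV (n + 1) g0 := hgV.map (sp K)
    have hg0C : ∀ i, Cond (S i) (x i) (y i) g0 := by
      intro i
      have h2 := (hgC i).map (sp K)
      have h3 : sp K (C (x i)) = x i := by simp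
      have h4 : sp K (yy i) = y i := by
        by_cases hij : i = j
        · rw [hij, hyj, hy0 j (Finset.mem_insert_self _ _)]
          simp
        · rw [hyi i hij]
          simp
      rwa [h3, h4] at h2
    have hB : g0.map (ev0 K) = 0 := by
      have h4 : g0.map (ev0 K) = G.map (sp K) := by
        ext a
        rw [hg0def, hG, coeff_map, coeff_map, coeff_map, coeff_map]
        simp only [coe_mapRingHom, coe_evalRingHom]
        rw [← coeff_zero_eq_eval_zero, coeff_map, coe_evalRingHom,
          coeff_zero_eq_eval_zero (g.coeff a)]
      rw [h4]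
      obtain ⟨q, hq⟩ := hA
      rw [hq, Polynomial.map_mul, Polynomial.map_pow, map_C]
      simp
    obtain ⟨w, hw⟩ := exists_eq_y_mul hB
    have hw0 : w ≠ 0 := by
      rintro rfl
      rw [mul_zero] at hw
      exact hg0 hw
    apply hw0
    apply H w (by rw [hw] at hg0V; exact hg0V.of_y_mul)
    intro i
    by_cases hij : i = j
    · -- the special point
      rw [hij, h1', hy0 j (Finset.mem_insert_self _ _)]
      have hgj := hg0C j
      rw [hy0 j (Finset.mem_insert_self _ _), hw] at hgj
      intro a
      rcases Nat.lt_or_ge a r with ha | ha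
      · have h5 := hgj a
        rw [taylor_y_mul, ← colH_erase_lt hr ha, C_0, sub_zero, pow_succ, mul_comm] at h5
        rw [C_0, sub_zero]
        exact (mul_dvd_mul_iff_left X_ne_zero).1 h5
      · rw [colH_erase_ge ha, C_0, sub_zero]
        -- q mod t is divisible by y
        obtain ⟨q, hq⟩ := hgC j a
        rw [hyj] at hq
        have hcoef : (taylor (C (x j)) G).coeff a =
            ((taylor (C (C (x j))) g).coeff a).eval 0 := coeff_taylor_ev0 (C (x j)) g a
        rw [hq, eval_mul, eval_pow, eval_sub, eval_X, eval_C, zero_sub] at hcoef
        have hle : colH (S j) a ≤ ν := colH_mono ha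
        have h5 : tt K ^ (ν + 1) ∣ (taylor (C (x j)) G).coeff a := by
          obtain ⟨q', hq'⟩ := hA
          rw [hq', ← C_pow, taylor_mul, taylor_C, coeff_C_mul]
          exact dvd_mul_right _ _
        rw [hcoef, neg_pow] at h5
        have h6 : tt K ∣ q.eval 0 := by
          have h7 : tt K ^ (colH (S j) a + 1) ∣ tt K ^ colH (S j) a * q.eval 0 := by
            refine dvd_trans (pow_dvd_pow _ (by omega)) (dvd_trans h5 ?_)
            rw [mul_assoc]
            have : ((-1 : K[X]) ^ colH (S j) a) * ((-1 : K[X]) ^ colH (S j) a) = 1 := by
              rw [← mul_pow]; simp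
            refine ⟨(-1 : K[X]) ^ colH (S j) a, ?_⟩
            rw [mul_comm ((-1 : K[X]) ^ colH (S j) a), mul_assoc, this, mul_one]
          rw [pow_succ] at h7
          exact (mul_dvd_mul_iff_left (pow_ne_zero _ X_ne_zero)).1 h7
        have h8 : (q.map (sp K)).eval 0 = 0 := by
          have : (q.map (sp K)).eval 0 = sp K (q.eval 0) := by
            rw [← coeff_zero_eq_eval_zero, coeff_map, coeff_zero_eq_eval_zero]
          rw [this, sp_eq_zero_iff]
          exact h6
        have h9 : X ∣ q.map (sp K) := by
          rw [X_dvd_iff, coeff_zero_eq_eval_zero, h8]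
        have h10 : (taylor (C (x j)) g0).coeff a = X ^ colH (S j) a * q.map (sp K) := by
          have h11 : taylor (C (x j)) g0 =
              (taylor (C (C (x j))) g).map (mapRingHom (sp K)) := by
            rw [map_taylor]; simp [hg0def]
          rw [h11, coeff_map, hq]
          simp
        rw [hw, taylor_y_mul] at h10
        obtain ⟨q', hq'⟩ := h9
        rw [hq'] at h10
        refine ⟨q', ?_⟩
        have h12 : (X : K[X]) * (taylor (C (x j)) w).coeff a =
            X * (X ^ colH (S j) a * q') := by
          rw [h10]; ring
        exact mul_left_cancel₀ X_ne_zero h12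
    · by_cases hiold : i ∈ old
      · rw [h1 i hiold, hy0 i (Finset.mem_insert_of_mem hiold)]
        have := hg0C i
        rw [hy0 i (Finset.mem_insert_of_mem hiold), hw] at this
        exact this.residual_line
      · have hi' : i ∉ insert j old := by
          rw [Finset.mem_insert, not_or]
          exact ⟨hij, hiold⟩
        rw [h2 i hi']
        have := hg0C i
        rw [hw] at this
        exact this.residual_off (hy1 i hi')

end Pool.Agent.Lib.MP_6b2d39_ag
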