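import Pool.Agent.Lib.MP_6b2d39_ag.Good

/-!
Shared definitions for the effective Alexander-Hirschowitz theorem (thick rows).
-/

open Polynomial

namespace Pool.Agent.Lib.MP_6b2d39_ag

/-- all monomials `x^e y^b` of `f` satisfy `e ∈ E b` -/
def SuppIn {R : Type*} [CommRing R] (E : ℕ → Finset ℕ) (f : R[X][X]) : Prop :=
  ∀ e b, e ∉ E b → (f.coeff e).coeff b = 0

/-- positions in an extension field of `k` at which the fat points of multiplicities `m i` impose
enough conditions on the polynomials supported on `E` -/
def GoodE (k : Type) [Field k] {ι : Type} (E : ℕ → Finset ℕ) (m : ι → ℕ) : Prop :=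
  ∃ (K : Type) (_ : Field K) (_ : k →+* K) (x y : ι → K), Function.Injective x ∧
    (∀ i, y i ≠ 0) ∧ ∀ f : K[X][X], SuppIn E f →
      (∀ i, Cond (Finset.Icc 1 (m i)) (x i) (y i) f) → f = 0

/-- exponents of the `b`-th thick row (curve `y = x^a`, degree `< N`) -/
def thickRow (N a b : ℕ) : Finset ℕ :=
  (Finset.range (a * N)).filter (fun e => a * b + e % a + e / a < N)

theorem thickRow_empty {N a b : ℕ} (h : N ≤ a * b) : thickRow N a b = ∅ := by
  unfold thickRow
  rw [Finset.filter_eq_empty_iff]
  intro e _
  rw [not_lt]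
  refine h.trans ?_
  rw [add_assoc]
  exact Nat.le_add_right _ _

/-- rank of row `b` in the state `(t, i)`: the order of the rows is
`t-1, …, i, t, i-1, …, 0, t+1, t+2, …` -/
def rk (t i b : ℕ) : ℕ := if b < i then t - b else if b < t then t - 1 - b else
  if b = t then t - i else b

end Pool.Agent.Lib.MP_6b2d39_ag
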