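import Pool.Agent.Lib.MP_6b2d39_ag.Event

open Polynomial

namespace Pool.Agent.Lib.MP_6b2d39_ag

variable {k : Type} [Field k] {ι : Type} [DecidableEq ι] [Fintype ι]

/-- a point on the line with many rows is active for a long time -/
theorem act_two {S : ι → Finset ℕ} {old : Finset ι} {x y : ι} (hx : x ∈ old) (hy : y ∈ old)
    (hxy : x ≠ y) {b : ℕ} (h1 : b < (S x).card) (h2 : b < (S y).card) :
    2 ≤ act (fun i => er^[b] (S i)) old := by
  have h3 : ({x, y} : Finset ι) ⊆ old.filter (fun i => (er^[b] (S i)).Nonempty) := by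
    intro l hl
    rw [Finset.mem_insert, Finset.mem_singleton] at hl
    rw [Finset.mem_filter]
    rcases hl with rfl | rfl
    · exact ⟨hx, er_iter_nonempty h1⟩
    · exact ⟨hy, er_iter_nonempty h2⟩
  have h4 := Finset.card_le_card h3
  rw [Finset.card_pair hxy] at h4
  exact h4

/-- some point is active -/
theorem exists_act {S : ι → Finset ℕ} {old : Finset ι} {b : ℕ} (h : lineG S old b ≠ 0) :
    ∃ y ∈ old, b < (S y).card := by
  by_contra hcon
  push Not at hcon
  apply h
  unfold lineG
  apply Finset.sum_eq_zero
  intro i hi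
  rw [er_iter_empty (hcon i hi), mx_empty]

theorem exists_act' {S : ι → Finset ℕ} {old : Finset ι} {b : ℕ}
    (h : 1 ≤ act (fun i => er^[b] (S i)) old) : ∃ y ∈ old, b < (S y).card := by
  have h1 : 0 < (old.filter (fun i => (er^[b] (S i)).Nonempty)).card := h
  rw [Finset.card_pos] at h1
  obtain ⟨y, hy⟩ := h1
  rw [Finset.mem_filter, ← Finset.card_pos, card_er_iter] at hy
  exact ⟨y, hy.1, by omega⟩

/-- `er` iterates of a shape in an interval -/
theorem er_iter_Icc {Y : Finset ℕ} {M : ℕ} (h : Y ⊆ Finset.Icc 1 M) (b : ℕ) :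
    er^[b] Y ⊆ Finset.Icc 1 (M - b) := by
  have hpos : ∀ s ∈ Y, 1 ≤ s := fun s hs => (Finset.mem_Icc.1 (h hs)).1
  apply subset_Icc_mx (fun s hs => hpos s (er_iter_subset b _ hs))
  have h1 := mx_er_iter_le hpos b
  have h2 : mx Y ≤ M := mx_le_of_subset h
  omega

/-- two points with many rows on the line -/
theorem H2 [CharZero k] {μ : ℕ} : ∀ (m : ℕ), μ + 1 ≤ m → ∀ (S : ι → Finset ℕ) (old : Finset ι)
    (x y : ι), x ∈ old → y ∈ old → x ≠ y →
    (∀ i, i ∉ old → ∃ c, S i = Finset.Icc 1 c) → (∀ i, ∀ s ∈ S i, 1 ≤ s) →
    (∀ i, mx (S i) ≤ μ) → m ≤ (S x).card + μ → m ≤ (S y).card + μ →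
    ∑ i ∈ old, mx (S i) ≤ m →
    (m + 1).choose 2 + (qs (er^[m - μ - 1] (S y)) + (m - (S y).card - 1).choose 2) ≤
      ∑ i, tot (S i) → Good k m S old := by
  intro m
  induction m using Nat.strong_induction_on with
  | _ m ih =>
  intro hm S old x y hx hy hxy hfat hpos hμ hcx hcy hF hmass
  rcases Nat.eq_or_lt_of_le hm with hm0 | hm0
  · -- base
    subst hm0
    apply (low (μ + 1)).1 S old y hfat hpos hy _ hF
    · have h1 : μ + 1 - μ - 1 = 0 := by omega
      rw [h1] at hmass
      exact hmass
    · rw [← Finset.card_pos]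
      omega
  let P : (ι → Finset ℕ) → Finset ι → Prop := fun S old =>
    x ∈ old ∧ y ∈ old ∧ (∀ i, i ∉ old → ∃ c, S i = Finset.Icc 1 c) ∧ (∀ i, ∀ s ∈ S i, 1 ≤ s) ∧
    (∀ i, mx (S i) ≤ μ) ∧ m ≤ (S x).card + μ ∧ m ≤ (S y).card + μ ∧
    ∑ i ∈ old, mx (S i) ≤ m ∧
    (m + 1).choose 2 + (qs (er^[m - μ - 1] (S y)) + (m - (S y).card - 1).choose 2) ≤
      ∑ i, tot (S i)
  refine by_free P (fun S old h => h.2.2.1) (fun S old h => h.2.2.2.1)
    (fun S old h => h.2.2.2.2.2.2.2.1)
    (fun S old h => by have := h.2.2.2.2.2.2.2.2; omega) ?_ ?_ ?_ S old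
    ⟨hx, hy, hfat, hpos, hμ, hcx, hcy, hF, hmass⟩
  · -- close
    rintro S old ⟨hx, hy, hfat, hpos, hμ, hcx, hcy, hF, hmass⟩ hFn
    apply good_close hpos hfat (by omega) hFn
    intro hfat' hpos' hF' hm' hch
    have h1 : ∀ i ∈ old, stepS S old i = er (S i) := fun i hi => stepS_mem hi
    have h2 : er^[m - 1 - μ - 1] (stepS S old y) = er^[m - μ - 1] (S y) := by
      rw [h1 y hy, ← Function.iterate_succ_apply]
      congr 1
      omega
    apply ih (m - 1) (by omega) (by omega) _ old x y hx hy hxy hfat' hpos'
      (fun i => (mx_mono (stepS_subset i)).trans (hμ i))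
    · rw [h1 x hx, card_er]
      omega
    · rw [h1 y hy, card_er]
      omega
    · omega
    · rw [h2, h1 y hy, card_er]
      have h6 : m - 1 - ((S y).card - 1) - 1 = m - (S y).card - 1 := by omega
      rw [h6]
      omega
  · -- fit
    rintro S old j c ⟨hx, hy, hfat, hpos, hμ, hcx, hcy, hF, hmass⟩ hj hc hc1 hcn hfit
    refine ⟨Finset.mem_insert_of_mem hx, Finset.mem_insert_of_mem hy,
      fun i hi => hfat i (fun h' => hi (Finset.mem_insert_of_mem h')), hpos, hμ, hcx, hcy, ?_,
      hmass⟩
    rw [Finset.sum_insert hj, hc, mx_Icc]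
    omega
  · -- grow
    rintro S old j c ⟨hx, hy, hfat, hpos, hμ, hcx, hcy, hF, hmass⟩ hj hc hc1 hcn hFn hnofit
    have hcμ : c ≤ μ := by
      have := hμ j
      rwa [hc, mx_Icc] at this
    apply grow_cases hpos hj hc (by rw [lineG_zero]; omega)
    intro κ hκn hlt hinc hstop
    have g : Gro S old j m c κ := ⟨hpos, hj, hc, hc1, hκn, hlt, hinc⟩
    rcases Nat.lt_or_ge κ (m - μ - 1) with h1 | h1
    · -- high landing, necessarily by fitting
      have h2 : 2 ≤ act (fun i => er^[κ] (S i)) old := act_two hx hy hxy (by omega) (by omega)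
      have hfit : c ≤ room S old m κ := by
        rcases hstop with h3 | h3
        · exact h3
        · omega
      have hκ1 : 1 ≤ κ := by
        rcases Nat.eq_zero_or_pos κ with h0 | h0
        · have h4 := (g.inc 0 (by omega)).2.1
          rw [lineG_zero] at h4
          rw [h0] at hfit
          omega
        · exact h0
      have hmassG := g.mass
      have hSx : growS S old j (room S old m) κ x = er^[κ] (S x) := growS_old hj hx
      have hSy : growS S old j (room S old m) κ y = er^[κ] (S y) := growS_old hj hy
      apply ih (m - κ) (by omega) (by omega) _ (insert j old) x y (Finset.mem_insert_of_mem hx)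
        (Finset.mem_insert_of_mem hy) hxy
      · intro i hi
        rw [growS_off hi]
        exact hfat i (fun h' => hi (Finset.mem_insert_of_mem h'))
      · exact fun i s hs => hpos i s (growS_subset i hs)
      · exact fun i => (mx_mono (growS_subset i)).trans (hμ i)
      · rw [hSx, card_er_iter]
        omega
      · rw [hSy, card_er_iter]
        omega
      · rw [g.line0 (fun b hb => (hlt b hb).1)]
        have := (hinc κ le_rfl).2.1
        omega
      · rw [hSy, card_er_iter]
        have h6 : m - κ - ((S y).card - κ) - 1 = m - (S y).card - 1 := by omega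
        have h7 : er^[m - κ - μ - 1] (er^[κ] (S y)) = er^[m - μ - 1] (S y) := by
          rw [← Function.iterate_add_apply]
          congr 1
          omega
        rw [h6, h7]
        omega
    · have h2 := card_le_mx (hpos y)
      have h3 := mx_le_sum (S := S) hy
      apply cross (h := μ + 1) (by omega) (fun m _ _ => low m) hfat g (by omega) hy (by omega)
        (by omega) hnofit _ (by omega) hstop
      have h4 : m - (μ + 1) = m - μ - 1 := by omega
      rw [h4]
      exact hmass

/-- one point with many rows on the line -/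
theorem H1 [CharZero k] {μ u ρ D : ℕ} (hD : D + ρ = μ) : ∀ (m : ℕ), μ + 1 ≤ m →
    ∀ (S : ι → Finset ℕ) (old : Finset ι) (x : ι), x ∈ old →
    (∀ i, i ∉ old → ∃ c, S i = Finset.Icc 1 c) → (∀ i, ∀ s ∈ S i, 1 ≤ s) →
    (∀ i, mx (S i) ≤ μ) → (S x).card + ρ = m → mx (S x) + u ≤ μ →
    ∑ i ∈ old, mx (S i) ≤ m →
    (m + 1).choose 2 + μ.choose 2 + u.choose 2 ≤ ∑ i, tot (S i) + u * D → Good k m S old := by
  intro m
  induction m using Nat.strong_induction_on with
  | _ m ih =>
  intro hm S old x hx hfat hpos hμ hcx hmx hF hmass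
  -- the bound for the marked point
  have hbound : ∀ (S : ι → Finset ℕ), (∀ i, ∀ s ∈ S i, 1 ≤ s) → (S x).card + ρ = m →
      mx (S x) + u ≤ μ →
      (m + 1).choose 2 + μ.choose 2 + u.choose 2 ≤ ∑ i, tot (S i) + u * D →
      (m + 1).choose 2 + (qs (er^[m - (μ + 1)] (S x)) + (m - (S x).card - 1).choose 2) ≤
        ∑ i, tot (S i) := by
    intro S hpos hcx hmx hmass
    have h1 := card_le_mx (hpos x)
    have h2 : er^[m - (μ + 1)] (S x) ⊆ Finset.Icc 1 (μ - u) := by
      refine (er_iter_subset _ _).trans (subset_Icc_mx (hpos x) (by omega))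
    have h3 := qs_bound h2
    rw [card_er_iter] at h3
    have h4 : μ - u - ((S x).card - (m - (μ + 1))) = ρ - 1 - u := by omega
    have h5 : m - (S x).card - 1 = ρ - 1 := by omega
    rw [h4] at h3
    rw [h5]
    have h6 := I5 hD (u := u) (by omega)
    omega
  rcases Nat.eq_or_lt_of_le hm with hm0 | hm0
  · -- base
    subst hm0
    have h1 := card_le_mx (hpos x)
    apply (low (μ + 1)).1 S old x hfat hpos hx _ hF
    · have := hbound S hpos hcx hmx hmass
      rwa [Nat.sub_self, Function.iterate_zero, id] at this
    · rw [← Finset.card_pos]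
      omega
  let P : (ι → Finset ℕ) → Finset ι → Prop := fun S old =>
    x ∈ old ∧ (∀ i, i ∉ old → ∃ c, S i = Finset.Icc 1 c) ∧ (∀ i, ∀ s ∈ S i, 1 ≤ s) ∧
    (∀ i, mx (S i) ≤ μ) ∧ (S x).card + ρ = m ∧ mx (S x) + u ≤ μ ∧
    ∑ i ∈ old, mx (S i) ≤ m ∧
    (m + 1).choose 2 + μ.choose 2 + u.choose 2 ≤ ∑ i, tot (S i) + u * D
  refine by_free P (fun S old h => h.2.1) (fun S old h => h.2.2.1)
    (fun S old h => h.2.2.2.2.2.2.1) ?_ ?_ ?_ ?_ S old
    ⟨hx, hfat, hpos, hμ, hcx, hmx, hF, hmass⟩
  · rintro S old ⟨hx, hfat, hpos, hμ, hcx, hmx, hF, hmass⟩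
    have := hbound S hpos hcx hmx hmass
    omega
  · -- close
    rintro S old ⟨hx, hfat, hpos, hμ, hcx, hmx, hF, hmass⟩ hFn
    apply good_close hpos hfat (by omega) hFn
    intro hfat' hpos' hF' hm' hch
    have h1 : stepS S old x = er (S x) := stepS_mem hx
    have h2 := mx_er_le (hpos x)
    apply ih (m - 1) (by omega) (by omega) _ old x hx hfat' hpos'
      (fun i => (mx_mono (stepS_subset i)).trans (hμ i))
    · rw [h1, card_er]
      omega
    · rw [h1]
      omega
    · omega
    · omega
  · -- fit
    rintro S old j c ⟨hx, hfat, hpos, hμ, hcx, hmx, hF, hmass⟩ hj hc hc1 hcn hfit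
    refine ⟨Finset.mem_insert_of_mem hx,
      fun i hi => hfat i (fun h' => hi (Finset.mem_insert_of_mem h')), hpos, hμ, hcx, hmx, ?_,
      hmass⟩
    rw [Finset.sum_insert hj, hc, mx_Icc]
    omega
  · -- grow
    rintro S old j c ⟨hx, hfat, hpos, hμ, hcx, hmx, hF, hmass⟩ hj hc hc1 hcn hFn hnofit
    have hcμ : c ≤ μ := by
      have := hμ j
      rwa [hc, mx_Icc] at this
    have hcardx := card_le_mx (hpos x)
    have hxF := mx_le_sum (S := S) hx
    apply grow_cases hpos hj hc (by rw [lineG_zero]; omega)
    intro κ hκn hlt hinc hstop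
    have g : Gro S old j m c κ := ⟨hpos, hj, hc, hc1, hκn, hlt, hinc⟩
    have hmassG := g.mass
    have hSx : growS S old j (room S old m) κ x = er^[κ] (S x) := growS_old hj hx
    rcases Nat.lt_or_ge κ (m - (μ + 1)) with h1 | h1
    swap
    · -- crossing
      exact cross (h := μ + 1) (by omega) (fun m _ _ => low m) hfat g (by omega) hx (by omega)
        (by omega) hnofit (hbound S hpos hcx hmx hmass) (by omega) hstop
    obtain ⟨hR1, hR2, hR3⟩ := hinc κ le_rfl
    by_cases hfit : c ≤ room S old m κ
    · have hκ1 : 1 ≤ κ := by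
        rcases Nat.eq_zero_or_pos κ with h0 | h0
        · have h4 := (g.inc 0 (by omega)).2.1
          rw [lineG_zero] at h4
          rw [h0] at hfit
          omega
        · exact h0
      have hmxx := mx_er_iter_le (hpos x) κ
      apply ih (m - κ) (by omega) (by omega) _ (insert j old) x (Finset.mem_insert_of_mem hx)
      · intro i hi
        rw [growS_off hi]
        exact hfat i (fun h' => hi (Finset.mem_insert_of_mem h'))
      · exact fun i s hs => hpos i s (growS_subset i hs)
      · exact fun i => (mx_mono (growS_subset i)).trans (hμ i)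
      · rw [hSx, card_er_iter]
        omega
      · rw [hSx]
        omega
      · rw [g.line0 (fun b hb => (hlt b hb).1)]
        omega
      · omega
    · have hact : act (fun i => er^[κ] (S i)) old ≤ 1 := by
        rcases hstop with h2 | h2
        · exact absurd h2 hfit
        · exact h2
      have hκx : κ < (S x).card := by omega
      have hmxx := mx_er_iter_le (hpos x) κ
      have hl0 := lineG_single hx hact hκx 0
      rw [Nat.add_zero] at hl0
      obtain ⟨D', hD'⟩ : ∃ D', c + μ = m + u + D' := by
        refine ⟨c + μ - (m + u), ?_⟩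
        omega
      apply event g hx hκx hact (by omega) (by omega) (D := D') (by omega)
      intro N hN1 hND hNR hNm hoff hsubS hroomN hmassN hcardN hIccN hxN hlandN
      have hfatN : ∀ i, i ∉ insert j old →
          ∃ c, runS (growS S old j (room S old m) κ) (insert j old) N i = Finset.Icc 1 c := by
        intro i hi
        rw [hoff i hi]
        exact hfat i (fun h' => hi (Finset.mem_insert_of_mem h'))
      have hposN : ∀ i, ∀ s ∈ runS (growS S old j (room S old m) κ) (insert j old) N i, 1 ≤ s :=
        fun i s hs => hpos i s (hsubS i hs)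
      have hμN : ∀ i, mx (runS (growS S old j (room S old m) κ) (insert j old) N i) ≤ μ :=
        fun i => (mx_mono (hsubS i)).trans (hμ i)
      -- number of steps
      have hNρ : c ≤ N + ρ := by
        have h2 := card_le_mx (fun s hs => hpos x s (er_iter_subset (κ + N) _ hs))
        rw [card_er_iter] at h2
        omega
      obtain ⟨p, hp⟩ : ∃ p, m = c + p + 1 := ⟨m - c - 1, by omega⟩
      rcases Nat.lt_or_ge (m - κ - N) (μ + 2) with h2 | h2
      · -- low landing
        apply (low (m - κ - N)).1 _ (insert j old) j hfatN hposN (Finset.mem_insert_self _ _)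
        · rw [← Finset.card_pos]
          omega
        · exact hroomN
        · have h3 := qs_bound hIccN
          have h4 : c - N - (runS (growS S old j (room S old m) κ) (insert j old) N j).card =
              κ := by omega
          have h5 : m - κ - N -
              (runS (growS S old j (room S old m) κ) (insert j old) N j).card - 1 = p := by omega
          rw [h4] at h3
          rw [h5]
          have h6 := I3 (u := u) (κ := κ) (c := c) (p := p) (N := N) hD (D' := D') (by omega)
            (by omega) hcμ hNρ hND (by omega) (by omega)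
          omega
      · -- high landing
        apply H2 (μ := μ) (m - κ - N) (by omega) _ (insert j old) x j
          (Finset.mem_insert_of_mem hx) (Finset.mem_insert_self _ _)
          (fun e => hj (e ▸ hx)) hfatN hposN hμN
        · rw [hxN, card_er_iter]
          omega
        · omega
        · exact hroomN
        · have h3 := qs_bound (er_iter_Icc hIccN (m - κ - N - μ - 1))
          rw [card_er_iter] at h3
          have h4 : c - N - (m - κ - N - μ - 1) -
              ((runS (growS S old j (room S old m) κ) (insert j old) N j).card -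
                (m - κ - N - μ - 1)) = κ := by omega
          have h5 : m - κ - N -
              (runS (growS S old j (room S old m) κ) (insert j old) N j).card - 1 = p := by omega
          have h7 : c - N - (m - κ - N - μ - 1) = κ + μ - p := by omega
          rw [h4, h7] at h3
          rw [h5]
          have h6 := I4 (u := u) (κ := κ) (c := c) (p := p) (N := N) hD (D' := D') (by omega)
            hcμ hNρ hND (by omega)
          omega

/-- the statement without marked point, above the largest multiplicity -/
theorem H0 [CharZero k] {μ : ℕ} : ∀ (m : ℕ), μ + 1 ≤ m →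
    ∀ (S : ι → Finset ℕ) (old : Finset ι),
    (∀ i, i ∉ old → ∃ c, S i = Finset.Icc 1 c) → (∀ i, ∀ s ∈ S i, 1 ≤ s) →
    (∀ i, mx (S i) ≤ μ) → ∑ i ∈ old, mx (S i) ≤ m →
    (m + 1).choose 2 + μ.choose 2 ≤ ∑ i, tot (S i) → Good k m S old := by
  intro m
  induction m using Nat.strong_induction_on with
  | _ m ih =>
  intro hm S old hfat hpos hμ hF hmass
  rcases Nat.eq_or_lt_of_le hm with hm0 | hm0
  · -- base
    subst hm0
    exact (low (μ + 1)).2 S old hfat hpos hF hmass
  let P : (ι → Finset ℕ) → Finset ι → Prop := fun S old =>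
    (∀ i, i ∉ old → ∃ c, S i = Finset.Icc 1 c) ∧ (∀ i, ∀ s ∈ S i, 1 ≤ s) ∧
    (∀ i, mx (S i) ≤ μ) ∧ ∑ i ∈ old, mx (S i) ≤ m ∧
    (m + 1).choose 2 + μ.choose 2 ≤ ∑ i, tot (S i)
  refine by_free P (fun S old h => h.1) (fun S old h => h.2.1)
    (fun S old h => h.2.2.2.1) (fun S old h => by have := h.2.2.2.2; omega) ?_ ?_ ?_ S old
    ⟨hfat, hpos, hμ, hF, hmass⟩
  · -- close
    rintro S old ⟨hfat, hpos, hμ, hF, hmass⟩ hFn
    apply good_close hpos hfat (by omega) hFn
    intro hfat' hpos' hF' hm' hch
    apply ih (m - 1) (by omega) (by omega) _ old hfat' hpos'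
      (fun i => (mx_mono (stepS_subset i)).trans (hμ i)) (by omega)
    omega
  · -- fit
    rintro S old j c ⟨hfat, hpos, hμ, hF, hmass⟩ hj hc hc1 hcn hfit
    refine ⟨fun i hi => hfat i (fun h' => hi (Finset.mem_insert_of_mem h')), hpos, hμ, ?_,
      hmass⟩
    rw [Finset.sum_insert hj, hc, mx_Icc]
    omega
  · -- grow
    rintro S old j c ⟨hfat, hpos, hμ, hF, hmass⟩ hj hc hc1 hcn hFn hnofit
    have hcμ : c ≤ μ := by
      have := hμ j
      rwa [hc, mx_Icc] at this
    apply grow_cases hpos hj hc (by rw [lineG_zero]; omega)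
    intro κ hκn hlt hinc hstop
    have g : Gro S old j m c κ := ⟨hpos, hj, hc, hc1, hκn, hlt, hinc⟩
    have hmassG := g.mass
    obtain ⟨hR1, hR2, hR3⟩ := hinc κ le_rfl
    -- crossing with an active point
    have hcross : m - (μ + 1) ≤ κ → (∃ y ∈ old, m - (μ + 1) < (S y).card) →
        Good k (m - κ) (growS S old j (room S old m) κ) (insert j old) := by
      rintro h1 ⟨y, hy, hyc⟩
      have hcardy := card_le_mx (hpos y)
      have hyF := mx_le_sum (S := S) hy
      apply cross (h := μ + 1) (by omega) (fun m _ _ => low m) hfat g (by omega) hy hyc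
        (by omega) hnofit _ h1 hstop
      have h2 : er^[m - (μ + 1)] (S y) ⊆ Finset.Icc 1 μ :=
        (er_iter_subset _ _).trans (subset_Icc_mx (hpos y) (hμ y))
      have h3 := qs_bound h2
      rw [card_er_iter] at h3
      have h4 : μ - ((S y).card - (m - (μ + 1))) = m - (S y).card - 1 := by omega
      rw [h4] at h3
      omega
    rcases Nat.lt_or_ge (m - (μ + 1)) κ with h1 | h1
    · exact hcross (by omega) (exists_act' (by have := (hlt _ h1).2; omega))
    by_cases hfit : c ≤ room S old m κ
    · have hκ1 : 1 ≤ κ := by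
        rcases Nat.eq_zero_or_pos κ with h0 | h0
        · have h4 := (g.inc 0 (by omega)).2.1
          rw [lineG_zero] at h4
          rw [h0] at hfit
          omega
        · exact h0
      apply ih (m - κ) (by omega) (by omega) _ (insert j old)
      · intro i hi
        rw [growS_off hi]
        exact hfat i (fun h' => hi (Finset.mem_insert_of_mem h'))
      · exact fun i s hs => hpos i s (growS_subset i hs)
      · exact fun i => (mx_mono (growS_subset i)).trans (hμ i)
      · rw [g.line0 (fun b hb => (hlt b hb).1)]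
        omega
      · omega
    · have hact : act (fun i => er^[κ] (S i)) old ≤ 1 := by
        rcases hstop with h2 | h2
        · exact absurd h2 hfit
        · exact h2
      obtain ⟨x, hx, hκx⟩ := exists_act (S := S) (old := old) (b := κ) (by omega)
      rcases Nat.eq_or_lt_of_le h1 with h2 | h2
      · exact hcross (by omega) ⟨x, hx, by omega⟩
      have hmxx := mx_er_iter_le (hpos x) κ
      have hμx := hμ x
      have hl0 := lineG_single hx hact hκx 0
      rw [Nat.add_zero] at hl0
      obtain ⟨D, hD⟩ : ∃ D, c + μ = m + D := ⟨c + μ - m, by omega⟩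
      apply event g hx hκx hact (by omega) (by omega) (D := D) (by omega)
      intro N hN1 hND hNR hNm hoff hsubS hroomN hmassN hcardN hIccN hxN hlandN
      have hfatN : ∀ i, i ∉ insert j old →
          ∃ c, runS (growS S old j (room S old m) κ) (insert j old) N i = Finset.Icc 1 c := by
        intro i hi
        rw [hoff i hi]
        exact hfat i (fun h' => hi (Finset.mem_insert_of_mem h'))
      have hposN : ∀ i, ∀ s ∈ runS (growS S old j (room S old m) κ) (insert j old) N i, 1 ≤ s :=
        fun i s hs => hpos i s (hsubS i hs)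
      have hμN : ∀ i, mx (runS (growS S old j (room S old m) κ) (insert j old) N i) ≤ μ :=
        fun i => (mx_mono (hsubS i)).trans (hμ i)
      obtain ⟨p, hp⟩ : ∃ p, m = c + p + 1 := ⟨m - c - 1, by omega⟩
      rcases Nat.lt_or_ge (m - κ - N) (μ + 2) with h3 | h3
      · -- low landing
        apply (low (m - κ - N)).1 _ (insert j old) j hfatN hposN (Finset.mem_insert_self _ _)
        · rw [← Finset.card_pos]
          omega
        · exact hroomN
        · have h4 := qs_bound hIccN
          have h5 : c - N - (runS (growS S old j (room S old m) κ) (insert j old) N j).card =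
              κ := by omega
          have h6 : m - κ - N -
              (runS (growS S old j (room S old m) κ) (insert j old) N j).card - 1 = p := by omega
          rw [h5] at h4
          rw [h6]
          have h7 := I2 (u := N) (κ := κ) (c := c) (p := p) (μ := μ) (D := D) (by omega) hcμ
            (by omega) (by omega)
          omega
      · -- high landing
        apply H1 (μ := μ) (u := N) (ρ := p + 1) (D := D) (by omega) (m - κ - N) (by omega) _
          (insert j old) j (Finset.mem_insert_self _ _) hfatN hposN hμN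
        · omega
        · have := mx_le_of_subset hIccN
          omega
        · exact hroomN
        · omega

end Pool.Agent.Lib.MP_6b2d39_ag
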