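import Pool.Agent.Lib.MP_6b2d39_ag.Good
import Pool.Agent.Lib.MP_6b2d39_ag.FatSystem

open Polynomial

namespace Pool.Agent.Lib.MP_6b2d39_ag

namespace Transfer

section entry

variable {R : Type*} [CommRing R]

/-- the Taylor coefficient of order `(a, b)` of `x^s y^t` at `(x, y)` -/
def entry (x y : R) (a b s t : ℕ) : R :=
  (x ^ (s - a) * (s.choose a : R)) * (y ^ (t - b) * (t.choose b : R))

theorem map_entry {R' : Type*} [CommRing R'] (φ : R →+* R') (x y : R) (a b s t : ℕ) :
    φ (entry x y a b s t) = entry (φ x) (φ y) a b s t := by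
  simp [entry]

theorem coeff_taylor_monomial (x y c : R) (a b s t : ℕ) :
    (taylor y ((taylor (C x) (monomial s (monomial t c) : R[X][X])).coeff a)).coeff b =
      entry x y a b s t * c := by
  rw [taylor_monomial, coeff_C_mul, coeff_X_add_C_pow, taylor_mul, taylor_monomial, taylor_mul,
    taylor_pow, taylor_C]
  have h1 : (taylor y ((s.choose a : ℕ) : R[X])) = C ((s.choose a : ℕ) : R) := by
    rw [← C_eq_natCast, taylor_C]
  rw [h1, ← C_pow, ← C_mul, coeff_mul_C, coeff_C_mul, coeff_X_add_C_pow, entry]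
  ring

end entry

/-- the exponents of total degree at most `d` -/
abbrev Ix (d : ℕ) : Type := {p : Fin (d + 1) × Fin (d + 1) // (p.1 : ℕ) + (p.2 : ℕ) ≤ d}

/-- the polynomial with given coefficients -/
noncomputable def ofCoeffs {R : Type*} [CommRing R] {d : ℕ} (c : Ix d → R) : R[X][X] :=
  ∑ i, monomial (i.1.1 : ℕ) (monomial (i.1.2 : ℕ) (c i))

theorem coeff_ofCoeffs {R : Type*} [CommRing R] {d : ℕ} (c : Ix d → R) (a b : ℕ) :
    ((ofCoeffs c).coeff a).coeff b =
      ∑ i : Ix d, if ((i.1.1 : ℕ) = a ∧ (i.1.2 : ℕ) = b) then c i else 0 := by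
  rw [ofCoeffs, finsetSum_coeff, finsetSum_coeff]
  refine Finset.sum_congr rfl fun i _ => ?_
  rw [coeff_monomial]
  by_cases h1 : (i.1.1 : ℕ) = a
  · rw [if_pos h1, coeff_monomial]
    by_cases h2 : (i.1.2 : ℕ) = b
    · rw [if_pos h2, if_pos ⟨h1, h2⟩]
    · rw [if_neg h2, if_neg (fun h => h2 h.2)]
  · rw [if_neg h1, if_neg (fun h => h1 h.1), coeff_zero]

theorem ofCoeffs_coeff_self {R : Type*} [CommRing R] {d : ℕ} (c : Ix d → R) (i : Ix d) :
    ((ofCoeffs c).coeff (i.1.1 : ℕ)).coeff (i.1.2 : ℕ) = c i := by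
  rw [coeff_ofCoeffs, Finset.sum_eq_single i]
  · simp
  · intro j _ hj
    rw [if_neg]
    rintro ⟨h1, h2⟩
    exact hj (Subtype.ext (Prod.ext (Fin.ext h1) (Fin.ext h2)))
  · simp

theorem inV_ofCoeffs {R : Type*} [CommRing R] {d : ℕ} (c : Ix d → R) :
    InV (d + 1) (ofCoeffs c) := by
  intro a b hab
  rw [coeff_ofCoeffs]
  refine Finset.sum_eq_zero fun i _ => ?_
  rw [if_neg]
  rintro ⟨h1, h2⟩
  have := i.2
  omega

theorem coeff_taylor_ofCoeffs {R : Type*} [CommRing R] {d : ℕ} (c : Ix d → R) (x y : R)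
    (a b : ℕ) :
    (taylor y ((taylor (C x) (ofCoeffs c)).coeff a)).coeff b =
      ∑ i : Ix d, entry x y a b i.1.1 i.1.2 * c i := by
  rw [ofCoeffs, map_sum, finsetSum_coeff, map_sum, finsetSum_coeff]
  exact Finset.sum_congr rfl fun i _ => coeff_taylor_monomial _ _ _ _ _ _ _

theorem colH_Icc (m a : ℕ) : colH (Finset.Icc 1 m) a = m - a := by
  unfold colH
  have : (Finset.Icc 1 m).filter (fun s => a < s) = Finset.Icc (a + 1) m := by
    ext s
    simp only [Finset.mem_filter, Finset.mem_Icc]
    omega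
  rw [this, Nat.card_Icc]
  omega

theorem cond_ofCoeffs {R : Type*} [CommRing R] {d m : ℕ} (c : Ix d → R) (x y : R)
    (h : ∀ a b, a + b < m → ∑ i : Ix d, entry x y a b i.1.1 i.1.2 * c i = 0) :
    Cond (Finset.Icc 1 m) x y (ofCoeffs c) := by
  intro a
  rw [colH_Icc, X_sub_C_pow_dvd_iff, ← taylor_apply, X_pow_dvd_iff]
  intro b hb
  rw [coeff_taylor_ofCoeffs]
  exact h a b (by omega)

/-- rows of a matrix with injective action contain an invertible square submatrix -/
theorem exists_minor {K : Type*} [Field K] {I J : Type*} [Fintype I] [DecidableEq I]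
    (r : J → I → K) (h : ∀ c : I → K, (∀ j, ∑ i, r j i * c i = 0) → c = 0) :
    ∃ a : I → J, (Matrix.of fun i i' => r (a i) i').det ≠ 0 := by
  have hspan : Submodule.span K (Set.range r) = ⊤ := by
    by_contra hne
    obtain ⟨φ, hφ, hker⟩ := Submodule.exists_le_ker_of_lt_top _ (lt_top_iff_ne_top.2 hne)
    apply hφ
    have h0 : (fun i => φ (fun j => if i = j then 1 else 0)) = 0 := by
      apply h
      intro j
      have h1 : φ (r j) = 0 := hker (Submodule.subset_span ⟨j, rfl⟩)
      rw [LinearMap.pi_apply_eq_sum_univ φ (r j)] at h1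
      exact h1
    refine LinearMap.ext fun x => ?_
    rw [LinearMap.pi_apply_eq_sum_univ φ x, LinearMap.zero_apply]
    refine Finset.sum_eq_zero fun i _ => ?_
    rw [show φ (fun j => if i = j then 1 else 0) = 0 from congrFun h0 i, smul_zero]
  obtain ⟨κ, a, ha, hsp, hli⟩ := exists_linearIndependent' K r
  rw [hspan] at hsp
  let b : Module.Basis κ K (I → K) := Module.Basis.mk hli (by rw [hsp])
  let e : I ≃ κ := (Pi.basisFun K I).indexEquiv b
  refine ⟨a ∘ e, ?_⟩
  have hli' : LinearIndependent K (fun i => r ((a ∘ e) i)) := hli.comp e e.injective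
  have := (Matrix.linearIndependent_rows_iff_isUnit
    (A := Matrix.of fun i i' => r ((a ∘ e) i) i')).1 hli'
  rw [Matrix.isUnit_iff_isUnit_det] at this
  exact this.ne_zero

theorem eq_zero_of_minor {K : Type*} [Field K] {I J : Type*} [Fintype I] [DecidableEq I]
    (r : J → I → K) (a : I → J) (h : (Matrix.of fun i i' => r (a i) i').det ≠ 0)
    (c : I → K) (hc : ∀ j, ∑ i, r j i * c i = 0) : c = 0 := by
  apply Matrix.eq_zero_of_mulVec_eq_zero h
  ext i
  simpa [Matrix.mulVec, dotProduct] using hc (a i)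

section ideal

variable {R : Type*} [CommRing R]

/-- bivariate polynomials all of whose monomials have degree at least `m` -/
def wt (R : Type*) [CommRing R] (m : ℕ) : Ideal R[X][X] where
  carrier := {g | ∀ a b, a + b < m → (g.coeff a).coeff b = 0}
  add_mem' {f g} hf hg a b hab := by
    rw [coeff_add, coeff_add, hf a b hab, hg a b hab, add_zero]
  zero_mem' a b _ := by simp
  smul_mem' c f hf a b hab := by
    rw [smul_eq_mul, coeff_mul, finsetSum_coeff]
    refine Finset.sum_eq_zero fun p hp => ?_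
    rw [coeff_mul]
    refine Finset.sum_eq_zero fun q hq => ?_
    rw [Finset.HasAntidiagonal.mem_antidiagonal] at hp hq
    rw [hf p.2 q.2 (by omega), mul_zero]

theorem mem_wt {m : ℕ} {g : R[X][X]} :
    g ∈ wt R m ↔ ∀ a b, a + b < m → (g.coeff a).coeff b = 0 := Iff.rfl

theorem mul_mem_wt {m : ℕ} {f g : R[X][X]} (hf : f ∈ wt R m) (hg : g ∈ wt R 1) :
    f * g ∈ wt R (m + 1) := by
  intro a b hab
  rw [coeff_mul, finsetSum_coeff]
  refine Finset.sum_eq_zero fun p hp => ?_
  rw [coeff_mul]
  refine Finset.sum_eq_zero fun q hq => ?_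
  rw [Finset.HasAntidiagonal.mem_antidiagonal] at hp hq
  by_cases h : p.1 + q.1 < m
  · rw [hf p.1 q.1 h, zero_mul]
  · rw [hg p.2 q.2 (by omega), mul_zero]

/-- translation of a polynomial to `(x, y)`, as a bivariate polynomial -/
noncomputable def Th (x y : R) : MvPolynomial (Fin 2) R →+* R[X][X] :=
  MvPolynomial.eval₂Hom (C.comp C) ![X + C (C x), C (X + C y)]

theorem coeff_Th_monomial (x y c : R) (n : Fin 2 →₀ ℕ) (a b : ℕ) :
    ((Th x y (MvPolynomial.monomial n c)).coeff a).coeff b =
      entry x y a b (n 0) (n 1) * c := by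
  rw [Th, MvPolynomial.coe_eval₂Hom, MvPolynomial.eval₂_monomial,
    Finsupp.prod_fintype _ _ (by simp), Fin.prod_univ_two]
  simp only [RingHom.coe_comp, Function.comp_apply, Matrix.cons_val_zero, Matrix.cons_val_one]
  rw [coeff_C_mul, ← C_pow, coeff_mul_C, coeff_X_add_C_pow, coeff_C_mul, ← C_eq_natCast,
    ← C_pow, ← C_mul, coeff_C_mul, coeff_X_add_C_pow, entry]
  ring

theorem coeff_Th_zero (x y : R) (f : MvPolynomial (Fin 2) R) :
    ((Th x y f).coeff 0).coeff 0 = MvPolynomial.eval ![x, y] f := by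
  have : ((evalRingHom (0 : R)).comp (evalRingHom (0 : R[X]))).comp (Th x y) =
      MvPolynomial.eval ![x, y] := by
    apply MvPolynomial.ringHom_ext
    · intro r
      simp [Th]
    · intro i
      fin_cases i <;> simp [Th]
  rw [coeff_zero_eq_eval_zero, coeff_zero_eq_eval_zero, ← this]
  rfl

theorem Th_mem_wt (x y : R) (m : ℕ) {f : MvPolynomial (Fin 2) R}
    (hf : f ∈ (RingHom.ker (MvPolynomial.eval ![x, y])) ^ m) : Th x y f ∈ wt R m := by
  have key : ∀ m, (RingHom.ker (MvPolynomial.eval ![x, y])) ^ m ≤ (wt R m).comap (Th x y) := by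
    intro m
    induction m with
    | zero =>
      intro f _
      rw [Ideal.mem_comap, mem_wt]
      intro a b hab
      omega
    | succ m ih =>
      rw [pow_succ, Ideal.mul_le]
      intro r hr s hs
      rw [Ideal.mem_comap, map_mul]
      refine mul_mem_wt (ih hr) ?_
      intro a b hab
      have ha : a = 0 := by omega
      have hb : b = 0 := by omega
      subst ha hb
      rw [coeff_Th_zero]
      exact hs
  exact key m hf

end ideal

/-- exponents as finitely supported functions -/
noncomputable def ex {d : ℕ} (i : Ix d) : Fin 2 →₀ ℕ :=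
  Finsupp.equivFunOnFinite.symm ![(i.1.1 : ℕ), (i.1.2 : ℕ)]

@[simp] theorem ex_zero {d : ℕ} (i : Ix d) : ex i 0 = (i.1.1 : ℕ) := rfl

@[simp] theorem ex_one {d : ℕ} (i : Ix d) : ex i 1 = (i.1.2 : ℕ) := rfl

theorem ex_injective {d : ℕ} : Function.Injective (ex (d := d)) := by
  intro i j h
  have h0 := congrArg (fun n => n 0) h
  have h1 := congrArg (fun n => n 1) h
  exact Subtype.ext (Prod.ext (Fin.ext h0) (Fin.ext h1))

theorem eq_sum_monomial {R : Type*} [CommRing R] {d : ℕ} {f : MvPolynomial (Fin 2) R}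
    (hf : f ∈ MvPolynomial.restrictTotalDegree (Fin 2) R d) :
    f = ∑ i : Ix d, MvPolynomial.monomial (ex i) (f.coeff (ex i)) := by
  rw [MvPolynomial.mem_restrictTotalDegree] at hf
  ext n
  rw [MvPolynomial.coeff_sum]
  simp only [MvPolynomial.coeff_monomial]
  by_cases hn : n 0 + n 1 ≤ d
  · let i : Ix d := ⟨(⟨n 0, by omega⟩, ⟨n 1, by omega⟩), hn⟩
    have hi : ex i = n := by
      ext j
      fin_cases j <;> rfl
    rw [Finset.sum_eq_single i]
    · rw [if_pos hi, hi]
    · intro j _ hj
      rw [if_neg]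
      intro h
      exact hj (ex_injective (h.trans hi.symm))
    · simp
  · rw [Finset.sum_eq_zero]
    · apply MvPolynomial.coeff_eq_zero_of_totalDegree_lt
      refine lt_of_le_of_lt hf ?_
      have : ∑ i ∈ n.support, n i = n 0 + n 1 := by
        rw [← Fin.sum_univ_two (f := fun i => n i)]
        exact Finset.sum_subset (Finset.subset_univ _) (by simp)
      omega
    · intro i _
      rw [if_neg]
      rintro rfl
      exact hn i.2

theorem coeff_Th_eq_sum {R : Type*} [CommRing R] {d : ℕ} {f : MvPolynomial (Fin 2) R}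
    (hf : f ∈ MvPolynomial.restrictTotalDegree (Fin 2) R d) (x y : R) (a b : ℕ) :
    ((Th x y f).coeff a).coeff b =
      ∑ i : Ix d, entry x y a b i.1.1 i.1.2 * f.coeff (ex i) := by
  conv_lhs => rw [eq_sum_monomial hf]
  rw [map_sum, finsetSum_coeff, finsetSum_coeff]
  exact Finset.sum_congr rfl fun i _ => coeff_Th_monomial _ _ _ _ _ _

section main

variable {h u d : ℕ} (m : Fin h → ℕ)

/-- the multiplicities, with `u` additional simple points -/
def mult (m : Fin h → ℕ) : Fin h ⊕ Fin u → ℕ := Sum.elim m (fun _ => 1)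

/-- the conditions -/
abbrev Jx (u : ℕ) (m : Fin h → ℕ) : Type :=
  {t : (Fin h ⊕ Fin u) × ℕ × ℕ // t.2.1 + t.2.2 < mult m t.1}

/-- the rows of the matrix of conditions -/
def row {R : Type*} [CommRing R] (x y : Fin h ⊕ Fin u → R) (j : Jx u m) (i : Ix d) : R :=
  entry (x j.1.1) (y j.1.1) j.1.2.1 j.1.2.2 i.1.1 i.1.2

theorem map_row {R R' : Type*} [CommRing R] [CommRing R'] (φ : R →+* R')
    (x y : Fin h ⊕ Fin u → R) (j : Jx u m) (i : Ix d) :
    φ (row m x y j i) = row m (fun v => φ (x v)) (fun v => φ (y v)) j i := map_entry _ _ _ _ _ _ _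

theorem map_minor {R R' : Type*} [CommRing R] [CommRing R'] (φ : R →+* R')
    (x y : Fin h ⊕ Fin u → R) (a : Ix d → Jx u m) :
    φ (Matrix.of fun i i' => row m x y (a i) i').det =
      (Matrix.of fun i i' => row m (fun v => φ (x v)) (fun v => φ (y v)) (a i) i').det := by
  rw [RingHom.map_det]
  congr 1
  ext i i'
  simp [map_row]

/-- extending a choice of positions of the fat points by the fixed simple points -/
noncomputable def sub1 (q : (Fin h ⊕ Fin u) × Fin 2 → ℂ) :
    (Fin h ⊕ Fin u) × Fin 2 → MvPolynomial (Fin h × Fin 2) ℂ :=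
  fun t => Sum.elim (fun i => MvPolynomial.X (i, t.2)) (fun j => MvPolynomial.C (q (Sum.inr j, t.2)))
    t.1

theorem transfer_aux (S : Fin h ⊕ Fin u → Finset ℕ) (hS : ∀ v, S v = Finset.Icc 1 (mult m v))
    (H : Good (ι := Fin h ⊕ Fin u) ℂ (d + 1) S ∅) :
    ∃ Φ : MvPolynomial (Fin h × Fin 2) ℂ, Φ ≠ 0 ∧ ∀ p : Fin h → Fin 2 → ℂ,
      MvPolynomial.eval (fun q => p q.1 q.2) Φ ≠ 0 →
        Module.finrank ℂ (fatSystem d m p) ≤ u := by
  obtain ⟨K, _, φ, x, y, -, -, -, H⟩ := H
  -- a nonzero minor at the point `(x, y)`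
  obtain ⟨a, ha⟩ := exists_minor (K := K) (I := Ix d) (J := Jx u m) (row m x y) (by
    intro c hc
    have h0 : ofCoeffs c = 0 := by
      apply H _ (inV_ofCoeffs c)
      intro v
      rw [hS v]
      apply cond_ofCoeffs
      intro a b hab
      exact hc ⟨(v, a, b), hab⟩
    ext i
    rw [← ofCoeffs_coeff_self c i, h0]
    simp)
  -- the universal minor
  let Xu : Fin h ⊕ Fin u → MvPolynomial ((Fin h ⊕ Fin u) × Fin 2) ℂ :=
    fun v => MvPolynomial.X (v, 0)
  let Yu : Fin h ⊕ Fin u → MvPolynomial ((Fin h ⊕ Fin u) × Fin 2) ℂ :=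
    fun v => MvPolynomial.X (v, 1)
  let Ψ : MvPolynomial ((Fin h ⊕ Fin u) × Fin 2) ℂ :=
    (Matrix.of fun i i' => row m Xu Yu (a i) i').det
  have hΨ : Ψ ≠ 0 := by
    intro h0
    apply ha
    let ev : MvPolynomial ((Fin h ⊕ Fin u) × Fin 2) ℂ →+* K :=
      MvPolynomial.eval₂Hom φ (fun t => if t.2 = 0 then x t.1 else y t.1)
    have h1 := map_minor m ev Xu Yu a
    have hx : (fun v => ev (Xu v)) = x := by
      ext v
      simp [ev, Xu]
    have hy : (fun v => ev (Yu v)) = y := by
      ext v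
      simp [ev, Yu]
    rw [hx, hy] at h1
    rw [← h1]
    change ev Ψ = 0
    rw [h0, map_zero]
  obtain ⟨q, hq⟩ : ∃ q, MvPolynomial.eval q Ψ ≠ 0 := by
    by_contra hne
    push Not at hne
    exact hΨ (MvPolynomial.funext fun q => by rw [hne q, map_zero])
  refine ⟨MvPolynomial.aeval (sub1 q) Ψ, ?_, ?_⟩
  · intro h0
    apply hq
    have h1 : ((MvPolynomial.eval (fun t : Fin h × Fin 2 => q (Sum.inl t.1, t.2))).comp
        (MvPolynomial.aeval (R := ℂ) (sub1 q) :
          MvPolynomial ((Fin h ⊕ Fin u) × Fin 2) ℂ →ₐ[ℂ] _).toRingHom) = MvPolynomial.eval q := by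
      apply MvPolynomial.ringHom_ext
      · intro r
        simp
      · rintro ⟨v | v, i⟩
        · simp [sub1]
        · simp [sub1]
    rw [← h1]
    change MvPolynomial.eval _ (MvPolynomial.aeval (sub1 q) Ψ) = 0
    rw [h0, map_zero]
  · intro p hp
    let q' : (Fin h ⊕ Fin u) × Fin 2 → ℂ := fun t =>
      Sum.elim (fun i => p i t.2) (fun j => q (Sum.inr j, t.2)) t.1
    have h1 : ((MvPolynomial.eval (fun t : Fin h × Fin 2 => p t.1 t.2)).comp
        (MvPolynomial.aeval (R := ℂ) (sub1 q) :
          MvPolynomial ((Fin h ⊕ Fin u) × Fin 2) ℂ →ₐ[ℂ] _).toRingHom) = MvPolynomial.eval q' := by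
      apply MvPolynomial.ringHom_ext
      · intro r
        simp
      · rintro ⟨v | v, i⟩
        · simp [sub1, q']
        · simp [sub1, q']
    have h2 : MvPolynomial.eval q' Ψ ≠ 0 := by
      rw [← h1]
      exact hp
    rw [map_minor m (MvPolynomial.eval q') Xu Yu a] at h2
    -- evaluation at the simple points is injective on the system
    let E : fatSystem d m p →ₗ[ℂ] (Fin u → ℂ) :=
      { toFun := fun f j => MvPolynomial.eval (fun i => q (Sum.inr j, i)) f.1
        map_add' := fun f g => by ext; simp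
        map_smul' := fun c f => by ext; simp [MvPolynomial.smul_eval] }
    have hE : Function.Injective E := by
      rw [injective_iff_map_eq_zero]
      rintro ⟨f, hf⟩ h0
      rw [fatSystem, Submodule.mem_inf, Submodule.mem_iInf] at hf
      obtain ⟨hfd, hfm⟩ := hf
      have hc := eq_zero_of_minor _ a h2 (fun i => f.coeff (ex i)) (by
        rintro ⟨⟨v, a, b⟩, hab⟩
        have h3 := coeff_Th_eq_sum hfd (q' (v, 0)) (q' (v, 1)) a b
        have h4 : ∑ i : Ix d, row m (fun v => MvPolynomial.eval q' (Xu v))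
            (fun v => MvPolynomial.eval q' (Yu v)) ⟨(v, a, b), hab⟩ i * f.coeff (ex i) =
            ((Th (q' (v, 0)) (q' (v, 1)) f).coeff a).coeff b := by
          rw [h3]
          refine Finset.sum_congr rfl fun i _ => ?_
          simp only [row, Xu, Yu, MvPolynomial.eval_X]
        rw [h4]
        rcases v with v | v
        · have h5 := hfm v
          have h6 : p v = ![p v 0, p v 1] := by
            ext i
            fin_cases i <;> rfl
          rw [Submodule.restrictScalars_mem, h6] at h5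
          exact Th_mem_wt _ _ _ h5 a b hab
        · have ha0 : a = 0 := by
            simp only [mult, Sum.elim_inr] at hab
            omega
          have hb0 : b = 0 := by
            simp only [mult, Sum.elim_inr] at hab
            omega
          subst ha0 hb0
          rw [coeff_Th_zero]
          have h7 := congrFun h0 v
          have h8 : ![q' (Sum.inr v, 0), q' (Sum.inr v, 1)] = fun i => q (Sum.inr v, i) := by
            ext i
            fin_cases i <;> rfl
          rw [h8]
          exact h7)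
      apply Subtype.ext
      change f = 0
      rw [eq_sum_monomial hfd]
      refine Finset.sum_eq_zero fun i _ => ?_
      rw [show f.coeff (ex i) = 0 from congrFun hc i, map_zero]
    have := LinearMap.finrank_le_finrank_of_injective hE
    simpa using this

end main

end Transfer

/-- TaskE1: semicontinuity. `Good ℂ (d+1) S ∅` gives positions in a field extension `K` of `ℂ` at
which no nonzero polynomial of degree `≤ d` satisfies all the conditions. -/
theorem transfer_upper {d h u : ℕ} (m : Fin h → ℕ)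
    (H : Good (ι := Fin h ⊕ Fin u) ℂ (d + 1)
      (Sum.elim (fun i => Finset.Icc 1 (m i)) (fun _ => {1})) ∅) :
    ∃ Φ : MvPolynomial (Fin h × Fin 2) ℂ, Φ ≠ 0 ∧ ∀ p : Fin h → Fin 2 → ℂ,
      MvPolynomial.eval (fun q => p q.1 q.2) Φ ≠ 0 →
        Module.finrank ℂ (fatSystem d m p) ≤ u := by
  refine Transfer.transfer_aux m _ ?_ H
  rintro (v | v)
  · rfl
  · simp [Transfer.mult]

end Pool.Agent.Lib.MP_6b2d39_ag
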