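import Pool.Agent.Lib.MP_6b2d39_ag.Cross

open Polynomial

namespace Pool.Agent.Lib.MP_6b2d39_ag

variable {k : Type} [Field k] {ι : Type} [DecidableEq ι] [Fintype ι]

/-- one row of a descent: close the line, insert free points which fit, or grow -/
theorem by_free [Infinite k] {n : ℕ} (P : (ι → Finset ℕ) → Finset ι → Prop)
    (hfat : ∀ S old, P S old → ∀ i, i ∉ old → ∃ c, S i = Finset.Icc 1 c)
    (hpos : ∀ S old, P S old → ∀ i, ∀ s ∈ S i, 1 ≤ s)
    (hF : ∀ S old, P S old → ∑ i ∈ old, mx (S i) ≤ n)
    (htot : ∀ S old, P S old → (n + 1).choose 2 ≤ ∑ i, tot (S i))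
    (hclose : ∀ S old, P S old → ∑ i ∈ old, mx (S i) = n → Good k n S old)
    (hfit : ∀ S old j c, P S old → j ∉ old → S j = Finset.Icc 1 c → 1 ≤ c → c < n →
      ∑ i ∈ old, mx (S i) + c ≤ n → P S (insert j old))
    (hgrow : ∀ S old j c, P S old → j ∉ old → S j = Finset.Icc 1 c → 1 ≤ c → c < n →
      ∑ i ∈ old, mx (S i) < n → n < ∑ i ∈ old, mx (S i) + c → Good k n S old) :
    ∀ S old, P S old → Good k n S old := by
  have key : ∀ (f : ℕ) (S : ι → Finset ℕ) (old : Finset ι), (oldᶜ).card ≤ f → P S old →
      Good k n S old := by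
    intro f
    induction f with
    | zero =>
      intro S old hcard hP
      rcases Nat.lt_or_ge (∑ i ∈ old, mx (S i)) n with h1 | h1
      · obtain ⟨j, hj, _⟩ := exists_free (n := n) h1 (htot S old hP)
        have : j ∈ oldᶜ := Finset.mem_compl.2 hj
        have h2 := Finset.card_pos.2 ⟨j, this⟩
        omega
      · exact hclose S old hP (le_antisymm (hF S old hP) h1)
    | succ f ihf =>
      intro S old hcard hP
      rcases Nat.lt_or_ge (∑ i ∈ old, mx (S i)) n with h1 | h1
      · obtain ⟨j, hj, hjne⟩ := exists_free (n := n) h1 (htot S old hP)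
        obtain ⟨c, hc⟩ := hfat S old hP j hj
        have hc1 : 1 ≤ c := by
          rcases Nat.eq_zero_or_pos c with h0 | h0
          · rw [hc, h0] at hjne
            simp at hjne
          · exact h0
        have hcardI : (insert j old)ᶜ.card ≤ f := by
          rw [Finset.compl_insert, Finset.card_erase_of_mem (Finset.mem_compl.2 hj)]
          omega
        rcases Nat.lt_or_ge c n with h2 | h2
        · rcases Nat.lt_or_ge n (∑ i ∈ old, mx (S i) + c) with h3 | h3
          · exact hgrow S old j c hP hj hc hc1 h2 h1 h3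
          · apply good_move hj
            exact ihf S (insert j old) hcardI (hfit S old j c hP hj hc hc1 h2 h3)
        · apply good_move hj
          apply good_kill n S (insert j old) j (Finset.mem_insert_self _ _) (hpos S old hP)
          rw [hc]
          simpa using h2
      · exact hclose S old hP (le_antisymm (hF S old hP) h1)
  intro S old hP
  exact key _ S old le_rfl hP

/-- closing a full line -/
theorem good_close {n : ℕ} {S : ι → Finset ℕ} {old : Finset ι} (hpos : ∀ i, ∀ s ∈ S i, 1 ≤ s)
    (hfat : ∀ i, i ∉ old → ∃ c, S i = Finset.Icc 1 c) (hn : 1 ≤ n)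
    (hF : ∑ i ∈ old, mx (S i) = n)
    (h : (∀ i, i ∉ old → ∃ c, stepS S old i = Finset.Icc 1 c) →
      (∀ i, ∀ s ∈ stepS S old i, 1 ≤ s) →
      ∑ i ∈ old, mx (stepS S old i) + 1 ≤ n →
      ∑ i, tot (stepS S old i) + n = ∑ i, tot (S i) → (n - 1 + 1).choose 2 + n = (n + 1).choose 2 →
      Good k (n - 1) (stepS S old) old) : Good k n S old := by
  obtain ⟨n', rfl⟩ : ∃ n', n = n' + 1 := ⟨n - 1, by omega⟩
  have hmass := sum_tot_stepS S old Finset.univ (Finset.subset_univ _)
  have hmx := sum_mx_stepS hpos old
  have hact : 1 ≤ act S old := act_pos (by omega)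
  refine good_plain (S' := stepS S old) (h ?_ ?_ ?_ ?_ ?_) (fun i hi => stepS_mem hi)
    (fun i hi => stepS_not_mem hi) (by omega)
  · intro i hi
    rw [stepS_not_mem hi]
    exact hfat i hi
  · exact fun i s hs => hpos i s (stepS_subset i hs)
  · omega
  · omega
  · have := choose_succ_two (n' + 1)
    have h1 : n' + 1 - 1 + 1 = n' + 1 := rfl
    rw [h1]
    omega

theorem lowP_step [CharZero k] {n : ℕ} (IH : ∀ m, m < n → LowP k ι m ∧ Low0 k ι m) :
    LowP k ι n := by
  rcases Nat.eq_zero_or_pos n with hn0 | hn0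
  · subst hn0
    intro S old y _ _ _ _ _ _
    exact good_zero S old
  intro S old y hfat hpos hy hne hF hmass
  let P : (ι → Finset ℕ) → Finset ι → Prop := fun S old =>
    (∀ i, i ∉ old → ∃ c, S i = Finset.Icc 1 c) ∧ (∀ i, ∀ s ∈ S i, 1 ≤ s) ∧
    y ∈ old ∧ (S y).Nonempty ∧ ∑ i ∈ old, mx (S i) ≤ n ∧
    (n + 1).choose 2 + (qs (S y) + (n - (S y).card - 1).choose 2) ≤ ∑ i, tot (S i)
  refine by_free P (fun S old h => h.1) (fun S old h => h.2.1) (fun S old h => h.2.2.2.2.1)
    (fun S old h => by have := h.2.2.2.2.2; omega) ?_ ?_ ?_ S old ⟨hfat, hpos, hy, hne, hF, hmass⟩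
  · -- close
    rintro S old ⟨hfat, hpos, hy, hne, hF, hmass⟩ hFn
    apply good_close hpos hfat hn0 hFn
    intro hfat' hpos' hF' hm' hch
    have h1 : stepS S old y = er (S y) := stepS_mem hy
    have h2 := qs_er (Y := S y)
    have h3 := card_er (Y := S y)
    have h4 := Finset.card_pos.2 hne
    obtain ⟨hL, hL0⟩ := IH (n - 1) (by omega)
    rcases Nat.lt_or_ge 1 (S y).card with h5 | h5
    · apply hL _ old y hfat' hpos' hy
      · rw [h1, ← Finset.card_pos, h3]
        omega
      · omega
      · rw [h1, h3]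
        have h6 : n - 1 - ((S y).card - 1) - 1 = n - (S y).card - 1 := by omega
        rw [h6]
        omega
    · apply hL0 _ old hfat' hpos' (by omega)
      have h6 : n - 1 - 1 = n - (S y).card - 1 := by omega
      rw [h6]
      omega
  · -- fit
    rintro S old j c ⟨hfat, hpos, hy, hne, hF, hmass⟩ hj hc hc1 hcn hfit
    refine ⟨fun i hi => hfat i (fun h' => hi (Finset.mem_insert_of_mem h')), hpos,
      Finset.mem_insert_of_mem hy, hne, ?_, hmass⟩
    rw [Finset.sum_insert hj, hc, mx_Icc]
    omega
  · -- grow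
    rintro S old j c ⟨hfat, hpos, hy, hne, hF, hmass⟩ hj hc hc1 hcn hFn hnofit
    apply grow_cases hpos hj hc (by rw [lineG_zero]; omega)
    intro κ hκn hlt hinc hstop
    have g : Gro S old j n c κ := ⟨hpos, hj, hc, hc1, hκn, hlt, hinc⟩
    have h1 := card_le_mx (hpos y)
    have h2 := mx_le_sum (S := S) hy
    have h3 := Finset.card_pos.2 hne
    apply cross (h := n) (le_refl n) (fun m hm _ => IH m hm) hfat g (by omega) hy (by omega)
      (by omega) hnofit _ (by omega) hstop
    have h4 : n - n = 0 := by omega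
    rw [h4, Function.iterate_zero, id]
    exact hmass

theorem low0_step [CharZero k] {n : ℕ} (IH : ∀ m, m < n → LowP k ι m ∧ Low0 k ι m)
    (hP : LowP k ι n) : Low0 k ι n := by
  rcases Nat.eq_zero_or_pos n with hn0 | hn0
  · subst hn0
    intro S old _ _ _ _
    exact good_zero S old
  intro S old hfat hpos hF hmass
  rcases Nat.lt_or_ge (∑ i ∈ old, mx (S i)) n with h1 | h1
  · by_cases hact : ∃ y ∈ old, (S y).Nonempty
    · obtain ⟨y, hy, hne⟩ := hact
      apply hP S old y hfat hpos hy hne hF
      have h2 := mx_le_sum (S := S) hy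
      have h3 := qs_bound (subset_Icc_mx (hpos y) (M := n - 1) (by omega))
      have h4 : n - 1 - (S y).card = n - (S y).card - 1 := by omega
      rw [h4] at h3
      omega
    · push Not at hact
      have hF0 : ∑ i ∈ old, mx (S i) = 0 := by
        apply Finset.sum_eq_zero
        intro i hi
        rw [hact i hi, mx_empty]
      obtain ⟨j, hj, hjne⟩ := exists_free (n := n) h1 (by omega)
      obtain ⟨c, hc⟩ := hfat j hj
      apply good_move hj
      rcases Nat.lt_or_ge c n with h2 | h2
      · apply hP S (insert j old) j (fun i hi => hfat i (fun h' => hi (Finset.mem_insert_of_mem h')))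
          hpos (Finset.mem_insert_self _ _) hjne
        · rw [Finset.sum_insert hj, hc, mx_Icc]
          omega
        · have h3 := qs_bound (Y := S j) (M := n - 1) (by
            rw [hc]
            exact Finset.Icc_subset_Icc_right (by omega))
          have h4 : n - 1 - (S j).card = n - (S j).card - 1 := by omega
          rw [h4] at h3
          omega
      · apply good_kill n S (insert j old) j (Finset.mem_insert_self _ _) hpos
        rw [hc]
        simpa using h2
  · have hFn : ∑ i ∈ old, mx (S i) = n := le_antisymm hF h1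
    apply good_close hpos hfat hn0 hFn
    intro hfat' hpos' hF' hm' hch
    apply (IH (n - 1) (by omega)).2 _ old hfat' hpos' (by omega)
    have h2 : (n - 1 - 1).choose 2 ≤ (n - 1).choose 2 := Nat.choose_le_choose 2 (by omega)
    omega

theorem low [CharZero k] : ∀ n, LowP k ι n ∧ Low0 k ι n := by
  intro n
  induction n using Nat.strong_induction_on with
  | _ n ih =>
    have h := lowP_step ih
    exact ⟨h, low0_step ih h⟩

end Pool.Agent.Lib.MP_6b2d39_ag
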