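import Pool.Agent.Lib.MP_6b2d39_ag.ProcMain

open Polynomial

namespace Pool.Agent.Lib.MP_6b2d39_ag

variable {k : Type} [Field k] {ι : Type} [DecidableEq ι] [Fintype ι]

omit [DecidableEq ι] [Fintype ι] in
theorem act_mono {S S' : ι → Finset ℕ} {T : Finset ι} (h : ∀ i ∈ T, S' i ⊆ S i) :
    act S' T ≤ act S T := by
  unfold act
  apply Finset.card_le_card
  intro i hi
  rw [Finset.mem_filter] at hi ⊢
  exact ⟨hi.1, hi.2.mono (h i hi.1)⟩

omit [Fintype ι] in
theorem act_insert_le {S : ι → Finset ℕ} {T : Finset ι} {j : ι} :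
    act S (insert j T) ≤ act S T + 1 := by
  unfold act
  rw [Finset.filter_insert]
  split_ifs
  · exact Finset.card_insert_le _ _
  · omega

/-- growth of one point -/
theorem good_grow [CharZero k] {S : ι → Finset ℕ} {old : Finset ι} {N m κ : ℕ} {j : ι}
    (hj : j ∉ old) (hm : S j = Finset.Icc 1 m) (hκ : 1 ≤ κ) (hκN : κ ≤ N) {R : ℕ → ℕ}
    (hR : ∀ b < κ, 1 ≤ R b ∧ R b ≤ m) (hinj : ∀ a < κ, ∀ b < κ, R a = R b → a = b)
    (hsum : ∀ b < κ, N ≤ lineG S old b + R b + b)
    (h : Good k (N - κ) (growS S old j R κ) (insert j old)) : Good k N S old := by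
  have hN : N = (N - κ) + κ := by omega
  rw [hN]
  refine good_multi hκ hj R ?_ hinj h ?_ ?_ ?_ ?_
  · intro b hb
    rw [hm, Finset.mem_Icc]
    exact hR b hb
  · intro i hi
    have hij : i ≠ j := fun e => hj (e ▸ hi)
    unfold growS
    rw [if_neg hij, if_pos hi]
  · unfold growS
    rw [if_pos rfl]
  · intro i hi
    rw [Finset.mem_insert, not_or] at hi
    unfold growS
    rw [if_neg hi.1, if_neg hi.2]
  · intro b hb
    have h9 := hsum b hb
    have h10 : ∑ i ∈ old, mx (er^[b] (S i)) = lineG S old b := rfl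
    rw [h10]
    omega

/-- the room on the line increases strictly as long as two points are active -/
theorem grow2 {S : ι → Finset ℕ} (hpos : ∀ i, ∀ s ∈ S i, 1 ≤ s) {old : Finset ι} {N : ℕ}
    (h0 : lineG S old 0 + 1 ≤ N) :
    ∀ b, (∀ b' < b, 2 ≤ act (fun i => er^[b'] (S i)) old) →
      b + 1 ≤ N - b - lineG S old b ∧ lineG S old b + (N - b - lineG S old b) + b = N ∧
      ∀ b' < b, N - b' - lineG S old b' < N - b - lineG S old b := by
  intro b
  induction b with
  | zero =>
    intro _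
    refine ⟨by omega, by omega, ?_⟩
    intro b' hb'
    omega
  | succ b ih =>
    intro hb
    obtain ⟨h1, h2, h3⟩ := ih (fun b' hb' => hb b' (by omega))
    have h6 := hb b (by omega)
    have hpos' : ∀ i, ∀ s ∈ er^[b] (S i), 1 ≤ s := fun i s hs => hpos i s (er_iter_subset b _ hs)
    have h7 := sum_mx_erase_le' hpos' old
    have h8 : ∑ i ∈ old, mx ((er^[b] (S i)).erase (mx (er^[b] (S i)))) = lineG S old (b + 1) := by
      unfold lineG
      apply Finset.sum_congr rfl
      intro i _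
      rw [Function.iterate_succ_apply']
      rfl
    have h9 : ∑ i ∈ old, mx (er^[b] (S i)) = lineG S old b := rfl
    rw [h8, h9] at h7
    refine ⟨by omega, by omega, ?_⟩
    intro b' hb'
    rcases Nat.lt_or_ge b' b with h10 | h10
    · have := h3 b' h10
      omega
    · have h11 : b' = b := by omega
      rw [h11]
      omega

omit [Fintype ι] in
theorem growS_old {S : ι → Finset ℕ} {old : Finset ι} {j : ι} {c : ℕ → ℕ} {κ : ℕ}
    (hj : j ∉ old) {i : ι} (hi : i ∈ old) : growS S old j c κ i = er^[κ] (S i) := by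
  have hij : i ≠ j := fun e => hj (e ▸ hi)
  unfold growS
  rw [if_neg hij, if_pos hi]

omit [Fintype ι] in
theorem growS_self {S : ι → Finset ℕ} {old : Finset ι} {j : ι} {c : ℕ → ℕ} {κ : ℕ} :
    growS S old j c κ j = S j \ (Finset.range κ).image c := by
  unfold growS
  rw [if_pos rfl]

omit [Fintype ι] in
theorem growS_off {S : ι → Finset ℕ} {old : Finset ι} {j : ι} {c : ℕ → ℕ} {κ : ℕ} {i : ι}
    (hi : i ∉ insert j old) : growS S old j c κ i = S i := by
  rw [Finset.mem_insert, not_or] at hi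
  unfold growS
  rw [if_neg hi.1, if_neg hi.2]

omit [Fintype ι] in
theorem mx_growS_self {S : ι → Finset ℕ} {old : Finset ι} {j : ι} {c : ℕ → ℕ} {κ m : ℕ}
    (hm : S j = Finset.Icc 1 m) (hm1 : 1 ≤ m) (hc : ∀ b < κ, c b < m) :
    mx (growS S old j c κ j) = m := by
  rw [growS_self]
  apply le_antisymm
  · have h := mx_mono (Finset.sdiff_subset (s := S j) (t := (Finset.range κ).image c))
    rw [hm, mx_Icc] at h
    rw [hm]
    exact h
  · apply le_mx
    rw [Finset.mem_sdiff, hm, Finset.mem_Icc]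
    refine ⟨⟨hm1, le_refl _⟩, ?_⟩
    rw [Finset.mem_image]
    rintro ⟨b, hb, hbm⟩
    have := hc b (Finset.mem_range.1 hb)
    omega

/-- mass balance of a growth -/
theorem sum_tot_growS {S : ι → Finset ℕ} {old : Finset ι} {j : ι} {c : ℕ → ℕ} {κ m N : ℕ}
    (hj : j ∉ old) (hm : S j = Finset.Icc 1 m) (hκN : κ ≤ N)
    (hc : ∀ b < κ, 1 ≤ c b ∧ c b ≤ m) (hinj : ∀ a < κ, ∀ b < κ, c a = c b → a = b)
    (hsum : ∀ b < κ, lineG S old b + c b + b = N) :
    ∑ i, tot (growS S old j c κ i) + (N + 1).choose 2 =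
      ∑ i, tot (S i) + (N - κ + 1).choose 2 := by
  have h1 : ∀ f : ι → ℕ, ∑ i, f i = ∑ i ∈ insert j old, f i + ∑ i ∈ (insert j old)ᶜ, f i :=
    fun f => (Finset.sum_add_sum_compl _ _).symm
  rw [h1, h1 (fun i => tot (S i))]
  have h2 : ∑ i ∈ (insert j old)ᶜ, tot (growS S old j c κ i) =
      ∑ i ∈ (insert j old)ᶜ, tot (S i) := by
    apply Finset.sum_congr rfl
    intro i hi
    rw [growS_off (Finset.mem_compl.1 hi)]
  rw [h2, Finset.sum_insert hj, Finset.sum_insert hj, growS_self]
  have hcm : ∀ b < κ, c b ∈ S j := by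
    intro b hb
    rw [hm, Finset.mem_Icc]
    exact hc b hb
  have h9 := tot_sdiff_image hcm hinj
  have h10 : ∑ i ∈ old, tot (growS S old j c κ i) +
      ∑ b ∈ Finset.range κ, lineG S old b = ∑ i ∈ old, tot (S i) := by
    unfold lineG
    rw [Finset.sum_comm, ← Finset.sum_add_distrib]
    apply Finset.sum_congr rfl
    intro i hi
    rw [growS_old hj hi]
    exact tot_er_iter (S i) κ
  have h11 := tri_sum (N := N) (g := fun b => lineG S old b + c b) κ hκN
    (fun b hb => hsum b hb)
  rw [Finset.sum_add_distrib] at h11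
  omega

/-- if there is room on the line there is a free point left -/
theorem exists_free {S : ι → Finset ℕ} {old : Finset ι} {n : ℕ}
    (hF : ∑ i ∈ old, mx (S i) < n) (htot : (n + 1).choose 2 ≤ ∑ i, tot (S i)) :
    ∃ j, j ∉ old ∧ (S j).Nonempty := by
  by_contra hcon
  push Not at hcon
  have h1 : ∑ i ∈ old, tot (S i) = ∑ i, tot (S i) := by
    apply Finset.sum_subset (Finset.subset_univ _)
    intro i _ hi
    have h2 := hcon i hi
    rw [h2, tot_empty]
  have h2 := two_mul_sum_tot_le S old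
  obtain ⟨F, hFe⟩ : ∃ F, F = ∑ i ∈ old, mx (S i) := ⟨_, rfl⟩
  rw [← hFe] at h2 hF
  have h3 := two_mul_choose_two n
  have h4 : F * (F + 1) < n * (n + 1) := by nlinarith
  omega

theorem card_le_mx {S : Finset ℕ} (h : ∀ s ∈ S, 1 ≤ s) : S.card ≤ mx S := by
  have h1 : S ⊆ Finset.Icc 1 (mx S) := by
    intro s hs
    rw [Finset.mem_Icc]
    exact ⟨h s hs, le_mx hs⟩
  have := Finset.card_le_card h1
  simpa using this

/-- a point on the line with many rows kills everything -/
theorem good_kill [Infinite k] : ∀ (n : ℕ) (S : ι → Finset ℕ) (old : Finset ι) (j : ι), j ∈ old →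
    (∀ i, ∀ s ∈ S i, 1 ≤ s) → n ≤ (S j).card → Good k n S old := by
  intro n
  induction n with
  | zero => intro S old j _ _ _; exact good_zero S old
  | succ n ih =>
    intro S old j hj hpos hn
    refine good_plain (S' := stepS S old) ?_ (fun i hi => stepS_mem hi)
      (fun i hi => stepS_not_mem hi) ?_
    · apply ih _ old j hj (fun i s hs => hpos i s (stepS_subset i hs))
      rw [stepS_mem hj]
      have hne : (S j).Nonempty := by
        rw [← Finset.card_pos]; omega
      rw [Finset.card_erase_of_mem (mx_mem hne)]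
      omega
    · have h1 := card_le_mx (hpos j)
      have h2 := mx_le_sum (S := S) hj
      omega

/-- sum of `mx` after a plain step -/
theorem sum_mx_stepS {S : ι → Finset ℕ} (hpos : ∀ i, ∀ s ∈ S i, 1 ≤ s) (old : Finset ι) :
    ∑ i ∈ old, mx (stepS S old i) + act S old ≤ ∑ i ∈ old, mx (S i) := by
  have h1 : ∑ i ∈ old, mx (stepS S old i) = ∑ i ∈ old, mx ((S i).erase (mx (S i))) := by
    apply Finset.sum_congr rfl
    intro i hi
    rw [stepS_mem hi]
  rw [h1]
  exact sum_mx_erase_le' hpos old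

theorem mx_stepS_le {S : ι → Finset ℕ} (hpos : ∀ i, ∀ s ∈ S i, 1 ≤ s) {old : Finset ι} {i : ι}
    (hi : i ∈ old) : mx (stepS S old i) ≤ mx (S i) - 1 := by
  rw [stepS_mem hi]
  exact mx_er_le (hpos i)

end Pool.Agent.Lib.MP_6b2d39_ag
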