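import Pool.Agent.Lib.MP_6b2d39_ag.Sparse

open Polynomial

namespace Pool.Agent.Lib.MP_6b2d39_ag

/-- number of elements of the remaining shape above the used element `c b` -/
def rhoS (S' : Finset ℕ) (c : ℕ → ℕ) (b : ℕ) : ℕ := (S'.filter (fun s => c b < s)).card

/-- number of used elements above the value `v` -/
def useS (κ : ℕ) (c : ℕ → ℕ) (v : ℕ) : ℕ := ((Finset.range κ).filter (fun b => v < c b)).card

/-- the weights of the rows -/
def eW (S' : Finset ℕ) (κ : ℕ) (c : ℕ → ℕ) (b : ℕ) : ℕ :=
  if b < κ then (κ + 1) * (κ - 1 - b + rhoS S' c b) + (1 + useS κ c (c b)) else 0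

/-- the threshold -/
def tW (S' : Finset ℕ) (κ : ℕ) (c : ℕ → ℕ) (a : ℕ) : ℕ :=
  (κ + 1) * (κ - 1 + colH S' a) + useS κ c a

/-- the rows below the threshold -/
def aW (S' : Finset ℕ) (κ : ℕ) (c : ℕ → ℕ) (a : ℕ) : Finset ℕ :=
  (Finset.range κ).filter (fun b => a < c b) ∪ Finset.Ico κ (κ + colH S' a)

theorem useS_le (κ : ℕ) (c : ℕ → ℕ) (v : ℕ) : useS κ c v ≤ κ := by
  unfold useS
  exact (Finset.card_filter_le _ _).trans (by simp)

theorem aW_card (S' : Finset ℕ) (κ : ℕ) (c : ℕ → ℕ) (a : ℕ) :
    (aW S' κ c a).card ≤ useS κ c a + colH S' a := by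
  unfold aW useS
  refine (Finset.card_union_le _ _).trans ?_
  simp

theorem mem_aW {S' : Finset ℕ} {κ : ℕ} {c : ℕ → ℕ} {a b : ℕ} :
    b ∈ aW S' κ c a ↔ (b < κ ∧ a < c b) ∨ (κ ≤ b ∧ b < κ + colH S' a) := by
  unfold aW
  simp

theorem theta_le {S' : Finset ℕ} {κ : ℕ} (hκ : 1 ≤ κ) {c : ℕ → ℕ} {a b : ℕ}
    (h : b ∈ aW S' κ c a) : (κ + 1) * b + eW S' κ c b ≤ tW S' κ c a := by
  rw [mem_aW] at h
  unfold eW tW
  rcases h with ⟨h1, h2⟩ | ⟨h1, h2⟩
  · rw [if_pos h1]
    have h3 : rhoS S' c b ≤ colH S' a := by
      unfold rhoS colH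
      apply Finset.card_le_card
      intro s hs
      rw [Finset.mem_filter] at hs ⊢
      exact ⟨hs.1, by omega⟩
    have h4 : 1 + useS κ c (c b) ≤ useS κ c a := by
      unfold useS
      have h5 : b ∉ (Finset.range κ).filter (fun b' => c b < c b') := by simp
      rw [add_comm, ← Finset.card_insert_of_notMem h5]
      apply Finset.card_le_card
      intro s hs
      rw [Finset.mem_insert, Finset.mem_filter] at hs
      rw [Finset.mem_filter, Finset.mem_range]
      rcases hs with rfl | ⟨hs1, hs2⟩
      · exact ⟨h1, h2⟩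
      · exact ⟨Finset.mem_range.1 hs1, by omega⟩
    obtain ⟨e, he⟩ : ∃ e, κ = b + 1 + e := ⟨κ - b - 1, by omega⟩
    have h6 : κ - 1 - b = e := by omega
    have h7 : κ - 1 = b + e := by omega
    rw [h6, h7]
    nlinarith [Nat.mul_le_mul_left (κ + 1) h3]
  · rw [if_neg (by omega)]
    have h3 : b ≤ κ - 1 + colH S' a := by omega
    have := Nat.mul_le_mul_left (κ + 1) h3
    omega

theorem lt_theta {S' : Finset ℕ} {κ : ℕ} (hκ : 1 ≤ κ) {c : ℕ → ℕ} {a b : ℕ}
    (h : b ∉ aW S' κ c a) : tW S' κ c a < (κ + 1) * b + eW S' κ c b := by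
  rw [mem_aW, not_or, not_and_or, not_and_or] at h
  obtain ⟨h1, h2⟩ := h
  unfold eW tW
  by_cases hb : b < κ
  · rw [if_pos hb]
    have h3 : c b ≤ a := by omega
    have h4 : colH S' a ≤ rhoS S' c b := by
      unfold rhoS colH
      apply Finset.card_le_card
      intro s hs
      rw [Finset.mem_filter] at hs ⊢
      exact ⟨hs.1, by omega⟩
    have h5 : useS κ c a ≤ useS κ c (c b) := by
      unfold useS
      apply Finset.card_le_card
      intro s hs
      rw [Finset.mem_filter] at hs ⊢
      exact ⟨hs.1, by omega⟩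
    obtain ⟨e, he⟩ : ∃ e, κ = b + 1 + e := ⟨κ - b - 1, by omega⟩
    have h6 : κ - 1 - b = e := by omega
    have h7 : κ - 1 = b + e := by omega
    rw [h6, h7]
    nlinarith [Nat.mul_le_mul_left (κ + 1) h4]
  · rw [if_neg hb]
    have h3 : κ - 1 + colH S' a + 1 ≤ b := by omega
    have h4 := Nat.mul_le_mul_left (κ + 1) h3
    have h5 := useS_le κ c a
    nlinarith

theorem colH_sdiff {S : Finset ℕ} {κ : ℕ} {c : ℕ → ℕ} (hcS : ∀ b < κ, c b ∈ S)
    (hinj : ∀ a < κ, ∀ b < κ, c a = c b → a = b) (a : ℕ) :
    colH S a = useS κ c a + colH (S \ (Finset.range κ).image c) a := by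
  have h1 : S.filter (fun s => a < s) = ((Finset.range κ).filter (fun b => a < c b)).image c ∪
      (S \ (Finset.range κ).image c).filter (fun s => a < s) := by
    ext s
    simp only [Finset.mem_union, Finset.mem_filter, Finset.mem_image, Finset.mem_range,
      Finset.mem_sdiff, not_exists, not_and]
    constructor
    · rintro ⟨h1, h2⟩
      by_cases h3 : ∃ b, b < κ ∧ c b = s
      · obtain ⟨b, hb, rfl⟩ := h3
        left
        exact ⟨b, ⟨hb, h2⟩, rfl⟩
      · right
        push Not at h3
        exact ⟨⟨h1, h3⟩, h2⟩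
    · rintro (⟨b, ⟨hb, h2⟩, rfl⟩ | ⟨⟨h1, _⟩, h2⟩)
      · exact ⟨hcS b hb, h2⟩
      · exact ⟨h1, h2⟩
  unfold colH useS
  rw [h1, Finset.card_union_of_disjoint, Finset.card_image_of_injOn]
  · intro x hx y hy hxy
    simp only [Finset.coe_filter, Finset.mem_range, Set.mem_ofPred_eq] at hx hy
    exact hinj x hx.1 y hy.1 hxy
  · rw [Finset.disjoint_left]
    intro s hs hs2
    simp only [Finset.mem_filter, Finset.mem_image, Finset.mem_range,
      Finset.mem_sdiff, not_exists, not_and] at hs hs2
    obtain ⟨b, ⟨hb, _⟩, rfl⟩ := hs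
    exact hs2.1.2 b hb rfl

variable {k : Type} [Field k] {ι : Type} [DecidableEq ι]

/-- The multi-step differential lemma: one free point `j` comes to the line and during `κ` steps
only its rows `c 0, c 1, …` are used. -/
theorem good_multi [CharZero k] {n κ : ℕ} (hκ : 1 ≤ κ) {S S' : ι → Finset ℕ} {old : Finset ι}
    {j : ι} (hj : j ∉ old) (c : ℕ → ℕ) (hcS : ∀ b < κ, c b ∈ S j)
    (hinj : ∀ a < κ, ∀ b < κ, c a = c b → a = b) (h : Good k n S' (insert j old))
    (h1 : ∀ i ∈ old, S' i = er^[κ] (S i))
    (h1' : S' j = S j \ (Finset.range κ).image c)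
    (h2 : ∀ i, i ∉ insert j old → S' i = S i)
    (h3 : ∀ b < κ, n + κ ≤ (∑ i ∈ old, mx (er^[b] (S i))) + c b + b) : Good k (n + κ) S old := by
  obtain ⟨K, _, φ, x, y, hx, hy0, hy1, H⟩ := h
  have : CharZero K := charZero_of_injective_ringHom φ.injective
  have hψinj : Function.Injective (algebraMap K[X] (FractionRing K[X])) :=
    IsFractionRing.injective _ _
  have hCinj : Function.Injective (C : K →+* K[X]) := C_injective
  set ψ : K[X] →+* FractionRing K[X] := algebraMap K[X] (FractionRing K[X]) with hψ
  let yy : ι → K[X] := fun i => if i = j then tt K ^ (κ + 1) else C (y i)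
  have hyj : yy j = tt K ^ (κ + 1) := by simp only [yy, if_true]
  have hyi : ∀ i, i ≠ j → yy i = C (y i) := by
    intro i hij
    simp only [yy, if_neg hij]
  refine ⟨FractionRing K[X], inferInstance, (ψ.comp C).comp φ,
    fun i => ψ (C (x i)), fun i => ψ (yy i), ?_, ?_, ?_, ?_⟩
  · intro a b hab
    exact hx (hCinj (hψinj hab))
  · intro i hi
    have hij : i ≠ j := fun e => hj (e ▸ hi)
    simp only [hyi i hij, hy0 i (Finset.mem_insert_of_mem hi), map_zero]
  · intro i hi h0
    have h1 : yy i = 0 := by
      apply hψinj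
      rw [map_zero]
      exact h0
    by_cases hij : i = j
    · rw [hij, hyj] at h1
      exact pow_ne_zero _ X_ne_zero h1
    · rw [hyi i hij] at h1
      refine hy1 i ?_ (hCinj (by rw [h1, map_zero]))
      rw [Finset.mem_insert, not_or]
      exact ⟨hij, hi⟩
  · intro f hf hc
    by_contra hne
    have ht0 : ψ (tt K) ≠ 0 := by
      intro h0
      exact X_ne_zero (hψinj (by rw [h0, map_zero]))
    let e : ℕ → ℕ := eW (S' j) κ c
    let ft : (FractionRing K[X])[X][X] := rW (fun b => (ψ (tt K) ^ e b)⁻¹) f
    have hft : ft ≠ 0 := by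
      intro h0
      apply hne
      ext a b
      have h4 : (ft.coeff a).coeff b = 0 := by rw [h0]; simp
      rw [coeff_rW] at h4
      rcases mul_eq_zero.1 h4 with h5 | h5
      · exact absurd h5 (inv_ne_zero (pow_ne_zero _ ht0))
      · rw [h5]; simp
    obtain ⟨c0, hc0, g, hg, hg0⟩ := exists_primitive (K := K) ft hft
    let F : K[X][X][X] := rW (fun b => tt K ^ e b) g
    have hF : F.map (mapRingHom ψ) = C (C c0) * f := by
      ext a b
      rw [coeff_map, coe_mapRingHom, coeff_map, coeff_rW, map_mul, map_pow, coeff_C_mul,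
        coeff_C_mul]
      have h4 : ψ ((g.coeff a).coeff b) = c0 * ((ψ (tt K) ^ e b)⁻¹ * (f.coeff a).coeff b) := by
        have h5 : ((g.map (mapRingHom ψ)).coeff a).coeff b = ψ ((g.coeff a).coeff b) := by
          rw [coeff_map, coe_mapRingHom, coeff_map]
        rw [← h5, hg, coeff_C_mul, coeff_C_mul, coeff_rW]
      rw [h4]
      have h6 := pow_ne_zero (e b) ht0
      field_simp
    have hFV : InV (n + κ) F := by
      apply InV.of_map hψinj
      rw [hF]
      exact hf.C_mul c0
    have hFC : ∀ i, Cond (S i) (C (x i)) (yy i) F := by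
      intro i
      apply Cond.of_map hψinj
      rw [hF]
      exact (hc i).C_mul c0
    have hgV : InV (n + κ) g := by
      intro a b hab
      have h4 := hFV a b hab
      rw [coeff_rW] at h4
      rcases mul_eq_zero.1 h4 with h5 | h5
      · exact absurd h5 (pow_ne_zero _ X_ne_zero)
      · exact h5
    -- Taylor coefficients
    have hTF : ∀ i a b, ((taylor (C (C (x i))) F).coeff a).coeff b =
        tt K ^ e b * ((taylor (C (C (x i))) g).coeff a).coeff b := by
      intro i a b
      exact taylor_rW _ _ _ _ _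
    set g0 : K[X][X] := g.map (mapRingHom (sp K)) with hg0def
    have hg0V : InV (n + κ) g0 := hgV.map (sp K)
    have hTg0 : ∀ i a b, ((taylor (C (x i)) g0).coeff a).coeff b =
        sp K (((taylor (C (C (x i))) g).coeff a).coeff b) := by
      intro i a b
      have h11 : taylor (C (x i)) g0 =
          (taylor (C (C (x i))) g).map (mapRingHom (sp K)) := by
        rw [map_taylor]; simp [hg0def]
      rw [h11, coeff_map, coe_mapRingHom, coeff_map]
    -- the points on the line
    have hold : ∀ i ∈ old, ∀ a b, b < colH (S i) a →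
        ((taylor (C (x i)) g0).coeff a).coeff b = 0 := by
      intro i hi a b hb
      have hij : i ≠ j := fun e => hj (e ▸ hi)
      have h4 := hFC i a
      rw [hyi i hij, hy0 i (Finset.mem_insert_of_mem hi), C_0, C_0, sub_zero, X_pow_dvd_iff] at h4
      have h5 := h4 b hb
      rw [hTF] at h5
      rw [hTg0]
      rcases mul_eq_zero.1 h5 with h6 | h6
      · exact absurd h6 (pow_ne_zero _ X_ne_zero)
      · rw [h6, map_zero]
    -- the new point
    have hnew : ∀ a b, b ∈ aW (S' j) κ c a → ((taylor (C (x j)) g0).coeff a).coeff b = 0 := by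
      intro a b hb
      rw [hTg0, sp_eq_zero_iff]
      set P : K[X][X] := (taylor (C (C (x j))) F).coeff a with hP
      have h4 : (X - C (tt K ^ (κ + 1))) ^ colH (S j) a ∣ P := by
        have := hFC j a
        rwa [hyj] at this
      set P2 : K[X][X] := P.comp (C (tt K ^ (κ + 1)) * X) with hP2
      have hP2c : ∀ b, P2.coeff b = tt K ^ ((κ + 1) * b + e b) *
          ((taylor (C (C (x j))) g).coeff a).coeff b := by
        intro b
        rw [hP2, comp_C_mul_X_coeff, hP, hTF, ← pow_mul, pow_add]
        ring
      have h5 : (X - C 1) ^ colH (S j) a ∣ P2 := by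
        obtain ⟨M, hM⟩ := h4
        rw [hP2, hM, mul_comp, pow_comp, sub_comp, X_comp, C_comp]
        have : (C (tt K ^ (κ + 1)) * X - C (tt K ^ (κ + 1)) : K[X][X]) =
            (X - C 1) * C (tt K ^ (κ + 1)) := by
          rw [C_1]; ring
        rw [this, mul_pow, mul_assoc]
        exact dvd_mul_right _ _
      have h6 : C (tt K) ^ (tW (S' j) κ c a + 1) ∣ P2 := by
        apply val_lift (colH (S j) a) (aW (S' j) κ c a) ?_ (fun b => (κ + 1) * b + e b) _ P2
        · intro b
          rw [hP2c]
          exact dvd_mul_right _ _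
        · intro b hb
          exact lt_theta hκ hb
        · exact h5
        · rw [colH_sdiff hcS hinj a, ← h1']
          exact aW_card _ _ _ _
      rw [← C_pow, C_dvd_iff_dvd_coeff] at h6
      have h7 := h6 b
      rw [hP2c] at h7
      have h8 : (κ + 1) * b + e b ≤ tW (S' j) κ c a := theta_le hκ hb
      obtain ⟨r, hr⟩ : ∃ r, tW (S' j) κ c a + 1 = ((κ + 1) * b + e b) + (r + 1) :=
        ⟨tW (S' j) κ c a - ((κ + 1) * b + e b), by omega⟩
      rw [hr, pow_add] at h7
      have h10 := (mul_dvd_mul_iff_left (pow_ne_zero _ X_ne_zero)).1 h7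
      exact (dvd_pow_self _ (Nat.succ_ne_zero r)).trans h10
    -- Claim A
    have hA : ∀ b, b < κ → row b g0 = 0 := by
      intro b hb
      have hT : (insert j old).sum (fun i => if i = j then c b else mx (er^[b] (S i))) =
          (∑ i ∈ old, mx (er^[b] (S i))) + c b := by
        rw [Finset.sum_insert hj, if_pos rfl, add_comm]
        congr 1
        apply Finset.sum_congr rfl
        intro i hi
        have hij : i ≠ j := by
          rintro rfl
          exact hj hi
        rw [if_neg hij]
      apply trace_zero (insert j old) x hx.injOn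
        (fun i => if i = j then c b else mx (er^[b] (S i)))
        (n := n + κ - b) (by rw [hT]; have := h3 b hb; omega)
      · intro a ha
        rw [coeff_row]
        exact hg0V a b (by omega)
      · intro i hi a ha
        rw [taylor_row]
        by_cases hij : i = j
        · simp only [if_pos hij] at ha
          rw [hij]
          apply hnew
          rw [mem_aW]
          left
          exact ⟨hb, ha⟩
        · simp only [if_neg hij] at ha
          have hiold : i ∈ old := by
            rcases Finset.mem_insert.1 hi with h8 | h8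
            · exact absurd h8 hij
            · exact h8
          apply hold i hiold
          have h9 := colH_pos ha
          rw [colH_er_iter] at h9
          omega
    have hA' : ∀ a b, b < κ → (g0.coeff a).coeff b = 0 := by
      intro a b hb
      rw [← coeff_row, hA b hb, coeff_zero]
    -- Claim B
    have hB : (C (X ^ κ) : K[X][X]) ∣ g0 := by
      rw [C_dvd_iff_dvd_coeff]
      intro a
      rw [X_pow_dvd_iff]
      intro b hb
      exact hA' a b hb
    obtain ⟨w, hw⟩ := hB
    have hwc : ∀ i a b, ((taylor (C (x i)) g0).coeff a).coeff (b + κ) =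
        ((taylor (C (x i)) w).coeff a).coeff b := by
      intro i a b
      rw [hw, taylor_mul, taylor_C, coeff_C_mul, coeff_X_pow_mul]
    have hw0 : w ≠ 0 := by
      rintro rfl
      rw [mul_zero] at hw
      exact hg0 hw
    apply hw0
    apply H w
    · intro a b hab
      have h4 := hg0V a (b + κ) (by omega)
      rw [hw, coeff_C_mul, coeff_X_pow_mul] at h4
      exact h4
    intro i
    by_cases hij : i = j
    · rw [hij, hy0 j (Finset.mem_insert_self _ _)]
      intro a
      rw [C_0, sub_zero, X_pow_dvd_iff]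
      intro b hb
      rw [← hwc]
      apply hnew
      rw [mem_aW]
      right
      omega
    · by_cases hiold : i ∈ old
      · rw [h1 i hiold, hy0 i (Finset.mem_insert_of_mem hiold)]
        intro a
        rw [C_0, sub_zero, X_pow_dvd_iff]
        intro b hb
        rw [← hwc]
        rw [colH_er_iter] at hb
        exact hold i hiold a _ (by omega)
      · have hi' : i ∉ insert j old := by
          rw [Finset.mem_insert, not_or]
          exact ⟨hij, hiold⟩
        rw [h2 i hi']
        have hFg : F.map (mapRingHom (sp K)) = g0 := by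
          ext a b
          rw [coeff_map, coe_mapRingHom, coeff_map, coeff_rW, map_mul, map_pow]
          have h5 : (g0.coeff a).coeff b = sp K ((g.coeff a).coeff b) := by
            rw [hg0def, coeff_map, coe_mapRingHom, coeff_map]
          rw [← h5]
          by_cases hb : b < κ
          · rw [hA' a b hb, mul_zero]
          · have : e b = 0 := by
              simp only [e, eW, if_neg hb]
            rw [this, pow_zero, one_mul]
        have h4 := (hFC i).map (sp K)
        rw [hFg] at h4
        have h5 : sp K (C (x i)) = x i := by simp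
        have h6 : sp K (yy i) = y i := by
          rw [hyi i hij]
          simp
        rw [h5, h6] at h4
        intro a
        have h7 := h4 a
        rw [hw, taylor_mul, taylor_C, coeff_C_mul] at h7
        refine IsCoprime.dvd_of_dvd_mul_left ?_ h7
        apply IsCoprime.pow
        have h8 : IsCoprime (X - C (y i)) (X - C (0 : K)) :=
          isCoprime_X_sub_C_of_isUnit_sub (by simpa using hy1 i hi')
        simpa using h8

end Pool.Agent.Lib.MP_6b2d39_ag
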