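import Pool.Agent.Lib.MP_6b2d39_ag.Moves

open Polynomial

namespace Pool.Agent.Lib.MP_6b2d39_ag

variable {k : Type} [Field k] {ι : Type} [DecidableEq ι] [Fintype ι]

/-- low rows: plain insertions only -/
theorem neg_low [Infinite k] : ∀ (m : ℕ) (S : ι → Finset ℕ) (old : Finset ι),
    (∀ i, i ∉ old → ∃ c, S i = Finset.Icc 1 c) → (∀ i, ∀ s ∈ S i, 1 ≤ s) →
    (∑ i ∈ old, mx (S i) ≤ m ∨
      (∑ i ∈ old, mx (S i) + 2 ≤ 2 * m ∧ ∀ i ∈ old, mx (S i) + 1 ≤ m)) →
    (m + 1).choose 2 + (m - 1).choose 2 ≤ ∑ i, tot (S i) → Good k m S old := by
  intro m
  induction m with
  | zero => intro S old _ _ _ _; exact good_zero S old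
  | succ m ih =>
    have key : ∀ (f : ℕ) (S : ι → Finset ℕ) (old : Finset ι), (oldᶜ).card ≤ f →
        (∀ i, i ∉ old → ∃ c, S i = Finset.Icc 1 c) → (∀ i, ∀ s ∈ S i, 1 ≤ s) →
        (∑ i ∈ old, mx (S i) ≤ m + 1 ∨
          (∑ i ∈ old, mx (S i) + 2 ≤ 2 * (m + 1) ∧ ∀ i ∈ old, mx (S i) + 1 ≤ m + 1)) →
        (m + 1 + 1).choose 2 + (m + 1 - 1).choose 2 ≤ ∑ i, tot (S i) →
        Good k (m + 1) S old := by
      intro f
      induction f with
      | zero =>
        intro S old hcard hfat hpos hF htot
        rcases Nat.lt_or_ge (∑ i ∈ old, mx (S i)) (m + 1) with h1 | h1
        · obtain ⟨j, hj, _⟩ := exists_free (n := m + 1) h1 (by omega)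
          have : j ∈ oldᶜ := Finset.mem_compl.2 hj
          have h2 := Finset.card_pos.2 ⟨j, this⟩
          omega
        · have hch := choose_two_succ m
          have hmass := sum_tot_stepS S old Finset.univ (Finset.subset_univ _)
          have hmx := sum_mx_stepS hpos old
          have hact : 1 ≤ act S old := act_pos (by omega)
          refine good_plain (S' := stepS S old) (ih _ old ?_ ?_ ?_ ?_) (fun i hi => stepS_mem hi)
            (fun i hi => stepS_not_mem hi) h1
          · intro i hi
            rw [stepS_not_mem hi]
            exact hfat i hi
          · exact fun i s hs => hpos i s (stepS_subset i hs)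
          · rcases Nat.lt_or_ge (m + 1) (∑ i ∈ old, mx (S i)) with h2 | h2
            · rcases hF with hF | ⟨hF, hF2⟩
              · omega
              · right
                have h3 : 2 ≤ act S old := by
                  by_contra hcon
                  have h4 := sum_mx_le' (S := S) (T := old) (L := m)
                    (fun i hi => by have := hF2 i hi; omega)
                  have h5 : act S old * m ≤ 1 * m := Nat.mul_le_mul_right _ (by omega)
                  omega
                refine ⟨by omega, ?_⟩
                intro i hi
                have h4 := mx_stepS_le hpos hi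
                have h5 := hF2 i hi
                have : 1 ≤ m := by omega
                omega
            · left; omega
          · rcases Nat.eq_zero_or_pos m with hm0 | hm0
            · subst hm0
              simp
            · obtain ⟨m', rfl⟩ : ∃ m', m = m' + 1 := ⟨m - 1, by omega⟩
              have h2 : ∑ i ∈ old, mx (S i) ≤ 2 * m' + 2 := by
                rcases hF with hF | ⟨hF, hF2⟩ <;> omega
              have h3 : m' + 1 + 1 - 1 = m' + 1 := rfl
              have h4 : m' + 1 - 1 = m' := rfl
              rw [h3] at htot
              rw [h4]
              have h5 : (m' + 1).choose 2 = m'.choose 2 + m' := by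
                rw [Nat.choose_succ_succ' m' 1, Nat.choose_one_right]; ring
              omega
      | succ f ihf =>
        intro S old hcard hfat hpos hF htot
        rcases Nat.lt_or_ge (∑ i ∈ old, mx (S i)) (m + 1) with h1 | h1
        · obtain ⟨j, hj, hjne⟩ := exists_free (n := m + 1) h1 (by omega)
          obtain ⟨c, hc⟩ := hfat j hj
          have hmxj : mx (S j) = c := by rw [hc, mx_Icc]
          have hcardI : (insert j old)ᶜ.card ≤ f := by
            rw [Finset.compl_insert, Finset.card_erase_of_mem (Finset.mem_compl.2 hj)]
            omega
          apply good_move hj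
          rcases Nat.lt_or_ge c (m + 1) with h2 | h2
          · apply ihf S (insert j old) hcardI
            · intro i hi
              exact hfat i (fun h' => hi (Finset.mem_insert_of_mem h'))
            · exact hpos
            · right
              rw [Finset.sum_insert hj, hmxj]
              refine ⟨by omega, ?_⟩
              intro i hi
              rcases Finset.mem_insert.1 hi with rfl | hi
              · omega
              · have := mx_le_sum (S := S) hi
                omega
            · exact htot
          · apply good_kill (m + 1) S (insert j old) j (Finset.mem_insert_self _ _) hpos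
            rw [hc]
            simpa using h2
        · -- same closing step
          have hch := choose_two_succ m
          have hmass := sum_tot_stepS S old Finset.univ (Finset.subset_univ _)
          have hmx := sum_mx_stepS hpos old
          have hact : 1 ≤ act S old := act_pos (by omega)
          refine good_plain (S' := stepS S old) (ih _ old ?_ ?_ ?_ ?_) (fun i hi => stepS_mem hi)
            (fun i hi => stepS_not_mem hi) h1
          · intro i hi
            rw [stepS_not_mem hi]
            exact hfat i hi
          · exact fun i s hs => hpos i s (stepS_subset i hs)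
          · rcases Nat.lt_or_ge (m + 1) (∑ i ∈ old, mx (S i)) with h2 | h2
            · rcases hF with hF | ⟨hF, hF2⟩
              · omega
              · right
                have h3 : 2 ≤ act S old := by
                  by_contra hcon
                  have h4 := sum_mx_le' (S := S) (T := old) (L := m)
                    (fun i hi => by have := hF2 i hi; omega)
                  have h5 : act S old * m ≤ 1 * m := Nat.mul_le_mul_right _ (by omega)
                  omega
                refine ⟨by omega, ?_⟩
                intro i hi
                have h4 := mx_stepS_le hpos hi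
                have h5 := hF2 i hi
                have : 1 ≤ m := by omega
                omega
            · left; omega
          · rcases Nat.eq_zero_or_pos m with hm0 | hm0
            · subst hm0
              simp
            · obtain ⟨m', rfl⟩ : ∃ m', m = m' + 1 := ⟨m - 1, by omega⟩
              have h2 : ∑ i ∈ old, mx (S i) ≤ 2 * m' + 2 := by
                rcases hF with hF | ⟨hF, hF2⟩ <;> omega
              have h3 : m' + 1 + 1 - 1 = m' + 1 := rfl
              have h4 : m' + 1 - 1 = m' := rfl
              rw [h3] at htot
              rw [h4]
              have h5 : (m' + 1).choose 2 = m'.choose 2 + m' := by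
                rw [Nat.choose_succ_succ' m' 1, Nat.choose_one_right]; ring
              omega
    intro S old hfat hpos hF htot
    exact key _ S old le_rfl hfat hpos hF htot

/-- high rows -/
theorem neg_high [CharZero k] (μ : ℕ) : ∀ (n : ℕ), μ + 1 ≤ n → n + 1 ≤ 2 * μ →
    ∀ (S : ι → Finset ℕ) (old : Finset ι),
    (∀ i, i ∉ old → ∃ c, S i = Finset.Icc 1 c) → (∀ i, ∀ s ∈ S i, 1 ≤ s) →
    (∀ i, mx (S i) ≤ μ) →
    (∑ i ∈ old, mx (S i) ≤ n ∨ act S old ≤ 2 ∨ (n = μ + 1 ∧ ∑ i ∈ old, mx (S i) ≤ 2 * μ)) →
    (n + 1).choose 2 + μ.choose 2 + (μ - 1).choose 2 ≤ ∑ i, tot (S i) + (2 * μ - n).choose 2 →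
    Good k n S old := by
  intro n
  induction n using Nat.strong_induction_on with
  | _ n ih =>
  intro hn1 hn2
  have hact2 : ∀ (S : ι → Finset ℕ) (old : Finset ι), (∀ i, mx (S i) ≤ μ) → act S old ≤ 2 →
      ∑ i ∈ old, mx (S i) ≤ 2 * μ := by
    intro S old h1 h2
    have h3 := sum_mx_le' (S := S) (T := old) (fun i _ => h1 i)
    have h4 : act S old * μ ≤ 2 * μ := Nat.mul_le_mul_right _ h2
    omega
  rcases Nat.lt_or_ge (μ + 1) n with hn3 | hn3
  swap
  · -- n = μ + 1
    have hn : n = μ + 1 := by omega
    subst hn
    intro S old hfat hpos hμ hF htot
    apply neg_low (μ + 1) S old hfat hpos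
    · have h2 : ∑ i ∈ old, mx (S i) ≤ 2 * μ := by
        rcases hF with hF | hF | hF
        · omega
        · exact hact2 S old hμ hF
        · exact hF.2
      right
      refine ⟨by omega, fun i _ => by have := hμ i; omega⟩
    · have h1 : 2 * μ - (μ + 1) = μ - 1 := by omega
      rw [h1] at htot
      have h2 : μ + 1 - 1 = μ := rfl
      rw [h2]
      omega
  · have key : ∀ (f : ℕ) (S : ι → Finset ℕ) (old : Finset ι), (oldᶜ).card ≤ f →
        (∀ i, i ∉ old → ∃ c, S i = Finset.Icc 1 c) → (∀ i, ∀ s ∈ S i, 1 ≤ s) →
        (∀ i, mx (S i) ≤ μ) →
        (∑ i ∈ old, mx (S i) ≤ n ∨ act S old ≤ 2) →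
        (n + 1).choose 2 + μ.choose 2 + (μ - 1).choose 2 ≤
          ∑ i, tot (S i) + (2 * μ - n).choose 2 →
        Good k n S old := by
      intro f
      induction f with
      | zero =>
        intro S old hcard hfat hpos hμ hF htot
        rcases Nat.lt_or_ge (∑ i ∈ old, mx (S i)) n with h1 | h1
        · have h3 : (2 * μ - n).choose 2 ≤ (μ - 1).choose 2 :=
            Nat.choose_le_choose 2 (by omega)
          obtain ⟨j, hj, _⟩ := exists_free (n := n) h1 (by omega)
          have : j ∈ oldᶜ := Finset.mem_compl.2 hj
          have h2 := Finset.card_pos.2 ⟨j, this⟩
          omega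
        · obtain ⟨n', rfl⟩ : ∃ n', n = n' + 1 := ⟨n - 1, by omega⟩
          have hch := choose_two_succ n'
          have hmass := sum_tot_stepS S old Finset.univ (Finset.subset_univ _)
          have hmx := sum_mx_stepS hpos old
          have hact : 1 ≤ act S old := act_pos (by omega)
          have hactS : act (stepS S old) old ≤ act S old :=
            act_mono (fun i _ => stepS_subset i)
          refine good_plain (S' := stepS S old)
            (ih n' (by omega) (by omega) (by omega) _ old ?_ ?_ ?_ ?_ ?_)
            (fun i hi => stepS_mem hi) (fun i hi => stepS_not_mem hi) h1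
          · intro i hi
            rw [stepS_not_mem hi]
            exact hfat i hi
          · exact fun i s hs => hpos i s (stepS_subset i hs)
          · exact fun i => (mx_mono (stepS_subset i)).trans (hμ i)
          · rcases Nat.lt_or_ge (n' + 1) (∑ i ∈ old, mx (S i)) with h2 | h2
            · right; left; omega
            · left; omega
          · obtain ⟨t, ht⟩ : ∃ t, 2 * μ - (n' + 1) = t := ⟨_, rfl⟩
            have h5 : 2 * μ - n' = t + 1 := by omega
            have h6 : (t + 1).choose 2 = t.choose 2 + t := by
              rw [Nat.choose_succ_succ' t 1, Nat.choose_one_right]; ring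
            rw [ht] at htot
            rw [h5, h6]
            have h7 : ∑ i ∈ old, mx (S i) ≤ n' + 1 + t := by
              rcases hF with hF | hF
              · omega
              · have := hact2 S old hμ hF
                omega
            omega
      | succ f ihf =>
        intro S old hcard hfat hpos hμ hF htot
        rcases Nat.lt_or_ge (∑ i ∈ old, mx (S i)) n with h1 | h1
        · have h3 : (2 * μ - n).choose 2 ≤ (μ - 1).choose 2 :=
            Nat.choose_le_choose 2 (by omega)
          obtain ⟨j, hj, hjne⟩ := exists_free (n := n) h1 (by omega)
          obtain ⟨c, hc⟩ := hfat j hj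
          have hmxj : mx (S j) = c := by rw [hc, mx_Icc]
          have hcμ : c ≤ μ := by rw [← hmxj]; exact hμ j
          have hc1 : 1 ≤ c := by
            rcases Nat.eq_zero_or_pos c with h0 | h0
            · rw [hc, h0] at hjne
              simp at hjne
            · exact h0
          have hcardI : (insert j old)ᶜ.card ≤ f := by
            rw [Finset.compl_insert, Finset.card_erase_of_mem (Finset.mem_compl.2 hj)]
            omega
          have hfatI : ∀ i, i ∉ insert j old → ∃ c, S i = Finset.Icc 1 c :=
            fun i hi => hfat i (fun h' => hi (Finset.mem_insert_of_mem h'))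
          rcases Nat.lt_or_ge n (∑ i ∈ old, mx (S i) + c) with h2 | h2
          · rcases Nat.lt_or_ge (act S old) 2 with h4 | h4
            · apply good_move hj
              apply ihf S (insert j old) hcardI hfatI hpos hμ _ htot
              right
              have := act_insert_le (S := S) (T := old) (j := j)
              omega
            · -- growth
              let R : ℕ → ℕ := fun b => n - b - lineG S old b
              have hR0 : lineG S old 0 + 1 ≤ n := by rw [lineG_zero]; omega
              have hgrow := grow2 hpos hR0 (old := old)
              -- stopping time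
              have hex : ∃ b, c ≤ R b ∨ act (fun i => er^[b] (S i)) old < 2 ∨ n ≤ μ + 1 + b := by
                exact ⟨n, Or.inr (Or.inr (by omega))⟩
              obtain ⟨κ, hκ, hκmin⟩ : ∃ κ, (c ≤ R κ ∨ act (fun i => er^[κ] (S i)) old < 2 ∨
                  n ≤ μ + 1 + κ) ∧ ∀ b < κ, ¬ (c ≤ R b ∨ act (fun i => er^[b] (S i)) old < 2 ∨
                  n ≤ μ + 1 + b) :=
                ⟨Nat.find hex, Nat.find_spec hex, fun b hb => Nat.find_min hex hb⟩
              have hmin : ∀ b < κ, R b < c ∧ 2 ≤ act (fun i => er^[b] (S i)) old ∧
                  μ + 1 + b < n := by
                intro b hb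
                have := hκmin b hb
                push Not at this
                exact this
              have hκ1 : 1 ≤ κ := by
                rcases Nat.eq_zero_or_pos κ with h0 | h0
                · rw [h0] at hκ
                  have h5 : R 0 < c := by
                    simp only [R, lineG_zero]
                    omega
                  have h6 : act (fun i => er^[0] (S i)) old = act S old := rfl
                  rw [h6] at hκ
                  omega
                · exact h0
              have hκn : μ + 1 + κ ≤ n := by
                have := (hmin (κ - 1) (by omega)).2.2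
                omega
              have hg : ∀ b ≤ κ, b + 1 ≤ R b ∧ lineG S old b + R b + b = n ∧
                  ∀ b' < b, R b' < R b := by
                intro b hb
                exact hgrow b (fun b' hb' => (hmin b' (by omega)).2.1)
              have hR : ∀ b < κ, 1 ≤ R b ∧ R b ≤ c := by
                intro b hb
                have h5 := (hg b (by omega)).1
                have h6 := (hmin b hb).1
                omega
              have hinj : ∀ a < κ, ∀ b < κ, R a = R b → a = b := by
                intro a ha b hb hab
                rcases Nat.lt_trichotomy a b with h9 | h9 | h9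
                · have := (hg b (by omega)).2.2 a h9
                  omega
                · exact h9
                · have := (hg a (by omega)).2.2 b h9
                  omega
              apply good_grow hj hc hκ1 (by omega) hR hinj
                (fun b hb => le_of_eq (hg b (by omega)).2.1.symm)
              have hmass := sum_tot_growS hj hc (by omega : κ ≤ n) hR hinj
                (fun b hb => (hg b (by omega)).2.1)
              have hself := mx_growS_self (old := old) hc hc1 (fun b hb => (hmin b hb).1)
              have hsumI : ∑ i ∈ insert j old, mx (growS S old j R κ i) = c + lineG S old κ := by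
                rw [Finset.sum_insert hj, hself]
                congr 1
                unfold lineG
                apply Finset.sum_congr rfl
                intro i hi
                rw [growS_old hj hi]
              have hgκ := hg κ le_rfl
              apply ih (n - κ) (by omega) (by omega) (by omega)
              · intro i hi
                rw [growS_off hi]
                exact hfatI i hi
              · exact fun i s hs => hpos i s (growS_subset i hs)
              · exact fun i => (mx_mono (growS_subset i)).trans (hμ i)
              · rcases hκ with h5 | h5 | h5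
                · left
                  rw [hsumI]
                  omega
                · right; left
                  refine act_insert_le.trans ?_
                  have h6 : act (growS S old j R κ) old = act (fun i => er^[κ] (S i)) old := by
                    unfold act
                    congr 1
                    apply Finset.filter_congr
                    intro i hi
                    rw [growS_old hj hi]
                  omega
                · right; right
                  refine ⟨by omega, ?_⟩
                  rw [hsumI]
                  omega
              · have h5 : (2 * μ - n).choose 2 ≤ (2 * μ - (n - κ)).choose 2 :=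
                  Nat.choose_le_choose 2 (by omega)
                omega
          · apply good_move hj
            apply ihf S (insert j old) hcardI hfatI hpos hμ _ htot
            left
            rw [Finset.sum_insert hj, hmxj]
            omega
        · obtain ⟨n', rfl⟩ : ∃ n', n = n' + 1 := ⟨n - 1, by omega⟩
          have hch := choose_two_succ n'
          have hmass := sum_tot_stepS S old Finset.univ (Finset.subset_univ _)
          have hmx := sum_mx_stepS hpos old
          have hact : 1 ≤ act S old := act_pos (by omega)
          have hactS : act (stepS S old) old ≤ act S old :=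
            act_mono (fun i _ => stepS_subset i)
          refine good_plain (S' := stepS S old)
            (ih n' (by omega) (by omega) (by omega) _ old ?_ ?_ ?_ ?_ ?_)
            (fun i hi => stepS_mem hi) (fun i hi => stepS_not_mem hi) h1
          · intro i hi
            rw [stepS_not_mem hi]
            exact hfat i hi
          · exact fun i s hs => hpos i s (stepS_subset i hs)
          · exact fun i => (mx_mono (stepS_subset i)).trans (hμ i)
          · rcases Nat.lt_or_ge (n' + 1) (∑ i ∈ old, mx (S i)) with h2 | h2
            · right; left; omega
            · left; omega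
          · obtain ⟨t, ht⟩ : ∃ t, 2 * μ - (n' + 1) = t := ⟨_, rfl⟩
            have h5 : 2 * μ - n' = t + 1 := by omega
            have h6 : (t + 1).choose 2 = t.choose 2 + t := by
              rw [Nat.choose_succ_succ' t 1, Nat.choose_one_right]; ring
            rw [ht] at htot
            rw [h5, h6]
            have h7 : ∑ i ∈ old, mx (S i) ≤ n' + 1 + t := by
              rcases hF with hF | hF
              · omega
              · have := hact2 S old hμ hF
                omega
            omega
    intro S old hfat hpos hμ hF htot
    refine key _ S old le_rfl hfat hpos hμ ?_ htot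
    rcases hF with hF | hF | hF
    · left; exact hF
    · right; exact hF
    · omega

/-- the base statement on the empty side -/
theorem neg_base [CharZero k] {E : Prop} {μ z : ℕ} (hμ1 : 1 ≤ μ) :
    ∀ n, n < 2 * μ → ∀ (S : ι → Finset ℕ) (old Z : Finset ι),
      St E μ ((μ - 1) ^ 2) z n S old Z → Good k n S old := by
  intro n hn S old Z h
  have hZ1 : ∀ i ∈ Z, mx (S i) = 1 := by
    intro i hi
    rw [h.one i hi]
    rfl
  let S2 : ι → Finset ℕ := fun i => if i ∉ old ∧ μ < mx (S i) then ∅ else S i
  have hS2 : ∀ i, S2 i ⊆ S i := by
    intro i
    simp only [S2]
    split_ifs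
    · exact Finset.empty_subset _
    · exact le_refl _
  have hold : ∀ i ∈ old, S2 i = S i := by
    intro i hi
    simp only [S2]
    rw [if_neg]
    exact fun h' => h'.1 hi
  apply good_weaken hS2
  have htot : (n + 1).choose 2 + (μ - 1) ^ 2 ≤ ∑ i, tot (S2 i) := by
    by_cases hex : ∃ g, g ∉ old ∧ μ < mx (S g)
    · obtain ⟨g, hg, hgmin⟩ := Finset.exists_min_image
        (Finset.univ.filter (fun g => g ∉ old ∧ μ < mx (S g))) (fun g => mx (S g)) (by
          obtain ⟨g, hg⟩ := hex
          exact ⟨g, by simpa using hg⟩)
      simp only [Finset.mem_filter, Finset.mem_univ, true_and] at hg hgmin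
      have hgZ : g ∉ Z := by
        intro h'
        have := hZ1 g h'
        omega
      have h1 := h.sup2 g hg.1 hgZ hg.2 (by omega)
      refine h1.trans ?_
      have hd1 : Disjoint old (freeLt S old Z (mx (S g))) := by
        rw [Finset.disjoint_left]
        intro i hi hi2
        rw [mem_freeLt] at hi2
        exact hi2.1 hi
      rw [← Finset.sum_union hd1]
      have h2 : ∑ i ∈ old ∪ freeLt S old Z (mx (S g)), tot (S i) =
          ∑ i ∈ old ∪ freeLt S old Z (mx (S g)), tot (S2 i) := by
        apply Finset.sum_congr rfl
        intro i hi
        rcases Finset.mem_union.1 hi with hi | hi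
        · rw [hold i hi]
        · rw [mem_freeLt] at hi
          simp only [S2]
          rw [if_neg]
          intro h'
          have := hgmin i h'
          omega
      rw [h2]
      exact Finset.sum_le_sum_of_subset (Finset.subset_univ _)
    · push Not at hex
      have h1 : ∀ i, S2 i = S i := by
        intro i
        simp only [S2]
        rw [if_neg]
        intro h'
        have := hex i h'.1
        omega
      have h2 := h.total
      simp only [h1]
      exact h2
  have hfat : ∀ i, i ∉ old → ∃ c, S2 i = Finset.Icc 1 c := by
    intro i hi
    simp only [S2]
    split_ifs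
    · exact ⟨0, by simp⟩
    · exact h.fat i hi
  have hpos : ∀ i, ∀ s ∈ S2 i, 1 ≤ s := fun i s hs => h.pos i s (hS2 i hs)
  have hμ : ∀ i, mx (S2 i) ≤ μ := by
    intro i
    by_cases hi : i ∈ old
    · rw [hold i hi]
      have := h.big i hi
      omega
    · simp only [S2]
      split_ifs with h1
      · rw [mx_empty]; omega
      · have : ¬ μ < mx (S i) := fun h2 => h1 ⟨hi, h2⟩
        omega
  have hroom : ∑ i ∈ old, mx (S2 i) ≤ n := by
    have h1 : ∑ i ∈ old, mx (S2 i) = ∑ i ∈ old, mx (S i) := by
      apply Finset.sum_congr rfl
      intro i hi
      rw [hold i hi]
    rw [h1]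
    exact h.room
  obtain ⟨ν, rfl⟩ : ∃ ν, μ = ν + 1 := ⟨μ - 1, by omega⟩
  have h1 := two_mul_choose_two ν
  have h3 : ν + 1 - 1 = ν := rfl
  rw [h3] at htot
  rcases Nat.lt_or_ge n (ν + 2) with hn2 | hn2
  · apply neg_low n S2 old hfat hpos (Or.inl hroom)
    have h2 : (n - 1).choose 2 ≤ ν.choose 2 ∨ n - 1 ≤ ν := Or.inr (by omega)
    have h2' : (n - 1).choose 2 ≤ ν.choose 2 := Nat.choose_le_choose 2 (by omega)
    have h4 : ν.choose 2 ≤ ν ^ 2 := by
      have h5 : (ν + 1).choose 2 = ν.choose 2 + ν := by
        rw [Nat.choose_succ_succ' ν 1, Nat.choose_one_right]; ring
      nlinarith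
    omega
  · apply neg_high (ν + 1) n hn2 (by omega) S2 old hfat hpos hμ (Or.inl hroom)
    have h5 : (ν + 1).choose 2 = ν.choose 2 + ν := by
      rw [Nat.choose_succ_succ' ν 1, Nat.choose_one_right]; ring
    have h6 : ν ^ 2 = (ν + 1).choose 2 + ν.choose 2 := by nlinarith
    rw [h3]
    omega

end Pool.Agent.Lib.MP_6b2d39_ag
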