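import Pool.Agent.Lib.MP_6b2d39_ag.High
import Pool.Agent.Lib.MP_6b2d39_ag.Window

open Polynomial

namespace Pool.Agent.Lib.MP_6b2d39_ag

variable {k : Type} [Field k] {ι : Type} [DecidableEq ι] [Fintype ι]

/-- the base statement on the empty side -/
theorem neg_base_sharp [CharZero k] {E : Prop} {μ z : ℕ} (hμ1 : 1 ≤ μ) :
    ∀ n, n < 2 * μ → ∀ (S : ι → Finset ℕ) (old Z : Finset ι),
      St E μ (μ.choose 2) z n S old Z → Good k n S old := by
  intro n hn S old Z h
  have hZ1 : ∀ i ∈ Z, mx (S i) = 1 := by
    intro i hi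
    rw [h.one i hi]
    rfl
  let S2 : ι → Finset ℕ := fun i => if i ∉ old ∧ μ < mx (S i) then ∅ else S i
  have hS2 : ∀ i, S2 i ⊆ S i := by
    intro i
    simp only [S2]
    split_ifs
    · exact Finset.empty_subset _
    · exact le_refl _
  have hold : ∀ i ∈ old, S2 i = S i := by
    intro i hi
    simp only [S2]
    rw [if_neg]
    exact fun h' => h'.1 hi
  apply good_weaken hS2
  have htot : (n + 1).choose 2 + μ.choose 2 ≤ ∑ i, tot (S2 i) := by
    by_cases hex : ∃ g, g ∉ old ∧ μ < mx (S g)
    · obtain ⟨g, hg, hgmin⟩ := Finset.exists_min_image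
        (Finset.univ.filter (fun g => g ∉ old ∧ μ < mx (S g))) (fun g => mx (S g)) (by
          obtain ⟨g, hg⟩ := hex
          exact ⟨g, by simpa using hg⟩)
      simp only [Finset.mem_filter, Finset.mem_univ, true_and] at hg hgmin
      have hgZ : g ∉ Z := by
        intro h'
        have := hZ1 g h'
        omega
      have h1 := h.sup2 g hg.1 hgZ hg.2 (by omega)
      refine h1.trans ?_
      have hd1 : Disjoint old (freeLt S old Z (mx (S g))) := by
        rw [Finset.disjoint_left]
        intro i hi hi2
        rw [mem_freeLt] at hi2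
        exact hi2.1 hi
      rw [← Finset.sum_union hd1]
      have h2 : ∑ i ∈ old ∪ freeLt S old Z (mx (S g)), tot (S i) =
          ∑ i ∈ old ∪ freeLt S old Z (mx (S g)), tot (S2 i) := by
        apply Finset.sum_congr rfl
        intro i hi
        rcases Finset.mem_union.1 hi with hi | hi
        · rw [hold i hi]
        · rw [mem_freeLt] at hi
          simp only [S2]
          rw [if_neg]
          intro h'
          have := hgmin i h'
          omega
      rw [h2]
      exact Finset.sum_le_sum_of_subset (Finset.subset_univ _)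
    · push Not at hex
      have h1 : ∀ i, S2 i = S i := by
        intro i
        simp only [S2]
        rw [if_neg]
        intro h'
        have := hex i h'.1
        omega
      have h2 := h.total
      simp only [h1]
      exact h2
  have hfat : ∀ i, i ∉ old → ∃ c, S2 i = Finset.Icc 1 c := by
    intro i hi
    simp only [S2]
    split_ifs
    · exact ⟨0, by simp⟩
    · exact h.fat i hi
  have hpos : ∀ i, ∀ s ∈ S2 i, 1 ≤ s := fun i s hs => h.pos i s (hS2 i hs)
  have hμ : ∀ i, mx (S2 i) ≤ μ := by
    intro i
    by_cases hi : i ∈ old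
    · rw [hold i hi]
      have := h.big i hi
      omega
    · simp only [S2]
      split_ifs with h1
      · rw [mx_empty]; omega
      · have : ¬ μ < mx (S i) := fun h2 => h1 ⟨hi, h2⟩
        omega
  have hroom : ∑ i ∈ old, mx (S2 i) ≤ n := by
    have h1 : ∑ i ∈ old, mx (S2 i) = ∑ i ∈ old, mx (S i) := by
      apply Finset.sum_congr rfl
      intro i hi
      rw [hold i hi]
    rw [h1]
    exact h.room
  rcases Nat.lt_or_ge n (μ + 1) with hn2 | hn2
  · apply (low n).2 S2 old hfat hpos hroom
    have h2 : (n - 1).choose 2 ≤ μ.choose 2 := Nat.choose_le_choose 2 (by omega)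
    omega
  · exact H0 n hn2 S2 old hfat hpos hμ hroom htot

/-- sharp statement on the empty side, with `u` additional simple points -/
theorem good_empty_sharp {k : Type} [Field k] [CharZero k] {h : ℕ} (d μ : ℕ) (hμ : 1 ≤ μ)
    (m : Fin h → ℕ)
    (hsup : ∀ i, μ < m i →
      (2 * m i).choose 2 + μ.choose 2 ≤ ∑ j with m j < m i, (m j + 1).choose 2) (u : ℕ)
    (hu : (d + 2).choose 2 + μ.choose 2 ≤ ∑ i, (m i + 1).choose 2 + u) :
    Good k (d + 1) (shapes m u) ∅ := by
  have h0 : (d + 1 + 1).choose 2 = (d + 2).choose 2 := rfl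
  have h1 := initial (E := False) (w := μ.choose 2) (z := 0) (u := u) (N := d + 1) hμ m
    hsup (by omega) (fun h => h.elim) (Nat.zero_le _)
  exact proc (fun n hn S old Z hS => neg_base_sharp hμ n hn S old Z hS) _ _ _ _ h1

end Pool.Agent.Lib.MP_6b2d39_ag
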