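import Pool.Agent.Lib.MP_6b2d39_ag.Wide

open Polynomial

namespace Pool.Agent.Lib.MP_6b2d39_ag

variable {k : Type} [Field k] [Infinite k] {ι : Type} [DecidableEq ι] [Fintype ι]

theorem mem_freeLt {S : ι → Finset ℕ} {old Z : Finset ι} {s : ℕ} {j : ι} :
    j ∈ freeLt S old Z s ↔ j ∉ old ∧ j ∉ Z ∧ mx (S j) < s := by
  unfold freeLt
  simp

/-- closing a full row by a plain step -/
theorem Inv.close {μ w z n : ℕ} {S : ι → Finset ℕ} {old Z : Finset ι}
    (h : Inv μ w z (n + 1) S old Z) (hF : ∑ i ∈ old, mx (S i) = n + 1) :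
    Inv μ w z n (stepS S old) old Z := by
  have hoff : ∀ j, j ∉ old → stepS S old j = S j := fun j hj => stepS_not_mem hj
  have hfree : ∀ s, freeLt (stepS S old) old Z s = freeLt S old Z s := by
    intro s
    ext j
    rw [mem_freeLt, mem_freeLt]
    constructor
    · rintro ⟨h1, h2, h3⟩
      rw [hoff j h1] at h3
      exact ⟨h1, h2, h3⟩
    · rintro ⟨h1, h2, h3⟩
      refine ⟨h1, h2, ?_⟩
      rw [hoff j h1]
      exact h3
  have hsumfree : ∀ s, ∑ j ∈ freeLt S old Z s, tot (stepS S old j) =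
      ∑ j ∈ freeLt S old Z s, tot (S j) := by
    intro s
    apply Finset.sum_congr rfl
    intro j hj
    rw [mem_freeLt] at hj
    rw [hoff j hj.1]
  have hch := choose_two_succ n
  have hto := sum_tot_stepS S old old (le_refl _)
  have hactp : 1 ≤ act S old := act_pos (by omega)
  refine ⟨h.disj, ?_, ?_, ?_, ?_, ?_, ?_, ?_, ?_, ?_⟩
  · intro i hi
    rw [hoff i (fun h' => (Finset.disjoint_left.1 h.disj h') hi)]
    exact h.one i hi
  · intro i hi
    rw [hoff i hi]
    exact h.fat i hi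
  · intro i s hs
    exact h.pos i s (stepS_subset i hs)
  · intro i hi
    rw [stepS_mem hi]
    have h1 := h.slope i hi
    obtain ⟨B, hB⟩ := exists_pos_bound S h.pos
    rcases (S i).eq_empty_or_nonempty with h2 | h2
    · rw [h2]
      simp [mx]
    · have h3 := mx_erase_lt (hB i) h2
      obtain ⟨e, he⟩ : ∃ e, mx (S i) = mx ((S i).erase (mx (S i))) + 1 + e :=
        ⟨mx (S i) - mx ((S i).erase (mx (S i))) - 1, by omega⟩
      obtain ⟨q, hq⟩ : ∃ q, q = mx ((S i).erase (mx (S i))) := ⟨_, rfl⟩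
      rw [he, ← hq] at h1
      rw [← hq]
      nlinarith [Nat.zero_le (q * e)]
  · have h1 : ∑ i ∈ old, mx (stepS S old i) =
        ∑ i ∈ old, mx ((S i).erase (mx (S i))) := by
      apply Finset.sum_congr rfl
      intro i hi
      rw [stepS_mem hi]
    have h3 := sum_mx_erase_le' h.pos old
    omega
  · have h1 := sum_tot_stepS S old Finset.univ (Finset.subset_univ _)
    have h2 := h.total
    omega
  · rintro ⟨j, hj1, hj2, hj3⟩
    rw [hoff j hj1] at hj3
    exact h.res ⟨j, hj1, hj2, hj3⟩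
  · intro i hi1 hi2 hi3 hi4
    rw [hoff i hi1] at hi3 hi4 ⊢
    rw [hfree, hsumfree]
    exact h.sup1 i hi1 hi2 hi3 (by omega)
  · intro i hi1 hi2 hi3 hi4
    rw [hoff i hi1] at hi3 hi4 ⊢
    rw [hfree, hsumfree]
    rcases Nat.lt_or_ge (n + 1) (mx (S i) ^ 2) with h5 | h5
    · have h6 := h.sup2 i hi1 hi2 hi3 h5
      omega
    · have h6 := h.sup1 i hi1 hi2 hi3 h5
      have h7 : mx (S i) ^ 2 = n + 1 := by omega
      rw [h7] at h6
      omega

/-- moving an available point to the line -/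
theorem Inv.move {μ w z n : ℕ} {S : ι → Finset ℕ} {old Z : Finset ι}
    (h : Inv μ w z (n + 1) S old Z) {j : ι} (hj1 : j ∉ old) (hj2 : j ∉ Z)
    (hj3 : mx (S j) ^ 2 ≤ n + 1)
    (hmax : ∀ i, i ∉ old → i ∉ Z → mx (S i) ^ 2 ≤ n + 1 → mx (S i) ≤ mx (S j))
    (hroom : ∑ i ∈ old, mx (S i) + mx (S j) ≤ n + 1) :
    Inv μ w z (n + 1) S (insert j old) Z := by
  refine ⟨?_, h.one, ?_, h.pos, ?_, ?_, h.total, ?_, ?_, ?_⟩
  · rw [Finset.disjoint_insert_left]
    exact ⟨hj2, h.disj⟩
  · intro i hi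
    exact h.fat i (fun h' => hi (Finset.mem_insert_of_mem h'))
  · intro i hi
    rcases Finset.mem_insert.1 hi with rfl | hi
    · omega
    · exact h.slope i hi
  · rw [Finset.sum_insert hj1]
    omega
  · rintro ⟨i, hi1, hi2, hi3⟩
    exact h.res ⟨i, fun h' => hi1 (Finset.mem_insert_of_mem h'), hi2, hi3⟩
  · intro i hi1 hi2 hi3 hi4
    have hi1' : i ∉ old := fun h' => hi1 (Finset.mem_insert_of_mem h')
    have h5 := h.sup1 i hi1' hi2 hi3 hi4
    have h6 := hmax i hi1' hi2 hi4
    have h7 : freeLt S (insert j old) Z (mx (S i)) = freeLt S old Z (mx (S i)) := by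
      ext l
      rw [mem_freeLt, mem_freeLt, Finset.mem_insert, not_or]
      constructor
      · rintro ⟨⟨_, h8⟩, h9, h10⟩
        exact ⟨h8, h9, h10⟩
      · rintro ⟨h8, h9, h10⟩
        refine ⟨⟨?_, h8⟩, h9, h10⟩
        rintro rfl
        omega
    rw [h7]
    exact h5
  · intro i hi1 hi2 hi3 hi4
    have hi1' : i ∉ old := fun h' => hi1 (Finset.mem_insert_of_mem h')
    have h5 := h.sup2 i hi1' hi2 hi3 hi4
    rw [Finset.sum_insert hj1]
    have h6 : ∑ l ∈ freeLt S old Z (mx (S i)), tot (S l) ≤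
        tot (S j) + ∑ l ∈ freeLt S (insert j old) Z (mx (S i)), tot (S l) := by
      have h7 : freeLt S old Z (mx (S i)) ⊆
          insert j (freeLt S (insert j old) Z (mx (S i))) := by
        intro l hl
        rw [Finset.mem_insert, mem_freeLt, Finset.mem_insert, not_or]
        rw [mem_freeLt] at hl
        by_cases hlj : l = j
        · left; exact hlj
        · right; exact ⟨⟨hlj, hl.1⟩, hl.2⟩
      refine (Finset.sum_le_sum_of_subset h7).trans ?_
      rw [Finset.sum_insert]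
      rw [mem_freeLt]
      intro h8
      exact h8.1 (Finset.mem_insert_self _ _)
    omega

end Pool.Agent.Lib.MP_6b2d39_ag
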