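import Pool.Agent.Lib.MP_6b2d39_ag.Multi
import Pool.Agent.Lib.MP_6b2d39_ag.WideStep

open Polynomial

namespace Pool.Agent.Lib.MP_6b2d39_ag

variable {k : Type} [Field k] {ι : Type} [DecidableEq ι] [Fintype ι]

/-- the states of the procedure -/
structure St (E : Prop) (μ w z N : ℕ) (S : ι → Finset ℕ) (old Z : Finset ι) : Prop where
  disj : Disjoint old Z
  one : ∀ i ∈ Z, S i = {1}
  fat : ∀ i, i ∉ old → ∃ m, S i = Finset.Icc 1 m
  pos : ∀ i, ∀ s ∈ S i, 1 ≤ s
  sep : 2 * μ ≤ N → ∀ i ∈ old, ∀ g, g ∉ old → g ∉ Z → 2 * mx (S g) ≤ N →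
    mx (S i) + mx (S g) ≤ N
  big : ∀ i ∈ old, mx (S i) ≤ μ ∨ mx (S i) + μ + 1 ≤ N
  room : ∑ i ∈ old, mx (S i) ≤ N
  total : (N + 1).choose 2 + w ≤ ∑ i, tot (S i)
  exact' : E → ∑ i, tot (S i) = (N + 1).choose 2 + w
  res : (∃ j, j ∉ old ∧ j ∉ Z ∧ (S j).Nonempty) → z ≤ Z.card
  sup1 : ∀ i, i ∉ old → i ∉ Z → μ < mx (S i) → 2 * mx (S i) ≤ N →
    (2 * mx (S i)).choose 2 + w ≤ ∑ j ∈ freeLt S old Z (mx (S i)), tot (S j)
  sup2 : ∀ i, i ∉ old → i ∉ Z → μ < mx (S i) → N < 2 * mx (S i) →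
    (N + 1).choose 2 + w ≤ ∑ j ∈ old, tot (S j) + ∑ j ∈ freeLt S old Z (mx (S i)), tot (S j)

omit [Fintype ι] in
theorem mx_le_sum {S : ι → Finset ℕ} {T : Finset ι} {i : ι} (hi : i ∈ T) :
    mx (S i) ≤ ∑ j ∈ T, mx (S j) :=
  Finset.single_le_sum (f := fun j => mx (S j)) (fun _ _ => Nat.zero_le _) hi

theorem St.adv {E : Prop} {μ w z N N' : ℕ} {S S' : ι → Finset ℕ} {old U Z : Finset ι}
    (h : St E μ w z N S old Z) (hN : N' ≤ N) (hU : old ⊆ U) (hoff : ∀ i, i ∉ U → S' i = S i)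
    (hsub : ∀ i, S' i ⊆ S i)
    (hsum : ∑ i ∈ U, tot (S' i) + (N + 1).choose 2 = ∑ i ∈ U, tot (S i) + (N' + 1).choose 2)
    (hnew : ∀ i ∈ U, i ∉ old → i ∉ Z ∧
      ∀ g, g ∉ U → g ∉ Z → 2 * mx (S g) ≤ N → mx (S g) ≤ mx (S i))
    (holddec : ∀ i ∈ old, mx (S' i) ≤ mx (S i) - (N - N'))
    (hsepnew : 2 * μ ≤ N' → ∀ i ∈ U, i ∉ old → ∀ g, g ∉ U → g ∉ Z → 2 * mx (S g) ≤ N' →
      mx (S' i) + mx (S g) ≤ N')
    (hbignew : ∀ i ∈ U, i ∉ old → mx (S' i) ≤ μ ∨ mx (S' i) + μ + 1 ≤ N')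
    (hroom : ∑ i ∈ U, mx (S' i) ≤ N') : St E μ w z N' S' U Z := by
  have hUZ : Disjoint U Z := by
    rw [Finset.disjoint_left]
    intro i hi hiZ
    by_cases hio : i ∈ old
    · exact (Finset.disjoint_left.1 h.disj hio) hiZ
    · exact (hnew i hi hio).1 hiZ
  have hfsub : ∀ s, freeLt S' U Z s ⊆ freeLt S old Z s := by
    intro s l hl
    rw [mem_freeLt] at hl ⊢
    rw [hoff l hl.1] at hl
    exact ⟨fun h' => hl.1 (hU h'), hl.2⟩
  have hfeq : ∀ s, (∀ i ∈ U, i ∉ old → s ≤ mx (S i)) → freeLt S' U Z s = freeLt S old Z s := by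
    intro s hs
    apply le_antisymm (hfsub s)
    intro l hl
    rw [mem_freeLt] at hl ⊢
    have hlU : l ∉ U := by
      intro h'
      have := hs l h' hl.1
      omega
    rw [hoff l hlU]
    exact ⟨hlU, hl.2⟩
  have hfs : ∀ s, ∑ l ∈ freeLt S' U Z s, tot (S' l) = ∑ l ∈ freeLt S' U Z s, tot (S l) := by
    intro s
    apply Finset.sum_congr rfl
    intro l hl
    rw [mem_freeLt] at hl
    rw [hoff l hl.1]
  refine ⟨hUZ, ?_, ?_, ?_, ?_, ?_, hroom, ?_, ?_, ?_, ?_, ?_⟩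
  · intro i hi
    rw [hoff i (Finset.disjoint_right.1 hUZ hi)]
    exact h.one i hi
  · intro i hi
    rw [hoff i hi]
    exact h.fat i (fun h' => hi (hU h'))
  · intro i s hs
    exact h.pos i s (hsub i hs)
  · intro hμ i hi g hg hgZ hg2
    rw [hoff g hg] at hg2 ⊢
    by_cases hio : i ∈ old
    · have h1 := h.sep (by omega) i hio g (fun h' => hg (hU h')) hgZ (by omega)
      have h2 := holddec i hio
      omega
    · exact hsepnew hμ i hi hio g hg hgZ hg2
  · intro i hi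
    by_cases hio : i ∈ old
    · have h1 := h.big i hio
      have h2 := holddec i hio
      omega
    · exact hbignew i hi hio
  · have h1 := h.total
    have h2 : ∑ i, tot (S' i) = ∑ i ∈ U, tot (S' i) + ∑ i ∈ Uᶜ, tot (S' i) :=
      (Finset.sum_add_sum_compl U _).symm
    have h3 : ∑ i, tot (S i) = ∑ i ∈ U, tot (S i) + ∑ i ∈ Uᶜ, tot (S i) :=
      (Finset.sum_add_sum_compl U _).symm
    have h4 : ∑ i ∈ Uᶜ, tot (S' i) = ∑ i ∈ Uᶜ, tot (S i) := by
      apply Finset.sum_congr rfl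
      intro i hi
      rw [hoff i (Finset.mem_compl.1 hi)]
    omega
  · intro hE
    have h1 := h.exact' hE
    have h2 : ∑ i, tot (S' i) = ∑ i ∈ U, tot (S' i) + ∑ i ∈ Uᶜ, tot (S' i) :=
      (Finset.sum_add_sum_compl U _).symm
    have h3 : ∑ i, tot (S i) = ∑ i ∈ U, tot (S i) + ∑ i ∈ Uᶜ, tot (S i) :=
      (Finset.sum_add_sum_compl U _).symm
    have h4 : ∑ i ∈ Uᶜ, tot (S' i) = ∑ i ∈ Uᶜ, tot (S i) := by
      apply Finset.sum_congr rfl
      intro i hi
      rw [hoff i (Finset.mem_compl.1 hi)]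
    omega
  · rintro ⟨j, hj1, hj2, hj3⟩
    rw [hoff j hj1] at hj3
    exact h.res ⟨j, fun h' => hj1 (hU h'), hj2, hj3⟩
  · intro g hg hgZ hg1 hg2
    rw [hoff g hg] at hg1 hg2 ⊢
    rw [hfs, hfeq]
    · exact h.sup1 g (fun h' => hg (hU h')) hgZ hg1 (by omega)
    · intro i hi hio
      exact (hnew i hi hio).2 g hg hgZ (by omega)
  · intro g hg hgZ hg1 hg2
    rw [hoff g hg] at hg1 hg2 ⊢
    rw [hfs]
    rcases Nat.lt_or_ge N (2 * mx (S g)) with h5 | h5
    · have h6 := h.sup2 g (fun h' => hg (hU h')) hgZ hg1 h5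
      have hd1 : Disjoint old (freeLt S old Z (mx (S g))) := by
        rw [Finset.disjoint_left]
        intro i hi hi2
        rw [mem_freeLt] at hi2
        exact hi2.1 hi
      have hd2 : Disjoint U (freeLt S' U Z (mx (S g))) := by
        rw [Finset.disjoint_left]
        intro i hi hi2
        rw [mem_freeLt] at hi2
        exact hi2.1 hi
      have h7 : ∑ l ∈ old ∪ freeLt S old Z (mx (S g)), tot (S l) ≤
          ∑ l ∈ U ∪ freeLt S' U Z (mx (S g)), tot (S l) := by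
        apply Finset.sum_le_sum_of_subset
        intro l hl
        rw [Finset.mem_union] at hl ⊢
        by_cases hlU : l ∈ U
        · left; exact hlU
        · right
          rcases hl with hl | hl
          · exact absurd (hU hl) hlU
          · rw [mem_freeLt] at hl ⊢
            rw [hoff l hlU]
            exact ⟨hlU, hl.2⟩
      rw [Finset.sum_union hd1, Finset.sum_union hd2] at h7
      omega
    · have h6 := h.sup1 g (fun h' => hg (hU h')) hgZ hg1 h5
      rw [hfeq]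
      · have h7 : (N' + 1).choose 2 ≤ (2 * mx (S g)).choose 2 :=
          Nat.choose_le_choose 2 (by omega)
        omega
      · intro i hi hio
        exact (hnew i hi hio).2 g hg hgZ h5

/-- abandoning the growing point -/
theorem St.drop {E : Prop} (hE : ¬ E) {μ w z N N' : ℕ} {S S' : ι → Finset ℕ} {old Z : Finset ι}
    (h : St E μ w z N S old Z) {j : ι} (hj1 : j ∉ old) (hj2 : j ∉ Z) (hjμ : μ < mx (S j))
    (hjN : 2 * mx (S j) ≤ N) (hN' : N' + 1 = 2 * mx (S j))
    (hoff : ∀ i, i ∉ insert j old → S' i = S i)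
    (hsub : ∀ i, S' i ⊆ S i) (hSj : S' j = ∅)
    (holddec : ∀ i ∈ old, mx (S' i) ≤ mx (S i) - (N - N'))
    (hroom : ∑ i ∈ old, mx (S' i) ≤ N') : St E μ w z N' S' (insert j old) Z := by
  have hUZ : Disjoint (insert j old) Z := by
    rw [Finset.disjoint_insert_left]
    exact ⟨hj2, h.disj⟩
  have hkey := h.sup1 j hj1 hj2 hjμ hjN
  rw [← hN'] at hkey
  have hf : ∀ s, mx (S j) ≤ s → freeLt S old Z (mx (S j)) ⊆ freeLt S' (insert j old) Z s := by
    intro s hs l hl
    rw [mem_freeLt] at hl ⊢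
    have hlU : l ∉ insert j old := by
      rw [Finset.mem_insert, not_or]
      refine ⟨?_, hl.1⟩
      rintro rfl
      omega
    rw [hoff l hlU]
    exact ⟨hlU, hl.2.1, by omega⟩
  have hfs : ∀ s, ∑ l ∈ freeLt S' (insert j old) Z s, tot (S' l) =
      ∑ l ∈ freeLt S' (insert j old) Z s, tot (S l) := by
    intro s
    apply Finset.sum_congr rfl
    intro l hl
    rw [mem_freeLt] at hl
    rw [hoff l hl.1]
  have hf2 : ∀ s, mx (S j) ≤ s → ∑ l ∈ freeLt S old Z (mx (S j)), tot (S l) ≤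
      ∑ l ∈ freeLt S' (insert j old) Z s, tot (S' l) := by
    intro s hs
    rw [hfs]
    exact Finset.sum_le_sum_of_subset (hf s hs)
  refine ⟨hUZ, ?_, ?_, ?_, ?_, ?_, ?_, ?_, fun h' => absurd h' hE, ?_, ?_, ?_⟩
  · intro i hi
    rw [hoff i (Finset.disjoint_right.1 hUZ hi)]
    exact h.one i hi
  · intro i hi
    rw [hoff i hi]
    exact h.fat i (fun h' => hi (Finset.mem_insert_of_mem h'))
  · intro i s hs
    exact h.pos i s (hsub i hs)
  · intro hμ i hi g hg hgZ hg2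
    rw [hoff g hg] at hg2 ⊢
    rcases Finset.mem_insert.1 hi with rfl | hio
    · rw [hSj, mx_empty]
      omega
    · have h1 := h.sep (by omega) i hio g (fun h' => hg (Finset.mem_insert_of_mem h')) hgZ
        (by omega)
      have h2 := holddec i hio
      omega
  · intro i hi
    rcases Finset.mem_insert.1 hi with rfl | hio
    · rw [hSj, mx_empty]
      omega
    · have h1 := h.big i hio
      have h2 := holddec i hio
      omega
  · rw [Finset.sum_insert hj1, hSj, mx_empty]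
    omega
  · have h1 := hf2 (mx (S j)) le_rfl
    have h2 : ∑ l ∈ freeLt S' (insert j old) Z (mx (S j)), tot (S' l) ≤ ∑ l, tot (S' l) :=
      Finset.sum_le_sum_of_subset (Finset.subset_univ _)
    omega
  · intro _
    apply h.res
    refine ⟨j, hj1, hj2, ?_⟩
    rw [Finset.nonempty_iff_ne_empty]
    intro h0
    rw [h0, mx_empty] at hjμ
    omega
  · intro g hg hgZ hg1 hg2
    rw [hoff g hg] at hg1 hg2 ⊢
    have h5 := h.sup1 g (fun h' => hg (Finset.mem_insert_of_mem h')) hgZ hg1 (by omega)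
    refine h5.trans ?_
    rw [hfs]
    apply Finset.sum_le_sum_of_subset
    intro l hl
    rw [mem_freeLt] at hl ⊢
    have hlU : l ∉ insert j old := by
      rw [Finset.mem_insert, not_or]
      refine ⟨?_, hl.1⟩
      rintro rfl
      omega
    rw [hoff l hlU]
    exact ⟨hlU, hl.2⟩
  · intro g hg hgZ hg1 hg2
    rw [hoff g hg] at hg1 hg2 ⊢
    have := hf2 (mx (S g)) (by omega)
    omega

/-- closing a row by simple points, when nothing else is left -/
theorem St.closeZ {E : Prop} {μ w z n : ℕ} {S : ι → Finset ℕ} {old Z : Finset ι}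
    (h : St E μ w z (n + 1) S old Z)
    (hno : ∀ i, i ∉ old → i ∉ Z → ¬ (S i).Nonempty)
    {Z1 : Finset ι} (hZ1 : Z1 ⊆ Z) (hF : ∑ i ∈ old, mx (S i) + Z1.card = n + 1) :
    St E μ w z n (stepS S (old ∪ Z1)) (old ∪ Z1) (Z \ Z1) := by
  have hmx1 : mx ({1} : Finset ℕ) = 1 := rfl
  have hd2 : Disjoint old Z1 := Finset.disjoint_of_subset_right hZ1 h.disj
  have hsumZ1 : ∑ i ∈ Z1, mx (S i) = Z1.card := by
    rw [Finset.sum_congr rfl (fun i hi => by rw [h.one i (hZ1 hi), hmx1])]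
    simp
  have hF2 : ∑ i ∈ old ∪ Z1, mx (S i) = n + 1 := by
    rw [Finset.sum_union hd2, hsumZ1]; omega
  have hno' : ∀ i, i ∉ old ∪ Z1 → i ∉ Z \ Z1 → S i = ∅ := by
    intro i hi1 hi2
    rw [Finset.mem_union, not_or] at hi1
    have hi3 : i ∉ Z := fun h' => hi2 (Finset.mem_sdiff.2 ⟨h', hi1.2⟩)
    exact Finset.not_nonempty_iff_eq_empty.1 (hno i hi1.1 hi3)
  have hch := choose_two_succ n
  have hroom : ∑ i ∈ old ∪ Z1, mx (stepS S (old ∪ Z1) i) ≤ n := by
    have h1 : ∑ i ∈ old ∪ Z1, mx (stepS S (old ∪ Z1) i) =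
        ∑ i ∈ old ∪ Z1, mx ((S i).erase (mx (S i))) := by
      apply Finset.sum_congr rfl
      intro i hi
      rw [stepS_mem hi]
    have h2 : 1 ≤ act S (old ∪ Z1) := act_pos (by omega)
    have h3 := sum_mx_erase_le' h.pos (old ∪ Z1)
    omega
  refine ⟨?_, ?_, ?_, ?_, ?_, ?_, hroom, ?_, ?_, ?_, ?_, ?_⟩
  · rw [Finset.disjoint_left]
    intro i hi hi2
    rw [Finset.mem_sdiff] at hi2
    rw [Finset.mem_union] at hi
    rcases hi with hi | hi
    · exact (Finset.disjoint_left.1 h.disj hi) hi2.1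
    · exact hi2.2 hi
  · intro i hi
    rw [Finset.mem_sdiff] at hi
    rw [stepS_not_mem, h.one i hi.1]
    rw [Finset.mem_union, not_or]
    exact ⟨fun h' => (Finset.disjoint_left.1 h.disj h') hi.1, hi.2⟩
  · intro i hi
    rw [stepS_not_mem hi]
    exact h.fat i (fun h' => hi (Finset.mem_union_left _ h'))
  · intro i s hs
    exact h.pos i s (stepS_subset i hs)
  · intro _ i hi g hg hgZ _
    have h5 : stepS S (old ∪ Z1) g = ∅ := by
      rw [stepS_not_mem hg]
      exact hno' g hg hgZ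
    rw [h5, mx_empty]
    have := mx_le_sum (S := stepS S (old ∪ Z1)) hi
    omega
  · intro i hi
    rw [stepS_mem hi]
    rcases Finset.mem_union.1 hi with hi | hi
    · have h1 := h.big i hi
      obtain ⟨B, hB⟩ := exists_pos_bound S h.pos
      rcases (S i).eq_empty_or_nonempty with h2 | h2
      · left
        rw [h2]
        simp [mx]
      · have h3 := mx_erase_lt (hB i) h2
        omega
    · left
      rw [h.one i (hZ1 hi), hmx1]
      have : mx (({1} : Finset ℕ).erase 1) = 0 := rfl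
      rw [this]
      omega
  · have h1 := sum_tot_stepS S (old ∪ Z1) Finset.univ (Finset.subset_univ _)
    have h2 := h.total
    omega
  · intro hE
    have h1 := sum_tot_stepS S (old ∪ Z1) Finset.univ (Finset.subset_univ _)
    have h2 := h.exact' hE
    omega
  · rintro ⟨j, hj1, hj2, hj3⟩
    rw [stepS_not_mem hj1, hno' j hj1 hj2] at hj3
    exact absurd hj3 Finset.not_nonempty_empty
  · intro i hi1 hi2 hi3 hi4
    rw [stepS_not_mem hi1, hno' i hi1 hi2, mx_empty] at hi3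
    omega
  · intro i hi1 hi2 hi3 hi4
    rw [stepS_not_mem hi1, hno' i hi1 hi2, mx_empty] at hi3
    omega

end Pool.Agent.Lib.MP_6b2d39_ag
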