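import Pool.Agent.Lib.MP_6b2d39_ag.Proc

open Polynomial

namespace Pool.Agent.Lib.MP_6b2d39_ag

theorem er_subset (S : Finset ℕ) : er S ⊆ S := Finset.erase_subset _ _

theorem er_iter_subset (b : ℕ) (S : Finset ℕ) : er^[b] S ⊆ S := by
  induction b generalizing S with
  | zero => exact le_refl _
  | succ b ih =>
    rw [Function.iterate_succ_apply]
    exact (ih _).trans (er_subset S)

theorem mx_er_le {S : Finset ℕ} (h : ∀ s ∈ S, 1 ≤ s) : mx (er S) ≤ mx S - 1 := by
  unfold er
  rcases S.eq_empty_or_nonempty with h1 | h1
  · rw [h1]
    simp [mx]
  · have h2 : S ⊆ Finset.Icc 1 (mx S) := by
      intro s hs
      rw [Finset.mem_Icc]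
      exact ⟨h s hs, le_mx hs⟩
    have := mx_erase_lt h2 h1
    omega

theorem mx_er_iter_le {S : Finset ℕ} (h : ∀ s ∈ S, 1 ≤ s) (b : ℕ) :
    mx (er^[b] S) ≤ mx S - b := by
  induction b with
  | zero => exact le_refl _
  | succ b ih =>
    rw [Function.iterate_succ_apply']
    have h1 : ∀ s ∈ er^[b] S, 1 ≤ s := fun s hs => h s (er_iter_subset b S hs)
    have := mx_er_le h1
    omega

theorem tot_er_iter (S : Finset ℕ) (b : ℕ) :
    tot (er^[b] S) + ∑ a ∈ Finset.range b, mx (er^[a] S) = tot S := by
  induction b with
  | zero => simp
  | succ b ih =>
    rw [Finset.sum_range_succ, Function.iterate_succ_apply']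
    have := tot_erase_mx (er^[b] S)
    unfold er at *
    omega

/-- triangular numbers -/
theorem tri_sum {N : ℕ} {g : ℕ → ℕ} : ∀ κ, κ ≤ N → (∀ b < κ, g b + b = N) →
    ∑ b ∈ Finset.range κ, g b + (N - κ + 1).choose 2 = (N + 1).choose 2 := by
  intro κ
  induction κ with
  | zero => intro _ _; simp
  | succ κ ih =>
    intro hκ hg
    have h1 := ih (by omega) (fun b hb => hg b (by omega))
    have h2 := hg κ (by omega)
    rw [Finset.sum_range_succ]
    obtain ⟨e, he⟩ : ∃ e, N = κ + 1 + e := ⟨N - κ - 1, by omega⟩
    have h3 : N - κ = e + 1 := by omega
    have h4 : N - (κ + 1) = e := by omega
    rw [h3] at h1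
    rw [h4]
    have h5 := choose_two_succ e
    omega

variable {k : Type} [Field k] {ι : Type} [DecidableEq ι] [Fintype ι]

/-- contribution of the points on the line in the `b`-th row -/
def lineG (S : ι → Finset ℕ) (old : Finset ι) (b : ℕ) : ℕ := ∑ i ∈ old, mx (er^[b] (S i))

omit [DecidableEq ι] [Fintype ι] in
theorem lineG_zero (S : ι → Finset ℕ) (old : Finset ι) :
    lineG S old 0 = ∑ i ∈ old, mx (S i) := rfl

theorem grow {S : ι → Finset ℕ} (hpos : ∀ i, ∀ s ∈ S i, 1 ≤ s) {old : Finset ι} {N m : ℕ}
    (hm : 2 * m ≤ N) (hsep : ∀ i ∈ old, mx (S i) + m ≤ N) (h0 : lineG S old 0 + 1 ≤ N) :
    ∀ b, (∀ b' < b, N - b' - lineG S old b' < m) →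
      b + 1 ≤ N - b - lineG S old b ∧ lineG S old b + (N - b - lineG S old b) + b = N ∧
      ∀ b' < b, N - b' - lineG S old b' < N - b - lineG S old b := by
  intro b
  induction b with
  | zero =>
    intro _
    refine ⟨by omega, by omega, ?_⟩
    intro b' hb'
    omega
  | succ b ih =>
    intro hb
    obtain ⟨h1, h2, h3⟩ := ih (fun b' hb' => hb b' (by omega))
    have h4 := hb b (by omega)
    have hpos' : ∀ i, ∀ s ∈ er^[b] (S i), 1 ≤ s := fun i s hs => hpos i s (er_iter_subset b _ hs)
    have h5 : lineG S old b ≤ act (fun i => er^[b] (S i)) old * (N - m - b) := by
      unfold lineG
      apply sum_mx_le'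
      intro i hi
      have h6 := mx_er_iter_le (hpos i) b
      have h7 := hsep i hi
      omega
    have h6 : 2 ≤ act (fun i => er^[b] (S i)) old := by
      by_contra hcon
      have h7 : act (fun i => er^[b] (S i)) old * (N - m - b) ≤ 1 * (N - m - b) :=
        Nat.mul_le_mul_right _ (by omega)
      omega
    have h7 := sum_mx_erase_le' hpos' old
    have h8 : ∑ i ∈ old, mx ((er^[b] (S i)).erase (mx (er^[b] (S i)))) = lineG S old (b + 1) := by
      unfold lineG
      apply Finset.sum_congr rfl
      intro i _
      rw [Function.iterate_succ_apply']
      rfl
    have h9 : ∑ i ∈ old, mx (er^[b] (S i)) = lineG S old b := rfl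
    rw [h8, h9] at h7
    refine ⟨by omega, by omega, ?_⟩
    intro b' hb'
    rcases Nat.lt_or_ge b' b with h10 | h10
    · have := h3 b' h10
      omega
    · have h11 : b' = b := by omega
      rw [h11]
      omega

/-- the shapes after growing the point `j` with the values `c` -/
def growS (S : ι → Finset ℕ) (old : Finset ι) (j : ι) (c : ℕ → ℕ) (κ : ℕ) : ι → Finset ℕ :=
  fun i => if i = j then S j \ (Finset.range κ).image c else
    if i ∈ old then er^[κ] (S i) else S i

omit [Fintype ι] in
theorem growS_subset {S : ι → Finset ℕ} {old : Finset ι} {j : ι} {c : ℕ → ℕ} {κ : ℕ} (i : ι) :
    growS S old j c κ i ⊆ S i := by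
  unfold growS
  split_ifs with h1 h2
  · rw [h1]
    exact Finset.sdiff_subset
  · exact er_iter_subset _ _
  · exact le_refl _

theorem tot_sdiff_image {S : Finset ℕ} {κ : ℕ} {c : ℕ → ℕ} (hcS : ∀ b < κ, c b ∈ S)
    (hinj : ∀ a < κ, ∀ b < κ, c a = c b → a = b) :
    tot (S \ (Finset.range κ).image c) + ∑ b ∈ Finset.range κ, c b = tot S := by
  have h1 : (Finset.range κ).image c ⊆ S := by
    intro s hs
    rw [Finset.mem_image] at hs
    obtain ⟨b, hb, rfl⟩ := hs
    exact hcS b (Finset.mem_range.1 hb)
  have h2 : ∑ s ∈ (Finset.range κ).image c, s = ∑ b ∈ Finset.range κ, c b := by
    apply Finset.sum_image
    intro a ha b hb hab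
    exact hinj a (Finset.mem_range.1 ha) b (Finset.mem_range.1 hb) hab
  unfold tot
  rw [← h2]
  exact Finset.sum_sdiff h1

/-- The procedure: every row is filled exactly as long as the degree is at least `2 μ`. -/
theorem proc [CharZero k] {E : Prop} {μ w z : ℕ}
    (hbase : ∀ n, n < 2 * μ → ∀ (S : ι → Finset ℕ) (old Z : Finset ι), St E μ w z n S old Z →
      Good k n S old) :
    ∀ n, ∀ (S : ι → Finset ℕ) (old Z : Finset ι), St E μ w z n S old Z → Good k n S old := by
  intro N
  induction N using Nat.strong_induction_on with
  | _ N ih =>
  rcases Nat.lt_or_ge N (2 * μ) with hNμ | hNμ
  · exact hbase N hNμ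
  rcases Nat.eq_zero_or_pos N with hN0 | hN0
  · intro S old Z _
    rw [hN0]
    exact good_zero S old
  -- inner induction on the number of free points
  have key : ∀ f : ℕ, ∀ (S : ι → Finset ℕ) (old Z : Finset ι), (oldᶜ).card ≤ f →
      St E μ w z N S old Z → Good k N S old := by
    intro f
    induction f with
    | zero =>
      intro S old Z hf h
      have huniv : old = Finset.univ := by
        rw [← Finset.compl_eq_empty_iff, ← Finset.card_eq_zero]
        omega
      obtain ⟨n, rfl⟩ : ∃ n, N = n + 1 := ⟨N - 1, by omega⟩
      have hF : ∑ i ∈ old, mx (S i) = n + 1 := by
        have h1 := h.room
        have h2 := h.total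
        have h3 := two_mul_sum_tot_le S old
        have h4 := two_mul_choose_two (n + 1)
        rw [← huniv] at h2
        by_contra hne
        have h5 : ∑ i ∈ old, mx (S i) ≤ n := by omega
        have h6 : (∑ i ∈ old, mx (S i)) * (∑ i ∈ old, mx (S i) + 1) ≤ n * (n + 1) :=
          Nat.mul_le_mul h5 (by omega)
        nlinarith
      refine good_plain (ih n (by omega) (stepS S old) old Z ?_) (fun i hi => stepS_mem hi)
        (fun i hi => stepS_not_mem hi) (le_of_eq hF.symm)
      have hto := sum_tot_stepS S old old (le_refl _)
      have hch := choose_two_succ n
      refine h.adv (by omega) (le_refl _) (fun i hi => stepS_not_mem hi)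
        (fun i => stepS_subset i) (by omega) (fun i hi hi2 => absurd hi hi2) ?_
        (fun _ i hi hi2 => absurd hi hi2) (fun i hi hi2 => absurd hi hi2) ?_
      · intro i hi
        rw [stepS_mem hi]
        have := mx_er_le (h.pos i)
        unfold er at this
        omega
      · have h1 : ∑ i ∈ old, mx (stepS S old i) = ∑ i ∈ old, mx ((S i).erase (mx (S i))) := by
          apply Finset.sum_congr rfl
          intro i hi
          rw [stepS_mem hi]
        have h2 : 1 ≤ act S old := act_pos (by omega)
        have h3 := sum_mx_erase_le' h.pos old
        omega
    | succ f ihf =>
      intro S old Z hf h
      have hroom := h.room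
      rcases Nat.lt_or_ge (∑ i ∈ old, mx (S i)) N with hlt | hge
      · -- there is room
        let A : Finset ι := Finset.univ.filter
          (fun j => j ∉ old ∧ j ∉ Z ∧ (S j).Nonempty ∧ 2 * mx (S j) ≤ N)
        rcases A.eq_empty_or_nonempty with hA | hA
        · -- nothing available
          obtain ⟨n, rfl⟩ : ∃ n, N = n + 1 := ⟨N - 1, by omega⟩
          have hA' : ∀ j, j ∉ old → j ∉ Z → (S j).Nonempty → n + 1 < 2 * mx (S j) := by
            intro j h1 h2 h3
            by_contra h4
            have : j ∈ A := by
              simp only [A, Finset.mem_filter, Finset.mem_univ, true_and]
              exact ⟨h1, h2, h3, by omega⟩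
            rw [hA] at this
            exact absurd this (Finset.notMem_empty _)
          have htwo := two_mul_sum_tot_le S old
          have hF : ∑ i ∈ old, mx (S i) ≤ n := by omega
          have h6 : (∑ i ∈ old, mx (S i)) * (∑ i ∈ old, mx (S i) + 1) ≤ n * (n + 1) :=
            Nat.mul_le_mul hF (by omega)
          have hchoose := two_mul_choose_two (n + 1)
          by_cases hex : ∃ j, j ∉ old ∧ j ∉ Z ∧ (S j).Nonempty
          · exfalso
            -- the smallest free point
            let Bs : Finset ι := Finset.univ.filter
              (fun j => j ∉ old ∧ j ∉ Z ∧ (S j).Nonempty)
            have hBne : Bs.Nonempty := by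
              obtain ⟨j, hj⟩ := hex
              exact ⟨j, by simp only [Bs, Finset.mem_filter, Finset.mem_univ, true_and]; exact hj⟩
            obtain ⟨i, hi, himin⟩ := Finset.exists_min_image Bs (fun j => mx (S j)) hBne
            simp only [Bs, Finset.mem_filter, Finset.mem_univ, true_and] at hi himin
            have h7 := hA' i hi.1 hi.2.1 hi.2.2
            have h9 := h.sup2 i hi.1 hi.2.1 (by omega) h7
            have h10 : ∑ j ∈ freeLt S old Z (mx (S i)), tot (S j) = 0 := by
              apply Finset.sum_eq_zero
              intro j hj
              rw [mem_freeLt] at hj
              have : ¬ (S j).Nonempty := by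
                intro h11
                have := himin j ⟨hj.1, hj.2.1, h11⟩
                omega
              rw [Finset.not_nonempty_iff_eq_empty.1 this, tot_empty]
            nlinarith
          · push Not at hex
            have hno : ∀ i, i ∉ old → i ∉ Z → ¬ (S i).Nonempty := by
              intro i h1 h2 h3
              exact absurd (hex i h1 h2) (Finset.nonempty_iff_ne_empty.1 h3)
            obtain ⟨c, hc⟩ : ∃ c, c = n + 1 - ∑ i ∈ old, mx (S i) := ⟨_, rfl⟩
            have hcZ : c ≤ Z.card := by
              have h1 : ∑ i, tot (S i) = ∑ i ∈ old, tot (S i) + Z.card := by
                have h2 : ∑ i ∈ old ∪ Z, tot (S i) = ∑ i, tot (S i) := by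
                  apply Finset.sum_subset (Finset.subset_univ _)
                  intro i _ hi
                  rw [Finset.mem_union, not_or] at hi
                  rw [Finset.not_nonempty_iff_eq_empty.1 (hno i hi.1 hi.2), tot_empty]
                rw [← h2, Finset.sum_union h.disj]
                congr 1
                have htot1 : tot ({1} : Finset ℕ) = 1 := rfl
                rw [Finset.sum_congr rfl (fun i hi => by rw [h.one i hi, htot1])]
                simp
              have h2 := h.total
              obtain ⟨F1, hF1e⟩ : ∃ F1, F1 = ∑ i ∈ old, mx (S i) := ⟨_, rfl⟩
              rw [← hF1e] at htwo hc hF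
              by_contra hcon
              have h4 : Z.card < c := by omega
              rw [h1] at h2
              have h5 : (n + 1) * (n + 2) ≤ F1 * (F1 + 1) + 2 * Z.card := by
                have h5' : (n + 1) * (n + 1 + 1) = (n + 1) * (n + 2) := rfl
                rw [← h5', ← hchoose]
                omega
              obtain ⟨c', rfl⟩ : ∃ c', c = c' + 1 := ⟨c - 1, by omega⟩
              have h7 : n = F1 + c' := by omega
              subst h7
              nlinarith
            obtain ⟨Z1, hZ1sub, hZ1card⟩ := Finset.exists_subset_card_eq hcZ
            have hFc : ∑ i ∈ old, mx (S i) + Z1.card = n + 1 := by omega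
            apply good_mono (old' := old ∪ Z1) Finset.subset_union_left
            apply good_plain (ih n (by omega) _ _ _ (h.closeZ hno hZ1sub hFc))
              (fun i hi => stepS_mem hi) (fun i hi => stepS_not_mem hi)
            rw [Finset.sum_union (Finset.disjoint_of_subset_right hZ1sub h.disj)]
            have hsumZ1 : ∑ i ∈ Z1, mx (S i) = Z1.card := by
              have hmx1 : mx ({1} : Finset ℕ) = 1 := rfl
              rw [Finset.sum_congr rfl (fun i hi => by rw [h.one i (hZ1sub hi), hmx1])]
              simp
            omega
        · -- the largest available point
          obtain ⟨j, hjA, hjmax⟩ := Finset.exists_max_image A (fun j => mx (S j)) hA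
          simp only [A, Finset.mem_filter, Finset.mem_univ, true_and] at hjA hjmax
          obtain ⟨hj1, hj2, hj3, hj4⟩ := hjA
          have hmax : ∀ i, i ∉ old → i ∉ Z → 2 * mx (S i) ≤ N → mx (S i) ≤ mx (S j) := by
            intro i h1 h2 h3
            rcases (S i).eq_empty_or_nonempty with h4 | h4
            · rw [h4, mx_empty]; omega
            · exact hjmax i ⟨h1, h2, h4, h3⟩
          obtain ⟨m, hm⟩ := h.fat j hj1
          have hmj : mx (S j) = m := by rw [hm, mx_Icc]
          rw [hmj] at hj4
          have hm1 : 1 ≤ m := by
            rcases Nat.eq_zero_or_pos m with h0 | h0
            · rw [hm, h0] at hj3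
              simp at hj3
            · exact h0
          rcases Nat.lt_or_ge N (∑ i ∈ old, mx (S i) + m) with h5 | h5
          · -- growth
            let c : ℕ → ℕ := fun b => N - b - lineG S old b
            have hsep : ∀ i ∈ old, mx (S i) + m ≤ N := by
              intro i hi
              have := h.sep hNμ i hi j hj1 hj2 (by omega)
              omega
            have hgrow := grow h.pos (m := m) hj4 hsep (old := old)
              (by rw [lineG_zero]; omega)
            have hex : ∃ b, m ≤ c b := by
              by_contra hcon
              push Not at hcon
              have h6 := (hgrow m (fun b' _ => hcon b')).1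
              have h7 := hcon m
              simp only [c] at h7
              omega
            obtain ⟨κ0, hκ0, hκ0min⟩ : ∃ κ0, m ≤ c κ0 ∧ ∀ b < κ0, c b < m := by
              refine ⟨Nat.find hex, Nat.find_spec hex, ?_⟩
              intro b hb
              exact not_le.1 (Nat.find_min hex hb)
            have hc0 : c 0 < m := by
              simp only [c, lineG_zero]
              omega
            have hκ0pos : 1 ≤ κ0 := by
              rcases Nat.eq_zero_or_pos κ0 with h6 | h6
              · rw [h6] at hκ0
                omega
              · exact h6
            -- general growth by `κ ≤ κ0` steps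
            have hgen : ∀ κ, 1 ≤ κ → κ ≤ κ0 → Good k (N - κ) (growS S old j c κ) (insert j old) →
                Good k N S old := by
              intro κ h6 h7 h8
              have hg := hgrow κ (fun b' hb' => hκ0min b' (by omega))
              have hN : N = (N - κ) + κ := by omega
              rw [hN]
              refine good_multi h6 hj1 c ?_ ?_ h8 ?_ ?_ ?_ ?_
              · intro b hb
                rw [hm, Finset.mem_Icc]
                have h9 := (hgrow b (fun b' hb' => hκ0min b' (by omega))).1
                have h10 := hκ0min b (by omega)
                simp only [c] at h10 ⊢
                omega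
              · intro a ha b hb hab
                rcases Nat.lt_trichotomy a b with h9 | h9 | h9
                · have := (hgrow b (fun b' hb' => hκ0min b' (by omega))).2.2 a h9
                  simp only [c] at hab
                  omega
                · exact h9
                · have := (hgrow a (fun b' hb' => hκ0min b' (by omega))).2.2 b h9
                  simp only [c] at hab
                  omega
              · intro i hi
                have hij : i ≠ j := fun e => hj1 (e ▸ hi)
                unfold growS
                rw [if_neg hij, if_pos hi]
              · unfold growS
                rw [if_pos rfl]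
              · intro i hi
                rw [Finset.mem_insert, not_or] at hi
                unfold growS
                rw [if_neg hi.1, if_neg hi.2]
              · intro b hb
                have h9 := (hgrow b (fun b' hb' => hκ0min b' (by omega))).2.1
                have h10 : ∑ i ∈ old, mx (er^[b] (S i)) = lineG S old b := rfl
                rw [h10]
                simp only [c]
                omega
            have hold : ∀ κ, ∀ i ∈ old, growS S old j c κ i = er^[κ] (S i) := by
              intro κ i hi
              have hij : i ≠ j := fun e => hj1 (e ▸ hi)
              unfold growS
              rw [if_neg hij, if_pos hi]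
            have hself : ∀ κ, growS S old j c κ j = S j \ (Finset.range κ).image c := by
              intro κ
              unfold growS
              rw [if_pos rfl]
            have hoff : ∀ κ, ∀ i, i ∉ insert j old → growS S old j c κ i = S i := by
              intro κ i hi
              rw [Finset.mem_insert, not_or] at hi
              unfold growS
              rw [if_neg hi.1, if_neg hi.2]
            have hroomG : ∀ κ ≤ κ0, ∑ i ∈ old, mx (growS S old j c κ i) = lineG S old κ ∧
                lineG S old κ + c κ + κ = N := by
              intro κ h7
              constructor
              · unfold lineG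
                apply Finset.sum_congr rfl
                intro i hi
                rw [hold κ i hi]
              · exact (hgrow κ (fun b' hb' => hκ0min b' (by omega))).2.1
            by_cases hdrop : μ < m ∧ N < 2 * m + κ0
            · -- abandon the point at degree `2 m - 1`
              obtain ⟨hd1, hd2⟩ := hdrop
              obtain ⟨κ, hκ⟩ : ∃ κ, N + 1 = 2 * m + κ := ⟨N + 1 - 2 * m, by omega⟩
              apply hgen κ (by omega) (by omega)
              let S2 : ι → Finset ℕ := fun i => if i = j then ∅ else growS S old j c κ i
              have hS2 : ∀ i, S2 i ⊆ growS S old j c κ i := by
                intro i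
                simp only [S2]
                split_ifs
                · exact Finset.empty_subset _
                · exact le_refl _
              have hS2ne : ∀ i, i ≠ j → S2 i = growS S old j c κ i := by
                intro i hi
                simp only [S2, if_neg hi]
              apply good_weaken hS2
              apply ih (N - κ) (by omega) S2 (insert j old) Z
              have hrG := hroomG κ (by omega)
              have hE : ¬ E := by
                intro hE
                have hex := h.exact' hE
                have hsup := h.sup1 j hj1 hj2 (by omega) (by omega)
                rw [hmj] at hsup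
                have hcm : ∀ b < κ, c b ∈ S j := by
                  intro b hb
                  rw [hm, Finset.mem_Icc]
                  have h9 := (hgrow b (fun b' hb' => hκ0min b' (by omega))).1
                  have h10 := hκ0min b (by omega)
                  simp only [c] at h10 ⊢
                  omega
                have hcinj : ∀ a < κ, ∀ b < κ, c a = c b → a = b := by
                  intro a ha b hb hab
                  rcases Nat.lt_trichotomy a b with h9 | h9 | h9
                  · have := (hgrow b (fun b' hb' => hκ0min b' (by omega))).2.2 a h9
                    simp only [c] at hab
                    omega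
                  · exact h9
                  · have := (hgrow a (fun b' hb' => hκ0min b' (by omega))).2.2 b h9
                    simp only [c] at hab
                    omega
                have h9 := tot_sdiff_image hcm hcinj
                have h10 : ∑ i ∈ old, tot (growS S old j c κ i) +
                    ∑ b ∈ Finset.range κ, lineG S old b = ∑ i ∈ old, tot (S i) := by
                  unfold lineG
                  rw [Finset.sum_comm, ← Finset.sum_add_distrib]
                  apply Finset.sum_congr rfl
                  intro i hi
                  rw [hold κ i hi]
                  exact tot_er_iter (S i) κ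
                have h11 := tri_sum (N := N) (g := fun b => lineG S old b + c b) κ (by omega)
                  (fun b hb => (hroomG b (by omega)).2)
                rw [Finset.sum_add_distrib] at h11
                have h12 : 1 ≤ tot (S j \ (Finset.range κ).image c) := by
                  have h13 : m ∈ S j \ (Finset.range κ).image c := by
                    rw [Finset.mem_sdiff, hm, Finset.mem_Icc]
                    refine ⟨⟨hm1, le_refl _⟩, ?_⟩
                    rw [Finset.mem_image]
                    rintro ⟨b, hb, hbm⟩
                    have := hκ0min b (by have := Finset.mem_range.1 hb; omega)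
                    omega
                  have h14 := Finset.single_le_sum (f := fun s : ℕ => s)
                    (fun _ _ => Nat.zero_le _) h13
                  unfold tot
                  exact hm1.trans h14
                -- the three groups of points are disjoint
                have h15 : ∑ i ∈ insert j old, tot (S i) +
                    ∑ i ∈ freeLt S old Z m, tot (S i) ≤ ∑ i, tot (S i) := by
                  rw [← Finset.sum_union]
                  · exact Finset.sum_le_sum_of_subset (Finset.subset_univ _)
                  · rw [Finset.disjoint_left]
                    intro i hi hi2
                    rw [mem_freeLt] at hi2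
                    rcases Finset.mem_insert.1 hi with rfl | hi
                    · omega
                    · exact hi2.1 hi
                rw [Finset.sum_insert hj1] at h15
                have h16 : N - κ + 1 = 2 * m := by omega
                rw [h16] at h11
                omega
              refine h.drop hE hj1 hj2 (by omega) (by omega) (by omega) ?_ ?_ ?_ ?_ ?_
              · intro i hi
                rw [hS2ne i (by rw [Finset.mem_insert, not_or] at hi; exact hi.1)]
                exact hoff κ i hi
              · intro i
                exact (hS2 i).trans (growS_subset i)
              · simp only [S2, if_true]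
              · intro i hi
                have hij : i ≠ j := fun e => hj1 (e ▸ hi)
                rw [hS2ne i hij, hold κ i hi]
                have h9 := mx_er_iter_le (h.pos i) κ
                omega
              · have h9 : ∑ i ∈ old, mx (S2 i) = ∑ i ∈ old, mx (growS S old j c κ i) := by
                  apply Finset.sum_congr rfl
                  intro i hi
                  have hij : i ≠ j := fun e => hj1 (e ▸ hi)
                  rw [hS2ne i hij]
                rw [h9]
                omega
            · -- complete the growth
              have hrG := hroomG κ0 le_rfl
              apply hgen κ0 hκ0pos le_rfl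
              have hcm : ∀ b < κ0, c b ∈ S j := by
                intro b hb
                rw [hm, Finset.mem_Icc]
                have h9 := (hgrow b (fun b' hb' => hκ0min b' (by omega))).1
                have h10 := hκ0min b (by omega)
                simp only [c] at h10 ⊢
                omega
              have hcinj : ∀ a < κ0, ∀ b < κ0, c a = c b → a = b := by
                intro a ha b hb hab
                rcases Nat.lt_trichotomy a b with h9 | h9 | h9
                · have := (hgrow b (fun b' hb' => hκ0min b' (by omega))).2.2 a h9
                  simp only [c] at hab
                  omega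
                · exact h9
                · have := (hgrow a (fun b' hb' => hκ0min b' (by omega))).2.2 b h9
                  simp only [c] at hab
                  omega
              have hmxj : mx (growS S old j c κ0 j) = m := by
                rw [hself]
                apply le_antisymm
                · rw [← hmj]
                  exact mx_mono Finset.sdiff_subset
                · apply le_mx
                  rw [Finset.mem_sdiff, hm, Finset.mem_Icc]
                  refine ⟨⟨hm1, le_refl _⟩, ?_⟩
                  rw [Finset.mem_image]
                  rintro ⟨b, hb, hbm⟩
                  have := hκ0min b (Finset.mem_range.1 hb)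
                  omega
              have hmain : St E μ w z (N - κ0) (growS S old j c κ0) (insert j old) Z := by
                refine h.adv (by omega) (Finset.subset_insert _ _) (hoff κ0)
                  (fun i => growS_subset i) ?_ ?_ ?_ ?_ ?_ ?_
                · rw [Finset.sum_insert hj1, Finset.sum_insert hj1, hself]
                  have h9 := tot_sdiff_image hcm hcinj
                  have h10 : ∑ i ∈ old, tot (growS S old j c κ0 i) +
                      ∑ b ∈ Finset.range κ0, lineG S old b = ∑ i ∈ old, tot (S i) := by
                    unfold lineG
                    rw [Finset.sum_comm, ← Finset.sum_add_distrib]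
                    apply Finset.sum_congr rfl
                    intro i hi
                    rw [hold κ0 i hi]
                    exact tot_er_iter (S i) κ0
                  have h11 := tri_sum (N := N) (g := fun b => lineG S old b + c b) κ0 (by omega)
                    (fun b hb => (hroomG b (by omega)).2)
                  rw [Finset.sum_add_distrib] at h11
                  omega
                · intro i hi hi2
                  have hij : i = j := by
                    rcases Finset.mem_insert.1 hi with h9 | h9
                    · exact h9
                    · exact absurd h9 hi2
                  rw [hij]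
                  refine ⟨hj2, ?_⟩
                  intro g hg hgZ hg2
                  exact hmax g (fun h' => hg (Finset.mem_insert_of_mem h')) hgZ hg2
                · intro i hi
                  rw [hold κ0 i hi]
                  have h9 := mx_er_iter_le (h.pos i) κ0
                  omega
                · intro hμ i hi hi2 g hg hgZ hg2
                  have hij : i = j := by
                    rcases Finset.mem_insert.1 hi with h9 | h9
                    · exact h9
                    · exact absurd h9 hi2
                  rw [hij, hmxj]
                  have h9 := hmax g (fun h' => hg (Finset.mem_insert_of_mem h')) hgZ (by omega)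
                  omega
                · intro i hi hi2
                  have hij : i = j := by
                    rcases Finset.mem_insert.1 hi with h9 | h9
                    · exact h9
                    · exact absurd h9 hi2
                  rw [hij, hmxj]
                  omega
                · rw [Finset.sum_insert hj1, hmxj, hrG.1]
                  omega
              exact ih (N - κ0) (by omega) _ _ Z hmain
          · -- plain move
            apply good_mono (old' := insert j old) (Finset.subset_insert _ _)
            apply ihf S (insert j old) Z
            · rw [Finset.compl_insert, Finset.card_erase_of_mem (Finset.mem_compl.2 hj1)]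
              omega
            · refine h.adv (le_refl _) (Finset.subset_insert _ _) (fun _ _ => rfl)
                (fun _ => le_refl _) rfl ?_ ?_ ?_ ?_ ?_
              · intro i hi hi2
                have hij : i = j := by
                  rcases Finset.mem_insert.1 hi with h9 | h9
                  · exact h9
                  · exact absurd h9 hi2
                rw [hij]
                refine ⟨hj2, ?_⟩
                intro g hg hgZ hg2
                exact hmax g (fun h' => hg (Finset.mem_insert_of_mem h')) hgZ hg2
              · intro i hi
                omega
              · intro hμ i hi hi2 g hg hgZ hg2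
                have hij : i = j := by
                  rcases Finset.mem_insert.1 hi with h9 | h9
                  · exact h9
                  · exact absurd h9 hi2
                rw [hij, hmj]
                have h9 := hmax g (fun h' => hg (Finset.mem_insert_of_mem h')) hgZ (by omega)
                omega
              · intro i hi hi2
                have hij : i = j := by
                  rcases Finset.mem_insert.1 hi with h9 | h9
                  · exact h9
                  · exact absurd h9 hi2
                rw [hij, hmj]
                omega
              · rw [Finset.sum_insert hj1, hmj]
                omega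
      · have hF : ∑ i ∈ old, mx (S i) = N := by omega
        obtain ⟨n, rfl⟩ : ∃ n, N = n + 1 := ⟨N - 1, by omega⟩
        refine good_plain (ih n (by omega) (stepS S old) old Z ?_) (fun i hi => stepS_mem hi)
          (fun i hi => stepS_not_mem hi) (le_of_eq hF.symm)
        have hto := sum_tot_stepS S old old (le_refl _)
        have hch := choose_two_succ n
        refine h.adv (by omega) (le_refl _) (fun i hi => stepS_not_mem hi)
          (fun i => stepS_subset i) (by omega) (fun i hi hi2 => absurd hi hi2) ?_
          (fun _ i hi hi2 => absurd hi hi2) (fun i hi hi2 => absurd hi hi2) ?_
        · intro i hi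
          rw [stepS_mem hi]
          have := mx_er_le (h.pos i)
          unfold er at this
          omega
        · have h1 : ∑ i ∈ old, mx (stepS S old i) = ∑ i ∈ old, mx ((S i).erase (mx (S i))) := by
            apply Finset.sum_congr rfl
            intro i hi
            rw [stepS_mem hi]
          have h2 : 1 ≤ act S old := act_pos (by omega)
          have h3 := sum_mx_erase_le' h.pos old
          omega
  intro S old Z h
  exact key _ S old Z le_rfl h

end Pool.Agent.Lib.MP_6b2d39_ag
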