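import Pool.Agent.Lib.MP_6b2d39_ag.Moves

open Polynomial

namespace Pool.Agent.Lib.MP_6b2d39_ag

/-- sum of the lengths minus one -/
def qs (Y : Finset ℕ) : ℕ := ∑ η ∈ Y, (η - 1)

theorem qs_empty : qs ∅ = 0 := rfl

theorem card_er {Y : Finset ℕ} : (er Y).card = Y.card - 1 := by
  unfold er
  rcases Y.eq_empty_or_nonempty with rfl | h
  · simp
  · rw [Finset.card_erase_of_mem (mx_mem h)]

theorem card_er_iter (Y : Finset ℕ) (b : ℕ) : (er^[b] Y).card = Y.card - b := by
  induction b with
  | zero => simp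
  | succ b ih =>
    rw [Function.iterate_succ_apply', card_er, ih]
    omega

theorem qs_er {Y : Finset ℕ} : qs (er Y) + (mx Y - 1) = qs Y := by
  unfold er qs
  rcases Y.eq_empty_or_nonempty with rfl | h
  · simp [mx]
  · exact Finset.sum_erase_add Y (fun s => s - 1) (mx_mem h)

theorem qs_er_iter (Y : Finset ℕ) (b : ℕ) :
    qs (er^[b] Y) + ∑ i ∈ Finset.range b, (mx (er^[i] Y) - 1) = qs Y := by
  induction b with
  | zero => simp
  | succ b ih =>
    rw [Finset.sum_range_succ, Function.iterate_succ_apply']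
    have := qs_er (Y := er^[b] Y)
    omega

theorem choose_succ_two (n : ℕ) : (n + 1).choose 2 = n.choose 2 + n := by
  rw [Nat.choose_succ_succ' n 1, Nat.choose_one_right]; ring

/-- lower bound of `qs` -/
theorem qs_ge {Y : Finset ℕ} (h : ∀ s ∈ Y, 1 ≤ s) : Y.card.choose 2 ≤ qs Y := by
  induction hn : Y.card generalizing Y with
  | zero => simp
  | succ n ih =>
    have h1 := ih (Y := er Y) (fun s hs => h s (er_subset Y hs)) (by rw [card_er]; omega)
    have h2 := qs_er (Y := Y)
    have h3 := card_le_mx h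
    have h4 := choose_succ_two n
    omega

/-- upper bound of `qs` -/
theorem qs_bound {Y : Finset ℕ} {M : ℕ} (h : Y ⊆ Finset.Icc 1 M) :
    qs Y + (M - Y.card).choose 2 ≤ M.choose 2 := by
  have h1 : ∀ s ∈ Finset.Icc 1 M \ Y, 1 ≤ s := fun s hs =>
    (Finset.mem_Icc.1 (Finset.mem_sdiff.1 hs).1).1
  have h2 := qs_ge h1
  rw [Finset.card_sdiff_of_subset h, Nat.card_Icc] at h2
  have h3 : qs (Finset.Icc 1 M \ Y) + qs Y = qs (Finset.Icc 1 M) := by
    unfold qs
    exact Finset.sum_sdiff h
  have h4 : ∀ M, qs (Finset.Icc 1 M) = M.choose 2 := by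
    intro M
    induction M with
    | zero => rfl
    | succ M ih =>
      unfold qs at *
      rw [← Finset.insert_Icc_right_eq_Icc_add_one (by omega), Finset.sum_insert (by simp), ih,
        choose_succ_two]
      omega
  have h5 : M + 1 - 1 = M := rfl
  rw [h5] at h2
  rw [h4] at h3
  omega

theorem subset_Icc_mx {Y : Finset ℕ} (h : ∀ s ∈ Y, 1 ≤ s) {M : ℕ} (hM : mx Y ≤ M) :
    Y ⊆ Finset.Icc 1 M := by
  intro s hs
  rw [Finset.mem_Icc]
  exact ⟨h s hs, (le_mx hs).trans hM⟩

theorem qs_mono {Y Y' : Finset ℕ} (h : Y ⊆ Y') : qs Y ≤ qs Y' :=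
  Finset.sum_le_sum_of_subset h

theorem er_iter_nonempty {Y : Finset ℕ} {b : ℕ} (h : b < Y.card) : (er^[b] Y).Nonempty := by
  rw [← Finset.card_pos, card_er_iter]
  omega

theorem er_iter_empty {Y : Finset ℕ} {b : ℕ} (h : Y.card ≤ b) : er^[b] Y = ∅ := by
  rw [← Finset.card_eq_zero, card_er_iter]
  omega

/-- consecutive largest elements are distinct -/
theorem mx_er_iter_add {Y : Finset ℕ} (h : ∀ s ∈ Y, 1 ≤ s) (i k : ℕ) (hk : i + k < Y.card) :
    mx (er^[i + k] Y) + k ≤ mx (er^[i] Y) := by
  have h1 : ∀ s ∈ er^[i] Y, 1 ≤ s := fun s hs => h s (er_iter_subset i Y hs)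
  have h2 := mx_er_iter_le h1 k
  have h3 : er^[k] (er^[i] Y) = er^[i + k] Y := by
    rw [← Function.iterate_add_apply, add_comm]
  rw [h3] at h2
  have h4 : 1 ≤ mx (er^[i + k] Y) := by
    have := card_le_mx (fun s hs => h s (er_iter_subset (i + k) Y hs))
    rw [card_er_iter] at this
    omega
  omega

/-- the intact part of a shape is used from the top -/
theorem intact {c R : ℕ} : ∀ (N : ℕ) (Y : Finset ℕ), Finset.Icc R c ⊆ Y → Y ⊆ Finset.Icc 1 c →
    N + R ≤ c → Finset.Icc R (c - N) ⊆ er^[N] Y ∧ er^[N] Y ⊆ Finset.Icc 1 (c - N) := by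
  intro N
  induction N with
  | zero => intro Y h1 h2 _; exact ⟨h1, h2⟩
  | succ N ih =>
    intro Y h1 h2 h3
    obtain ⟨h4, h5⟩ := ih Y h1 h2 (by omega)
    rw [Function.iterate_succ_apply']
    have h6 : mx (er^[N] Y) = c - N := by
      apply le_antisymm
      · exact mx_le_of_subset h5
      · exact le_mx (h4 (Finset.mem_Icc.2 ⟨by omega, le_refl _⟩))
    have h7 : er (er^[N] Y) = (er^[N] Y).erase (c - N) := by
      rw [← h6]; rfl
    rw [h7]
    constructor
    · intro s hs
      rw [Finset.mem_Icc] at hs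
      rw [Finset.mem_erase]
      exact ⟨by omega, h4 (Finset.mem_Icc.2 ⟨hs.1, by omega⟩)⟩
    · intro s hs
      rw [Finset.mem_erase] at hs
      have := Finset.mem_Icc.1 (h5 hs.2)
      rw [Finset.mem_Icc]
      omega

theorem intact_mx {c R N : ℕ} {Y : Finset ℕ} (h1 : Finset.Icc R c ⊆ Y)
    (h2 : Y ⊆ Finset.Icc 1 c) (h3 : N + R ≤ c) : mx (er^[N] Y) = c - N := by
  obtain ⟨h4, h5⟩ := intact N Y h1 h2 h3
  apply le_antisymm
  · exact mx_le_of_subset h5
  · exact le_mx (h4 (Finset.mem_Icc.2 ⟨by omega, le_refl _⟩))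

variable {k : Type} [Field k] {ι : Type} [DecidableEq ι] [Fintype ι]

/-- the shapes after `u` plain steps -/
def runS (S : ι → Finset ℕ) (T : Finset ι) (u : ℕ) : ι → Finset ℕ :=
  fun i => if i ∈ T then er^[u] (S i) else S i

omit [Fintype ι] in
theorem runS_mem {S : ι → Finset ℕ} {T : Finset ι} {u : ℕ} {i : ι} (h : i ∈ T) :
    runS S T u i = er^[u] (S i) := if_pos h

omit [Fintype ι] in
theorem runS_off {S : ι → Finset ℕ} {T : Finset ι} {u : ℕ} {i : ι} (h : i ∉ T) :
    runS S T u i = S i := if_neg h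

omit [Fintype ι] in
theorem runS_subset {S : ι → Finset ℕ} {T : Finset ι} {u : ℕ} (i : ι) : runS S T u i ⊆ S i := by
  unfold runS
  split_ifs
  · exact er_iter_subset _ _
  · exact le_refl _

omit [Fintype ι] in
theorem runS_succ {S : ι → Finset ℕ} {T : Finset ι} {u : ℕ} :
    runS (stepS S T) T u = runS S T (u + 1) := by
  ext1 i
  unfold runS stepS
  split_ifs with h
  · rfl
  · rfl

omit [Fintype ι] in
theorem lineG_stepS {S : ι → Finset ℕ} {T : Finset ι} {b : ℕ} :
    lineG (stepS S T) T b = lineG S T (b + 1) := by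
  unfold lineG
  apply Finset.sum_congr rfl
  intro i hi
  rw [stepS_mem hi]
  rfl

/-- `u` plain steps -/
theorem good_run : ∀ (u n : ℕ) (S : ι → Finset ℕ) (T : Finset ι),
    (∀ b < u, n + u ≤ lineG S T b + b) → Good k n (runS S T u) T → Good k (n + u) S T := by
  intro u
  induction u with
  | zero =>
    intro n S T _ h
    have : runS S T 0 = S := by
      ext1 i
      unfold runS
      split_ifs <;> rfl
    rwa [this] at h
  | succ u ih =>
    intro n S T hb h
    have h1 : Good k (n + u) (stepS S T) T := by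
      apply ih n (stepS S T) T
      · intro b hb'
        rw [lineG_stepS]
        have := hb (b + 1) (by omega)
        omega
      · rw [runS_succ]
        exact h
    have h2 : n + (u + 1) = (n + u) + 1 := by omega
    rw [h2]
    apply good_plain h1 (fun i hi => stepS_mem hi) (fun i hi => stepS_not_mem hi)
    have := hb 0 (by omega)
    rw [lineG_zero] at this
    omega

/-- mass balance of a run -/
theorem sum_tot_runS (S : ι → Finset ℕ) (T : Finset ι) (u : ℕ) :
    ∑ i, tot (runS S T u i) + ∑ b ∈ Finset.range u, lineG S T b = ∑ i, tot (S i) := by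
  have h1 : ∀ f : ι → ℕ, ∑ i, f i = ∑ i ∈ T, f i + ∑ i ∈ Tᶜ, f i :=
    fun f => (Finset.sum_add_sum_compl _ _).symm
  rw [h1, h1 (fun i => tot (S i))]
  have h2 : ∑ i ∈ Tᶜ, tot (runS S T u i) = ∑ i ∈ Tᶜ, tot (S i) := by
    apply Finset.sum_congr rfl
    intro i hi
    rw [runS_off (Finset.mem_compl.1 hi)]
  have h3 : ∑ i ∈ T, tot (runS S T u i) + ∑ b ∈ Finset.range u, lineG S T b =
      ∑ i ∈ T, tot (S i) := by
    unfold lineG
    rw [Finset.sum_comm, ← Finset.sum_add_distrib]
    apply Finset.sum_congr rfl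
    intro i hi
    rw [runS_mem hi]
    exact tot_er_iter (S i) u
  omega

/-- plain steps as long as the line is too full -/
theorem pair_run [Infinite k] {m : ℕ} {S : ι → Finset ℕ} {T : Finset ι}
    (h : ∀ u, u ≤ m → (∀ b < u, m + 1 ≤ lineG S T b + b) → lineG S T u + u ≤ m →
      Good k (m - u) (runS S T u) T) : Good k m S T := by
  have hex : ∃ u, lineG S T u + u ≤ m ∨ m ≤ u := ⟨m, Or.inr le_rfl⟩
  obtain ⟨u, hu, hmin⟩ : ∃ u, (lineG S T u + u ≤ m ∨ m ≤ u) ∧
      ∀ b < u, ¬ (lineG S T b + b ≤ m ∨ m ≤ b) :=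
    ⟨Nat.find hex, Nat.find_spec hex, fun b hb => Nat.find_min hex hb⟩
  have hmin' : ∀ b < u, m + 1 ≤ lineG S T b + b ∧ b < m := by
    intro b hb
    have := hmin b hb
    push Not at this
    omega
  have hum : u ≤ m := by
    rcases Nat.eq_zero_or_pos u with h0 | h0
    · omega
    · have := (hmin' (u - 1) (by omega)).2
      omega
  have hm : m = (m - u) + u := by omega
  rw [hm]
  apply good_run u (m - u) S T
  · intro b hb
    have := (hmin' b hb).1
    omega
  · by_cases h1 : lineG S T u + u ≤ m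
    · exact h u hum (fun b hb => (hmin' b hb).1) h1
    · have h2 : m - u = 0 := by omega
      rw [h2]
      exact good_zero _ _

/-- room on the line -/
def room (S : ι → Finset ℕ) (old : Finset ι) (n b : ℕ) : ℕ := n - b - lineG S old b

/-- growth of one point until it fits or at most one point is active -/
theorem grow_cases [CharZero k] {n c : ℕ} {S : ι → Finset ℕ} (hpos : ∀ i, ∀ s ∈ S i, 1 ≤ s)
    {old : Finset ι} {j : ι} (hj : j ∉ old) (hm : S j = Finset.Icc 1 c)
    (hF : lineG S old 0 + 1 ≤ n)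
    (h : ∀ κ, κ ≤ n → (∀ b < κ, room S old n b < c ∧ 2 ≤ act (fun i => er^[b] (S i)) old) →
      (∀ b ≤ κ, b + 1 ≤ room S old n b ∧ lineG S old b + room S old n b + b = n ∧
        ∀ b' < b, room S old n b' < room S old n b) →
      (c ≤ room S old n κ ∨ act (fun i => er^[κ] (S i)) old ≤ 1) →
      Good k (n - κ) (growS S old j (room S old n) κ) (insert j old)) : Good k n S old := by
  have hgrow := grow2 hpos hF (old := old)
  have hex : ∃ b, c ≤ room S old n b ∨ act (fun i => er^[b] (S i)) old ≤ 1 := by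
    by_contra hcon
    push Not at hcon
    have h1 := (hgrow (n + 1) (fun b' _ => (hcon b').2)).1
    omega
  obtain ⟨κ, hκ, hκmin⟩ : ∃ κ, (c ≤ room S old n κ ∨ act (fun i => er^[κ] (S i)) old ≤ 1) ∧
      ∀ b < κ, ¬ (c ≤ room S old n b ∨ act (fun i => er^[b] (S i)) old ≤ 1) :=
    ⟨Nat.find hex, Nat.find_spec hex, fun b hb => Nat.find_min hex hb⟩
  have hmin : ∀ b < κ, room S old n b < c ∧ 2 ≤ act (fun i => er^[b] (S i)) old := by
    intro b hb
    have := hκmin b hb
    push Not at this
    omega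
  have hg : ∀ b ≤ κ, b + 1 ≤ room S old n b ∧ lineG S old b + room S old n b + b = n ∧
      ∀ b' < b, room S old n b' < room S old n b := by
    intro b hb
    exact hgrow b (fun b' hb' => (hmin b' (by omega)).2)
  have hκn : κ ≤ n := by
    have := (hg κ le_rfl).2.1
    omega
  have hmain := h κ hκn hmin hg hκ
  rcases Nat.eq_zero_or_pos κ with h0 | h0
  · subst h0
    have h1 : growS S old j (room S old n) 0 = S := by
      ext1 i
      unfold growS
      split_ifs with h2 h3
      · rw [h2]; simp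
      · rfl
      · rfl
    rw [h1] at hmain
    exact good_move hj hmain
  · have hR : ∀ b < κ, 1 ≤ room S old n b ∧ room S old n b ≤ c := by
      intro b hb
      have h5 := (hg b (by omega)).1
      have h6 := (hmin b hb).1
      omega
    have hinj : ∀ a < κ, ∀ b < κ, room S old n a = room S old n b → a = b := by
      intro a ha b hb hab
      rcases Nat.lt_trichotomy a b with h9 | h9 | h9
      · have := (hg b (by omega)).2.2 a h9
        omega
      · exact h9
      · have := (hg a (by omega)).2.2 b h9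
        omega
    exact good_grow hj hm h0 hκn hR hinj (fun b hb => le_of_eq (hg b (by omega)).2.1.symm) hmain

end Pool.Agent.Lib.MP_6b2d39_ag
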