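import Pool.Agent.Lib.MP_6b2d39_ag.Caps

/-!
Choice of the states of all points (task S), from the statement of `core` as a hypothesis.
-/

open Polynomial

namespace Pool.Agent.Lib.MP_6b2d39_ag

/-- the statement of `core` -/
def CoreStmt : Prop :=
  ∀ {n M B A : ℕ} (_ : 1 ≤ M) (_ : 2 * M + 2 ≤ B) (_ : 9 * M ≤ A + 1) (μ : ℕ → ℕ)
    (_ : Antitone μ) (_ : ∀ p, μ p ≤ M) (s : ℕ → ℕ)
    (_ : ∀ b < M, s b = s (b + 1) + A) (_ : ∀ b, b + 3 ≤ B → s (b + 1) + A ≤ s b)
    (_ : s (B - 1) + (M - 1) ≤ s (B - 2))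
    (_ : ∑ b ∈ Finset.range B, s b = ∑ p ∈ Finset.range n, (μ p + 1).choose 2),
    ∃ t i : ℕ → ℕ, (∀ p < n, t p < B ∧ i p ≤ t p) ∧
      ∀ b < B, ∑ p ∈ Finset.range n, (μ p - rk (t p) (i p) b) = s b

/-- a decreasing enumeration of a finite set of points -/
theorem exists_sorted {ι : Type} [DecidableEq ι] (m : ι → ℕ) (S : Finset ι) :
    ∃ (n : ℕ) (ε : Fin n ≃ S), ∀ p q : Fin n, p ≤ q → m (ε q) ≤ m (ε p) := by
  let f : Fin S.card → ℕᵒᵈ := fun p => OrderDual.toDual (m (S.equivFin.symm p))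
  refine ⟨S.card, (Tuple.sort f).trans S.equivFin.symm, ?_⟩
  intro p q hpq
  exact Tuple.monotone_sort f hpq

/-- the core statement for an arbitrary finite set of points -/
theorem core_finset (hcore : CoreStmt) {ι : Type} [DecidableEq ι] (m : ι → ℕ) (S : Finset ι)
    {M B A : ℕ} (hM : 1 ≤ M) (hB : 2 * M + 2 ≤ B) (hA : 9 * M ≤ A + 1)
    (hm : ∀ j, m j ≤ M) (s : ℕ → ℕ)
    (h1 : ∀ b < M, s b = s (b + 1) + A) (h2 : ∀ b, b + 3 ≤ B → s (b + 1) + A ≤ s b)
    (h3 : s (B - 1) + (M - 1) ≤ s (B - 2))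
    (hs : ∑ b ∈ Finset.range B, s b = ∑ j ∈ S, (m j + 1).choose 2) :
    ∃ t i : ι → ℕ, (∀ j ∈ S, t j < B ∧ i j ≤ t j) ∧
      ∀ b < B, ∑ j ∈ S, (m j - rk (t j) (i j) b) = s b := by
  obtain ⟨n, ε, hε⟩ := exists_sorted m S
  set μ : ℕ → ℕ := fun p => if h : p < n then m (ε ⟨p, h⟩) else 0 with hμ
  have hanti : Antitone μ := by
    intro p q hpq
    simp only [hμ]
    by_cases hq : q < n
    · rw [dif_pos hq, dif_pos (lt_of_le_of_lt hpq hq)]
      exact hε ⟨p, lt_of_le_of_lt hpq hq⟩ ⟨q, hq⟩ hpq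
    · rw [dif_neg hq]
      exact Nat.zero_le _
  have hle : ∀ p, μ p ≤ M := by
    intro p
    simp only [hμ]
    split_ifs
    · exact hm _
    · exact Nat.zero_le _
  have hμε : ∀ p : Fin n, μ p = m (ε p) := by
    intro p
    simp only [hμ]
    rw [dif_pos p.2]
  -- sums over `S` as sums over `range n`
  have hsum : ∀ g : ℕ → ℕ → ℕ, ∑ p ∈ Finset.range n, g p (μ p) =
      ∑ j : S, g (ε.symm j) (m j) := by
    intro g
    rw [← Fin.sum_univ_eq_sum_range (fun p => g p (μ p)) n, ← Equiv.sum_comp ε.symm]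
    apply Finset.sum_congr rfl
    intro j _
    rw [hμε, Equiv.apply_symm_apply]
  obtain ⟨t, i, hti, hrow⟩ := hcore (n := n) hM hB hA μ hanti hle s h1 h2 h3 (by
    rw [hs, hsum (fun _ x => (x + 1).choose 2), Finset.sum_coe_sort S (fun j => (m j + 1).choose 2)])
  refine ⟨fun j => if h : j ∈ S then t (ε.symm ⟨j, h⟩) else 0,
    fun j => if h : j ∈ S then i (ε.symm ⟨j, h⟩) else 0, ?_, ?_⟩
  · intro j hj
    simp only [dif_pos hj]
    exact hti _ (Fin.is_lt _)
  · intro b hb
    rw [← hrow b hb, hsum (fun p x => x - rk (t p) (i p) b), ← Finset.sum_coe_sort S]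
    apply Finset.sum_congr rfl
    intro j _
    simp only [dif_pos j.2]

theorem states_exist_of_core (hcore : CoreStmt) {ι : Type} [Fintype ι] [DecidableEq ι]
    (m : ι → ℕ) {M a N : ℕ} (hM : ∀ i, m i ≤ M)
    (ha : 9 * M ≤ a ^ 2 + 1) (hN : 2 * (M + 1) * a ≤ N) (hN1 : 1 ≤ N)
    (htot : (N + 1).choose 2 ≤ ∑ i, (m i + 1).choose 2) :
    ∃ (a' B : ℕ) (t i : ι → ℕ), 1 ≤ a' ∧ N ≤ a' * B ∧ (∀ j, t j < B ∧ i j ≤ t j) ∧
      ∀ b < B, (thickRow N a' b).card ≤ ∑ j, (m j - rk (t j) (i j) b) := by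
  classical
  set T := (N + 1).choose 2 with hT
  have hT1 : 1 ≤ T := Nat.choose_pos (by omega)
  have hM1 : 1 ≤ M := by
    by_contra hcon
    have h0 : ∑ i, (m i + 1).choose 2 = 0 := by
      apply Finset.sum_eq_zero
      intro i _
      have h1 : m i = 0 := by
        have := hM i
        omega
      rw [h1]
      rfl
    omega
  have ha3 : 3 ≤ a := by
    by_contra hcon
    have h1 : a ≤ 2 := by omega
    have h2 : a ^ 2 ≤ 2 ^ 2 := Nat.pow_le_pow_left h1 2
    omega
  -- the width of the rows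
  set a' := N / (2 * M + 2) with ha'
  have haa : a ≤ a' := by
    rw [ha', Nat.le_div_iff_mul_le (by omega)]
    calc a * (2 * M + 2) = 2 * (M + 1) * a := by ring
      _ ≤ N := hN
  have ha'3 : 3 ≤ a' := ha3.trans haa
  have hsq : 9 * M ≤ a' ^ 2 + 1 := ha.trans (by
    have := Nat.pow_le_pow_left haa 2
    omega)
  have ha'N : a' * (2 * M + 2) ≤ N := Nat.div_mul_le_self _ _
  set B := (N + a' - 1) / a' with hB
  have hBN : N ≤ a' * B := by
    have h1 := Nat.div_add_mod (N + a' - 1) a'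
    have h2 := Nat.mod_lt (N + a' - 1) (show 0 < a' by omega)
    rw [← hB] at h1
    omega
  have hB2 : 2 * M + 2 ≤ B := by
    have h1 : a' * (2 * M + 2) ≤ a' * B := ha'N.trans hBN
    exact Nat.le_of_mul_le_mul_left h1 (by omega)
  have hBlt : a' * (B - 1) < N := by
    have h1 : a' * B ≤ N + a' - 1 := by
      rw [hB]
      exact Nat.mul_div_le _ _
    have h2 : a' * B = a' * (B - 1) + a' := by
      have h3 : B = (B - 1) + 1 := by omega
      calc a' * B = a' * ((B - 1) + 1) := by rw [← h3]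
        _ = a' * (B - 1) + a' := by ring
    omega
  have hmulN : ∀ c, c ≤ B - 1 → a' * c ≤ N := fun c hc =>
    (Nat.mul_le_mul_left a' hc).trans hBlt.le
  have hcsum : ∑ b ∈ Finset.range B, (thickRow N a' b).card = T :=
    sum_thickRow_card (by omega) hBN
  have hcsub : ∀ b, b + 2 ≤ B - 1 →
      (thickRow N a' b).card = (thickRow N a' (b + 1)).card + a' ^ 2 := fun b hb =>
    thickRow_card_sub (by omega) (hmulN _ hb)
  have hclast : ∀ b, b + 1 ≤ B - 1 →
      2 * (thickRow N a' (b + 1)).card + (a' ^ 2 + a') ≤ 2 * (thickRow N a' b).card := by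
    intro b hb
    have h1 := thickRow_card_last (N := N) (a := a') (b := b) (by omega) (hmulN _ hb)
    have h2 : a' * (a' + 1) = a' ^ 2 + a' := by ring
    rwa [h2] at h1
  -- the points which are used completely
  obtain ⟨S, hS, hSmax⟩ : ∃ S : Finset ι, ∑ j ∈ S, (m j + 1).choose 2 < T ∧
      ∀ j ∉ S, T ≤ ∑ k ∈ insert j S, (m k + 1).choose 2 := by
    obtain ⟨S, hS, hmax⟩ := Finset.exists_max_image
      ((Finset.univ : Finset (Finset ι)).filter (fun S => ∑ j ∈ S, (m j + 1).choose 2 < T))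
      Finset.card ⟨∅, by simp; omega⟩
    rw [Finset.mem_filter] at hS
    refine ⟨S, hS.2, ?_⟩
    intro j hj
    by_contra hcon
    rw [not_le] at hcon
    have h1 := hmax (insert j S) (by rw [Finset.mem_filter]; exact ⟨Finset.mem_univ _, hcon⟩)
    rw [Finset.card_insert_of_notMem hj] at h1
    omega
  obtain ⟨j0, hj0⟩ : ∃ j, j ∉ S := by
    by_contra hcon
    push Not at hcon
    have h1 : S = Finset.univ := Finset.eq_univ_iff_forall.mpr hcon
    rw [h1] at hS
    omega
  have hj0T := hSmax j0 hj0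
  rw [Finset.sum_insert hj0] at hj0T
  set y := T - ∑ j ∈ S, (m j + 1).choose 2 with hy
  obtain ⟨σ, hσsum, hσlast, hσle, hσmono, hσ0⟩ := special_slices (B := B) (m := m j0) (y := y)
    (by have := hM j0; omega) (by omega)
  have hσM : ∀ b, b < B → σ b ≤ M := fun b hb => (hσle b hb).trans ((Nat.sub_le _ _).trans (hM j0))
  have hσcard : ∀ b < B, σ b ≤ (thickRow N a' b).card := by
    intro b hb
    rcases Nat.lt_or_ge (b + 1) B with h | h
    · have h1 := hclast b (by omega)
      have h2 := hσM b hb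
      omega
    · have h1 : b = B - 1 := by omega
      rw [h1, hσlast]
      exact Nat.zero_le _
  obtain ⟨t, i, hti, hrow⟩ := core_finset hcore m S (M := M) (B := B) (A := a' ^ 2) hM1 hB2 hsq hM
    (fun b => (thickRow N a' b).card - σ b) (by
      intro b hb
      have hj := hM j0
      have h1 := hσ0 b (by omega)
      have h2 := hσ0 (b + 1) (by omega)
      have h3 := hcsub b (by omega)
      beta_reduce
      rw [h1, h2, h3]
      omega) (by
      intro b hb
      have h1 := hcsub b (by omega)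
      have h2 := hσmono b hb
      have h3 := hσcard (b + 1) (by omega)
      beta_reduce
      omega) (by
      have h1 := hclast (B - 2) (by omega)
      have h2 := hσM (B - 2) (by omega)
      have e1 : B - 2 + 1 = B - 1 := by omega
      rw [e1] at h1
      beta_reduce
      rw [hσlast]
      omega) (by
      have h1 : ∑ b ∈ Finset.range B, ((thickRow N a' b).card - σ b) + ∑ b ∈ Finset.range B, σ b =
          ∑ b ∈ Finset.range B, (thickRow N a' b).card := by
        rw [← Finset.sum_add_distrib]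
        apply Finset.sum_congr rfl
        intro b hb
        exact Nat.sub_add_cancel (hσcard b (Finset.mem_range.mp hb))
      rw [hσsum, hcsum] at h1
      omega)
  refine ⟨a', B, fun j => if j ∈ S then t j else if j = j0 then B - 2 else 0,
    fun j => if j ∈ S then i j else if j = j0 then B - 2 else 0, by omega, hBN, ?_, ?_⟩
  · intro j
    beta_reduce
    split_ifs with h1 h2
    · exact hti j h1
    · omega
    · omega
  · intro b hb
    have h1 : ∑ j ∈ insert j0 S, (m j - rk (if j ∈ S then t j else if j = j0 then B - 2 else 0)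
        (if j ∈ S then i j else if j = j0 then B - 2 else 0) b) ≤
        ∑ j, (m j - rk (if j ∈ S then t j else if j = j0 then B - 2 else 0)
        (if j ∈ S then i j else if j = j0 then B - 2 else 0) b) :=
      Finset.sum_le_sum_of_subset (Finset.subset_univ _)
    refine le_trans ?_ h1
    rw [Finset.sum_insert hj0, if_neg hj0, if_neg hj0, if_pos rfl]
    have h2 : ∑ j ∈ S, (m j - rk (if j ∈ S then t j else if j = j0 then B - 2 else 0)
        (if j ∈ S then i j else if j = j0 then B - 2 else 0) b) =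
        ∑ j ∈ S, (m j - rk (t j) (i j) b) := by
      apply Finset.sum_congr rfl
      intro j hj
      rw [if_pos hj, if_pos hj]
    rw [h2, hrow b hb]
    have h3 := hσle b hb
    have h4 := hσcard b hb
    omega

end Pool.Agent.Lib.MP_6b2d39_ag
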