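import Pool.Agent.Lib.MP_6b2d39_ag.NegSharp
import Pool.Agent.Lib.MP_6b2d39_ag.General

/-!
Linear systems of plane curves through general fat points.  `fatSystem d m p` is the space of
polynomials of degree at most `d` in two variables (equations of plane curves of degree `d` in an
affine chart) with multiplicity at least `m i` at the point `p i`.
-/

namespace Pool.Agent.Lib.MP_6b2d39_ag.SuperabundanceBound

open Pool.Agent.Lib.MP_6b2d39_ag

/-- Let `μ ≥ 1` and suppose that every multiplicity `m i > μ` is supported by smaller ones: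
the sum of `(m j + 1).choose 2` over the `j` with `m j < m i` is at least
`(2 * m i).choose 2 + μ.choose 2` (there is no condition when `μ` is the largest multiplicity).
Then the system of degree `d` through general points with multiplicities `m i` has dimension at
most `max (v + μ.choose 2) 0`, where `v = (d + 2).choose 2 - ∑ (m i + 1).choose 2` is the virtual
dimension of the vector space of equations. -/
theorem result (μ : ℕ) (hμ : 1 ≤ μ) (d h : ℕ) (m : Fin h → ℕ)
    (hsup : ∀ i, μ < m i →
      (2 * m i).choose 2 + μ.choose 2 ≤ ∑ j with m j < m i, (m j + 1).choose 2) :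
    ∃ Φ : MvPolynomial (Fin h × Fin 2) ℂ, Φ ≠ 0 ∧ ∀ p : Fin h → Fin 2 → ℂ,
      MvPolynomial.eval (fun q => p q.1 q.2) Φ ≠ 0 →
        (Module.finrank ℂ (fatSystem d m p) : ℤ) ≤
          max (((d + 2).choose 2 : ℤ) - ∑ i, ((m i + 1).choose 2 : ℤ) + (μ.choose 2 : ℤ)) 0 := by
  have h3 : (∑ i, ((m i + 1).choose 2 : ℤ)) = ((∑ i, (m i + 1).choose 2 : ℕ) : ℤ) := by
    push_cast
    rfl
  obtain ⟨u, hu⟩ : ∃ u, u = (d + 2).choose 2 + μ.choose 2 - ∑ i, (m i + 1).choose 2 := ⟨_, rfl⟩
  obtain ⟨Φ, hΦ, hΦ2⟩ := transfer_upper m (good_empty_sharp d μ hμ m hsup u (by omega))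
  refine ⟨Φ, hΦ, ?_⟩
  intro p hp
  have h1 := hΦ2 p hp
  rw [h3]
  omega

end Pool.Agent.Lib.MP_6b2d39_ag.SuperabundanceBound
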