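import Pool.Agent.Lib.MP_6b2d39_ag.AlgoA

open Polynomial

namespace Pool.Agent.Lib.MP_6b2d39_ag

theorem Cond.mono {R : Type*} [CommRing R] {S T : Finset ℕ} (h : S ⊆ T) {x y : R} {f : R[X][X]}
    (hf : Cond T x y f) : Cond S x y f := by
  intro a
  refine dvd_trans (pow_dvd_pow _ ?_) (hf a)
  unfold colH
  exact Finset.card_le_card (Finset.filter_subset_filter _ h)

section
variable {k : Type} [Field k] {ι : Type}

theorem good_weaken {n : ℕ} {S T : ι → Finset ℕ} {old : Finset ι} (hST : ∀ i, S i ⊆ T i)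
    (h : Good k n S old) : Good k n T old := by
  obtain ⟨K, _, φ, x, y, hx, hy0, hy1, H⟩ := h
  exact ⟨K, _, φ, x, y, hx, hy0, hy1, fun f hf hc => H f hf (fun i => (hc i).mono (hST i))⟩

end

variable {k : Type} [Field k] [Infinite k] {ι : Type} [DecidableEq ι] [Fintype ι]

/-- free points (not on the line and not reserved) whose multiplicity is less than `s` -/
def freeLt (S : ι → Finset ℕ) (old Z : Finset ι) (s : ℕ) : Finset ι :=
  Finset.univ.filter (fun j => j ∉ old ∧ j ∉ Z ∧ mx (S j) < s)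

/-- the invariant in the wide region -/
structure Inv (μ w z N : ℕ) (S : ι → Finset ℕ) (old Z : Finset ι) : Prop where
  disj : Disjoint old Z
  one : ∀ i ∈ Z, S i = {1}
  fat : ∀ i, i ∉ old → ∃ m, S i = Finset.Icc 1 m
  pos : ∀ i, ∀ s ∈ S i, 1 ≤ s
  slope : ∀ i ∈ old, mx (S i) ^ 2 ≤ N + 1
  room : ∑ i ∈ old, mx (S i) ≤ N
  total : (N + 1).choose 2 + w ≤ ∑ i, tot (S i)
  res : (∃ j, j ∉ old ∧ j ∉ Z ∧ (S j).Nonempty) → z ≤ Z.card
  sup1 : ∀ i, i ∉ old → i ∉ Z → μ < mx (S i) → mx (S i) ^ 2 ≤ N →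
    (mx (S i) ^ 2).choose 2 + w ≤ ∑ j ∈ freeLt S old Z (mx (S i)), tot (S j)
  sup2 : ∀ i, i ∉ old → i ∉ Z → μ < mx (S i) → N < mx (S i) ^ 2 →
    (N + 1).choose 2 + w ≤ ∑ j ∈ old, tot (S j) + ∑ j ∈ freeLt S old Z (mx (S i)), tot (S j)

theorem choose_two_succ (n : ℕ) : (n + 1 + 1).choose 2 = (n + 1).choose 2 + (n + 1) := by
  rw [Nat.choose_succ_succ' (n + 1) 1, Nat.choose_one_right]; ring

theorem two_mul_choose_two (n : ℕ) : 2 * (n + 1).choose 2 = n * (n + 1) := by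
  have h2 : Even ((n + 1) * (n + 1 - 1)) := Nat.even_mul_pred_self (n + 1)
  obtain ⟨r, hr⟩ := h2
  have h3 : n + 1 - 1 = n := rfl
  have := Nat.choose_two_right (n + 1)
  rw [h3] at hr this
  have h4 : (n + 1).choose 2 = r := by
    rw [this, hr]; omega
  rw [h4]
  nlinarith

theorem exists_pos_bound (S : ι → Finset ℕ) (h : ∀ i, ∀ s ∈ S i, 1 ≤ s) :
    ∃ B, ∀ i, S i ⊆ Finset.Icc 1 B := by
  refine ⟨Finset.univ.sup (fun i => mx (S i)), ?_⟩
  intro i s hs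
  rw [Finset.mem_Icc]
  refine ⟨h i s hs, (le_mx hs).trans ?_⟩
  exact Finset.le_sup (f := fun i => mx (S i)) (Finset.mem_univ i)

theorem sum_mx_erase_le' {S : ι → Finset ℕ} (h : ∀ i, ∀ s ∈ S i, 1 ≤ s) (T : Finset ι) :
    ∑ i ∈ T, mx ((S i).erase (mx (S i))) + act S T ≤ ∑ i ∈ T, mx (S i) := by
  obtain ⟨B, hB⟩ := exists_pos_bound S h
  exact sum_mx_erase_le hB T

theorem sum_mx_le' {S : ι → Finset ℕ} {T : Finset ι} {L : ℕ} (h : ∀ i ∈ T, mx (S i) ≤ L) :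
    ∑ i ∈ T, mx (S i) ≤ act S T * L := by
  unfold act
  rw [Finset.card_filter, Finset.sum_mul]
  apply Finset.sum_le_sum
  intro i hi
  split_ifs with hi2
  · rw [one_mul]
    exact h i hi
  · rw [Finset.not_nonempty_iff_eq_empty] at hi2
    rw [hi2, mx_empty]
    simp

/-- the numerical heart: in the wide region there are enough points on the line -/
theorem enough {n g m a L : ℕ} (hL : L ^ 2 ≤ n + 2) (hm : m ^ 2 ≤ n + 1) (hg1 : 1 ≤ g)
    (hgm : g < m) (hF : n + 1 ≤ g + a * L) : m + 1 ≤ a + g := by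
  by_contra hcon
  have h1 : a + g ≤ m := by omega
  obtain ⟨b, rfl⟩ : ∃ b, m = a + g + b := ⟨m - (a + g), by omega⟩
  obtain ⟨g', rfl⟩ : ∃ g', g = g' + 1 := ⟨g - 1, by omega⟩
  rcases Nat.lt_or_ge L (a + (g' + 1) + b) with h2 | h2
  · -- L < m
    have h3 : a * L ≤ a * (a + g' + b) := Nat.mul_le_mul_left _ (by omega)
    nlinarith [Nat.zero_le (a * g'), Nat.zero_le (a * b), Nat.zero_le (g' * b)]
  · -- m ≤ L
    obtain ⟨e, rfl⟩ : ∃ e, L = a + (g' + 1) + b + e := ⟨L - (a + (g' + 1) + b), by omega⟩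
    rcases Nat.eq_zero_or_pos e with rfl | he
    · nlinarith [Nat.zero_le (a * g'), Nat.zero_le (a * b), Nat.zero_le (g' * b)]
    · nlinarith [Nat.zero_le (a * g'), Nat.zero_le (a * b), Nat.zero_le (g' * b),
        Nat.zero_le (a * e), Nat.zero_le (g' * e), Nat.zero_le (b * e)]

end Pool.Agent.Lib.MP_6b2d39_ag
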